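import Mathlib

set_option autoImplicit false

/-!
# Convex drawings without three pairwise crossing edges: definitions

The vertices of a convex drawing are placed on a circle (here: in a linear order, given by natural
numbers, after cutting the circle at some point), the edges are chords; two chords cross if and
only if they have four distinct ends and these alternate.
-/

namespace Pool.Agent.Cqp

/-- The chord with ends at `a, b` and the chord with ends at `c, d` cross: the four ends are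
distinct and alternate. -/
def Alt (a b c d : ℕ) : Prop :=
  (min a b < min c d ∧ min c d < max a b ∧ max a b < max c d) ∨
  (min c d < min a b ∧ min a b < max c d ∧ max c d < max a b)

/-- `G` has a convex drawing without `k` pairwise crossing edges (is outer `k`-quasi-planar):
the vertices can be placed injectively (the place of `v` on the circle is `p v`) such that there
are no `k` edges any two of which cross. -/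
def ConvexQuasi {V : Type*} (k : ℕ) (G : SimpleGraph V) : Prop :=
  ∃ p : V → ℕ, Function.Injective p ∧
    ¬ ∃ e : Fin k → V × V, (∀ i, G.Adj (e i).1 (e i).2) ∧
      ∀ i j, i ≠ j → Alt (p (e i).1) (p (e i).2) (p (e j).1) (p (e j).2)

/-- no three pairwise crossing members of a set of chords (chords = pairs of places) -/
def NT (Ed : ℕ → ℕ → Prop) : Prop :=
  ∀ x y x' y' x'' y'' : ℕ, Ed x y → Ed x' y' → Ed x'' y'' →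
    Alt x y x' y' → Alt x y x'' y'' → Alt x' y' x'' y'' → False

/-- the chords of the drawing `p` of `G` -/
def Ps {V : Type*} (G : SimpleGraph V) (p : V → ℕ) (x y : ℕ) : Prop :=
  ∃ a b, G.Adj a b ∧ p a = x ∧ p b = y

/-- number of walls -/
def mw (N : ℕ) : ℕ := 5 * N + 7

/-- the wall `t_0` is the wall with this number -/
def d0 (N : ℕ) : ℕ := 2 * N + 2

/-- vertex codes: `(0,0,0)`, `(0,1,0)` hubs `a`, `b`; `(1,j,0)` walls (`j < mw N`);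
`(2,k,0)` the special wire (`1 ≤ k ≤ N`); `(3,i,k)` the vertex `v_i^k`, `(4,i,k)` the vertex
`u_i^k` of the wire `i < M` in zone `k` (`1 ≤ k ≤ N`); `(5,k,s)` the gadget vertices of zone `k`
(`1 ≤ s ≤ Q`). All other codes are isolated. -/
abbrev Cd := ℕ × ℕ × ℕ

/-- the oriented edges of the graph of the reduction: frame, special wire, wires, gadgets -/
def EP (N M Q : ℕ) (i1 i2 q : ℕ → ℕ) (act : ℕ → Bool) (x y : Cd) : Prop :=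
  (x.1 = 0 ∧ y.1 = 0 ∧ x.2.1 = 0 ∧ x.2.2 = 0 ∧ y.2.1 = 1 ∧ y.2.2 = 0) ∨
  (x.1 = 0 ∧ y.1 = 1 ∧ x.2.1 < 2 ∧ x.2.2 = 0 ∧ y.2.1 < mw N ∧ y.2.2 = 0) ∨
  (x.1 = 1 ∧ y.1 = 1 ∧ x.2.2 = 0 ∧ y.2.2 = 0 ∧ y.2.1 < mw N ∧
    (y.2.1 = x.2.1 + 1 ∨ y.2.1 = x.2.1 + 2)) ∨
  (x.1 = 1 ∧ y.1 = 2 ∧ x.2.2 = 0 ∧ y.2.2 = 0 ∧
    ((x.2.1 = d0 N ∧ y.2.1 = 1) ∨ (x.2.1 = d0 N + N + 2 ∧ y.2.1 = N))) ∨
  (x.1 = 2 ∧ y.1 = 2 ∧ x.2.2 = 0 ∧ y.2.2 = 0 ∧ 1 ≤ x.2.1 ∧ y.2.1 = x.2.1 + 1 ∧ y.2.1 ≤ N) ∨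
  (x.1 = 1 ∧ y.1 = 3 ∧ x.2.2 = 0 ∧ x.2.1 = d0 N ∧ y.2.1 < M ∧ y.2.2 = 1) ∨
  (x.1 = 3 ∧ y.1 = 4 ∧ x.2.1 = y.2.1 ∧ x.2.2 = y.2.2 ∧ x.2.1 < M ∧ 1 ≤ x.2.2 ∧ x.2.2 ≤ N) ∨
  (x.1 = 4 ∧ y.1 = 3 ∧ x.2.1 = y.2.1 ∧ x.2.1 < M ∧ 1 ≤ x.2.2 ∧ y.2.2 = x.2.2 + 1 ∧
    y.2.2 ≤ N) ∨
  (x.1 = 1 ∧ y.1 = 4 ∧ x.2.2 = 0 ∧ x.2.1 = d0 N + N + 2 ∧ y.2.1 < M ∧ y.2.2 = N) ∨
  (x.1 = 3 ∧ y.1 = 5 ∧ x.2.2 = y.2.1 ∧ 1 ≤ x.2.2 ∧ x.2.2 ≤ N ∧ x.2.1 = i1 x.2.2 ∧ x.2.1 < M ∧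
    y.2.2 = 1 ∧ 1 ≤ Q) ∨
  (x.1 = 5 ∧ y.1 = 5 ∧ x.2.1 = y.2.1 ∧ 1 ≤ x.2.1 ∧ x.2.1 ≤ N ∧ 1 ≤ x.2.2 ∧
    y.2.2 = x.2.2 + 1 ∧ y.2.2 ≤ Q) ∨
  (x.1 = 5 ∧ y.1 = 3 ∧ x.2.1 = y.2.2 ∧ 1 ≤ x.2.1 ∧ x.2.1 ≤ N ∧ y.2.1 = i2 x.2.1 ∧ y.2.1 < M ∧
    x.2.2 = q x.2.1 ∧ 1 ≤ x.2.2 ∧ x.2.2 ≤ Q ∧ act x.2.1 = true)

/-- the graph of the reduction on vertex codes -/
def Gr (N M Q : ℕ) (i1 i2 q : ℕ → ℕ) (act : ℕ → Bool) : SimpleGraph Cd where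
  Adj x y := EP N M Q i1 i2 q act x y ∨ EP N M Q i1 i2 q act y x
  symm := ⟨fun _ _ h => Or.symm h⟩
  loopless := ⟨fun x h => by
    have h' : EP N M Q i1 i2 q act x x := h.elim id id
    unfold EP at h'
    omega⟩

/-- the ordering problem: an injective numbering `π` of the wires `0, ..., M - 1` with
`|π (i1 k) - π (i2 k)| ≤ q k + 2` for every active zone `1 ≤ k ≤ N` -/
def DB (N M : ℕ) (i1 i2 q : ℕ → ℕ) (act : ℕ → Bool) : Prop :=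
  ∃ π : ℕ → ℕ, (∀ i j, i < M → j < M → π i = π j → i = j) ∧ (∀ i, i < M → π i < M) ∧
    ∀ k, 1 ≤ k → k ≤ N → act k = true → π (i1 k) ≤ π (i2 k) + q k + 2 ∧
      π (i2 k) ≤ π (i1 k) + q k + 2

/-! ### canonical drawings of the frame -/

/-- chords of a drawing in which hub `a` is at the first place `A`, followed by the walls in their
order, then hub `b` at `B` -/
structure Fr (Ed : ℕ → ℕ → Prop) (m A B : ℕ) (W : ℕ → ℕ) : Prop where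
  symm : ∀ x y, Ed x y → Ed y x
  nt : NT Ed
  first : ∀ x y, Ed x y → A ≤ x
  aw : ∀ j, j < m → Ed A (W j)
  bw : ∀ j, j < m → Ed B (W j)
  ww : ∀ j, j + 1 < m → Ed (W j) (W (j + 1))
  mono : ∀ i j, i < j → j < m → W i < W j
  awlt : ∀ j, j < m → A < W j
  wblt : ∀ j, j < m → W j < B

/-- places of wires: `D k` special wire, `V i k`, `U i k` the wire `i < M` (zones `1 ≤ k ≤ N`) -/
structure Wr (Ed : ℕ → ℕ → Prop) (N M A B : ℕ) (W D : ℕ → ℕ) (V U : ℕ → ℕ → ℕ) : Prop where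
  hN : 1 ≤ N
  fr : Fr Ed (mw N) A B W
  d1 : Ed (W (d0 N)) (D 1)
  dd : ∀ k, 1 ≤ k → k + 1 ≤ N → Ed (D k) (D (k + 1))
  dN : Ed (D N) (W (d0 N + N + 2))
  v1 : ∀ i, i < M → Ed (W (d0 N)) (V i 1)
  vu : ∀ i k, i < M → 1 ≤ k → k ≤ N → Ed (V i k) (U i k)
  uv : ∀ i k, i < M → 1 ≤ k → k + 1 ≤ N → Ed (U i k) (V i (k + 1))
  uN : ∀ i, i < M → Ed (U i N) (W (d0 N + N + 2))
  Dne : ∀ k, 1 ≤ k → k ≤ N → D k ≠ A ∧ D k ≠ B ∧ ∀ j, j < mw N → D k ≠ W j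
  Vne : ∀ i k, i < M → 1 ≤ k → k ≤ N → V i k ≠ A ∧ V i k ≠ B ∧ ∀ j, j < mw N → V i k ≠ W j
  Une : ∀ i k, i < M → 1 ≤ k → k ≤ N → U i k ≠ A ∧ U i k ≠ B ∧ ∀ j, j < mw N → U i k ≠ W j
  VD : ∀ i k l, i < M → 1 ≤ k → k ≤ N → 1 ≤ l → l ≤ N → V i k ≠ D l
  UD : ∀ i k l, i < M → 1 ≤ k → k ≤ N → 1 ≤ l → l ≤ N → U i k ≠ D l
  VU : ∀ i k j l, i < M → 1 ≤ k → k ≤ N → j < M → 1 ≤ l → l ≤ N → V i k ≠ U j l
  VV : ∀ i k j l, i < M → 1 ≤ k → k ≤ N → j < M → 1 ≤ l → l ≤ N → V i k = V j l → i = j ∧ k = l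
  UU : ∀ i k j l, i < M → 1 ≤ k → k ≤ N → j < M → 1 ≤ l → l ≤ N → U i k = U j l → i = j ∧ k = l

/-- `y` is not the place of a hub, wall or wire vertex (gadget vertices and isolated vertices) -/
def Free (N M A B : ℕ) (W D : ℕ → ℕ) (V U : ℕ → ℕ → ℕ) (y : ℕ) : Prop :=
  y ≠ A ∧ y ≠ B ∧ (∀ j, j < mw N → y ≠ W j) ∧ (∀ k, 1 ≤ k → k ≤ N → y ≠ D k) ∧
    ∀ i k, i < M → 1 ≤ k → k ≤ N → y ≠ V i k ∧ y ≠ U i k

open Classical in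
/-- the wires one of whose links `(v_l^k, u_l^k)` spans `y` -/
noncomputable def Ls (N M : ℕ) (V U : ℕ → ℕ → ℕ) (y : ℕ) : Finset ℕ :=
  (Finset.range M).filter fun l => ∃ k, 1 ≤ k ∧ k ≤ N ∧ V l k < y ∧ y < U l k

open Classical in
/-- the position of the wire `i` in the common nesting order -/
noncomputable def rk (M : ℕ) (V : ℕ → ℕ → ℕ) (i : ℕ) : ℕ :=
  ((Finset.range M).filter fun l => V l 1 < V i 1).card

end Pool.Agent.Cqp
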