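import Mathlib
import Pool.Agent.Cqp.Defs

set_option autoImplicit false

/-!
# 3-colourability as an ordering problem with distance bounds
-/

namespace Pool.Agent.Cqp

/-- number of elements. Element `4β` (`β ≤ 2n`) is the separator `f_β`; the elements `4β+1, 4β+2,
4β+3` (`β < 2n`) form block `β`: the block of the list `L_u` for `β = u < n`, of the list `R_v` for
`β = n + v`; `4β+1+x` is the colour `x` in its list. -/
def Mn (n : ℕ) : ℕ := 8 * n + 1

/-- length of the gadget for the pair `e, e'` -/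
def cq (e e' : ℕ) : ℕ :=
  if e % 4 = 0 then 2 else if e' % 4 = 0 then 1 else 4 * (e' / 4 - e / 4) - 1

/-- is there a constraint for the pair `e, e'`? `adj` is the adjacency of the graph on `0..n-1` -/
def ca (n : ℕ) (adj : ℕ → ℕ → Bool) (e e' : ℕ) : Bool :=
  decide (e < Mn n) && decide (e' < Mn n) &&
  ((decide (e % 4 = 0) && decide (e' = e + 4)) ||
  (decide (e % 4 ≠ 0) && (decide (e' = 4 * (e / 4)) || decide (e' = 4 * (e / 4) + 4))) ||
  (decide (e % 4 ≠ 0) && decide (e' % 4 ≠ 0) && decide (e / 4 < n) && decide (n ≤ e' / 4) &&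
    ((decide (e' / 4 = n + e / 4) && decide (e % 4 ≠ e' % 4)) ||
      (adj (e / 4) (e' / 4 - n) && decide (e % 4 = e' % 4)))))

/-- zone `k` (`1 ≤ k ≤ (Mn n)^2`) belongs to the pair `(j1 n k, j2 n k)` -/
def j1 (n k : ℕ) : ℕ := (k - 1) / Mn n

def j2 (n k : ℕ) : ℕ := (k - 1) % Mn n

/-- the bounds in terms of pairs -/
def Bd (n : ℕ) (adj : ℕ → ℕ → Bool) (π : ℕ → ℕ) : Prop :=
  (∀ i j, i < Mn n → j < Mn n → π i = π j → i = j) ∧ (∀ i, i < Mn n → π i < Mn n) ∧
    ∀ e e', e < Mn n → e' < Mn n → ca n adj e e' = true → π e ≤ π e' + cq e e' + 2 ∧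
      π e' ≤ π e + cq e e' + 2

-- BEGIN bd_iff
/-- Proof: the pair `(e, e')` with `e, e' < M = Mn n` is `(j1 n k, j2 n k)` for `k = e * M + e' + 1`,
`1 ≤ k ≤ M * M`; conversely `1 ≤ k ≤ M * M` gives `j1 n k, j2 n k < M`. -/
theorem bd_iff (n : ℕ) (adj : ℕ → ℕ → Bool) :
    DB (Mn n * Mn n) (Mn n) (j1 n) (j2 n) (fun k => cq (j1 n k) (j2 n k))
      (fun k => ca n adj (j1 n k) (j2 n k)) ↔ ∃ π, Bd n adj π := by
  have hM : 0 < Mn n := by unfold Mn; omega
  constructor
  · rintro ⟨π, h1, h2, h3⟩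
    refine ⟨π, h1, h2, fun e e' he he' hc => ?_⟩
    have hj : e * Mn n + e' + 1 - 1 = Mn n * e + e' := by
      rw [Nat.add_sub_cancel, Nat.mul_comm]
    have e1 : j1 n (e * Mn n + e' + 1) = e := by
      unfold j1
      rw [hj, Nat.mul_add_div hM, Nat.div_eq_of_lt he', Nat.add_zero]
    have e2 : j2 n (e * Mn n + e' + 1) = e' := by
      unfold j2
      rw [hj, Nat.mul_add_mod, Nat.mod_eq_of_lt he']
    have hle : e * Mn n + e' + 1 ≤ Mn n * Mn n := by
      have h4 : (e + 1) * Mn n ≤ Mn n * Mn n := Nat.mul_le_mul_right _ he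
      rw [Nat.add_mul, Nat.one_mul] at h4
      omega
    have h5 := h3 (e * Mn n + e' + 1) (by omega) hle (by
      show ca n adj (j1 n (e * Mn n + e' + 1)) (j2 n (e * Mn n + e' + 1)) = true
      rw [e1, e2]
      exact hc)
    simp only [e1, e2] at h5
    exact h5
  · rintro ⟨π, h1, h2, h3⟩
    refine ⟨π, h1, h2, fun k hk1 hk2 hc => ?_⟩
    refine h3 _ _ ?_ ?_ hc
    · unfold j1
      exact Nat.div_lt_of_lt_mul (by omega)
    · exact Nat.mod_lt _ hM

/-- range of the gadget lengths -/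
theorem ca_range (n : ℕ) (adj : ℕ → ℕ → Bool) (e e' : ℕ) (h : ca n adj e e' = true) :
    e < Mn n ∧ e' < Mn n ∧ e ≠ e' ∧ 1 ≤ cq e e' ∧ cq e e' ≤ 8 * n := by
  unfold ca at h
  simp only [Bool.and_eq_true, Bool.or_eq_true, decide_eq_true_eq] at h
  obtain ⟨⟨h1, h2⟩, h3⟩ := h
  unfold Mn at h1 h2
  unfold Mn cq
  rcases h3 with (⟨h4, h5⟩ | ⟨h4, h5⟩) | ⟨⟨⟨⟨h4, h5⟩, h6⟩, h7⟩, _⟩
  · rw [if_pos h4]
    omega
  · split_ifs <;> omega
  · split_ifs <;> omega
-- END bd_iff

-- BEGIN bd_of_col
/-- the shift of block `b` -/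
private def bd_of_col_c (n : ℕ) (col : ℕ → ℕ) (b : ℕ) : ℕ :=
  if b < n then 3 - col b else 5 - col (b - n)

/-- the order -/
private def bd_of_col_p (n : ℕ) (col : ℕ → ℕ) (e : ℕ) : ℕ :=
  if e % 4 = 0 then e else 4 * (e / 4) + 1 + ((e % 4 - 1 + bd_of_col_c n col (e / 4)) % 3)

private theorem bd_of_col_0 {n : ℕ} {col : ℕ → ℕ} {e : ℕ} (h : e % 4 = 0) :
    bd_of_col_p n col e = e := if_pos h

private theorem bd_of_col_1 {n : ℕ} {col : ℕ → ℕ} {e : ℕ} (h : e % 4 ≠ 0) :
    bd_of_col_p n col e =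
      4 * (e / 4) + 1 + ((e % 4 - 1 + bd_of_col_c n col (e / 4)) % 3) := if_neg h

private theorem bd_of_col_inj {n : ℕ} {col : ℕ → ℕ} {i j : ℕ}
    (h : bd_of_col_p n col i = bd_of_col_p n col j) : i = j := by
  by_cases hi : i % 4 = 0
  · rw [bd_of_col_0 hi] at h
    by_cases hj : j % 4 = 0
    · rw [bd_of_col_0 hj] at h
      exact h
    · rw [bd_of_col_1 hj] at h
      have := Nat.mod_lt (j % 4 - 1 + bd_of_col_c n col (j / 4)) (show 0 < 3 by norm_num)
      omega
  · rw [bd_of_col_1 hi] at h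
    have h1 := Nat.mod_lt (i % 4 - 1 + bd_of_col_c n col (i / 4)) (show 0 < 3 by norm_num)
    by_cases hj : j % 4 = 0
    · rw [bd_of_col_0 hj] at h
      omega
    · rw [bd_of_col_1 hj] at h
      have h2 := Nat.mod_lt (j % 4 - 1 + bd_of_col_c n col (j / 4)) (show 0 < 3 by norm_num)
      have h3 : i / 4 = j / 4 := by omega
      rw [h3] at h h1
      generalize bd_of_col_c n col (j / 4) = c at h h1 h2
      omega

/-- From a proper 3-colouring `col` (values `< 3`): put the separators at `4β`, in the list `L_u` the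
colour `col u` first, in the list `R_v` the colour `col v` last:
`π e = if e % 4 = 0 then e else 4 * (e/4) + 1 + ((e % 4 - 1 + c (e/4)) % 3)` with
`c β = 3 - col β` for `β < n` and `c β = 5 - col (β - n)` for `n ≤ β`. Within a block `π` permutes
`4β+1..4β+3`; so it is injective, `< Mn n`. Bounds: separators are at distance `4 = cq + 2`; block
elements at distance `≤ 3` from their two separators; for `e` in block `u < n`, `e'` in block `n + v`
the distance is `4 (n + v - u) + p' - p` with `p, p' ∈ {0,1,2}` the places in the blocks, and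
`cq + 2 = 4 (n + v - u) + 1`: violated only if `p = 0` and `p' = 2`, i.e. `e` is the colour `col u`
and `e'` the colour `col v`: if `u = v` then the colours are equal (but `ca` says different), if
`adj u v` then `col u = col v` (`ca` says the same colour), contradiction. -/
theorem bd_of_col (n : ℕ) (adj : ℕ → ℕ → Bool) (col : ℕ → ℕ) (hc : ∀ u, col u < 3)
    (h : ∀ u v, u < n → v < n → adj u v = true → col u ≠ col v) : ∃ π, Bd n adj π := by
  refine ⟨bd_of_col_p n col, fun i j _ _ hij => bd_of_col_inj hij, ?_, ?_⟩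
  · intro i hi
    unfold Mn at hi ⊢
    by_cases h0 : i % 4 = 0
    · rw [bd_of_col_0 h0]
      exact hi
    · rw [bd_of_col_1 h0]
      have := Nat.mod_lt (i % 4 - 1 + bd_of_col_c n col (i / 4)) (show 0 < 3 by norm_num)
      omega
  · intro e e' he he' hca
    unfold Mn at he he'
    unfold ca at hca
    simp only [Bool.and_eq_true, Bool.or_eq_true, decide_eq_true_eq] at hca
    obtain ⟨-, hca⟩ := hca
    rcases hca with (⟨h1, h2⟩ | ⟨h1, h2⟩) | ⟨⟨⟨⟨h1, h2⟩, h3⟩, h4⟩, h5⟩
    · subst h2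
      have h3 : (e + 4) % 4 = 0 := by omega
      have hcq : cq e (e + 4) = 2 := if_pos h1
      rw [bd_of_col_0 h1, bd_of_col_0 h3, hcq]
      omega
    · have h3 : e' % 4 = 0 := by omega
      have hcq : cq e e' = 1 := by
        unfold cq
        rw [if_neg h1, if_pos h3]
      rw [bd_of_col_1 h1, bd_of_col_0 h3, hcq]
      have := Nat.mod_lt (e % 4 - 1 + bd_of_col_c n col (e / 4)) (show 0 < 3 by norm_num)
      omega
    · have hcq : cq e e' = 4 * (e' / 4 - e / 4) - 1 := by
        unfold cq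
        rw [if_neg h1, if_neg h2]
      have hca : bd_of_col_c n col (e / 4) = 3 - col (e / 4) := if_pos h3
      have hcb : bd_of_col_c n col (e' / 4) = 5 - col (e' / 4 - n) := if_neg (by omega)
      have hcu := hc (e / 4)
      have hcv := hc (e' / 4 - n)
      have hv : e' / 4 - n < n := by omega
      rw [bd_of_col_1 h1, bd_of_col_1 h2, hcq, hca, hcb]
      have m1 := Nat.mod_lt (e % 4 - 1 + (3 - col (e / 4))) (show 0 < 3 by norm_num)
      have m2 := Nat.mod_lt (e' % 4 - 1 + (5 - col (e' / 4 - n))) (show 0 < 3 by norm_num)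
      have key : ¬ ((e % 4 - 1 + (3 - col (e / 4))) % 3 = 0 ∧
          (e' % 4 - 1 + (5 - col (e' / 4 - n))) % 3 = 2) := by
        rintro ⟨k1, k2⟩
        have k3 : e % 4 - 1 = col (e / 4) := by omega
        have k4 : e' % 4 - 1 = col (e' / 4 - n) := by omega
        rcases h5 with ⟨h5, h6⟩ | ⟨h5, h6⟩
        · have k5 : e' / 4 - n = e / 4 := by omega
          rw [k5] at k4
          omega
        · exact h _ _ h3 hv h5 (by omega)
      generalize (e % 4 - 1 + (3 - col (e / 4))) % 3 = p at m1 key ⊢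
      generalize (e' % 4 - 1 + (5 - col (e' / 4 - n))) % 3 = p' at m2 key ⊢
      omega
-- END bd_of_col

-- BEGIN bd_chain
/-- Distances from the bounds: separators `4β, 4β'` (`β ≤ β' ≤ 2n`) are at distance
`≤ 4 (β' - β)` (induction on `β'`), an element of block `β` is at distance `≤ 3` from `4β` and from
`4β + 4`. -/
theorem bd_sep {n : ℕ} {adj : ℕ → ℕ → Bool} {π : ℕ → ℕ} (h : Bd n adj π) (b b' : ℕ)
    (h1 : b ≤ b') (h2 : b' ≤ 2 * n) :
    π (4 * b) ≤ π (4 * b') + 4 * (b' - b) ∧ π (4 * b') ≤ π (4 * b) + 4 * (b' - b) := by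
  have hstep : ∀ c, c < 2 * n → π (4 * c) ≤ π (4 * c + 4) + 4 ∧ π (4 * c + 4) ≤ π (4 * c) + 4 := by
    intro c hc
    have h3 := h.2.2 (4 * c) (4 * c + 4) (by unfold Mn; omega) (by unfold Mn; omega) (by
      unfold ca Mn
      simp only [Bool.and_eq_true, Bool.or_eq_true, decide_eq_true_eq]
      refine ⟨⟨by omega, by omega⟩, Or.inl (Or.inl ⟨by omega, trivial⟩)⟩)
    have h4 : cq (4 * c) (4 * c + 4) = 2 := by
      unfold cq
      rw [if_pos (by omega)]
    rw [h4] at h3
    exact h3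
  induction b', h1 using Nat.le_induction with
  | base => constructor <;> omega
  | succ c hc ih =>
    have h5 := ih (by omega)
    have h6 := hstep c (by omega)
    rw [show 4 * (c + 1) = 4 * c + 4 by ring]
    constructor <;> omega

theorem bd_blk {n : ℕ} {adj : ℕ → ℕ → Bool} {π : ℕ → ℕ} (h : Bd n adj π) (b x : ℕ)
    (h1 : b < 2 * n) (hx : x < 3) :
    (π (4 * b + 1 + x) ≤ π (4 * b) + 3 ∧ π (4 * b) ≤ π (4 * b + 1 + x) + 3) ∧
      (π (4 * b + 1 + x) ≤ π (4 * b + 4) + 3 ∧ π (4 * b + 4) ≤ π (4 * b + 1 + x) + 3) := by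
  have h3 := h.2.2 (4 * b + 1 + x) (4 * b) (by unfold Mn; omega) (by unfold Mn; omega) (by
    unfold ca Mn
    simp only [Bool.and_eq_true, Bool.or_eq_true, decide_eq_true_eq]
    refine ⟨⟨by omega, by omega⟩, Or.inl (Or.inr ⟨by omega, Or.inl (by omega)⟩)⟩)
  have h4 := h.2.2 (4 * b + 1 + x) (4 * b + 4) (by unfold Mn; omega) (by unfold Mn; omega) (by
    unfold ca Mn
    simp only [Bool.and_eq_true, Bool.or_eq_true, decide_eq_true_eq]
    refine ⟨⟨by omega, by omega⟩, Or.inl (Or.inr ⟨by omega, Or.inr (by omega)⟩)⟩)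
  have h5 : cq (4 * b + 1 + x) (4 * b) = 1 := by
    unfold cq
    rw [if_neg (by omega), if_pos (by omega)]
  have h6 : cq (4 * b + 1 + x) (4 * b + 4) = 1 := by
    unfold cq
    rw [if_neg (by omega), if_pos (by omega)]
  rw [h5] at h3
  rw [h6] at h4
  exact ⟨h3, h4⟩

/-- The extreme numbers `0` and `8n` belong to the separators `0` and `8n` (`n ≥ 1`). Proof: `π` is a
bijection of `{0..8n}` (injective on a finite set), so there are `e, e'` with `π e = 0`,
`π e' = 8 n`. Two elements that are not both in `{0, 8n}` (elements `4·0` and `4·2n`) are at distance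
`< 8 n`: if both are separators `4β, 4β'`: `≤ 4 |β - β'| < 8n`; a separator `4β` and an element of
block `β'`: `≤ 4 (2n - 1) + 3` (go through `4β'` or `4β'+4`); elements of blocks `β < β'`: `≤ 3 +
4 (β' - β - 1) + 3 ≤ 8 n - 2`; the same block: `≤ 6`; the same element: `0`. -/
theorem bd_ext {n : ℕ} {adj : ℕ → ℕ → Bool} {π : ℕ → ℕ} (hn : 1 ≤ n) (h : Bd n adj π) :
    (π 0 = 0 ∧ π (8 * n) = 8 * n) ∨ (π 0 = 8 * n ∧ π (8 * n) = 0) := by
  have hsurj : ∀ y, y < Mn n → ∃ e, e < Mn n ∧ π e = y := by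
    intro y hy
    let f : Fin (Mn n) → Fin (Mn n) := fun i => ⟨π i, h.2.1 i i.2⟩
    have hf : Function.Injective f := by
      intro a c hac
      have h3 : π a = π c := congrArg Fin.val hac
      exact Fin.ext (h.1 a c a.2 c.2 h3)
    obtain ⟨e, he⟩ := Finite.injective_iff_surjective.mp hf ⟨y, hy⟩
    exact ⟨e, e.2, congrArg Fin.val he⟩
  have hdist : ∀ e e', e' < 8 * n + 1 → e ≤ e' → ¬ (e = 0 ∧ e' = 8 * n) →
      π e' < π e + 8 * n ∧ π e < π e' + 8 * n := by
    intro e e' he' hle hne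
    by_cases h1 : e % 4 = 0
    · obtain ⟨b, hb⟩ : ∃ b, e = 4 * b := ⟨e / 4, by omega⟩
      subst hb
      by_cases h2 : e' % 4 = 0
      · obtain ⟨c, hc⟩ : ∃ c, e' = 4 * c := ⟨e' / 4, by omega⟩
        subst hc
        have h3 := bd_sep h b c (by omega) (by omega)
        constructor <;> omega
      · obtain ⟨c, x, hx, hc⟩ : ∃ c x, x < 3 ∧ e' = 4 * c + 1 + x :=
          ⟨e' / 4, e' % 4 - 1, by omega, by omega⟩
        subst hc
        have h3 := bd_sep h b c (by omega) (by omega)
        have h4 := bd_blk h c x (by omega) hx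
        constructor <;> omega
    · obtain ⟨b, x, hx, hb⟩ : ∃ b x, x < 3 ∧ e = 4 * b + 1 + x :=
        ⟨e / 4, e % 4 - 1, by omega, by omega⟩
      subst hb
      have h4 := bd_blk h b x (by omega) hx
      by_cases h2 : e' % 4 = 0
      · obtain ⟨c, hc⟩ : ∃ c, e' = 4 * c := ⟨e' / 4, by omega⟩
        subst hc
        have h3 := bd_sep h (b + 1) c (by omega) (by omega)
        rw [show 4 * (b + 1) = 4 * b + 4 by ring] at h3
        constructor <;> omega
      · obtain ⟨c, y, hy, hc⟩ : ∃ c x, x < 3 ∧ e' = 4 * c + 1 + x :=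
          ⟨e' / 4, e' % 4 - 1, by omega, by omega⟩
        subst hc
        have h5 := bd_blk h c y (by omega) hy
        rcases Nat.lt_or_ge b c with hbc | hbc
        · have h3 := bd_sep h (b + 1) c (by omega) (by omega)
          rw [show 4 * (b + 1) = 4 * b + 4 by ring] at h3
          constructor <;> omega
        · have hbc' : b = c := by omega
          subst hbc'
          constructor <;> omega
  obtain ⟨e, he, he0⟩ := hsurj 0 (by unfold Mn; omega)
  obtain ⟨e', he', he8⟩ := hsurj (8 * n) (by unfold Mn; omega)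
  unfold Mn at he he'
  rcases Nat.le_total e e' with hle | hle
  · by_cases hne : e = 0 ∧ e' = 8 * n
    · obtain ⟨h1, h2⟩ := hne
      subst h1
      subst h2
      exact Or.inl ⟨he0, he8⟩
    · have h3 := hdist e e' he' hle hne
      omega
  · by_cases hne : e' = 0 ∧ e = 8 * n
    · obtain ⟨h1, h2⟩ := hne
      subst h1
      subst h2
      exact Or.inr ⟨he8, he0⟩
    · have h3 := hdist e' e he hle hne
      omega
-- END bd_chain

-- BEGIN col_of_bd
/-- If `π 0 = 0` and `π (8n) = 8n` then `π (4β) = 4β` for `β ≤ 2n` (`bd_sep` from both ends), so block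
`β` occupies the places `4β+1, 4β+2, 4β+3` (`bd_blk`), bijectively. -/
theorem bd_tight {n : ℕ} {adj : ℕ → ℕ → Bool} {π : ℕ → ℕ} (h : Bd n adj π) (h0 : π 0 = 0)
    (h8 : π (8 * n) = 8 * n) (b x : ℕ) (h1 : b < 2 * n) (hx : x < 3) :
    4 * b + 1 ≤ π (4 * b + 1 + x) ∧ π (4 * b + 1 + x) ≤ 4 * b + 3 := by
  have h2 := bd_sep h 0 b (by omega) (by omega)
  have h3 := bd_sep h b (2 * n) (by omega) (by omega)
  have h4 := bd_sep h 0 (b + 1) (by omega) (by omega)
  have h5 := bd_sep h (b + 1) (2 * n) (by omega) (by omega)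
  have h6 := bd_blk h b x h1 hx
  have e1 : 4 * (2 * n) = 8 * n := by ring
  have e2 : 4 * (b + 1) = 4 * b + 4 := by ring
  rw [e1, h8] at h3 h5
  rw [e2] at h4 h5
  rw [Nat.mul_zero, h0] at h2 h4
  omega

/-- Let `π 0 = 0`, `π (8n) = 8n`. `col u` := the colour `x < 3` with `π (4u+1+x) = 4u+1` (first in
`L_u`), it exists as the three elements of a block take the three places of the block bijectively
(`bd_tight`, injectivity). Let `y < 3` be the last colour in `R_v`: `π (4(n+v)+1+y) = 4(n+v)+3`.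
Then `y = col v`: otherwise `ca` holds for `e = 4v+1+col v`, `e' = 4(n+v)+1+y`, and the distance is
`4n + 2 > cq + 2 = 4n + 1`. If `adj u v` and `col u = col v = x`: `ca` holds for `e = 4u+1+x`, `e' =
4(n+v)+1+x`, and the distance is `4(n+v-u) + 2 > cq + 2`, contradiction. -/
theorem col_of_bd_aux {n : ℕ} {adj : ℕ → ℕ → Bool} {π : ℕ → ℕ} (h : Bd n adj π) (h0 : π 0 = 0)
    (h8 : π (8 * n) = 8 * n) :
    ∃ col : ℕ → ℕ, (∀ u, col u < 3) ∧ ∀ u v, u < n → v < n → adj u v = true → col u ≠ col v := by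
  have hfl : ∀ b, b < 2 * n → (∃ x, x < 3 ∧ π (4 * b + 1 + x) = 4 * b + 1) ∧
      ∃ y, y < 3 ∧ π (4 * b + 1 + y) = 4 * b + 3 := by
    intro b hb
    have t0 := bd_tight h h0 h8 b 0 hb (by omega)
    have t1 := bd_tight h h0 h8 b 1 hb (by omega)
    have t2 := bd_tight h h0 h8 b 2 hb (by omega)
    have d01 : π (4 * b + 1 + 0) ≠ π (4 * b + 1 + 1) := fun hh => by
      have := h.1 _ _ (by unfold Mn; omega) (by unfold Mn; omega) hh
      omega
    have d02 : π (4 * b + 1 + 0) ≠ π (4 * b + 1 + 2) := fun hh => by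
      have := h.1 _ _ (by unfold Mn; omega) (by unfold Mn; omega) hh
      omega
    have d12 : π (4 * b + 1 + 1) ≠ π (4 * b + 1 + 2) := fun hh => by
      have := h.1 _ _ (by unfold Mn; omega) (by unfold Mn; omega) hh
      omega
    constructor
    · by_cases c0 : π (4 * b + 1 + 0) = 4 * b + 1
      · exact ⟨0, by omega, c0⟩
      by_cases c1 : π (4 * b + 1 + 1) = 4 * b + 1
      · exact ⟨1, by omega, c1⟩
      · exact ⟨2, by omega, by omega⟩
    · by_cases c0 : π (4 * b + 1 + 0) = 4 * b + 3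
      · exact ⟨0, by omega, c0⟩
      by_cases c1 : π (4 * b + 1 + 1) = 4 * b + 3
      · exact ⟨1, by omega, c1⟩
      · exact ⟨2, by omega, by omega⟩
  have hcol : ∀ u, ∃ x, x < 3 ∧ (u < n → π (4 * u + 1 + x) = 4 * u + 1) := by
    intro u
    by_cases hu : u < n
    · obtain ⟨x, hx, hx2⟩ := (hfl u (by omega)).1
      exact ⟨x, hx, fun _ => hx2⟩
    · exact ⟨0, by omega, fun hh => absurd hh hu⟩
  choose col hc1 hc2 using hcol
  have hlast : ∀ v, v < n → π (4 * (n + v) + 1 + col v) = 4 * (n + v) + 3 := by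
    intro v hv
    obtain ⟨y, hy, hy2⟩ := (hfl (n + v) (by omega)).2
    by_cases hyc : y = col v
    · rw [← hyc]
      exact hy2
    · exfalso
      have hx := hc1 v
      have h3 := (h.2.2 (4 * v + 1 + col v) (4 * (n + v) + 1 + y) (by unfold Mn; omega)
        (by unfold Mn; omega) (by
          have q1 : (4 * v + 1 + col v) / 4 = v := by omega
          have q2 : (4 * (n + v) + 1 + y) / 4 = n + v := by omega
          have q3 : (4 * v + 1 + col v) % 4 = 1 + col v := by omega
          have q4 : (4 * (n + v) + 1 + y) % 4 = 1 + y := by omega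
          unfold ca Mn
          rw [q1, q2, q3, q4]
          simp only [Bool.and_eq_true, Bool.or_eq_true, decide_eq_true_eq]
          refine ⟨⟨by omega, by omega⟩, Or.inr ⟨⟨⟨⟨by omega, by omega⟩, hv⟩, by omega⟩,
            Or.inl ⟨trivial, by omega⟩⟩⟩)).2
      have h4 : cq (4 * v + 1 + col v) (4 * (n + v) + 1 + y) = 4 * n - 1 := by
        unfold cq
        rw [if_neg (by omega), if_neg (by omega)]
        have q1 : (4 * v + 1 + col v) / 4 = v := by omega
        have q2 : (4 * (n + v) + 1 + y) / 4 = n + v := by omega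
        rw [q1, q2]
        omega
      rw [h4, hy2, hc2 v hv] at h3
      omega
  refine ⟨col, hc1, fun u v hu hv ha hne => ?_⟩
  have hx := hc1 u
  have hy := hc1 v
  have h3 := (h.2.2 (4 * u + 1 + col u) (4 * (n + v) + 1 + col v) (by unfold Mn; omega)
    (by unfold Mn; omega) (by
      have q1 : (4 * u + 1 + col u) / 4 = u := by omega
      have q2 : (4 * (n + v) + 1 + col v) / 4 = n + v := by omega
      have q3 : (4 * u + 1 + col u) % 4 = 1 + col u := by omega
      have q4 : (4 * (n + v) + 1 + col v) % 4 = 1 + col v := by omega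
      have q5 : n + v - n = v := by omega
      unfold ca Mn
      rw [q1, q2, q3, q4, q5, ha]
      simp only [Bool.and_eq_true, Bool.or_eq_true, decide_eq_true_eq]
      refine ⟨⟨by omega, by omega⟩, Or.inr ⟨⟨⟨⟨by omega, by omega⟩, hu⟩, by omega⟩,
        Or.inr ⟨trivial, by omega⟩⟩⟩)).2
  have h4 : cq (4 * u + 1 + col u) (4 * (n + v) + 1 + col v) = 4 * (n + v - u) - 1 := by
    unfold cq
    rw [if_neg (by omega), if_neg (by omega)]
    have q1 : (4 * u + 1 + col u) / 4 = u := by omega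
    have q2 : (4 * (n + v) + 1 + col v) / 4 = n + v := by omega
    rw [q1, q2]
  rw [h4, hlast v hv, hc2 u hu] at h3
  omega

/-- Proof: `n = 0` is trivial. Otherwise `bd_ext`; in the second case replace `π` by
`fun i => 8 * n - π i` (this satisfies `Bd` as well). Then `col_of_bd_aux`. -/
theorem col_of_bd {n : ℕ} {adj : ℕ → ℕ → Bool} {π : ℕ → ℕ} (h : Bd n adj π) :
    ∃ col : ℕ → ℕ, (∀ u, col u < 3) ∧ ∀ u v, u < n → v < n → adj u v = true → col u ≠ col v := by
  rcases Nat.eq_zero_or_pos n with hn | hn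
  · subst hn
    exact ⟨fun _ => 0, fun _ => Nat.zero_lt_succ 2, fun u v hu _ _ => absurd hu (Nat.not_lt_zero _)⟩
  rcases bd_ext hn h with ⟨h0, h8⟩ | ⟨h0, h8⟩
  · exact col_of_bd_aux h h0 h8
  · have hle : ∀ i, i < Mn n → π i ≤ 8 * n := by
      intro i hi
      have := h.2.1 i hi
      unfold Mn at this
      omega
    have h' : Bd n adj (fun i => 8 * n - π i) := by
      refine ⟨fun i j hi hj hij => ?_, fun i hi => ?_, fun e e' he he' hca => ?_⟩
      · have h1 := hle i hi
        have h2 := hle j hj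
        refine h.1 i j hi hj ?_
        simp only at hij
        omega
      · simp only
        unfold Mn
        omega
      · have h1 := hle e he
        have h2 := hle e' he'
        have h3 := h.2.2 e e' he he' hca
        simp only
        omega
    refine col_of_bd_aux h' ?_ ?_
    · show 8 * n - π 0 = 0
      omega
    · show 8 * n - π (8 * n) = 8 * n
      omega
-- END col_of_bd

end Pool.Agent.Cqp
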