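import Mathlib
import Pool.Agent.Cqp.Defs

set_option autoImplicit false

/-!
# Completeness: the drawing of a solution of the ordering problem
-/

namespace Pool.Agent.Cqp

/-- lexicographic order of coordinates (column, place in the column, fine place) -/
def lt3 (x y : ℕ × ℕ × ℕ) : Prop :=
  x.1 < y.1 ∨ (x.1 = y.1 ∧ (x.2.1 < y.2.1 ∨ (x.2.1 = y.2.1 ∧ x.2.2 < y.2.2)))

/-- the chords `(x,y)`, `(x',y')` (with `x` before `y`, `x'` before `y'`) cross -/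
def Cr (x y x' y' : ℕ × ℕ × ℕ) : Prop :=
  (lt3 x x' ∧ lt3 x' y ∧ lt3 y y') ∨ (lt3 x' x ∧ lt3 x y' ∧ lt3 y' y)

/-- the chain of the gadget path in column `w`: `v_i` (`t = 0`), gadget vertices `1 ≤ t ≤ Q`, `v_j`
(`t = Q + 1`); `ri`, `rj` are the numbers of the two wires -/
def ch (Q ri rj w t : ℕ) : ℕ × ℕ × ℕ :=
  if t = 0 then (w, 2 * ri + 1, 0) else if t = Q + 1 then (w, 2 * rj + 1, 0) else
    if ri < rj then (w, 2 * min (ri + t) (rj - 1) + 2, t)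
    else (w, 2 * max (ri - 1 - t) rj + 2, Q - t)

/-- number of the second wire of the gadget (an imaginary wire if the zone is not active) -/
def rj (π i1 i2 : ℕ → ℕ) (act : ℕ → Bool) (k : ℕ) : ℕ :=
  if act k = true then π (i2 k) else π (i1 k) + 1

/-- coordinates of the vertices; the wall `j` is `(j+1,0,0)`, zone `k` is the column `d0 N + k + 1` -/
def co (N M Q : ℕ) (π i1 i2 : ℕ → ℕ) (act : ℕ → Bool) (x : Cd) : ℕ × ℕ × ℕ :=
  if x = (0, 0, 0) then (0, 0, 0)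
  else if x = (0, 1, 0) then (mw N + 1, 0, 0)
  else if x.1 = 1 ∧ x.2.1 < mw N ∧ x.2.2 = 0 then (x.2.1 + 1, 0, 0)
  else if x.1 = 2 ∧ 1 ≤ x.2.1 ∧ x.2.1 ≤ N ∧ x.2.2 = 0 then (d0 N + x.2.1 + 1, 2 * M + 1, 0)
  else if x.1 = 3 ∧ x.2.1 < M ∧ 1 ≤ x.2.2 ∧ x.2.2 ≤ N then
    (d0 N + x.2.2 + 1, 2 * π x.2.1 + 1, 0)
  else if x.1 = 4 ∧ x.2.1 < M ∧ 1 ≤ x.2.2 ∧ x.2.2 ≤ N then
    (d0 N + x.2.2 + 1, 3 * M + 2 - π x.2.1, 0)
  else if x.1 = 5 ∧ 1 ≤ x.2.1 ∧ x.2.1 ≤ N ∧ 1 ≤ x.2.2 ∧ x.2.2 ≤ Q then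
    ch Q (π (i1 x.2.1)) (rj π i1 i2 act x.2.1) (d0 N + x.2.1 + 1) x.2.2
  else (mw N + 2 + x.1, x.2.1, x.2.2)

/-- frame chords -/
def KF (N : ℕ) (x y : ℕ × ℕ × ℕ) : Prop :=
  ∃ i j, x = (i, 0, 0) ∧ y = (j, 0, 0) ∧ i < j ∧ j ≤ mw N + 1 ∧ (i = 0 ∨ j = mw N + 1 ∨ j ≤ i + 2)

/-- links -/
def KL (N M : ℕ) (x y : ℕ × ℕ × ℕ) : Prop :=
  ∃ w r, x = (w, 2 * r + 1, 0) ∧ y = (w, 3 * M + 2 - r, 0) ∧ r < M ∧ d0 N + 2 ≤ w ∧
    w ≤ d0 N + N + 1

/-- chords passing over the wall `(w+1,0,0)` -/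
def KT (N M w : ℕ) (x y : ℕ × ℕ × ℕ) : Prop :=
  (d0 N + 2 ≤ w ∧ w ≤ d0 N + N ∧ ((x = (w, 2 * M + 1, 0) ∧ y = (w + 1, 2 * M + 1, 0)) ∨
    ∃ r, r < M ∧ x = (w, 3 * M + 2 - r, 0) ∧ y = (w + 1, 2 * r + 1, 0))) ∨
  (w = d0 N + 1 ∧ x = (w, 0, 0) ∧ (y = (w + 1, 2 * M + 1, 0) ∨
    ∃ r, r < M ∧ y = (w + 1, 2 * r + 1, 0))) ∨
  (w = d0 N + N + 1 ∧ y = (w + 2, 0, 0) ∧ (x = (w, 2 * M + 1, 0) ∨
    ∃ r, r < M ∧ x = (w, 3 * M + 2 - r, 0)))

/-- gadget chords of zone `k` -/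
def KG (N Q : ℕ) (π i1 i2 q : ℕ → ℕ) (act : ℕ → Bool) (k : ℕ) (x y : ℕ × ℕ × ℕ) : Prop :=
  1 ≤ k ∧ k ≤ N ∧ ∃ s t, ((t = s + 1 ∧ t ≤ Q) ∨ (s = q k ∧ t = Q + 1 ∧ act k = true)) ∧
    ((π (i1 k) < rj π i1 i2 act k ∧
      x = ch Q (π (i1 k)) (rj π i1 i2 act k) (d0 N + k + 1) s ∧
      y = ch Q (π (i1 k)) (rj π i1 i2 act k) (d0 N + k + 1) t) ∨
     (rj π i1 i2 act k < π (i1 k) ∧
      y = ch Q (π (i1 k)) (rj π i1 i2 act k) (d0 N + k + 1) s ∧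
      x = ch Q (π (i1 k)) (rj π i1 i2 act k) (d0 N + k + 1) t))

/-- the hypotheses of completeness -/
structure Hy (N M Q : ℕ) (π i1 i2 q : ℕ → ℕ) (act : ℕ → Bool) : Prop where
  hQ : 1 ≤ Q
  inj : ∀ i j, i < M → j < M → π i = π j → i = j
  lt : ∀ i, i < M → π i < M
  h1 : ∀ k, 1 ≤ k → k ≤ N → i1 k < M
  h2 : ∀ k, 1 ≤ k → k ≤ N → act k = true → i2 k < M ∧ i1 k ≠ i2 k ∧ 1 ≤ q k ∧ q k ≤ Q ∧
    π (i1 k) ≤ π (i2 k) + q k + 2 ∧ π (i2 k) ≤ π (i1 k) + q k + 2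

-- BEGIN lt3_basic
theorem lt3_irrefl (x : ℕ × ℕ × ℕ) : ¬ lt3 x x := by
  unfold lt3
  omega

theorem lt3_trans {x y z : ℕ × ℕ × ℕ} (h : lt3 x y) (h' : lt3 y z) : lt3 x z := by
  unfold lt3 at *
  omega

theorem lt3_tri {x y : ℕ × ℕ × ℕ} (h : x ≠ y) : lt3 x y ∨ lt3 y x := by
  obtain ⟨a, b, c⟩ := x
  obtain ⟨a', b', c'⟩ := y
  have h1 : ¬ (a = a' ∧ b = b' ∧ c = c') := by
    rintro ⟨rfl, rfl, rfl⟩
    exact h rfl
  unfold lt3
  simp only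
  omega

/-- Places from coordinates: for a finite type and an injective map `f` to coordinates there are
places in the same order. Proof: `p v := (Finset.univ.filter fun u => lt3 (f u) (f v)).card`
(classical decidability); by transitivity `lt3 (f u) (f v)` implies that the filter set of `u` is a
strict subset of that of `v` (it lacks `u`). -/
theorem lt3_rank {V : Type} [Fintype V] (f : V → ℕ × ℕ × ℕ) (hf : Function.Injective f) :
    ∃ p : V → ℕ, Function.Injective p ∧ ∀ u v, p u < p v ↔ lt3 (f u) (f v) := by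
  classical
  have key : ∀ u v, lt3 (f u) (f v) → (Finset.univ.filter fun w => lt3 (f w) (f u)).card <
      (Finset.univ.filter fun w => lt3 (f w) (f v)).card := by
    intro u v huv
    apply Finset.card_lt_card
    rw [Finset.ssubset_iff_of_subset]
    · exact ⟨u, by simp [huv], by simp [lt3_irrefl]⟩
    · intro w hw
      rw [Finset.mem_filter] at hw ⊢
      exact ⟨hw.1, lt3_trans hw.2 huv⟩
  refine ⟨fun v => (Finset.univ.filter fun w => lt3 (f w) (f v)).card, ?_, ?_⟩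
  · intro u v huv
    by_contra hne
    have h1 := lt3_tri fun e => hne (hf e)
    rcases h1 with h1 | h1
    · have := key u v h1
      simp only at huv
      omega
    · have := key v u h1
      simp only at huv
      omega
  · intro u v
    constructor
    · intro h1
      by_contra h2
      by_cases e : f u = f v
      · rw [hf e] at h1
        exact lt_irrefl _ h1
      · rcases lt3_tri e with h3 | h3
        · exact h2 h3
        · have := key v u h3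
          simp only at h1
          omega
    · exact key u v
-- END lt3_basic

-- BEGIN ch_mono
/-- The chain is monotone: increasing if `ri < rj`, decreasing if `rj < ri`. Unfold `ch`, split on
`s = 0`, `t = Q + 1`; `min`, `max` by `omega`. Increasing: `2 ri + 1 < 2 min (ri+t) (rj-1) + 2`;
`min` is monotone in `t`, ties are broken by the third coordinate `s < t`; `2 min _ (rj-1) + 2 ≤
2 rj`. Decreasing: third coordinate `Q - t < Q - s`. -/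
theorem ch_mono {Q ri rj w s t : ℕ} (hst : s < t) (ht : t ≤ Q + 1) :
    (ri < rj → lt3 (ch Q ri rj w s) (ch Q ri rj w t)) ∧
      (rj < ri → lt3 (ch Q ri rj w t) (ch Q ri rj w s)) := by
  constructor <;> intro hr <;> unfold lt3 ch <;> split_ifs <;> dsimp only <;> omega

/-- the column of a chain vertex, bounds for its second coordinate -/
theorem ch_col {Q ri rj w t M : ℕ} (hr : ri < M) (hj : rj < M ∨ (rj = ri + 1 ∧ t ≤ Q))
    (ht : t ≤ Q + 1) (hne : ri ≠ rj) :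
    (ch Q ri rj w t).1 = w ∧ 1 ≤ (ch Q ri rj w t).2.1 ∧ (ch Q ri rj w t).2.1 ≤ 2 * M ∧
      ((ch Q ri rj w t).2.1 % 2 = 1 → (ch Q ri rj w t).2.2 = 0) := by
  unfold ch
  split_ifs <;> dsimp only <;> omega

/-- A gadget chord passes over at most one `v`-vertex: its ends have second coordinates at distance
at most `3`. Hypothesis `hc`: consecutive chain vertices, or `s = q`, `t = Q + 1`, where `ri`, `rj`
are at distance `≤ q + 2`. -/
theorem ch_span {Q ri rj w s t q : ℕ} (hQ : 1 ≤ Q) (hne : ri ≠ rj)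
    (hc : (t = s + 1 ∧ t ≤ Q) ∨ (s = q ∧ t = Q + 1 ∧ 1 ≤ q ∧ q ≤ Q ∧ ri ≤ rj + q + 2 ∧
      rj ≤ ri + q + 2)) :
    (ch Q ri rj w t).2.1 ≤ (ch Q ri rj w s).2.1 + 3 ∧
      (ch Q ri rj w s).2.1 ≤ (ch Q ri rj w t).2.1 + 3 := by
  unfold ch
  split_ifs <;> dsimp only <;> omega
-- END ch_mono

-- BEGIN co_inj
private theorem co_inj_cases {N M Q : ℕ} {π i1 i2 q : ℕ → ℕ} {act : ℕ → Bool}
    (h : Hy N M Q π i1 i2 q act) (x : Cd) :
    (x = (0, 0, 0) ∧ co N M Q π i1 i2 act x = (0, 0, 0)) ∨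
    (x = (0, 1, 0) ∧ co N M Q π i1 i2 act x = (mw N + 1, 0, 0)) ∨
    ((x.1 = 1 ∧ x.2.1 < mw N ∧ x.2.2 = 0) ∧ co N M Q π i1 i2 act x = (x.2.1 + 1, 0, 0)) ∨
    ((x.1 = 2 ∧ 1 ≤ x.2.1 ∧ x.2.1 ≤ N ∧ x.2.2 = 0) ∧
      co N M Q π i1 i2 act x = (d0 N + x.2.1 + 1, 2 * M + 1, 0)) ∨
    ((x.1 = 3 ∧ x.2.1 < M ∧ 1 ≤ x.2.2 ∧ x.2.2 ≤ N) ∧
      co N M Q π i1 i2 act x = (d0 N + x.2.2 + 1, 2 * π x.2.1 + 1, 0)) ∨
    ((x.1 = 4 ∧ x.2.1 < M ∧ 1 ≤ x.2.2 ∧ x.2.2 ≤ N) ∧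
      co N M Q π i1 i2 act x = (d0 N + x.2.2 + 1, 3 * M + 2 - π x.2.1, 0)) ∨
    ((x.1 = 5 ∧ 1 ≤ x.2.1 ∧ x.2.1 ≤ N ∧ 1 ≤ x.2.2 ∧ x.2.2 ≤ Q) ∧
      ∃ a b, co N M Q π i1 i2 act x = (d0 N + x.2.1 + 1, 2 * a + 2, b) ∧ a + 1 ≤ M ∧
        ((π (i1 x.2.1) < rj π i1 i2 act x.2.1 ∧ b = x.2.2) ∨
          (¬ π (i1 x.2.1) < rj π i1 i2 act x.2.1 ∧ b = Q - x.2.2))) ∨
    co N M Q π i1 i2 act x = (mw N + 2 + x.1, x.2.1, x.2.2) := by
  unfold co
  by_cases c1 : x = (0, 0, 0)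
  · rw [if_pos c1]
    exact Or.inl ⟨c1, rfl⟩
  rw [if_neg c1]
  by_cases c2 : x = (0, 1, 0)
  · rw [if_pos c2]
    exact Or.inr (Or.inl ⟨c2, rfl⟩)
  rw [if_neg c2]
  by_cases c3 : x.1 = 1 ∧ x.2.1 < mw N ∧ x.2.2 = 0
  · rw [if_pos c3]
    exact Or.inr (Or.inr (Or.inl ⟨c3, rfl⟩))
  rw [if_neg c3]
  by_cases c4 : x.1 = 2 ∧ 1 ≤ x.2.1 ∧ x.2.1 ≤ N ∧ x.2.2 = 0
  · rw [if_pos c4]
    exact Or.inr (Or.inr (Or.inr (Or.inl ⟨c4, rfl⟩)))
  rw [if_neg c4]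
  by_cases c5 : x.1 = 3 ∧ x.2.1 < M ∧ 1 ≤ x.2.2 ∧ x.2.2 ≤ N
  · rw [if_pos c5]
    exact Or.inr (Or.inr (Or.inr (Or.inr (Or.inl ⟨c5, rfl⟩))))
  rw [if_neg c5]
  by_cases c6 : x.1 = 4 ∧ x.2.1 < M ∧ 1 ≤ x.2.2 ∧ x.2.2 ≤ N
  · rw [if_pos c6]
    exact Or.inr (Or.inr (Or.inr (Or.inr (Or.inr (Or.inl ⟨c6, rfl⟩)))))
  rw [if_neg c6]
  by_cases c7 : x.1 = 5 ∧ 1 ≤ x.2.1 ∧ x.2.1 ≤ N ∧ 1 ≤ x.2.2 ∧ x.2.2 ≤ Q
  · rw [if_pos c7]
    refine Or.inr (Or.inr (Or.inr (Or.inr (Or.inr (Or.inr (Or.inl ⟨c7, ?_⟩))))))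
    obtain ⟨_, k1, k2, t1, t2⟩ := c7
    have r1 : π (i1 x.2.1) < M := h.lt _ (h.h1 _ k1 k2)
    have r2 : rj π i1 i2 act x.2.1 ≤ M ∧
        (rj π i1 i2 act x.2.1 ≤ π (i1 x.2.1) → rj π i1 i2 act x.2.1 < M) := by
      unfold rj
      by_cases ha : act x.2.1 = true
      · rw [if_pos ha]
        have := h.lt _ (h.h2 _ k1 k2 ha).1
        omega
      · rw [if_neg ha]
        omega
    unfold ch
    rw [if_neg (by omega), if_neg (by omega)]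
    by_cases hr : π (i1 x.2.1) < rj π i1 i2 act x.2.1
    · rw [if_pos hr]
      exact ⟨_, _, rfl, by omega, Or.inl ⟨hr, rfl⟩⟩
    · rw [if_neg hr]
      exact ⟨_, _, rfl, by omega, Or.inr ⟨hr, rfl⟩⟩
  rw [if_neg c7]
  exact Or.inr (Or.inr (Or.inr (Or.inr (Or.inr (Or.inr (Or.inr rfl))))))

/-- The coordinates are injective. Proof: by cases on the branches of `co x`, `co y`. The last branch
has first coordinate `≥ mw N + 2`, all others `≤ mw N + 1`. In a zone column: `v`-vertices have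
second coordinate `2 π i + 1 ≤ 2 M - 1`, the special vertex `2 M + 1`, `u`-vertices `3 M + 2 - π i ≥
2 M + 3`, gadget vertices an even number `≤ 2 M` (`ch` with `1 ≤ t ≤ Q`), with third coordinate `t`
or `Q - t`, so `t` is determined. `h.inj` for `π`. -/
theorem co_inj {N M Q : ℕ} {π i1 i2 q : ℕ → ℕ} {act : ℕ → Bool} (h : Hy N M Q π i1 i2 q act) :
    Function.Injective (co N M Q π i1 i2 act) := by
  intro x y hxy
  have hmw : mw N = 5 * N + 7 := rfl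
  have hd0 : d0 N = 2 * N + 2 := rfl
  obtain ⟨x1, x2, x3⟩ := x
  obtain ⟨y1, y2, y3⟩ := y
  have ext : x1 = y1 → x2 = y2 → x3 = y3 → ((x1, x2, x3) : Cd) = (y1, y2, y3) := by
    rintro rfl rfl rfl
    rfl
  have hx := co_inj_cases h (x1, x2, x3)
  have hy := co_inj_cases h (y1, y2, y3)
  dsimp only at hx hy
  simp only [Prod.mk.injEq] at hx hy
  have px : x2 < M → π x2 < M := h.lt x2
  have py : y2 < M → π y2 < M := h.lt y2
  have pi : x2 < M → y2 < M → π x2 = π y2 → x2 = y2 := h.inj x2 y2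
  rcases hx with ⟨cx, ex⟩ | ⟨cx, ex⟩ | ⟨cx, ex⟩ | ⟨cx, ex⟩ | ⟨cx, ex⟩ | ⟨cx, ex⟩ | ⟨cx, a, b, ex, bx, tx⟩ | ex <;>
  rcases hy with ⟨cy, ey⟩ | ⟨cy, ey⟩ | ⟨cy, ey⟩ | ⟨cy, ey⟩ | ⟨cy, ey⟩ | ⟨cy, ey⟩ | ⟨cy, a', b', ey, by', ty⟩ | ey <;>
  rw [ex, ey] at hxy <;>
  simp only [Prod.mk.injEq] at hxy <;>
  obtain ⟨k1, k2, k3⟩ := hxy <;>
  first
  | (exfalso; omega)
  | (exact ext (by omega) (by omega) (by omega))
  | (have k4 : x2 = y2 := by omega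
     subst k4
     rcases tx with ⟨t1, t2⟩ | ⟨t1, t2⟩ <;> rcases ty with ⟨t3, t4⟩ | ⟨t3, t4⟩
     · exact ext (by omega) rfl (by omega)
     · exact absurd t1 t3
     · exact absurd t3 t1
     · exact ext (by omega) rfl (by omega))
-- END co_inj

-- BEGIN classify
private theorem classify_c1 {N M Q : ℕ} {π i1 i2 : ℕ → ℕ} {act : ℕ → Bool} {j : ℕ}
    (hj : j < mw N) : co N M Q π i1 i2 act (1, j, 0) = (j + 1, 0, 0) := by
  unfold co
  rw [if_neg (by simp), if_neg (by simp), if_pos ⟨rfl, hj, rfl⟩]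

private theorem classify_c2 {N M Q : ℕ} {π i1 i2 : ℕ → ℕ} {act : ℕ → Bool} {k : ℕ}
    (h1 : 1 ≤ k) (h2 : k ≤ N) :
    co N M Q π i1 i2 act (2, k, 0) = (d0 N + k + 1, 2 * M + 1, 0) := by
  unfold co
  rw [if_neg (by simp), if_neg (by simp), if_neg (by simp), if_pos ⟨rfl, h1, h2, rfl⟩]

private theorem classify_c3 {N M Q : ℕ} {π i1 i2 : ℕ → ℕ} {act : ℕ → Bool} {i k : ℕ}
    (hi : i < M) (h1 : 1 ≤ k) (h2 : k ≤ N) :
    co N M Q π i1 i2 act (3, i, k) = (d0 N + k + 1, 2 * π i + 1, 0) := by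
  unfold co
  rw [if_neg (by simp), if_neg (by simp), if_neg (by simp), if_neg (by simp),
    if_pos ⟨rfl, hi, h1, h2⟩]

private theorem classify_c4 {N M Q : ℕ} {π i1 i2 : ℕ → ℕ} {act : ℕ → Bool} {i k : ℕ}
    (hi : i < M) (h1 : 1 ≤ k) (h2 : k ≤ N) :
    co N M Q π i1 i2 act (4, i, k) = (d0 N + k + 1, 3 * M + 2 - π i, 0) := by
  unfold co
  rw [if_neg (by simp), if_neg (by simp), if_neg (by simp), if_neg (by simp), if_neg (by simp),
    if_pos ⟨rfl, hi, h1, h2⟩]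

private theorem classify_c5 {N M Q : ℕ} {π i1 i2 : ℕ → ℕ} {act : ℕ → Bool} {k s : ℕ}
    (h1 : 1 ≤ k) (h2 : k ≤ N) (h3 : 1 ≤ s) (h4 : s ≤ Q) :
    co N M Q π i1 i2 act (5, k, s) =
      ch Q (π (i1 k)) (rj π i1 i2 act k) (d0 N + k + 1) s := by
  unfold co
  rw [if_neg (by simp), if_neg (by simp), if_neg (by simp), if_neg (by simp), if_neg (by simp),
    if_neg (by simp), if_pos ⟨rfl, h1, h2, h3, h4⟩]

private theorem classify_ne {N M Q : ℕ} {π i1 i2 q : ℕ → ℕ} {act : ℕ → Bool}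
    (h : Hy N M Q π i1 i2 q act) {k : ℕ} (h1 : 1 ≤ k) (h2 : k ≤ N) :
    π (i1 k) ≠ rj π i1 i2 act k := by
  unfold rj
  by_cases ha : act k = true
  · rw [if_pos ha]
    intro he
    exact (h.h2 k h1 h2 ha).2.1 (h.inj _ _ (h.h1 k h1 h2) (h.h2 k h1 h2 ha).1 he)
  · rw [if_neg ha]
    omega

private theorem classify_g {N M Q : ℕ} {π i1 i2 q : ℕ → ℕ} {act : ℕ → Bool}
    (h : Hy N M Q π i1 i2 q act) {k s t : ℕ} (h1 : 1 ≤ k) (h2 : k ≤ N) (hst : s < t)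
    (ht : t ≤ Q + 1) (hc : (t = s + 1 ∧ t ≤ Q) ∨ (s = q k ∧ t = Q + 1 ∧ act k = true))
    {a b : ℕ × ℕ × ℕ} (ha : a = ch Q (π (i1 k)) (rj π i1 i2 act k) (d0 N + k + 1) s)
    (hb : b = ch Q (π (i1 k)) (rj π i1 i2 act k) (d0 N + k + 1) t) :
    (lt3 a b → ∃ k, KG N Q π i1 i2 q act k a b) ∧
      (lt3 b a → ∃ k, KG N Q π i1 i2 q act k b a) := by
  have hne := classify_ne h h1 h2
  have hm := ch_mono (Q := Q) (ri := π (i1 k)) (rj := rj π i1 i2 act k) (w := d0 N + k + 1) hst ht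
  rw [← ha, ← hb] at hm
  rcases lt_or_gt_of_ne hne with hr | hr
  · refine ⟨fun _ => ⟨k, h1, h2, s, t, hc, Or.inl ⟨hr, ha, hb⟩⟩, fun hl => ?_⟩
    exact absurd (lt3_trans hl (hm.1 hr)) (lt3_irrefl _)
  · refine ⟨fun hl => ?_, fun _ => ⟨k, h1, h2, s, t, hc, Or.inr ⟨hr, ha, hb⟩⟩⟩
    exact absurd (lt3_trans hl (hm.2 hr)) (lt3_irrefl _)

private theorem classify_ep {N M Q : ℕ} {π i1 i2 q : ℕ → ℕ} {act : ℕ → Bool}
    (h : Hy N M Q π i1 i2 q act) (hN : 1 ≤ N) (x y : Cd) (he : EP N M Q i1 i2 q act x y)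
    (P : ℕ × ℕ × ℕ → ℕ × ℕ × ℕ → Prop)
    (hP : ∀ u v, (KF N u v ∨ KL N M u v ∨ (∃ w, KT N M w u v) ∨
      ∃ k, KG N Q π i1 i2 q act k u v) → P u v) :
    (lt3 (co N M Q π i1 i2 act x) (co N M Q π i1 i2 act y) →
      P (co N M Q π i1 i2 act x) (co N M Q π i1 i2 act y)) ∧
    (lt3 (co N M Q π i1 i2 act y) (co N M Q π i1 i2 act x) →
      P (co N M Q π i1 i2 act y) (co N M Q π i1 i2 act x)) := by
  have hmw : mw N = 5 * N + 7 := rfl
  have hd0 : d0 N = 2 * N + 2 := rfl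
  obtain ⟨x1, x2, x3⟩ := x
  obtain ⟨y1, y2, y3⟩ := y
  unfold EP at he
  dsimp only at he
  rcases he with ⟨rfl, rfl, rfl, rfl, rfl, rfl⟩ | ⟨rfl, rfl, a1, rfl, a2, rfl⟩ |
    ⟨rfl, rfl, rfl, rfl, a1, a2⟩ | ⟨rfl, rfl, rfl, rfl, ⟨rfl, rfl⟩ | ⟨rfl, a1⟩⟩ |
    ⟨rfl, rfl, rfl, rfl, a1, rfl, a2⟩ | ⟨rfl, rfl, rfl, rfl, a1, rfl⟩ |
    ⟨rfl, rfl, rfl, rfl, a1, a2, a3⟩ | ⟨rfl, rfl, rfl, a1, a2, rfl, a3⟩ |
    ⟨rfl, rfl, rfl, rfl, a1, a2⟩ | ⟨rfl, rfl, rfl, a1, a2, rfl, a3, rfl, a4⟩ |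
    ⟨rfl, rfl, rfl, a1, a2, a3, rfl, a4⟩ | ⟨rfl, rfl, rfl, a1, a2, rfl, a3, rfl, a4, a5, a6⟩
  · -- hub hub
    have e1 : co N M Q π i1 i2 act (0, 0, 0) = (0, 0, 0) := if_pos rfl
    have e2 : co N M Q π i1 i2 act (0, 1, 0) = (mw N + 1, 0, 0) := by
      unfold co
      rw [if_neg (by simp), if_pos rfl]
    rw [e1, e2]
    refine ⟨fun _ => hP _ _ (Or.inl ⟨0, mw N + 1, rfl, rfl, by omega, le_rfl, Or.inl rfl⟩),
      fun hl => ?_⟩
    unfold lt3 at hl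
    dsimp only at hl
    omega
  · -- hub wall
    rw [classify_c1 a2]
    obtain rfl | rfl : x2 = 0 ∨ x2 = 1 := by omega
    · have e1 : co N M Q π i1 i2 act (0, 0, 0) = (0, 0, 0) := if_pos rfl
      rw [e1]
      refine ⟨fun _ => hP _ _ (Or.inl ⟨0, y2 + 1, rfl, rfl, by omega, by omega, Or.inl rfl⟩),
        fun hl => ?_⟩
      unfold lt3 at hl
      dsimp only at hl
      omega
    · have e2 : co N M Q π i1 i2 act (0, 1, 0) = (mw N + 1, 0, 0) := by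
        unfold co
        rw [if_neg (by simp), if_pos rfl]
      rw [e2]
      refine ⟨fun hl => ?_, fun _ => hP _ _
        (Or.inl ⟨y2 + 1, mw N + 1, rfl, rfl, by omega, le_rfl, Or.inr (Or.inl rfl)⟩)⟩
      unfold lt3 at hl
      dsimp only at hl
      omega
  · -- wall wall
    rw [classify_c1 a1, classify_c1 (show x2 < mw N by omega)]
    refine ⟨fun _ => hP _ _ (Or.inl ⟨x2 + 1, y2 + 1, rfl, rfl, by omega, by omega,
      Or.inr (Or.inr (by omega))⟩), fun hl => ?_⟩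
    unfold lt3 at hl
    dsimp only at hl
    omega
  · -- `t_0`, first special vertex
    rw [classify_c1 (show d0 N < mw N by omega), classify_c2 le_rfl hN]
    refine ⟨fun _ => hP _ _ (Or.inr (Or.inr (Or.inl ⟨d0 N + 1, Or.inr (Or.inl
      ⟨rfl, rfl, Or.inl rfl⟩)⟩))), fun hl => ?_⟩
    unfold lt3 at hl
    dsimp only at hl
    omega
  · -- last special vertex
    rw [a1, classify_c1 (show d0 N + N + 2 < mw N by omega), classify_c2 hN le_rfl]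
    refine ⟨fun hl => ?_, fun _ => hP _ _ (Or.inr (Or.inr (Or.inl ⟨d0 N + N + 1, Or.inr (Or.inr
      ⟨rfl, rfl, Or.inl rfl⟩)⟩)))⟩
    unfold lt3 at hl
    dsimp only at hl
    omega
  · -- special wire
    rw [classify_c2 a1 (by omega), classify_c2 (by omega) a2]
    refine ⟨fun _ => hP _ _ (Or.inr (Or.inr (Or.inl ⟨d0 N + x2 + 1, Or.inl
      ⟨by omega, by omega, Or.inl ⟨rfl, rfl⟩⟩⟩))), fun hl => ?_⟩
    unfold lt3 at hl
    dsimp only at hl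
    omega
  · -- `t_0`, first vertex of a wire
    rw [classify_c1 (show d0 N < mw N by omega), classify_c3 a1 le_rfl hN]
    refine ⟨fun _ => hP _ _ (Or.inr (Or.inr (Or.inl ⟨d0 N + 1, Or.inr (Or.inl
      ⟨rfl, rfl, Or.inr ⟨π y2, h.lt y2 a1, rfl⟩⟩)⟩))), fun hl => ?_⟩
    unfold lt3 at hl
    dsimp only at hl
    omega
  · -- link
    rw [classify_c3 a1 a2 a3, classify_c4 a1 a2 a3]
    have hlt := h.lt x2 a1
    refine ⟨fun _ => hP _ _ (Or.inr (Or.inl ⟨d0 N + x3 + 1, π x2, rfl, rfl, hlt,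
      by omega, by omega⟩)), fun hl => ?_⟩
    unfold lt3 at hl
    dsimp only at hl
    omega
  · -- next zone
    rw [classify_c4 a1 a2 (by omega), classify_c3 a1 (by omega) a3]
    refine ⟨fun _ => hP _ _ (Or.inr (Or.inr (Or.inl ⟨d0 N + x3 + 1, Or.inl
      ⟨by omega, by omega, Or.inr ⟨π x2, h.lt x2 a1, rfl, rfl⟩⟩⟩))), fun hl => ?_⟩
    unfold lt3 at hl
    dsimp only at hl
    omega
  · -- last vertex of a wire
    rw [a2, classify_c1 (show d0 N + N + 2 < mw N by omega), classify_c4 a1 hN le_rfl]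
    refine ⟨fun hl => ?_, fun _ => hP _ _ (Or.inr (Or.inr (Or.inl ⟨d0 N + N + 1, Or.inr (Or.inr
      ⟨rfl, rfl, Or.inr ⟨π y2, h.lt y2 a1, rfl⟩⟩)⟩)))⟩
    unfold lt3 at hl
    dsimp only at hl
    omega
  · -- first gadget edge
    rw [classify_c3 a3 a1 a2, classify_c5 a1 a2 le_rfl a4]
    have hg := classify_g (s := 0) (t := 1) h a1 a2 (by omega) (by omega) (Or.inl ⟨rfl, a4⟩)
      (a := (d0 N + x3 + 1, 2 * π (i1 x3) + 1, 0)) (by unfold ch; rw [if_pos rfl]) rfl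
    exact ⟨fun hl => hP _ _ (Or.inr (Or.inr (Or.inr (hg.1 hl)))),
      fun hl => hP _ _ (Or.inr (Or.inr (Or.inr (hg.2 hl))))⟩
  · -- gadget edge
    rw [classify_c5 a1 a2 a3 (by omega), classify_c5 a1 a2 (by omega) a4]
    have hg := classify_g (s := x3) (t := x3 + 1) h a1 a2 (by omega) (by omega)
      (Or.inl ⟨rfl, a4⟩) rfl rfl
    exact ⟨fun hl => hP _ _ (Or.inr (Or.inr (Or.inr (hg.1 hl)))),
      fun hl => hP _ _ (Or.inr (Or.inr (Or.inr (hg.2 hl))))⟩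
  · -- last gadget edge
    rw [classify_c5 a1 a2 a4 a5, classify_c3 a3 a1 a2]
    have e1 : rj π i1 i2 act x2 = π (i2 x2) := if_pos a6
    have hg := classify_g (s := q x2) (t := Q + 1) h a1 a2 (by omega) le_rfl
      (Or.inr ⟨rfl, rfl, a6⟩) (b := (d0 N + x2 + 1, 2 * π (i2 x2) + 1, 0)) rfl (by
        unfold ch
        rw [if_neg (by omega), if_pos rfl, e1])
    exact ⟨fun hl => hP _ _ (Or.inr (Or.inr (Or.inr (hg.1 hl)))),
      fun hl => hP _ _ (Or.inr (Or.inr (Or.inr (hg.2 hl))))⟩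

/-- CLASSIFICATION of the edges: by the twelve rows of `EP` (and the reversed edge: use `lt3 _ _` to
exclude the wrong orientation, `lt3_trans`, `lt3_irrefl`), evaluate `co` at both ends.
Rows 1-3 (hub-hub, hub-wall, wall-wall): `KF`. Row 4 (`t_0 - δ^1`, `δ^N - t_{N+2}`), row 5
(`δ^k - δ^{k+1}`), row 6 (`t_0 - v_i^1`), row 8 (`u_i^k - v_i^{k+1}`), row 9 (`u_i^N - t_{N+2}`): `KT`
with `w` = the column of the left end (for the wall `t_0`: `w = d0 N + 1`). Row 7: `KL`. Row 10: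
`KG` with `s = 0`, `t = 1` (`ch _ _ _ _ 0` is the coordinate of `v_{i1 k}^k`); row 11: `KG` with
`s`, `s + 1`; row 12: `KG` with `s = q k`, `t = Q + 1` (`rj = π (i2 k)` as `act k`). For `KG` the
orientation is decided by `ch_mono`; `π (i1 k) ≠ rj k`. -/
theorem classify {N M Q : ℕ} {π i1 i2 q : ℕ → ℕ} {act : ℕ → Bool} (h : Hy N M Q π i1 i2 q act)
    (hN : 1 ≤ N) (x y : Cd) (he : (Gr N M Q i1 i2 q act).Adj x y)
    (hlt : lt3 (co N M Q π i1 i2 act x) (co N M Q π i1 i2 act y)) :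
    KF N (co N M Q π i1 i2 act x) (co N M Q π i1 i2 act y) ∨
    KL N M (co N M Q π i1 i2 act x) (co N M Q π i1 i2 act y) ∨
    (∃ w, KT N M w (co N M Q π i1 i2 act x) (co N M Q π i1 i2 act y)) ∨
    ∃ k, KG N Q π i1 i2 q act k (co N M Q π i1 i2 act x) (co N M Q π i1 i2 act y) := by
  rcases he with he | he
  · exact (classify_ep h hN x y he (fun u v => KF N u v ∨ KL N M u v ∨ (∃ w, KT N M w u v) ∨
      ∃ k, KG N Q π i1 i2 q act k u v) (fun _ _ h => h)).1 hlt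
  · exact (classify_ep h hN y x he (fun u v => KF N u v ∨ KL N M u v ∨ (∃ w, KT N M w u v) ∨
      ∃ k, KG N Q π i1 i2 q act k u v) (fun _ _ h => h)).2 hlt
-- END classify

-- BEGIN kt_pairs
/-- normal form of `Cr` in coordinates -/
private theorem kt_cr {a b c a' b' c' a2 b2 c2 a3 b3 c3 : ℕ}
    (h : Cr (a, b, c) (a', b', c') (a2, b2, c2) (a3, b3, c3)) :
    ((a < a2 ∨ (a = a2 ∧ (b < b2 ∨ (b = b2 ∧ c < c2)))) ∧
      (a2 < a' ∨ (a2 = a' ∧ (b2 < b' ∨ (b2 = b' ∧ c2 < c')))) ∧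
      (a' < a3 ∨ (a' = a3 ∧ (b' < b3 ∨ (b' = b3 ∧ c' < c3))))) ∨
    ((a2 < a ∨ (a2 = a ∧ (b2 < b ∨ (b2 = b ∧ c2 < c)))) ∧
      (a < a3 ∨ (a = a3 ∧ (b < b3 ∨ (b = b3 ∧ c < c3)))) ∧
      (a3 < a' ∨ (a3 = a' ∧ (b3 < b' ∨ (b3 = b' ∧ c3 < c'))))) := h

/-- Chords over walls do not cross each other. If `w = w'`: in the first alternative of `KT` they are
nested (`3 M + 2 - r` decreases, `2 r + 1` increases with `r`; the special one is outermost), in the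
other two they share an end. If `w < w'` the right end of the first is not after the left end of the
second (second coordinate `≤ 2 M + 1` in column `w + 1`, resp. `≥ 2 M + 1`). -/
theorem kt_kt {N M w w' : ℕ} {x y x' y' : ℕ × ℕ × ℕ} (hN : 1 ≤ N) (h : KT N M w x y)
    (h' : KT N M w' x' y') : ¬ Cr x y x' y' := by
  intro hc
  rcases h with ⟨p1, p2, ⟨rfl, rfl⟩ | ⟨r, hr, rfl, rfl⟩⟩ | ⟨p1, rfl, rfl | ⟨r, hr, rfl⟩⟩ |
      ⟨p1, rfl, rfl | ⟨r, hr, rfl⟩⟩ <;>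
    rcases h' with ⟨q1, q2, ⟨rfl, rfl⟩ | ⟨r', hr', rfl, rfl⟩⟩ | ⟨q1, rfl, rfl | ⟨r', hr', rfl⟩⟩ |
      ⟨q1, rfl, rfl | ⟨r', hr', rfl⟩⟩ <;>
    have hc' := kt_cr hc <;> clear hc <;> omega

/-- links are nested or in different columns -/
theorem kl_kl {N M : ℕ} {x y x' y' : ℕ × ℕ × ℕ} (h : KL N M x y) (h' : KL N M x' y') :
    ¬ Cr x y x' y' := by
  intro hc
  obtain ⟨w, r, rfl, rfl, hr, hw1, hw2⟩ := h
  obtain ⟨w', r', rfl, rfl, hr', hw1', hw2'⟩ := h'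
  have hc' := kt_cr hc
  clear hc
  omega

/-- no wall or hub lies between the ends of a link -/
theorem kl_kf {N M : ℕ} {x y x' y' : ℕ × ℕ × ℕ} (h : KL N M x y) (h' : KF N x' y') :
    ¬ Cr x y x' y' ∧ ¬ Cr x' y' x y := by
  obtain ⟨w, r, rfl, rfl, hr, hw1, hw2⟩ := h
  obtain ⟨i, j, rfl, rfl, hij, hj, hk⟩ := h'
  constructor
  · intro hc
    have hc' := kt_cr hc
    clear hc
    omega
  · intro hc
    have hc' := kt_cr hc
    clear hc
    omega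

/-- a frame chord crossing a chord over the wall `(w+1,0,0)` has this wall as an end -/
theorem kt_kf {N M w : ℕ} {x y x' y' : ℕ × ℕ × ℕ} (h : KT N M w x y) (h' : KF N x' y')
    (hc : Cr x y x' y' ∨ Cr x' y' x y) : x' = (w + 1, 0, 0) ∨ y' = (w + 1, 0, 0) := by
  obtain ⟨i, j, rfl, rfl, hij, hj, hk⟩ := h'
  have key : i = w + 1 ∨ j = w + 1 := by
    rcases h with ⟨p1, p2, ⟨rfl, rfl⟩ | ⟨r, hr, rfl, rfl⟩⟩ | ⟨p1, rfl, rfl | ⟨r, hr, rfl⟩⟩ |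
        ⟨p1, rfl, rfl | ⟨r, hr, rfl⟩⟩ <;>
      rcases hc with hc | hc <;> have hc' := kt_cr hc <;> clear hc <;> omega
  rcases key with rfl | rfl
  · exact Or.inl rfl
  · exact Or.inr rfl

/-- no three frame chords cross pairwise: chords at a common end do not cross; a chord between
walls at distance `1` crosses nothing, a chord between walls at distance `2` only chords at the wall
in between; so all three are at a hub, two of them at the same hub, or one is the chord of both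
hubs, which crosses nothing -/
theorem kf_three {N : ℕ} {x y x' y' x'' y'' : ℕ × ℕ × ℕ} (h : KF N x y) (h' : KF N x' y')
    (h'' : KF N x'' y'') (c1 : Cr x y x' y') (c2 : Cr x y x'' y'') (c3 : Cr x' y' x'' y'') :
    False := by
  obtain ⟨i, j, rfl, rfl, hij, hj, hk⟩ := h
  obtain ⟨i', j', rfl, rfl, hij', hj', hk'⟩ := h'
  obtain ⟨i'', j'', rfl, rfl, hij'', hj'', hk''⟩ := h''
  have d1 := kt_cr c1
  have d2 := kt_cr c2
  have d3 := kt_cr c3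
  clear c1 c2 c3
  omega
-- END kt_pairs

-- BEGIN kg_star
private theorem kg_star_col (Q ri rj w t : ℕ) : (ch Q ri rj w t).1 = w := by
  unfold ch; split_ifs <;> rfl

private theorem kg_star_lt {Q ri rj w s t : ℕ} (hs : s ≤ Q + 1) (ht : t ≤ Q + 1) (hne : ri ≠ rj)
    (h : if ri < rj then lt3 (ch Q ri rj w s) (ch Q ri rj w t)
      else lt3 (ch Q ri rj w t) (ch Q ri rj w s)) : s < t := by
  by_contra hc
  rcases Nat.eq_or_lt_of_not_lt hc with e | e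
  · subst e
    split_ifs at h <;> exact lt3_irrefl _ h
  · have hm := ch_mono (ri := ri) (rj := rj) (w := w) e hs
    split_ifs at h with hr
    · exact lt3_irrefl _ (lt3_trans h (hm.1 hr))
    · exact lt3_irrefl _ (lt3_trans h (hm.2 (by omega)))

/-- Gadget chords do not cross each other: in different zones the columns differ; in one zone the
chain is strictly monotone (`ch_mono`), and the index intervals are `[s, s+1]` and `[q k, Q+1]`,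
which do not cross. -/
theorem kg_kg {N M Q : ℕ} {π i1 i2 q : ℕ → ℕ} {act : ℕ → Bool} (h : Hy N M Q π i1 i2 q act)
    {k k' : ℕ} {x y x' y' : ℕ × ℕ × ℕ} (a : KG N Q π i1 i2 q act k x y)
    (b : KG N Q π i1 i2 q act k' x' y') : ¬ Cr x y x' y' := by
  intro hc
  obtain ⟨k1, k2, s, t, hst, hx⟩ := a
  obtain ⟨k1', k2', s', t', hst', hx'⟩ := b
  have cx : x.1 = d0 N + k + 1 ∧ y.1 = d0 N + k + 1 := by
    rcases hx with ⟨_, rfl, rfl⟩ | ⟨_, rfl, rfl⟩ <;>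
      exact ⟨kg_star_col _ _ _ _ _, kg_star_col _ _ _ _ _⟩
  have cx' : x'.1 = d0 N + k' + 1 ∧ y'.1 = d0 N + k' + 1 := by
    rcases hx' with ⟨_, rfl, rfl⟩ | ⟨_, rfl, rfl⟩ <;>
      exact ⟨kg_star_col _ _ _ _ _, kg_star_col _ _ _ _ _⟩
  have hk : k = k' := by
    by_contra hne
    unfold Cr lt3 at hc
    omega
  subst hk
  have hq : act k = true → 1 ≤ q k ∧ q k ≤ Q := fun e => by
    have := h.h2 k k1 k2 e
    exact ⟨this.2.2.1, this.2.2.2.1⟩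
  have bs : s < t ∧ t ≤ Q + 1 ∧ (t = s + 1 ∨ t = Q + 1) := by
    rcases hst with ⟨e, e'⟩ | ⟨e, e', e''⟩
    · omega
    · have := hq e''; omega
  have bs' : s' < t' ∧ t' ≤ Q + 1 ∧ (t' = s' + 1 ∨ t' = Q + 1) := by
    rcases hst' with ⟨e, e'⟩ | ⟨e, e', e''⟩
    · omega
    · have := hq e''; omega
  rcases hx with ⟨o, rfl, rfl⟩ | ⟨o, rfl, rfl⟩
  · have hne : π (i1 k) ≠ rj π i1 i2 act k := by omega
    rcases hx' with ⟨o', rfl, rfl⟩ | ⟨o', rfl, rfl⟩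
    · rcases hc with ⟨c1, c2, c3⟩ | ⟨c1, c2, c3⟩
      · have e1 := kg_star_lt (Q := Q) (w := d0 N + k + 1) (s := s) (t := s') (by omega) (by omega) hne (by rwa [if_pos o])
        have e2 := kg_star_lt (Q := Q) (w := d0 N + k + 1) (s := s') (t := t) (by omega) (by omega) hne (by rwa [if_pos o])
        have e3 := kg_star_lt (Q := Q) (w := d0 N + k + 1) (s := t) (t := t') (by omega) (by omega) hne (by rwa [if_pos o])
        omega
      · have e1 := kg_star_lt (Q := Q) (w := d0 N + k + 1) (s := s') (t := s) (by omega) (by omega) hne (by rwa [if_pos o])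
        have e2 := kg_star_lt (Q := Q) (w := d0 N + k + 1) (s := s) (t := t') (by omega) (by omega) hne (by rwa [if_pos o])
        have e3 := kg_star_lt (Q := Q) (w := d0 N + k + 1) (s := t') (t := t) (by omega) (by omega) hne (by rwa [if_pos o])
        omega
    · omega
  · have hne : π (i1 k) ≠ rj π i1 i2 act k := by omega
    have no : ¬ π (i1 k) < rj π i1 i2 act k := by omega
    rcases hx' with ⟨o', rfl, rfl⟩ | ⟨o', rfl, rfl⟩
    · omega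
    · rcases hc with ⟨c1, c2, c3⟩ | ⟨c1, c2, c3⟩
      · have e1 := kg_star_lt (Q := Q) (w := d0 N + k + 1) (s := t') (t := t) (by omega) (by omega) hne (by rwa [if_neg no])
        have e2 := kg_star_lt (Q := Q) (w := d0 N + k + 1) (s := s) (t := t') (by omega) (by omega) hne (by rwa [if_neg no])
        have e3 := kg_star_lt (Q := Q) (w := d0 N + k + 1) (s := s') (t := s) (by omega) (by omega) hne (by rwa [if_neg no])
        omega
      · have e1 := kg_star_lt (Q := Q) (w := d0 N + k + 1) (s := t) (t := t') (by omega) (by omega) hne (by rwa [if_neg no])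
        have e2 := kg_star_lt (Q := Q) (w := d0 N + k + 1) (s := s') (t := t) (by omega) (by omega) hne (by rwa [if_neg no])
        have e3 := kg_star_lt (Q := Q) (w := d0 N + k + 1) (s := s) (t := s') (by omega) (by omega) hne (by rwa [if_neg no])
        omega

private theorem kg_star_in {M w : ℕ} {x y e : ℕ × ℕ × ℕ} (x1 : x.1 = w) (y1 : y.1 = w)
    (x2 : 1 ≤ x.2.1) (y2 : y.2.1 ≤ 2 * M) (xy : y.2.1 ≤ x.2.1 + 3)
    (ox : x.2.1 % 2 = 1 → x.2.2 = 0) (oy : y.2.1 % 2 = 1 → y.2.2 = 0)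
    (he : e.2.2 = 0 ∧ (e.2.1 = 0 ∨ e.2.1 % 2 = 1 ∨ 2 * M + 1 ≤ e.2.1))
    (l1 : lt3 x e) (l2 : lt3 e y) : e = (w, x.2.1 + 1 + x.2.1 % 2, 0) := by
  obtain ⟨e1, e2, e3⟩ := e
  obtain ⟨u1, u2, u3⟩ := x
  obtain ⟨v1, v2, v3⟩ := y
  unfold lt3 at l1 l2
  simp only at *
  have h1 : e1 = w := by omega
  have h2 : e2 = u2 + 1 + u2 % 2 := by omega
  have h3 : e3 = 0 := he.1
  rw [h1, h2, h3]

private theorem kg_star_ends {N M : ℕ} {x y : ℕ × ℕ × ℕ}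
    (h : KF N x y ∨ KL N M x y ∨ ∃ w, KT N M w x y) :
    (x.2.2 = 0 ∧ (x.2.1 = 0 ∨ x.2.1 % 2 = 1 ∨ 2 * M + 1 ≤ x.2.1)) ∧
      (y.2.2 = 0 ∧ (y.2.1 = 0 ∨ y.2.1 % 2 = 1 ∨ 2 * M + 1 ≤ y.2.1)) := by
  rcases h with ⟨i, j, rfl, rfl, _⟩ | ⟨w, r, rfl, rfl, hr, _⟩ | ⟨w, h⟩
  · exact ⟨⟨rfl, Or.inl rfl⟩, rfl, Or.inl rfl⟩
  · refine ⟨⟨rfl, ?_⟩, rfl, ?_⟩
    · exact Or.inr (Or.inl (show (2 * r + 1) % 2 = 1 by omega))
    · exact Or.inr (Or.inr (show 2 * M + 1 ≤ 3 * M + 2 - r by omega))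
  · unfold KT at h
    rcases h with ⟨_, _, ⟨rfl, rfl⟩ | ⟨r, hr, rfl, rfl⟩⟩ | ⟨_, rfl, rfl | ⟨r, hr, rfl⟩⟩ |
      ⟨_, rfl, rfl | ⟨r, hr, rfl⟩⟩
    · exact ⟨⟨rfl, Or.inr (Or.inr le_rfl)⟩, rfl, Or.inr (Or.inr le_rfl)⟩
    · exact ⟨⟨rfl, Or.inr (Or.inr (show 2 * M + 1 ≤ 3 * M + 2 - r by omega))⟩, rfl,
        Or.inr (Or.inl (show (2 * r + 1) % 2 = 1 by omega))⟩
    · exact ⟨⟨rfl, Or.inl rfl⟩, rfl, Or.inr (Or.inr le_rfl)⟩
    · exact ⟨⟨rfl, Or.inl rfl⟩, rfl, Or.inr (Or.inl (show (2 * r + 1) % 2 = 1 by omega))⟩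
    · exact ⟨⟨rfl, Or.inr (Or.inr le_rfl)⟩, rfl, Or.inl rfl⟩
    · exact ⟨⟨rfl, Or.inr (Or.inr (show 2 * M + 1 ≤ 3 * M + 2 - r by omega))⟩, rfl,
        Or.inl rfl⟩

/-- A link or a chord over a wall crossing a gadget chord `(x,y)` of zone `k` has the end
`(d0 N + k + 1, 2 r + 1, 0)` strictly between `x` and `y`, where `r` does not depend on the
chord: the ends of `(x,y)` have second coordinates in `[1, 2M]` at distance `≤ 3` (`ch_col`,
`ch_span`), so at most one odd number is strictly between them. State: there is `c` such that all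
`KF`, `KL`, `KT` chords crossing `(x,y)` have the end `c`. (`KF`: never; ends of the form
`(n,0,0)` are not inside.) -/
theorem kg_star {N M Q : ℕ} {π i1 i2 q : ℕ → ℕ} {act : ℕ → Bool} (h : Hy N M Q π i1 i2 q act)
    {k : ℕ} {x y : ℕ × ℕ × ℕ} (a : KG N Q π i1 i2 q act k x y) :
    ∃ c, ∀ x' y', (KF N x' y' ∨ KL N M x' y' ∨ ∃ w, KT N M w x' y') →
      (Cr x y x' y' ∨ Cr x' y' x y) → x' = c ∨ y' = c := by
  obtain ⟨k1, k2, s, t, hst, hx⟩ := a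
  have hr : π (i1 k) < M := h.lt _ (h.h1 k k1 k2)
  have hq := h.h2 k k1 k2
  have hne : π (i1 k) ≠ rj π i1 i2 act k := by
    rcases hx with ⟨o, _⟩ | ⟨o, _⟩ <;> omega
  have hts : t ≤ Q + 1 ∧ s ≤ Q + 1 ∧ s ≤ Q := by
    rcases hst with ⟨e, e'⟩ | ⟨e, e', e''⟩
    · omega
    · have := hq e''; omega
  have hj : ∀ u, u ≤ Q + 1 → (u = Q + 1 → u = t) →
      rj π i1 i2 act k < M ∨ (rj π i1 i2 act k = π (i1 k) + 1 ∧ u ≤ Q) := by
    intro u hu hut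
    by_cases ha : act k = true
    · left; unfold rj; rw [if_pos ha]; exact h.lt _ (hq ha).1
    · right
      refine ⟨by unfold rj; rw [if_neg ha], ?_⟩
      by_contra hc
      have : u = Q + 1 := by omega
      have := hut this
      rcases hst with ⟨e, e'⟩ | ⟨e, e', e''⟩
      · omega
      · exact ha e''
  have ct := ch_col (Q := Q) (w := d0 N + k + 1) (t := t) hr (hj t hts.1 (fun _ => rfl)) hts.1 hne
  have cs := ch_col (Q := Q) (w := d0 N + k + 1) (t := s) hr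
    (hj s hts.2.1 (fun e => by omega)) hts.2.1 hne
  have sp := ch_span (Q := Q) (w := d0 N + k + 1) (s := s) (t := t) (q := q k) h.hQ hne (by
    rcases hst with ⟨e, e'⟩ | ⟨e, e', e''⟩
    · exact Or.inl ⟨e, e'⟩
    · right
      have := hq e''
      have e3 : rj π i1 i2 act k = π (i2 k) := by unfold rj; rw [if_pos e'']
      rw [e3]
      exact ⟨e, e', this.2.2.1, this.2.2.2.1, this.2.2.2.2.1, this.2.2.2.2.2⟩)
  have main : x.1 = d0 N + k + 1 ∧ y.1 = d0 N + k + 1 ∧ 1 ≤ x.2.1 ∧ y.2.1 ≤ 2 * M ∧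
      y.2.1 ≤ x.2.1 + 3 ∧ (x.2.1 % 2 = 1 → x.2.2 = 0) ∧ (y.2.1 % 2 = 1 → y.2.2 = 0) := by
    rcases hx with ⟨_, rfl, rfl⟩ | ⟨_, rfl, rfl⟩
    · exact ⟨cs.1, ct.1, cs.2.1, ct.2.2.1, sp.1, cs.2.2.2, ct.2.2.2⟩
    · exact ⟨ct.1, cs.1, ct.2.1, cs.2.2.1, sp.2, ct.2.2.2, cs.2.2.2⟩
  obtain ⟨m1, m2, m3, m4, m5, m6, m7⟩ := main
  refine ⟨(d0 N + k + 1, x.2.1 + 1 + x.2.1 % 2, 0), fun x' y' hk hcr => ?_⟩
  have he := kg_star_ends hk
  have hin : (lt3 x x' ∧ lt3 x' y) ∨ (lt3 x y' ∧ lt3 y' y) := by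
    rcases hcr with (⟨a1, a2, _⟩ | ⟨_, a2, a3⟩) | (⟨_, a2, a3⟩ | ⟨a1, a2, _⟩)
    · exact Or.inl ⟨a1, a2⟩
    · exact Or.inr ⟨a2, a3⟩
    · exact Or.inr ⟨a2, a3⟩
    · exact Or.inl ⟨a1, a2⟩
  rcases hin with ⟨a1, a2⟩ | ⟨a1, a2⟩
  · exact Or.inl (kg_star_in m1 m2 m3 m4 m5 m6 m7 he.1 a1 a2)
  · exact Or.inr (kg_star_in m1 m2 m3 m4 m5 m6 m7 he.2 a1 a2)
-- END kg_star

-- BEGIN comp
/-- Two chords with a common end do not cross. -/
theorem cr_common {x y x' y' c : ℕ × ℕ × ℕ} (h : x = c ∨ y = c) (h' : x' = c ∨ y' = c)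
    (hxy : lt3 x y) (hxy' : lt3 x' y') : ¬ Cr x y x' y' := by
  intro hc
  have hi := lt3_irrefl
  rcases hc with ⟨a1, a2, a3⟩ | ⟨a1, a2, a3⟩ <;> rcases h with rfl | rfl <;>
    rcases h' with h' | h' <;> subst h'
  · exact hi _ a1
  · exact hi _ (lt3_trans hxy a3)
  · exact hi _ a2
  · exact hi _ a3
  · exact hi _ a1
  · exact hi _ a2
  · exact hi _ (lt3_trans hxy' a3)
  · exact hi _ a3

/-- crossing is symmetric -/
private theorem comp_symm {x y x' y' : ℕ × ℕ × ℕ} (h : Cr x y x' y') : Cr x' y' x y := by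
  rcases h with ⟨a1, a2, a3⟩ | ⟨a1, a2, a3⟩
  · exact Or.inr ⟨a1, a2, a3⟩
  · exact Or.inl ⟨a1, a2, a3⟩

/-- one of the three chords is a gadget chord, the others are not -/
private theorem comp_kg {N M Q : ℕ} {π i1 i2 q : ℕ → ℕ} {act : ℕ → Bool}
    (h : Hy N M Q π i1 i2 q act) {k : ℕ} {x y x' y' x'' y'' : ℕ × ℕ × ℕ}
    (a : KG N Q π i1 i2 q act k x y) (h2 : KF N x' y' ∨ KL N M x' y' ∨ ∃ w, KT N M w x' y')
    (h3 : KF N x'' y'' ∨ KL N M x'' y'' ∨ ∃ w, KT N M w x'' y'') (l2 : lt3 x' y')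
    (l3 : lt3 x'' y'') (c1 : Cr x y x' y') (c2 : Cr x y x'' y'') (c3 : Cr x' y' x'' y'') :
    False := by
  obtain ⟨c, hc⟩ := kg_star h a
  exact cr_common (hc _ _ h2 (Or.inl c1)) (hc _ _ h3 (Or.inl c2)) l2 l3 c3

/-- one of the three chords passes over a wall, the others are frame chords or links -/
private theorem comp_kt {N M w : ℕ} {x y x' y' x'' y'' : ℕ × ℕ × ℕ} (a : KT N M w x y)
    (h2 : KF N x' y' ∨ KL N M x' y') (h3 : KF N x'' y'' ∨ KL N M x'' y'') (l2 : lt3 x' y')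
    (l3 : lt3 x'' y'') (c1 : Cr x y x' y') (c2 : Cr x y x'' y'') (c3 : Cr x' y' x'' y'') :
    False := by
  rcases h2 with h2 | h2 <;> rcases h3 with h3 | h3
  · exact cr_common (kt_kf a h2 (Or.inl c1)) (kt_kf a h3 (Or.inl c2)) l2 l3 c3
  · exact (kl_kf h3 h2).2 c3
  · exact (kl_kf h2 h3).1 c3
  · exact kl_kl h2 h3 c3

/-- all three chords are frame chords or links -/
private theorem comp_kf {N M : ℕ} {x y x' y' x'' y'' : ℕ × ℕ × ℕ}
    (h1 : KF N x y ∨ KL N M x y)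
    (h2 : KF N x' y' ∨ KL N M x' y') (h3 : KF N x'' y'' ∨ KL N M x'' y'')
    (c1 : Cr x y x' y') (c2 : Cr x y x'' y'') (c3 : Cr x' y' x'' y'') : False := by
  rcases h1 with h1 | h1 <;> rcases h2 with h2 | h2
  · rcases h3 with h3 | h3
    · exact kf_three h1 h2 h3 c1 c2 c3
    · exact (kl_kf h3 h1).2 c2
  · exact (kl_kf h2 h1).2 c1
  · exact (kl_kf h1 h2).1 c1
  · exact kl_kl h1 h2 c1

/-- no gadget chord among the three -/
private theorem comp_no {N M : ℕ} (hN : 1 ≤ N) {x y x' y' x'' y'' : ℕ × ℕ × ℕ}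
    (h1 : KF N x y ∨ KL N M x y ∨ ∃ w, KT N M w x y)
    (h2 : KF N x' y' ∨ KL N M x' y' ∨ ∃ w, KT N M w x' y')
    (h3 : KF N x'' y'' ∨ KL N M x'' y'' ∨ ∃ w, KT N M w x'' y'')
    (l1 : lt3 x y) (l2 : lt3 x' y') (l3 : lt3 x'' y'')
    (c1 : Cr x y x' y') (c2 : Cr x y x'' y'') (c3 : Cr x' y' x'' y'') : False := by
  have g : ∀ {u v : ℕ × ℕ × ℕ}, (KF N u v ∨ KL N M u v ∨ ∃ w, KT N M w u v) →
      (KF N u v ∨ KL N M u v) ∨ ∃ w, KT N M w u v := by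
    intro u v h
    rcases h with h | h | h
    · exact Or.inl (Or.inl h)
    · exact Or.inl (Or.inr h)
    · exact Or.inr h
  rcases g h1 with h1 | ⟨w1, h1⟩ <;> rcases g h2 with h2 | ⟨w2, h2⟩ <;>
    rcases g h3 with h3 | ⟨w3, h3⟩
  · exact comp_kf h1 h2 h3 c1 c2 c3
  · exact comp_kt h3 h1 h2 l1 l2 (comp_symm c2) (comp_symm c3) c1
  · exact comp_kt h2 h1 h3 l1 l3 (comp_symm c1) c3 c2
  · exact kt_kt hN h2 h3 c3
  · exact comp_kt h1 h2 h3 l2 l3 c1 c2 c3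
  · exact kt_kt hN h1 h3 c2
  · exact kt_kt hN h1 h2 c1
  · exact kt_kt hN h1 h2 c1

/-- NO THREE PAIRWISE CROSSING CHORDS. Proof. Each of the three is `KF`, `KL`, `KT` or `KG`. If one
is `KG`: the other two are not `KG` (`kg_kg`; `Cr` is symmetric), so by `kg_star` they have a common
end, `cr_common`. Otherwise, if one is `KT` (wall `w`): the other two are `KF` or `KL` (`kt_kt`); two
`KL`: `kl_kl`; `KL` and `KF`: `kl_kf`; two `KF`: both have the end `(w+1,0,0)` (`kt_kf`),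
`cr_common`. Otherwise all are `KF` or `KL`: two different kinds: `kl_kf`; all `KL`: `kl_kl`; all
`KF`: `kf_three`. -/
theorem comp3 {N M Q : ℕ} {π i1 i2 q : ℕ → ℕ} {act : ℕ → Bool} (h : Hy N M Q π i1 i2 q act)
    (hN : 1 ≤ N) {x y x' y' x'' y'' : ℕ × ℕ × ℕ}
    (h1 : KF N x y ∨ KL N M x y ∨ (∃ w, KT N M w x y) ∨ ∃ k, KG N Q π i1 i2 q act k x y)
    (h2 : KF N x' y' ∨ KL N M x' y' ∨ (∃ w, KT N M w x' y') ∨
      ∃ k, KG N Q π i1 i2 q act k x' y')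
    (h3 : KF N x'' y'' ∨ KL N M x'' y'' ∨ (∃ w, KT N M w x'' y'') ∨
      ∃ k, KG N Q π i1 i2 q act k x'' y'')
    (l1 : lt3 x y) (l2 : lt3 x' y') (l3 : lt3 x'' y'')
    (c1 : Cr x y x' y') (c2 : Cr x y x'' y'') (c3 : Cr x' y' x'' y'') : False := by
  have g : ∀ {u v : ℕ × ℕ × ℕ}, (KF N u v ∨ KL N M u v ∨ (∃ w, KT N M w u v) ∨
      ∃ k, KG N Q π i1 i2 q act k u v) →
      (KF N u v ∨ KL N M u v ∨ ∃ w, KT N M w u v) ∨ ∃ k, KG N Q π i1 i2 q act k u v := by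
    intro u v h
    rcases h with h | h | h | h
    · exact Or.inl (Or.inl h)
    · exact Or.inl (Or.inr (Or.inl h))
    · exact Or.inl (Or.inr (Or.inr h))
    · exact Or.inr h
  rcases g h1 with h1 | ⟨k1, h1⟩ <;> rcases g h2 with h2 | ⟨k2, h2⟩ <;>
    rcases g h3 with h3 | ⟨k3, h3⟩
  · exact comp_no hN h1 h2 h3 l1 l2 l3 c1 c2 c3
  · exact comp_kg h h3 h1 h2 l1 l2 (comp_symm c2) (comp_symm c3) c1
  · exact comp_kg h h2 h1 h3 l1 l3 (comp_symm c1) c3 c2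
  · exact kg_kg h h2 h3 c3
  · exact comp_kg h h1 h2 h3 l2 l3 c1 c2 c3
  · exact kg_kg h h1 h3 c2
  · exact kg_kg h h1 h2 c1
  · exact kg_kg h h1 h2 c1
-- END comp

-- BEGIN complete
/-- COMPLETENESS. `cd` embeds a finite vertex set into the codes. Proof: `lt3_rank` for
`co ∘ cd` (`co_inj`). Given three edges, orient each so that the first end has the smaller place
(`Alt` is unchanged by exchanging the ends of a chord: `min`, `max` are symmetric); then `Alt`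
becomes `Cr` of the coordinates; `classify`, `comp3`. -/
theorem complete {N M Q : ℕ} {π i1 i2 q : ℕ → ℕ} {act : ℕ → Bool} (h : Hy N M Q π i1 i2 q act)
    (hN : 1 ≤ N) {V : Type} [Fintype V] (cd : V → Cd) (hcd : Function.Injective cd) :
    ConvexQuasi 3 ((Gr N M Q i1 i2 q act).comap cd) := by
  obtain ⟨p, hp, hlt⟩ := lt3_rank (fun v => co N M Q π i1 i2 act (cd v))
    ((co_inj h).comp hcd)
  refine ⟨p, hp, ?_⟩
  rintro ⟨e, he, hc⟩
  have key : ∀ i, ∃ a b, (Gr N M Q i1 i2 q act).Adj (cd a) (cd b) ∧ p a < p b ∧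
      min (p (e i).1) (p (e i).2) = p a ∧ max (p (e i).1) (p (e i).2) = p b := by
    intro i
    have h1 : (Gr N M Q i1 i2 q act).Adj (cd (e i).1) (cd (e i).2) := he i
    have h2 : p (e i).1 ≠ p (e i).2 := fun h3 => (he i).ne (hp h3)
    rcases lt_or_gt_of_ne h2 with h3 | h3
    · exact ⟨_, _, h1, h3, min_eq_left h3.le, max_eq_right h3.le⟩
    · exact ⟨_, _, h1.symm, h3, min_eq_right h3.le, max_eq_left h3.le⟩
  choose a b hab hlt' hmin hmax using key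
  have hcr : ∀ i j, i ≠ j → Cr (co N M Q π i1 i2 act (cd (a i))) (co N M Q π i1 i2 act (cd (b i)))
      (co N M Q π i1 i2 act (cd (a j))) (co N M Q π i1 i2 act (cd (b j))) := by
    intro i j hij
    have h1 := hc i j hij
    unfold Alt at h1
    rw [hmin i, hmax i, hmin j, hmax j] at h1
    rcases h1 with ⟨h2, h3, h4⟩ | ⟨h2, h3, h4⟩
    · exact Or.inl ⟨(hlt _ _).1 h2, (hlt _ _).1 h3, (hlt _ _).1 h4⟩
    · exact Or.inr ⟨(hlt _ _).1 h2, (hlt _ _).1 h3, (hlt _ _).1 h4⟩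
  have hcl := fun i => classify h hN (cd (a i)) (cd (b i)) (hab i) ((hlt _ _).1 (hlt' i))
  exact comp3 h hN (hcl 0) (hcl 1) (hcl 2) ((hlt _ _).1 (hlt' 0)) ((hlt _ _).1 (hlt' 1))
    ((hlt _ _).1 (hlt' 2)) (hcr 0 1 (by decide)) (hcr 0 2 (by decide)) (hcr 1 2 (by decide))
-- END complete

end Pool.Agent.Cqp
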