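import Mathlib
import Pool.Agent.Cqp.Defs
import Pool.Agent.Cqp.ColDB
import Pool.Agent.NPC.More
import Pool.Agent.NPC.ColFamily

set_option autoImplicit false

/-!
# The adjacency of the reduction graph is polynomial time computable
-/

namespace Pool.Agent.Cqp

open Pool.NPC

-- BEGIN epB
/-- `EP` as a Boolean -/
def epB (N M Q : ℕ) (i1 i2 q : ℕ → ℕ) (act : ℕ → Bool) (x0 x1 x2 y0 y1 y2 : ℕ) : Bool :=
  (decide (x0 = 0) && decide (y0 = 0) && decide (x1 = 0) && decide (x2 = 0) && decide (y1 = 1) &&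
    decide (y2 = 0)) ||
  (decide (x0 = 0) && decide (y0 = 1) && decide (x1 < 2) && decide (x2 = 0) &&
    decide (y1 < 5 * N + 7) && decide (y2 = 0)) ||
  (decide (x0 = 1) && decide (y0 = 1) && decide (x2 = 0) && decide (y2 = 0) &&
    decide (y1 < 5 * N + 7) && (decide (y1 = x1 + 1) || decide (y1 = x1 + 2))) ||
  (decide (x0 = 1) && decide (y0 = 2) && decide (x2 = 0) && decide (y2 = 0) &&
    ((decide (x1 = 2 * N + 2) && decide (y1 = 1)) ||
      (decide (x1 = 2 * N + 2 + N + 2) && decide (y1 = N)))) ||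
  (decide (x0 = 2) && decide (y0 = 2) && decide (x2 = 0) && decide (y2 = 0) && decide (1 ≤ x1) &&
    decide (y1 = x1 + 1) && decide (y1 ≤ N)) ||
  (decide (x0 = 1) && decide (y0 = 3) && decide (x2 = 0) && decide (x1 = 2 * N + 2) &&
    decide (y1 < M) && decide (y2 = 1)) ||
  (decide (x0 = 3) && decide (y0 = 4) && decide (x1 = y1) && decide (x2 = y2) &&
    decide (x1 < M) && decide (1 ≤ x2) && decide (x2 ≤ N)) ||
  (decide (x0 = 4) && decide (y0 = 3) && decide (x1 = y1) && decide (x1 < M) &&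
    decide (1 ≤ x2) && decide (y2 = x2 + 1) && decide (y2 ≤ N)) ||
  (decide (x0 = 1) && decide (y0 = 4) && decide (x2 = 0) && decide (x1 = 2 * N + 2 + N + 2) &&
    decide (y1 < M) && decide (y2 = N)) ||
  (decide (x0 = 3) && decide (y0 = 5) && decide (x2 = y1) && decide (1 ≤ x2) &&
    decide (x2 ≤ N) && decide (x1 = i1 x2) && decide (x1 < M) && decide (y2 = 1) &&
    decide (1 ≤ Q)) ||
  (decide (x0 = 5) && decide (y0 = 5) && decide (x1 = y1) && decide (1 ≤ x1) &&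
    decide (x1 ≤ N) && decide (1 ≤ x2) && decide (y2 = x2 + 1) && decide (y2 ≤ Q)) ||
  (decide (x0 = 5) && decide (y0 = 3) && decide (x1 = y2) && decide (1 ≤ x1) &&
    decide (x1 ≤ N) && decide (y1 = i2 x1) && decide (y1 < M) && decide (x2 = q x1) &&
    decide (1 ≤ x2) && decide (x2 ≤ Q) && act x1)

/-- Proof: `unfold epB EP mw d0; simp [...]; tauto`-like; if slow, split the twelve rows. -/
theorem epB_iff (N M Q : ℕ) (i1 i2 q : ℕ → ℕ) (act : ℕ → Bool) (x y : Cd) :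
    epB N M Q i1 i2 q act x.1 x.2.1 x.2.2 y.1 y.2.1 y.2.2 = true ↔ EP N M Q i1 i2 q act x y := by
  unfold epB EP mw d0
  simp only [Bool.or_eq_true, Bool.and_eq_true, decide_eq_true_eq, and_assoc, or_assoc]

/-- Proof: closure rules `PT.or`, `PT.and`, `PT.eq`, `PT.lt`, `PT.le`, `PT.add`, `PT.mul`,
`PT.const` (file `Pool/Agent/NPC/Arith.lean`); write the proof term row by row, in the style of
`PT.half` in `Pool/Agent/NPC/ColFamily.lean`. -/
theorem PT.epB {α : Type} [Enc α] {N M Q x0 x1 x2 y0 y1 y2 : α → ℕ} {i1 i2 q : α → ℕ → ℕ}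
    {act : α → ℕ → Bool} (hN : PT N) (hM : PT M) (hQ : PT Q) (h0 : PT x0) (h1 : PT x1)
    (h2 : PT x2) (k0 : PT y0) (k1 : PT y1) (k2 : PT y2)
    (hi1 : ∀ {f : α → ℕ}, PT f → PT (fun s => i1 s (f s)))
    (hi2 : ∀ {f : α → ℕ}, PT f → PT (fun s => i2 s (f s)))
    (hq : ∀ {f : α → ℕ}, PT f → PT (fun s => q s (f s)))
    (hact : ∀ {f : α → ℕ}, PT f → PT (fun s => act s (f s))) :
    PT (fun s => epB (N s) (M s) (Q s) (i1 s) (i2 s) (q s) (act s) (x0 s) (x1 s) (x2 s) (y0 s)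
      (y1 s) (y2 s)) := by
  unfold Pool.Agent.Cqp.epB
  repeat' first
    | exact hN | exact hM | exact hQ | exact h0 | exact h1 | exact h2 | exact k0 | exact k1
    | exact k2 | exact PT.const _ | apply PT.or | apply PT.and | apply PT.eq | apply PT.lt
    | apply PT.le | apply PT.add | apply PT.mul | apply hi1 | apply hi2 | apply hq | apply hact
-- END epB

-- BEGIN ptca
private theorem ptca_Mn {α : Type} [Enc α] {n : α → ℕ} (hn : PT n) : PT (fun s => Mn (n s)) := by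
  unfold Mn
  exact PT.add (PT.mul (PT.const 8) hn) (PT.const 1)

private theorem ptca_ne {α : Type} [Enc α] {f g : α → ℕ} (hf : PT f) (hg : PT g) :
    PT (fun s => decide (f s ≠ g s)) :=
  (PT.not (PT.eq hf hg)).congr fun s => by
    by_cases h : f s = g s <;> simp [h]

theorem PT.j1 {α : Type} [Enc α] {n k : α → ℕ} (hn : PT n) (hk : PT k) :
    PT (fun s => j1 (n s) (k s)) := by
  unfold Pool.Agent.Cqp.j1
  exact PT.div (PT.sub hk (PT.const 1)) (ptca_Mn hn)

theorem PT.j2 {α : Type} [Enc α] {n k : α → ℕ} (hn : PT n) (hk : PT k) :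
    PT (fun s => j2 (n s) (k s)) := by
  unfold Pool.Agent.Cqp.j2
  exact PT.mod (PT.sub hk (PT.const 1)) (ptca_Mn hn)

/-- unfold `cq`; `PT.ite`, `PT.eq`, `PT.mod`, `PT.div`, `PT.sub`, `PT.mul`, `PT.const` -/
theorem PT.cq {α : Type} [Enc α] {e e' : α → ℕ} (he : PT e) (he' : PT e') :
    PT (fun s => cq (e s) (e' s)) := by
  unfold Pool.Agent.Cqp.cq
  exact PT.ite (PT.eq (PT.mod he (PT.const 4)) (PT.const 0)) (PT.const 2)
    (PT.ite (PT.eq (PT.mod he' (PT.const 4)) (PT.const 0)) (PT.const 1)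
      (PT.sub (PT.mul (PT.const 4) (PT.sub (PT.div he' (PT.const 4)) (PT.div he (PT.const 4))))
        (PT.const 1)))

/-- unfold `ca`; `PT.and`, `PT.or`, `PT.eq`, `PT.lt`, `PT.le`, `PT.mod`, `PT.div`; for `x ≠ y` use
`PT.not` with a `PT.congr` (`decide (a ≠ b) = !(decide (a = b))`) -/
theorem PT.ca {α : Type} [Enc α] {n e e' : α → ℕ} {adj : α → ℕ → ℕ → Bool} (hn : PT n)
    (he : PT e) (he' : PT e')
    (hadj : ∀ {f g : α → ℕ}, PT f → PT g → PT (fun s => adj s (f s) (g s))) :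
    PT (fun s => ca (n s) (adj s) (e s) (e' s)) := by
  unfold Pool.Agent.Cqp.ca
  have d1 := PT.div he (PT.const 4)
  have d2 := PT.div he' (PT.const 4)
  have m1 := PT.mod he (PT.const 4)
  have m2 := PT.mod he' (PT.const 4)
  have z1 := ptca_ne m1 (PT.const 0)
  have z2 := ptca_ne m2 (PT.const 0)
  exact PT.and (PT.and (PT.lt he (ptca_Mn hn)) (PT.lt he' (ptca_Mn hn)))
    (PT.or (PT.or
      (PT.and (PT.eq m1 (PT.const 0)) (PT.eq he' (PT.add he (PT.const 4))))
      (PT.and z1 (PT.or (PT.eq he' (PT.mul (PT.const 4) d1))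
        (PT.eq he' (PT.add (PT.mul (PT.const 4) d1) (PT.const 4))))))
      (PT.and (PT.and (PT.and (PT.and z1 z2) (PT.lt d1 hn)) (PT.le hn d2))
        (PT.or (PT.and (PT.eq d2 (PT.add hn d1)) (ptca_ne m1 m2))
          (PT.and (hadj d1 (PT.sub d2 hn)) (PT.eq m1 m2)))))
-- END ptca

end Pool.Agent.Cqp
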