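import Mathlib
import Pool.Agent.Cqp.Defs

set_option autoImplicit false

/-!
# The frame: all walls on one side of hub `b`, in monotone order
-/

namespace Pool.Agent.Cqp

-- BEGIN alt_ops
/-- rotation of the places `0, ..., L - 1` that makes `s` the first place -/
def rot (L s x : ℕ) : ℕ := if x < s then x + L else x

private theorem alt_ops_ll {a b c d : ℕ} (h : a ≤ b) (h' : c ≤ d) :
    Alt a b c d ↔ (a < c ∧ c < b ∧ b < d) ∨ (c < a ∧ a < d ∧ d < b) := by
  unfold Alt
  rw [min_eq_left h, min_eq_left h', max_eq_right h, max_eq_right h']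

private theorem alt_ops_s1 (a b c d : ℕ) : Alt b a c d ↔ Alt a b c d := by
  unfold Alt
  rw [min_comm b a, max_comm b a]

private theorem alt_ops_s2 (a b c d : ℕ) : Alt a b d c ↔ Alt a b c d := by
  unfold Alt
  rw [min_comm d c, max_comm d c]

theorem alt_rot (L s a b c d : ℕ) (ha : a < L) (hb : b < L) (hc : c < L) (hd : d < L) :
    Alt (rot L s a) (rot L s b) (rot L s c) (rot L s d) ↔ Alt a b c d := by
  wlog h : a ≤ b generalizing a b
  · rw [alt_ops_s1 (rot L s b), alt_ops_s1 b]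
    exact this b a hb ha (by omega)
  wlog h' : c ≤ d generalizing c d
  · rw [alt_ops_s2 _ _ (rot L s d), alt_ops_s2 _ _ d]
    exact this d c hd hc (by omega)
  rw [alt_ops_ll h h']
  unfold rot
  by_cases h1 : b < s <;> by_cases h2 : d < s
  · have h3 : a < s := by omega
    have h4 : c < s := by omega
    rw [if_pos h1, if_pos h2, if_pos h3, if_pos h4, alt_ops_ll (by omega) (by omega)]
    omega
  · by_cases h4 : c < s
    · rw [if_pos h1, if_neg h2, if_pos (by omega : a < s), if_pos h4, alt_ops_s2,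
        alt_ops_ll (by omega) (by omega)]
      omega
    · rw [if_pos h1, if_neg h2, if_pos (by omega : a < s), if_neg h4,
        alt_ops_ll (by omega) (by omega)]
      omega
  · by_cases h3 : a < s
    · rw [if_neg h1, if_pos h2, if_pos h3, if_pos (by omega : c < s), alt_ops_s1,
        alt_ops_ll (by omega) (by omega)]
      omega
    · rw [if_neg h1, if_pos h2, if_neg h3, if_pos (by omega : c < s),
        alt_ops_ll (by omega) (by omega)]
      omega
  · by_cases h3 : a < s <;> by_cases h4 : c < s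
    · rw [if_neg h1, if_neg h2, if_pos h3, if_pos h4, alt_ops_s1, alt_ops_s2,
        alt_ops_ll (by omega) (by omega)]
      omega
    · rw [if_neg h1, if_neg h2, if_pos h3, if_neg h4, alt_ops_s1,
        alt_ops_ll (by omega) (by omega)]
      omega
    · rw [if_neg h1, if_neg h2, if_neg h3, if_pos h4, alt_ops_s2,
        alt_ops_ll (by omega) (by omega)]
      omega
    · rw [if_neg h1, if_neg h2, if_neg h3, if_neg h4, alt_ops_ll (by omega) (by omega)]

theorem alt_refl (L a b c d : ℕ) (ha : a < L) (hb : b < L) (hc : c < L) (hd : d < L) :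
    Alt (L - a) (L - b) (L - c) (L - d) ↔ Alt a b c d := by
  wlog h : a ≤ b generalizing a b
  · rw [alt_ops_s1 (L - b), alt_ops_s1 b]
    exact this b a hb ha (by omega)
  wlog h' : c ≤ d generalizing c d
  · rw [alt_ops_s2 _ _ (L - d), alt_ops_s2 _ _ d]
    exact this d c hd hc (by omega)
  rw [alt_ops_ll h h', alt_ops_s1, alt_ops_s2, alt_ops_ll (by omega) (by omega)]
  omega
-- END alt_ops

/-- chords of a drawing of the frame with the hub `a` at the first place -/
structure Fr0 (Ed : ℕ → ℕ → Prop) (m A B : ℕ) (W : ℕ → ℕ) : Prop where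
  symm : ∀ x y, Ed x y → Ed y x
  nt : NT Ed
  aw : ∀ j, j < m → Ed A (W j)
  bw : ∀ j, j < m → Ed B (W j)
  w1 : ∀ j, j + 1 < m → Ed (W j) (W (j + 1))
  w2 : ∀ j, j + 2 < m → Ed (W j) (W (j + 2))
  inj : ∀ i j, i < m → j < m → W i = W j → i = j
  awlt : ∀ j, j < m → A < W j
  ab : A < B
  wb : ∀ j, j < m → W j ≠ B

-- BEGIN f0_span
/-- Two walls `W s < W t` cannot both lie strictly between the ends `x < y` of a chord if
`x, y` are on the same side of `B`. Proof: if `y < B` then `A < x' < W s < W t < y < B` and the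
chords `(x,y)`, `(A, W t)`, `(B, W s)` cross pairwise; if `B < x` then `A < B < x < W s < W t < y`
and the chords `(x,y)`, `(A, W s)`, `(B, W t)` cross pairwise. Use `h.nt` with these three chords
and prove each `Alt` by `unfold Alt; omega` (`h.awlt`, `hx`). -/
theorem f0_span {Ed : ℕ → ℕ → Prop} {m A B : ℕ} {W : ℕ → ℕ} (h : Fr0 Ed m A B W) {x y s t : ℕ}
    (he : Ed x y) (hx : A < x) (hxy : x < y) (hside : y < B ∨ B < x) (hs : s < m) (ht : t < m)
    (h1 : x < W s) (h2 : W s < W t) (h3 : W t < y) : False := by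
  have a1 := h.awlt s hs
  have a2 := h.ab
  rcases hside with hB | hB
  · exact h.nt x y A (W t) B (W s) he (h.aw t ht) (h.bw s hs) (by unfold Alt; omega)
      (by unfold Alt; omega) (by unfold Alt; omega)
  · exact h.nt x y A (W s) B (W t) he (h.aw s hs) (h.bw t ht) (by unfold Alt; omega)
      (by unfold Alt; omega) (by unfold Alt; omega)

/-- A chord from `x < B` to `y > B`: `x` does not have walls on both sides before `B`, and `y` does
not have walls on both sides after `B`. Proof: if `W s < x < W t < B < y` then `(x,y)`, `(A, W t)`,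
`(B, W s)` cross pairwise. If `x < B < W s < y < W t` then `(x,y)`, `(A, W s)`, `(B, W t)` cross
pairwise. -/
theorem f0_across {Ed : ℕ → ℕ → Prop} {m A B : ℕ} {W : ℕ → ℕ} (h : Fr0 Ed m A B W) {x y s t : ℕ}
    (he : Ed x y) (hx : A < x) (hxB : x < B) (hy : B < y) (hs : s < m) (ht : t < m)
    (h1 : (W s < x ∧ x < W t ∧ W t < B) ∨ (B < W s ∧ W s < y ∧ y < W t)) : False := by
  have a1 := h.awlt s hs
  have a2 := h.ab
  rcases h1 with ⟨b1, b2, b3⟩ | ⟨b1, b2, b3⟩
  · exact h.nt x y A (W t) B (W s) he (h.aw t ht) (h.bw s hs) (by unfold Alt; omega)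
      (by unfold Alt; omega) (by unfold Alt; omega)
  · exact h.nt x y A (W s) B (W t) he (h.aw s hs) (h.bw t ht) (by unfold Alt; omega)
      (by unfold Alt; omega) (by unfold Alt; omega)
-- END f0_span

-- BEGIN side_comb
private def side_comb_F (a0 a1 a2 a3 a4 a5 a6 : Bool) (i : ℕ) : Bool :=
  match i with
  | 0 => a0
  | 1 => a1
  | 2 => a2
  | 3 => a3
  | 4 => a4
  | 5 => a5
  | _ => a6

private def side_comb_B (f : ℕ → Bool) (i : ℕ) : Prop :=
  ∃ j < 7, (j ≤ i + 2 ∧ i ≤ j + 2) ∧ f i ≠ f j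

private instance side_comb_dec (f : ℕ → Bool) (i : ℕ) : Decidable (side_comb_B f i) := by
  unfold side_comb_B
  infer_instance

private theorem side_comb_core : ∀ a0 a1 a2 a3 a4 a5 a6 : Bool,
    (∀ i < 7, side_comb_F a0 a1 a2 a3 a4 a5 a6 i = a0) ∨
    (∃ k < 7, ∃ j < k, ∃ i < j, side_comb_F a0 a1 a2 a3 a4 a5 a6 i =
        side_comb_F a0 a1 a2 a3 a4 a5 a6 j ∧ side_comb_F a0 a1 a2 a3 a4 a5 a6 j =
        side_comb_F a0 a1 a2 a3 a4 a5 a6 k ∧ side_comb_B (side_comb_F a0 a1 a2 a3 a4 a5 a6) i ∧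
        side_comb_B (side_comb_F a0 a1 a2 a3 a4 a5 a6) j ∧
        side_comb_B (side_comb_F a0 a1 a2 a3 a4 a5 a6) k) ∨
    (∃ i < 6, side_comb_F a0 a1 a2 a3 a4 a5 a6 i = side_comb_F a0 a1 a2 a3 a4 a5 a6 (i + 1) ∧
        side_comb_B (side_comb_F a0 a1 a2 a3 a4 a5 a6) i ∧
        side_comb_B (side_comb_F a0 a1 a2 a3 a4 a5 a6) (i + 1) ∧
        ∃ w < 7, side_comb_F a0 a1 a2 a3 a4 a5 a6 w = side_comb_F a0 a1 a2 a3 a4 a5 a6 i ∧
        ∃ z < w, side_comb_F a0 a1 a2 a3 a4 a5 a6 z = side_comb_F a0 a1 a2 a3 a4 a5 a6 i ∧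
        ∃ y < z, side_comb_F a0 a1 a2 a3 a4 a5 a6 y = side_comb_F a0 a1 a2 a3 a4 a5 a6 i ∧
        ∃ x < y, side_comb_F a0 a1 a2 a3 a4 a5 a6 x = side_comb_F a0 a1 a2 a3 a4 a5 a6 i) := by
  decide +kernel

/-- Pure combinatorics of the square of a path: a two-colouring `s` of the indices `i < m`
(`m ≥ 7`), a predicate `b` (boundary). Proof. First the indices `< 7`. `hb` says: if two indices at
distance `1` or `2` have different colours then both satisfy `b`. `h3`: no three distinct indices of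
one colour satisfy `b`. `h4`: if `i, i+1` have the same colour and both satisfy `b` then there are
no four distinct indices of that colour.
STEP 1: `s i = s 0` for `i < 7`. Suppose not and let `e` be least with `s (e+1) ≠ s 0`, `e + 1 < 7`,
so `s j = s 0` for `j ≤ e`.
 Case `e ≥ 1`: `b (e-1)`, `b e` (both at distance `≤ 2` from `e+1`), so by `h4` fewer than four
 indices have the colour of `0`; hence `e ≤ 2`, `e + 2 < 7`. `e+2` is at distance `≤ 2` from `e`
 and `e+1`, whose colours differ, so `b (e+2)`; by `h3` (with `e-1, e`) its colour is that of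
 `e+1`; then `b (e+1)`, `b (e+2)` and `h4`: fewer than four indices have that colour. So there are
 at most `6` indices, but `7 ≤ m`.
 Case `e = 0`: `b 0`, `b 1`, `b 2` (`2` is adjacent to `0` and `1`).
  If `s 2 = s 0`: `b 3` (adjacent to `1, 2`), `s 3 = s 1` by `h3` (0, 2, 3), `b 4` (adjacent to
  `2, 3`), and `4` is a third boundary index of one of the colours (0,2,4 or 1,3,4).
  If `s 2 = s 1`: if `s 3 = s 0` then `b 3`, `b 4` (adjacent to `2, 3`) and `4` is a third one
  (0,3,4 or 1,2,4). If `s 3 = s 1` then not `b 3` by `h3` (1,2,3), so by `hb` `s 4 = s 3` and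
  `s 5 = s 3`, and `1,2,3,4` are four indices with the colour of `1`, contradiction to `h4` with
  `i = 1`.
 (Alternatively a brute force over the `2^7` values of `s 0, ..., s 6`.)
STEP 2: strong induction for `i ≥ 7`: if `s (i+1) ≠ s 0` and `s j = s 0` for `j ≤ i` (`i ≥ 6`) then
`b i` and `b (i-1)`, and `0,1,2,3` contradict `h4`. -/
theorem side_comb (m : ℕ) (hm : 7 ≤ m) (s : ℕ → Bool) (b : ℕ → Prop)
    (hb : ∀ i j, i < m → j < m → i < j → j ≤ i + 2 → s i ≠ s j → b i ∧ b j)
    (h3 : ∀ i j k, i < m → j < m → k < m → i ≠ j → j ≠ k → i ≠ k → s i = s j → s j = s k →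
      b i → b j → b k → False)
    (h4 : ∀ i, i + 1 < m → s i = s (i + 1) → b i → b (i + 1) → ∀ x y z w : ℕ, x < m → y < m →
      z < m → w < m → x ≠ y → x ≠ z → x ≠ w → y ≠ z → y ≠ w → z ≠ w →
      s x = s i → s y = s i → s z = s i → s w = s i → False) :
    ∀ i, i < m → s i = s 0 := by
  set f := side_comb_F (s 0) (s 1) (s 2) (s 3) (s 4) (s 5) (s 6) with hf
  have hfs : ∀ i, i < 7 → f i = s i := by
    intro i hi
    interval_cases i <;> rfl
  have hB : ∀ i, i < 7 → side_comb_B f i → b i := by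
    intro i hi ⟨j, hj, ⟨h1, h2⟩, hne⟩
    rw [hfs i hi, hfs j hj] at hne
    rcases lt_trichotomy i j with h | h | h
    · exact (hb i j (by omega) (by omega) h h1 hne).1
    · exact absurd (by rw [h]) hne
    · exact (hb j i (by omega) (by omega) h h2 (fun e => hne e.symm)).2
  have step1 : ∀ i, i < 7 → s i = s 0 := by
    rcases side_comb_core (s 0) (s 1) (s 2) (s 3) (s 4) (s 5) (s 6) with h | h | h
    · intro i hi
      rw [← hfs i hi]
      exact h i hi
    · exfalso
      obtain ⟨k, hk, j, hj, i, hi, e1, e2, b1, b2, b3⟩ := h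
      rw [← hf] at e1 e2 b1 b2 b3
      rw [hfs i (by omega), hfs j (by omega)] at e1
      rw [hfs j (by omega), hfs k (by omega)] at e2
      exact h3 i j k (by omega) (by omega) (by omega) (by omega) (by omega) (by omega) e1 e2
        (hB i (by omega) b1) (hB j (by omega) b2) (hB k hk b3)
    · exfalso
      obtain ⟨i, hi, e1, b1, b2, w, hw, ew, z, hz, ez, y, hy, ey, x, hx, ex⟩ := h
      rw [← hf] at e1 b1 b2 ew ez ey ex
      rw [hfs i (by omega), hfs (i + 1) (by omega)] at e1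
      rw [hfs i (by omega), hfs w (by omega)] at ew
      rw [hfs i (by omega), hfs z (by omega)] at ez
      rw [hfs i (by omega), hfs y (by omega)] at ey
      rw [hfs i (by omega), hfs x (by omega)] at ex
      exact h4 i (by omega) e1 (hB i (by omega) b1) (hB (i + 1) (by omega) b2) x y z w
        (by omega) (by omega) (by omega) (by omega) (by omega) (by omega) (by omega) (by omega)
        (by omega) (by omega) ex ey ez ew
  intro i
  induction i using Nat.strong_induction_on with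
  | _ i ih =>
    intro hi
    by_cases h7 : i < 7
    · exact step1 i h7
    · by_contra hne
      have c1 := ih (i - 1) (by omega) (by omega)
      have c2 := ih (i - 2) (by omega) (by omega)
      have d1 := (hb (i - 1) i (by omega) hi (by omega) (by omega)
        (fun e => hne (by rw [← e, c1]))).1
      have d2 := (hb (i - 2) i (by omega) hi (by omega) (by omega)
        (fun e => hne (by rw [← e, c2]))).1
      have e1 : i - 2 + 1 = i - 1 := by omega
      exact h4 (i - 2) (by omega) (by rw [e1, c1, c2]) d2 (by rw [e1]; exact d1) 0 1 2 3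
        (by omega) (by omega) (by omega) (by omega) (by omega) (by omega) (by omega) (by omega)
        (by omega) (by omega) (by rw [c2]) (by rw [c2, step1 1 (by omega)])
        (by rw [c2, step1 2 (by omega)]) (by rw [c2, step1 3 (by omega)])
-- END side_comb

-- BEGIN f0_side
private theorem f0_side_bd {Ed : ℕ → ℕ → Prop} {m A B : ℕ} {W : ℕ → ℕ} (h : Fr0 Ed m A B W)
    {x y : ℕ} (hx : x < m) (_hy : y < m) (he : Ed (W x) (W y)) (hxB : W x < B) (hyB : B < W y) :
    ((∀ j, j < m → W j < B → W x ≤ W j) ∨ (∀ j, j < m → W j < B → W j ≤ W x)) ∧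
    ((∀ j, j < m → ¬ W j < B → W y ≤ W j) ∨ (∀ j, j < m → ¬ W j < B → W j ≤ W y)) := by
  constructor
  · by_contra hc
    push Not at hc
    obtain ⟨⟨s, hs, hsB, h1⟩, ⟨t, ht, htB, h2⟩⟩ := hc
    exact f0_across h he (h.awlt x hx) hxB hyB hs ht (Or.inl ⟨h1, h2, htB⟩)
  · by_contra hc
    push Not at hc
    obtain ⟨⟨s, hs, hsB, h1⟩, ⟨t, ht, htB, h2⟩⟩ := hc
    have hsne := h.wb s hs
    exact f0_across h he (h.awlt x hx) hxB hyB hs ht (Or.inr ⟨by omega, h1, h2⟩)

private theorem f0_side_two {Ed : ℕ → ℕ → Prop} {m A B : ℕ} {W : ℕ → ℕ} (h : Fr0 Ed m A B W)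
    {p q e f : ℕ} (hp : p < m) (_hq : q < m) (hee : e < m) (hf : f < m) (he : Ed (W p) (W q))
    (hs1 : W q < B ∨ B < W p) (h1 : W p < W e) (h2 : W e < W q) (h3 : W p < W f)
    (h4 : W f < W q) (hne : e ≠ f) : False := by
  have hne' : W e ≠ W f := fun hh => hne (h.inj e f hee hf hh)
  rcases Nat.lt_or_gt_of_ne hne' with h5 | h5
  · exact f0_span h he (h.awlt p hp) (by omega) hs1 hee hf h1 h5 h4
  · exact f0_span h he (h.awlt p hp) (by omega) hs1 hf hee h3 h5 h2

private theorem f0_side_q (i e f g : ℕ) (h1 : e ≠ f) (h2 : e ≠ g) (h3 : f ≠ g)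
    (h4 : e = i ∨ e = i + 1) (h5 : f = i ∨ f = i + 1) (h6 : g = i ∨ g = i + 1) : False := by
  omega

private theorem f0_side_K {Ed : ℕ → ℕ → Prop} {m A B : ℕ} {W : ℕ → ℕ} (h : Fr0 Ed m A B W)
    (i : ℕ) (hi : i + 1 < m) (e1 : (W i < B ↔ W (i + 1) < B))
    (b1 : (∀ j, j < m → (W j < B ↔ W i < B) → W i ≤ W j) ∨
      (∀ j, j < m → (W j < B ↔ W i < B) → W j ≤ W i))
    (b2 : (∀ j, j < m → (W j < B ↔ W (i + 1) < B) → W (i + 1) ≤ W j) ∨
      (∀ j, j < m → (W j < B ↔ W (i + 1) < B) → W j ≤ W (i + 1)))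
    (e f : ℕ) (hee : e < m) (hf : f < m) (hef : e ≠ f) (se : (W e < B ↔ W i < B))
    (sf : (W f < B ↔ W i < B)) (c : ¬ (e = i ∨ e = i + 1)) : f = i ∨ f = i + 1 := by
  have hi0 : i < m := lt_trans (Nat.lt_succ_self i) hi
  have he : Ed (W i) (W (i + 1)) := h.w1 i hi
  have ni : W i ≠ W (i + 1) := fun hh => absurd (h.inj i (i + 1) hi0 hi hh) (Nat.ne_of_lt
    (Nat.lt_succ_self i))
  have hbi := h.wb i hi0
  have hbi1 := h.wb (i + 1) hi
  by_contra hc
  rw [not_or] at hc c
  obtain ⟨c3, c4⟩ := hc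
  obtain ⟨c1, c2⟩ := c
  have m1 : W e ≠ W i := fun hh => c1 (h.inj e i hee hi0 hh)
  have m2 : W e ≠ W (i + 1) := fun hh => c2 (h.inj e (i + 1) hee hi hh)
  have m3 : W f ≠ W i := fun hh => c3 (h.inj f i hf hi0 hh)
  have m4 : W f ≠ W (i + 1) := fun hh => c4 (h.inj f (i + 1) hf hi hh)
  have side1 : W (i + 1) < B ∨ B < W i := by
    by_cases hB : W (i + 1) < B
    · exact Or.inl hB
    · exact Or.inr (lt_of_le_of_ne (not_lt.1 fun hh => hB (e1.1 hh)) (Ne.symm hbi))
  have side2 : W i < B ∨ B < W (i + 1) := by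
    by_cases hB : W i < B
    · exact Or.inl hB
    · exact Or.inr (lt_of_le_of_ne (not_lt.1 fun hh => hB (e1.2 hh)) (Ne.symm hbi1))
  rcases b1 with b1 | b1 <;> rcases b2 with b2 | b2
  · exact ni (le_antisymm (b1 (i + 1) hi e1.symm) (b2 i hi0 e1))
  · have a1 := b1 e hee se
    have a2 := b1 f hf sf
    have a3 := b2 e hee (se.trans e1)
    have a4 := b2 f hf (sf.trans e1)
    exact f0_side_two h (p := i) (q := i + 1) (e := e) (f := f) hi0 hi hee hf he side1
      (lt_of_le_of_ne a1 (Ne.symm m1)) (lt_of_le_of_ne a3 m2) (lt_of_le_of_ne a2 (Ne.symm m3))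
      (lt_of_le_of_ne a4 m4) hef
  · have a1 := b2 e hee (se.trans e1)
    have a2 := b2 f hf (sf.trans e1)
    have a3 := b1 e hee se
    have a4 := b1 f hf sf
    exact f0_side_two h (p := i + 1) (q := i) (e := e) (f := f) hi hi0 hee hf
      (h.symm _ _ he) side2 (lt_of_le_of_ne a1 (Ne.symm m2)) (lt_of_le_of_ne a3 m1)
      (lt_of_le_of_ne a2 (Ne.symm m4)) (lt_of_le_of_ne a4 m3) hef
  · exact ni (le_antisymm (b2 i hi0 e1) (b1 (i + 1) hi e1.symm))

private theorem f0_side_h4 {Ed : ℕ → ℕ → Prop} {m A B : ℕ} {W : ℕ → ℕ} (h : Fr0 Ed m A B W)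
    (i : ℕ) (hi : i + 1 < m) (e1 : (W i < B ↔ W (i + 1) < B))
    (b1 : (∀ j, j < m → (W j < B ↔ W i < B) → W i ≤ W j) ∨
      (∀ j, j < m → (W j < B ↔ W i < B) → W j ≤ W i))
    (b2 : (∀ j, j < m → (W j < B ↔ W (i + 1) < B) → W (i + 1) ≤ W j) ∨
      (∀ j, j < m → (W j < B ↔ W (i + 1) < B) → W j ≤ W (i + 1)))
    (x y z w : ℕ) (hx : x < m) (hy : y < m) (hz : z < m) (hw : w < m) (hxy : x ≠ y)
    (hxz : x ≠ z) (hxw : x ≠ w) (hyz : y ≠ z) (hyw : y ≠ w) (hzw : z ≠ w)
    (ex : (W x < B ↔ W i < B)) (ey : (W y < B ↔ W i < B)) (ez : (W z < B ↔ W i < B))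
    (ew : (W w < B ↔ W i < B)) : False := by
  have k : ∀ e f, e < m → f < m → e ≠ f → (W e < B ↔ W i < B) → (W f < B ↔ W i < B) →
      ¬ (e = i ∨ e = i + 1) → (f = i ∨ f = i + 1) := by
    intro e f h1 h2 h3 h4 h5 h6
    exact f0_side_K h i hi e1 b1 b2 e f h1 h2 h3 h4 h5 h6
  by_cases cx : x = i ∨ x = i + 1
  · by_cases cy : y = i ∨ y = i + 1
    · by_cases cz : z = i ∨ z = i + 1
      · exact f0_side_q i x y z hxy hxz hyz cx cy cz
      · exact f0_side_q i x y w hxy hxw hyw cx cy (k z w hz hw hzw ez ew cz)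
    · exact f0_side_q i x z w hxz hxw hzw cx (k y z hy hz hyz ey ez cy) (k y w hy hw hyw ey ew cy)
  · exact f0_side_q i y z w hyz hyw hzw (k x y hx hy hxy ex ey cx) (k x z hx hz hxz ex ez cx)
      (k x w hx hw hxw ex ew cx)

/-- All walls are on the same side of `B`. Proof: apply `side_comb` with `s i := decide (W i < B)`
and `b i := (∀ j < m, s j = s i → W i ≤ W j) ∨ (∀ j < m, s j = s i → W j ≤ W i)` (the wall `i` is the
first or the last wall on its side). `hb`: the walls `i, j` are joined by a chord (`h.w1`, `h.w2`,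
`j = i+1` or `j = i+2`); it goes across `B`, so `f0_across` (for both ends) shows that each end is
extreme: e.g. if `W i < B < W j` and `W i` is neither first nor last on its side there are `s', t'`
with `W s' < W i < W t' < B` (use `h.wb`, `h.inj`). `h3`: two of three distinct walls on one side
would both be first or both be last; `h.inj`. `h4`: the walls `i, i+1` are the first and the last
of their side (both first or both last is impossible by `h.inj`) and are joined by a chord, so by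
`f0_span` at most one wall of this side lies strictly between them; of four distinct walls
`x,y,z,w` on this side at most two are equal to `i` or `i+1`, and the other two are both strictly
between. -/
theorem f0_side {Ed : ℕ → ℕ → Prop} {m A B : ℕ} {W : ℕ → ℕ} (h : Fr0 Ed m A B W) (hm : 7 ≤ m) :
    (∀ j, j < m → W j < B) ∨ (∀ j, j < m → B < W j) := by
  have key := side_comb m hm (fun i => decide (W i < B))
    (fun i => (∀ j, j < m → (W j < B ↔ W i < B) → W i ≤ W j) ∨
      (∀ j, j < m → (W j < B ↔ W i < B) → W j ≤ W i)) ?_ ?_ ?_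
  · by_cases h0 : W 0 < B
    · left
      intro j hj
      have h1 := key j hj
      simp only [h0, decide_true, decide_eq_true_eq] at h1
      exact h1
    · right
      intro j hj
      have h1 := key j hj
      simp only [h0, decide_false, decide_eq_false_iff_not] at h1
      have h2 := h.wb j hj
      omega
  · intro i j hi hj hij hij2 hs
    have he : Ed (W i) (W j) := by
      rcases (show j = i + 1 ∨ j = i + 2 by omega) with rfl | rfl
      · exact h.w1 i hj
      · exact h.w2 i hj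
    have hs' : ¬ (W i < B ↔ W j < B) := by
      intro hh
      exact hs (by simp [hh])
    have hbi := h.wb i hi
    have hbj := h.wb j hj
    by_cases hiB : W i < B
    · have hjB : B < W j := by
        by_contra hc
        exact hs' ⟨fun _ => by omega, fun _ => hiB⟩
      obtain ⟨g1, g2⟩ := f0_side_bd h hi hj he hiB hjB
      constructor
      · rcases g1 with g | g
        · exact Or.inl fun l hl hh => g l hl (hh.2 hiB)
        · exact Or.inr fun l hl hh => g l hl (hh.2 hiB)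
      · rcases g2 with g | g
        · exact Or.inl fun l hl hh => g l hl (fun hc => by have := hh.1 hc; omega)
        · exact Or.inr fun l hl hh => g l hl (fun hc => by have := hh.1 hc; omega)
    · have hjB : W j < B := by
        by_contra hc
        exact hs' ⟨fun hh => absurd hh hiB, fun hh => absurd hh hc⟩
      obtain ⟨g1, g2⟩ := f0_side_bd h hj hi (h.symm _ _ he) hjB (by omega)
      constructor
      · rcases g2 with g | g
        · exact Or.inl fun l hl hh => g l hl (fun hc => hiB (hh.1 hc))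
        · exact Or.inr fun l hl hh => g l hl (fun hc => hiB (hh.1 hc))
      · rcases g1 with g | g
        · exact Or.inl fun l hl hh => g l hl (hh.2 hjB)
        · exact Or.inr fun l hl hh => g l hl (hh.2 hjB)
  · intro i j k hi hj hk hij hjk hik hs1 hs2 b1 b2 b3
    have e1 : (W i < B ↔ W j < B) := by simpa using hs1
    have e2 : (W j < B ↔ W k < B) := by simpa using hs2
    have n1 : W i ≠ W j := fun hh => hij (h.inj i j hi hj hh)
    have n2 : W j ≠ W k := fun hh => hjk (h.inj j k hj hk hh)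
    have n3 : W i ≠ W k := fun hh => hik (h.inj i k hi hk hh)
    rcases b1 with b1 | b1 <;> rcases b2 with b2 | b2 <;> rcases b3 with b3 | b3 <;>
    · have a1 := b1 j hj e1.symm
      have a2 := b1 k hk (e1.trans e2).symm
      have a3 := b2 i hi e1
      have a4 := b2 k hk e2.symm
      have a5 := b3 i hi (e1.trans e2)
      have a6 := b3 j hj e2
      omega
  · intro i hi hs1 b1 b2 x y z w hx hy hz hw hxy hxz hxw hyz hyw hzw sx sy sz sw
    exact f0_side_h4 h i hi (by simpa using hs1) b1 b2 x y z w hx hy hz hw hxy hxz hxw hyz hyw hzw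
      (by simpa using sx) (by simpa using sy) (by simpa using sz) (by simpa using sw)
-- END f0_side

-- BEGIN rank_fun
/-- The rank function of finitely many distinct numbers. Proof: `ρ j := ((Finset.range m).filter
fun i => W i < W j).card`. Order: if `W i < W j` the filter set of `i` is a strict subset of that of
`j` (it lacks `i`). Surjectivity: `ρ` maps `Finset.range m` injectively to itself
(`Finset.surj_on_of_inj_on_of_card_le` or `Finset.eq_of_subset_of_card_le` for the image). Last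
claim: if `ρ i + 2 < ρ j` take `s, t` with `ρ s = ρ i + 1`, `ρ t = ρ i + 2`; they are strictly
between. -/
theorem rank_fun (m : ℕ) (W : ℕ → ℕ) (hW : ∀ i j, i < m → j < m → W i = W j → i = j) :
    ∃ ρ : ℕ → ℕ, (∀ j, j < m → ρ j < m) ∧ (∀ i j, i < m → j < m → (ρ i < ρ j ↔ W i < W j)) ∧
      (∀ r, r < m → ∃ j, j < m ∧ ρ j = r) ∧
      ∀ i j, i < m → j < m → ρ i + 2 < ρ j → ∃ s t, s < m ∧ t < m ∧ W i < W s ∧ W s < W t ∧
        W t < W j := by
  set ρ : ℕ → ℕ := fun j => ((Finset.range m).filter fun i => W i < W j).card with hρ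
  have h1 : ∀ j, j < m → ρ j < m := by
    intro j hj
    have hss : ((Finset.range m).filter fun i => W i < W j) ⊂ Finset.range m := by
      rw [Finset.ssubset_iff_of_subset (Finset.filter_subset _ _)]
      refine ⟨j, Finset.mem_range.2 hj, fun h => ?_⟩
      exact lt_irrefl _ (Finset.mem_filter.1 h).2
    have := Finset.card_lt_card hss
    rw [Finset.card_range] at this
    exact this
  have h2a : ∀ i j, i < m → W i < W j → ρ i < ρ j := by
    intro i j hi hij
    apply Finset.card_lt_card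
    have hsub : ((Finset.range m).filter fun l => W l < W i) ⊆
        ((Finset.range m).filter fun l => W l < W j) := by
      intro l hl
      rw [Finset.mem_filter] at hl ⊢
      exact ⟨hl.1, hl.2.trans hij⟩
    rw [Finset.ssubset_iff_of_subset hsub]
    refine ⟨i, Finset.mem_filter.2 ⟨Finset.mem_range.2 hi, hij⟩, fun h => ?_⟩
    exact lt_irrefl _ (Finset.mem_filter.1 h).2
  have h2 : ∀ i j, i < m → j < m → (ρ i < ρ j ↔ W i < W j) := by
    intro i j hi hj
    refine ⟨fun h => ?_, h2a i j hi⟩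
    by_contra hn
    rcases lt_or_eq_of_le (not_lt.1 hn) with h' | h'
    · exact absurd (h2a j i hj h') (by omega)
    · have : j = i := hW j i hj hi h'
      rw [this] at h
      exact lt_irrefl _ h
  have hinj : ∀ i j, i < m → j < m → ρ i = ρ j → i = j := by
    intro i j hi hj hij
    rcases lt_trichotomy (W i) (W j) with h | h | h
    · have := h2a i j hi h
      omega
    · exact hW i j hi hj h
    · have := h2a j i hj h
      omega
  have h3 : ∀ r, r < m → ∃ j, j < m ∧ ρ j = r := by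
    intro r hr
    have himg : (Finset.range m).image ρ = Finset.range m := by
      apply Finset.eq_of_subset_of_card_le
      · intro x hx
        obtain ⟨j, hj, rfl⟩ := Finset.mem_image.1 hx
        exact Finset.mem_range.2 (h1 j (Finset.mem_range.1 hj))
      · rw [Finset.card_image_of_injOn]
        intro i hi j hj hij
        exact hinj i j (Finset.mem_range.1 (Finset.mem_coe.1 hi))
          (Finset.mem_range.1 (Finset.mem_coe.1 hj)) hij
    have hr' : r ∈ (Finset.range m).image ρ := by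
      rw [himg]
      exact Finset.mem_range.2 hr
    obtain ⟨j, hj, hjr⟩ := Finset.mem_image.1 hr'
    exact ⟨j, Finset.mem_range.1 hj, hjr⟩
  refine ⟨ρ, h1, h2, h3, fun i j hi hj hij => ?_⟩
  have hjm := h1 j hj
  obtain ⟨s, hs, hs'⟩ := h3 (ρ i + 1) (by omega)
  obtain ⟨t, ht, ht'⟩ := h3 (ρ i + 2) (by omega)
  exact ⟨s, t, hs, ht, (h2 i s hi hs).1 (by omega), (h2 s t hs ht).1 (by omega),
    (h2 t j ht hj).1 (by omega)⟩
-- END rank_fun

-- BEGIN seq_mono
private theorem seq_mono_star (m : ℕ) (hm : 5 ≤ m) (ρ : ℕ → ℕ)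
    (hinj : ∀ i j, i < m → j < m → ρ i = ρ j → i = j) (h0 : ρ 0 = 0)
    (h1 : ∀ j, j + 1 < m → ρ (j + 1) ≤ ρ j + 2) (h2 : ∀ j, j + 2 < m → ρ (j + 2) ≤ ρ j + 2) :
    ∀ j, j < m → ρ j = j := by
  have a01 : ρ 0 ≠ ρ 1 := fun h => absurd (hinj 0 1 (by omega) (by omega) h) (by omega)
  have a02 : ρ 0 ≠ ρ 2 := fun h => absurd (hinj 0 2 (by omega) (by omega) h) (by omega)
  have a03 : ρ 0 ≠ ρ 3 := fun h => absurd (hinj 0 3 (by omega) (by omega) h) (by omega)
  have a04 : ρ 0 ≠ ρ 4 := fun h => absurd (hinj 0 4 (by omega) (by omega) h) (by omega)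
  have a12 : ρ 1 ≠ ρ 2 := fun h => absurd (hinj 1 2 (by omega) (by omega) h) (by omega)
  have a13 : ρ 1 ≠ ρ 3 := fun h => absurd (hinj 1 3 (by omega) (by omega) h) (by omega)
  have a14 : ρ 1 ≠ ρ 4 := fun h => absurd (hinj 1 4 (by omega) (by omega) h) (by omega)
  have a23 : ρ 2 ≠ ρ 3 := fun h => absurd (hinj 2 3 (by omega) (by omega) h) (by omega)
  have a24 : ρ 2 ≠ ρ 4 := fun h => absurd (hinj 2 4 (by omega) (by omega) h) (by omega)
  have a34 : ρ 3 ≠ ρ 4 := fun h => absurd (hinj 3 4 (by omega) (by omega) h) (by omega)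
  have b0 : ρ 1 ≤ ρ 0 + 2 := h1 0 (by omega)
  have b1 : ρ 2 ≤ ρ 1 + 2 := h1 1 (by omega)
  have b2 : ρ 3 ≤ ρ 2 + 2 := h1 2 (by omega)
  have b3 : ρ 4 ≤ ρ 3 + 2 := h1 3 (by omega)
  have c0 : ρ 2 ≤ ρ 0 + 2 := h2 0 (by omega)
  have c1 : ρ 3 ≤ ρ 1 + 2 := h2 1 (by omega)
  have c2 : ρ 4 ≤ ρ 2 + 2 := h2 2 (by omega)
  intro j
  induction j using Nat.strong_induction_on with
  | _ j ih =>
    intro hj
    by_cases h5 : j < 5
    · interval_cases j <;> omega
    · have hlow : j ≤ ρ j := by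
        by_contra hlt
        have hlt' : ρ j < j := by omega
        have := ih (ρ j) hlt' (by omega)
        have h' := hinj (ρ j) j (by omega) hj this
        omega
      have hup := h2 (j - 2) (by omega)
      have e1 : j - 2 + 2 = j := by omega
      rw [e1, ih (j - 2) (by omega) (by omega)] at hup
      omega

/-- A numbering of the square of a path such that adjacent indices have numbers at distance `≤ 2`
is the identity or the reversal. Proof. First show: (*) if `ρ` satisfies the hypotheses and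
`ρ 0 = 0` then `ρ j = j` for all `j < m`. (`ρ 1, ρ 2 ∈ {1, 2}` by `h1`, `h2`, injectivity;
`ρ 3 ≥ 3` and it is within `2` of `ρ 1` and of `ρ 2`, one of which is `1`: `ρ 3 = 3`; `ρ 4 ≥ 4` and
within `2` of `ρ 2`, so `ρ 2 = 2`, `ρ 1 = 1`, `ρ 4 = 4`; strong induction for `j ≥ 5`: the values
`0..j-1` are used, and `ρ j ≤ ρ (j-2) + 2 = j`.) Then: let `c` be the index with `ρ c = 0`. Its
neighbours `c-2, c-1, c+1, c+2` (those `< m`) have distinct numbers in `{1, 2}`, so there are at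
most two of them; as `m ≥ 5`, `c = 0` or `c = m - 1`. In the second case apply (*) to
`ρ' j := ρ (m - 1 - j)`. -/
theorem seq_mono (m : ℕ) (hm : 5 ≤ m) (ρ : ℕ → ℕ) (hlt : ∀ j, j < m → ρ j < m)
    (hinj : ∀ i j, i < m → j < m → ρ i = ρ j → i = j) (hsur : ∀ r, r < m → ∃ j, j < m ∧ ρ j = r)
    (h1 : ∀ j, j + 1 < m → ρ j ≤ ρ (j + 1) + 2 ∧ ρ (j + 1) ≤ ρ j + 2)
    (h2 : ∀ j, j + 2 < m → ρ j ≤ ρ (j + 2) + 2 ∧ ρ (j + 2) ≤ ρ j + 2) :
    (∀ j, j < m → ρ j = j) ∨ (∀ j, j < m → ρ j = m - 1 - j) := by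
  have _ := hlt
  obtain ⟨c, hc, hc0⟩ := hsur 0 (by omega)
  have hne : ∀ i j, i < m → j < m → i ≠ j → ρ i ≠ ρ j := fun i j hi hj hij h =>
    hij (hinj i j hi hj h)
  by_cases hc1 : c = 0
  · left
    rw [hc1] at hc0
    exact seq_mono_star m hm ρ hinj hc0 (fun j hj => (h1 j hj).2) (fun j hj => (h2 j hj).2)
  by_cases hc2 : c = m - 1
  · right
    have hs := seq_mono_star m hm (fun j => ρ (m - 1 - j))
      (fun i j hi hj h => by
        have := hinj (m - 1 - i) (m - 1 - j) (by omega) (by omega) h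
        omega)
      (by
        show ρ (m - 1 - 0) = 0
        rw [Nat.sub_zero, ← hc2]
        exact hc0)
      (fun j hj => by
        have := (h1 (m - 1 - (j + 1)) (by omega)).1
        have e1 : m - 1 - (j + 1) + 1 = m - 1 - j := by omega
        rw [e1] at this
        exact this)
      (fun j hj => by
        have := (h2 (m - 1 - (j + 2)) (by omega)).1
        have e1 : m - 1 - (j + 2) + 2 = m - 1 - j := by omega
        rw [e1] at this
        exact this)
    intro j hj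
    have := hs (m - 1 - j) (by omega)
    have e1 : m - 1 - (m - 1 - j) = j := by omega
    simp only [e1] at this
    exact this
  · exfalso
    have f1 := (h1 (c - 1) (by omega)).1
    have f2 := (h1 c (by omega)).2
    have e1 : c - 1 + 1 = c := by omega
    rw [e1] at f1
    have g1 := hne (c - 1) c (by omega) hc (by omega)
    have g2 := hne (c + 1) c (by omega) hc (by omega)
    have g3 := hne (c - 1) (c + 1) (by omega) (by omega) (by omega)
    by_cases hc3 : 2 ≤ c
    · have f3 := (h2 (c - 2) (by omega)).1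
      have e2 : c - 2 + 2 = c := by omega
      rw [e2] at f3
      have g4 := hne (c - 2) c (by omega) hc (by omega)
      have g5 := hne (c - 2) (c - 1) (by omega) (by omega) (by omega)
      have g6 := hne (c - 2) (c + 1) (by omega) (by omega) (by omega)
      omega
    · have f3 := (h2 c (by omega)).2
      have g4 := hne (c + 2) c (by omega) hc (by omega)
      have g5 := hne (c + 2) (c - 1) (by omega) (by omega) (by omega)
      have g6 := hne (c + 2) (c + 1) (by omega) (by omega) (by omega)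
      omega
-- END seq_mono

-- BEGIN f0_mono
/-- If all walls are before `B` they are in increasing or decreasing order. Proof: `rank_fun m W
h.inj` gives `ρ`; `ρ` is injective by its order property and `h.inj`; if `ρ i + 2 < ρ j` for two
adjacent indices there are two walls strictly between the ends of the chord `(W i, W j)`,
contradiction to `f0_span` (side `W j < B`); so `seq_mono` applies. -/
theorem f0_mono {Ed : ℕ → ℕ → Prop} {m A B : ℕ} {W : ℕ → ℕ} (h : Fr0 Ed m A B W) (hm : 7 ≤ m)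
    (hB : ∀ j, j < m → W j < B) :
    (∀ i j, i < j → j < m → W i < W j) ∨ (∀ i j, i < j → j < m → W j < W i) := by
  obtain ⟨ρ, hlt, hord, hsur, hfar⟩ := rank_fun m W h.inj
  have hinj : ∀ i j, i < m → j < m → ρ i = ρ j → i = j := by
    intro i j hi hj he
    by_contra hne
    have h1 : W i ≠ W j := fun e => hne (h.inj i j hi hj e)
    rcases lt_or_gt_of_ne h1 with h2 | h2
    · have := (hord i j hi hj).2 h2
      omega
    · have := (hord j i hj hi).2 h2
      omega
  have hcl : ∀ i j, i < m → j < m → Ed (W i) (W j) → ρ j ≤ ρ i + 2 := by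
    intro i j hi hj he
    by_contra hc
    obtain ⟨s, t, hs, ht, h1, h2, h3⟩ := hfar i j hi hj (by omega)
    exact f0_span h he (h.awlt i hi) (h1.trans (h2.trans h3)) (Or.inl (hB j hj)) hs ht h1 h2 h3
  rcases seq_mono m (by omega) ρ hlt hinj hsur
    (fun j hj => ⟨hcl _ _ hj (by omega) (h.symm _ _ (h.w1 j hj)),
      hcl _ _ (by omega) hj (h.w1 j hj)⟩)
    (fun j hj => ⟨hcl _ _ hj (by omega) (h.symm _ _ (h.w2 j hj)),
      hcl _ _ (by omega) hj (h.w2 j hj)⟩) with hc | hc
  · left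
    intro i j hij hj
    refine (hord i j (by omega) hj).1 ?_
    rw [hc i (by omega), hc j hj]
    exact hij
  · right
    intro i j hij hj
    refine (hord j i hj (by omega)).1 ?_
    rw [hc i (by omega), hc j hj]
    omega
-- END f0_mono

/-- a drawing `p` of a graph on codes: `S` contains all non-isolated codes, the places are distinct
on `S`, smaller than `L`, and no three edges cross pairwise -/
structure Dr (G : SimpleGraph Cd) (S : Set Cd) (p : Cd → ℕ) (L : ℕ) : Prop where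
  adj : ∀ x y, G.Adj x y → x ∈ S
  inj : ∀ x, x ∈ S → ∀ y, y ∈ S → p x = p y → x = y
  lt : ∀ x, x ∈ S → p x < L
  nt : NT (Ps G p)

-- BEGIN dr_map
/-- Proof: `Ps G (fun x => f (p x)) u v` gives `a, b` with `G.Adj a b`, `f (p a) = u`,
`f (p b) = v`; `a, b ∈ S` by `h.adj` (and symmetry), places `< L`; an `Alt` of images gives an `Alt`
of the places by `hf`. -/
theorem dr_map {G : SimpleGraph Cd} {S : Set Cd} {p : Cd → ℕ} {L L' : ℕ} (h : Dr G S p L)
    (f : ℕ → ℕ) (hinj : ∀ x y, x < L → y < L → f x = f y → x = y) (hlt : ∀ x, x < L → f x < L')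
    (hf : ∀ a b c d, a < L → b < L → c < L → d < L → Alt (f a) (f b) (f c) (f d) → Alt a b c d) :
    Dr G S (fun x => f (p x)) L' := by
  have hS : ∀ a b, G.Adj a b → p a < L ∧ p b < L := fun a b hab =>
    ⟨h.lt a (h.adj a b hab), h.lt b (h.adj b a hab.symm)⟩
  refine ⟨h.adj, ?_, ?_, ?_⟩
  · intro x hx y hy hxy
    exact h.inj x hx y hy (hinj _ _ (h.lt x hx) (h.lt y hy) hxy)
  · intro x hx
    exact hlt _ (h.lt x hx)
  · intro x y x' y' x'' y'' h1 h2 h3 c1 c2 c3
    obtain ⟨a, b, hab, rfl, rfl⟩ := h1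
    obtain ⟨a', b', hab', rfl, rfl⟩ := h2
    obtain ⟨a'', b'', hab'', rfl, rfl⟩ := h3
    obtain ⟨k1, k2⟩ := hS a b hab
    obtain ⟨k3, k4⟩ := hS a' b' hab'
    obtain ⟨k5, k6⟩ := hS a'' b'' hab''
    exact h.nt (p a) (p b) (p a') (p b') (p a'') (p b'') ⟨a, b, hab, rfl, rfl⟩
      ⟨a', b', hab', rfl, rfl⟩ ⟨a'', b'', hab'', rfl, rfl⟩ (hf _ _ _ _ k1 k2 k3 k4 c1)
      (hf _ _ _ _ k1 k2 k5 k6 c2) (hf _ _ _ _ k3 k4 k5 k6 c3)

/-- the map exchanging the names of the two hubs -/
def swp (x : Cd) : Cd :=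
  if x = (0, 0, 0) then (0, 1, 0) else if x = (0, 1, 0) then (0, 0, 0) else x

private theorem dr_map_swp (x : Cd) :
    (x = (0, 0, 0) ∧ swp x = (0, 1, 0)) ∨ (x = (0, 1, 0) ∧ swp x = (0, 0, 0)) ∨
      (x ≠ (0, 0, 0) ∧ x ≠ (0, 1, 0) ∧ swp x = x) := by
  unfold swp
  by_cases h1 : x = (0, 0, 0)
  · left
    exact ⟨h1, if_pos h1⟩
  · by_cases h2 : x = (0, 1, 0)
    · right
      left
      exact ⟨h2, by rw [if_neg h1, if_pos h2]⟩
    · right
      right
      exact ⟨h1, h2, by rw [if_neg h1, if_neg h2]⟩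

private theorem dr_map_ep (N M Q : ℕ) (i1 i2 q : ℕ → ℕ) (act : ℕ → Bool) (x y : Cd)
    (h : EP N M Q i1 i2 q act x y) : (Gr N M Q i1 i2 q act).Adj (swp x) (swp y) := by
  have e0 : swp (0, 0, 0) = (0, 1, 0) := by unfold swp; rw [if_pos rfl]
  have e1 : swp (0, 1, 0) = (0, 0, 0) := by
    unfold swp
    rw [if_neg (by decide), if_pos rfl]
  have e2 : ∀ a b c : ℕ, a ≠ 0 → swp (a, b, c) = (a, b, c) := by
    intro a b c ha
    unfold swp
    rw [if_neg fun h => ha (congrArg Prod.fst h), if_neg fun h => ha (congrArg Prod.fst h)]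
  have h' := h
  obtain ⟨x1, x2, x3⟩ := x
  obtain ⟨y1, y2, y3⟩ := y
  unfold EP at h
  dsimp only at h
  rcases h with h | h | h
  · obtain ⟨rfl, rfl, rfl, rfl, rfl, rfl⟩ := h
    rw [e0, e1]
    exact Or.inr (Or.inl ⟨rfl, rfl, rfl, rfl, rfl, rfl⟩)
  · obtain ⟨rfl, rfl, hx, rfl, hy, rfl⟩ := h
    rw [e2 1 y2 0 one_ne_zero]
    have hx' : x2 = 0 ∨ x2 = 1 := by omega
    rcases hx' with rfl | rfl
    · rw [e0]
      exact Or.inl (Or.inr (Or.inl ⟨rfl, rfl, Nat.lt_succ_self 1, rfl, hy, rfl⟩))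
    · rw [e1]
      exact Or.inl (Or.inr (Or.inl ⟨rfl, rfl, Nat.succ_pos 1, rfl, hy, rfl⟩))
  · have hne : x1 ≠ 0 ∧ y1 ≠ 0 := by omega
    rw [e2 x1 x2 x3 hne.1, e2 y1 y2 y3 hne.2]
    exact Or.inl h'

/-- `swp` is an automorphism of the graph of the reduction: the hubs `(0,0,0)`, `(0,1,0)` are
adjacent to each other and to the same walls, and to nothing else. (Unfold `Gr`, `EP`.) -/
theorem gr_swp (N M Q : ℕ) (i1 i2 q : ℕ → ℕ) (act : ℕ → Bool) (x y : Cd)
    (h : (Gr N M Q i1 i2 q act).Adj x y) : (Gr N M Q i1 i2 q act).Adj (swp x) (swp y) := by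
  rcases h with h | h
  · exact dr_map_ep N M Q i1 i2 q act x y h
  · exact (dr_map_ep N M Q i1 i2 q act y x h).symm

/-- Proof: with `gr_swp` a chord of `p ∘ swp` is a chord of `p`; `swp` is injective and preserves
`S` (as `(0,0,0), (0,1,0) ∈ S`). -/
theorem dr_swp {N M Q : ℕ} {i1 i2 q : ℕ → ℕ} {act : ℕ → Bool} {S : Set Cd} {p : Cd → ℕ} {L : ℕ}
    (h : Dr (Gr N M Q i1 i2 q act) S p L) (h0 : ((0, 0, 0) : Cd) ∈ S) (h1 : ((0, 1, 0) : Cd) ∈ S) :
    Dr (Gr N M Q i1 i2 q act) S (fun x => p (swp x)) L := by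
  have hS : ∀ x, x ∈ S → swp x ∈ S := by
    intro x hx
    rcases dr_map_swp x with ⟨_, e⟩ | ⟨_, e⟩ | ⟨_, _, e⟩ <;> rw [e]
    · exact h1
    · exact h0
    · exact hx
  have hinv : ∀ x, swp (swp x) = x := by
    intro x
    rcases dr_map_swp x with ⟨e1, e⟩ | ⟨e1, e⟩ | ⟨_, _, e⟩
    · rw [e, e1]
      unfold swp
      rw [if_neg (by decide), if_pos rfl]
    · rw [e, e1]
      unfold swp
      rw [if_pos rfl]
    · rw [e, e]
  refine ⟨h.adj, ?_, ?_, ?_⟩
  · intro x hx y hy hxy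
    have h2 := h.inj _ (hS x hx) _ (hS y hy) hxy
    rw [← hinv x, h2, hinv]
  · intro x hx
    exact h.lt _ (hS x hx)
  · intro x y x' y' x'' y'' c1 c2 c3
    have key : ∀ u v, Ps (Gr N M Q i1 i2 q act) (fun x => p (swp x)) u v →
        Ps (Gr N M Q i1 i2 q act) p u v := by
      rintro u v ⟨a, b, hab, hu, hv⟩
      exact ⟨swp a, swp b, gr_swp N M Q i1 i2 q act a b hab, hu, hv⟩
    exact h.nt x y x' y' x'' y'' (key _ _ c1) (key _ _ c2) (key _ _ c3)
-- END dr_map

-- BEGIN dr_ops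
private theorem dr_ops_rot (L s x : ℕ) : (x < s ∧ rot L s x = x + L) ∨ (s ≤ x ∧ rot L s x = x) := by
  unfold rot
  split_ifs with h
  · exact Or.inl ⟨h, rfl⟩
  · exact Or.inr ⟨not_lt.1 h, rfl⟩

private theorem dr_ops_dr {G : SimpleGraph Cd} {S : Set Cd} {p : Cd → ℕ} {L : ℕ} (h : Dr G S p L)
    (s : ℕ) : Dr G S (fun x => rot L s (p x)) (2 * L) := by
  refine dr_map h (rot L s) ?_ ?_ ?_
  · intro x y hx hy hxy
    have h1 := dr_ops_rot L s x
    have h2 := dr_ops_rot L s y
    omega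
  · intro x hx
    have h1 := dr_ops_rot L s x
    omega
  · intro a b c d ha hb hc hd habcd
    exact (alt_rot L s a b c d ha hb hc hd).1 habcd

/-- make hub `a` first: `dr_map` with `rot L (p (0,0,0))` (and `L' = 2 * L`), `alt_rot` -/
theorem dr_first {G : SimpleGraph Cd} {S : Set Cd} {p : Cd → ℕ} {L : ℕ} (h : Dr G S p L)
    (h0 : ((0, 0, 0) : Cd) ∈ S) :
    ∃ (p' : Cd → ℕ) (L' : ℕ), Dr G S p' L' ∧ ∀ x, x ∈ S → p' (0, 0, 0) ≤ p' x := by
  refine ⟨fun x => rot L (p (0, 0, 0)) (p x), 2 * L, dr_ops_dr h _, ?_⟩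
  intro x hx
  show rot L (p (0, 0, 0)) (p (0, 0, 0)) ≤ rot L (p (0, 0, 0)) (p x)
  have h1 := dr_ops_rot L (p (0, 0, 0)) (p (0, 0, 0))
  have h2 := dr_ops_rot L (p (0, 0, 0)) (p x)
  have h3 := h.lt _ h0
  omega

/-- If hub `a` is first and all walls are after hub `b`: rotate such that hub `b` is first
(`rot L (p (0,1,0))`), then exchange the names of the hubs (`dr_swp`). New place of hub `a`:
`p (0,1,0)`, the first; new place of hub `b`: `p (0,0,0) + L` (as `p (0,0,0) < p (0,1,0)`); the walls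
keep their places `< L`, so they are before the new hub `b`, in the same order. -/
theorem dr_op1 {N M Q : ℕ} {i1 i2 q : ℕ → ℕ} {act : ℕ → Bool} {S : Set Cd} {p : Cd → ℕ} {L : ℕ}
    (h : Dr (Gr N M Q i1 i2 q act) S p L) (h0 : ((0, 0, 0) : Cd) ∈ S) (h1 : ((0, 1, 0) : Cd) ∈ S)
    (hw : ∀ j, j < mw N → ((1, j, 0) : Cd) ∈ S)
    (hf : ∀ x, x ∈ S → p (0, 0, 0) ≤ p x) (hb : ∀ j, j < mw N → p (0, 1, 0) < p (1, j, 0)) :
    ∃ (p' : Cd → ℕ) (L' : ℕ), Dr (Gr N M Q i1 i2 q act) S p' L' ∧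
      (∀ x, x ∈ S → p' (0, 0, 0) ≤ p' x) ∧ (∀ j, j < mw N → p' (1, j, 0) < p' (0, 1, 0)) ∧
      ∀ i j, i < mw N → j < mw N → (p' (1, i, 0) < p' (1, j, 0) ↔ p (1, i, 0) < p (1, j, 0)) := by
  have e0 : swp (0, 0, 0) = (0, 1, 0) := by unfold swp; rw [if_pos rfl]
  have e1 : swp (0, 1, 0) = (0, 0, 0) := by
    unfold swp
    rw [if_neg (by decide), if_pos rfl]
  have e2 : ∀ j, swp (1, j, 0) = (1, j, 0) := by
    intro j
    unfold swp
    rw [if_neg (by simp), if_neg (by simp)]
  have hne : p (0, 0, 0) ≠ p (0, 1, 0) := by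
    intro he
    have := h.inj _ h0 _ h1 he
    exact absurd this (by decide)
  have hle := hf _ h1
  have hL0 := h.lt _ h0
  have hL1 := h.lt _ h1
  refine ⟨fun x => rot L (p (0, 1, 0)) (p (swp x)), 2 * L, dr_swp (dr_ops_dr h (p (0, 1, 0))) h0 h1,
    ?_, ?_, ?_⟩
  · intro x _
    show rot L (p (0, 1, 0)) (p (swp (0, 0, 0))) ≤ rot L (p (0, 1, 0)) (p (swp x))
    rw [e0]
    have h2 := dr_ops_rot L (p (0, 1, 0)) (p (0, 1, 0))
    have h3 := dr_ops_rot L (p (0, 1, 0)) (p (swp x))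
    omega
  · intro j hj
    show rot L (p (0, 1, 0)) (p (swp (1, j, 0))) < rot L (p (0, 1, 0)) (p (swp (0, 1, 0)))
    rw [e1, e2]
    have h2 := dr_ops_rot L (p (0, 1, 0)) (p (1, j, 0))
    have h3 := dr_ops_rot L (p (0, 1, 0)) (p (0, 0, 0))
    have h4 := hb j hj
    have h5 := h.lt _ (hw j hj)
    omega
  · intro i j hi hj
    show rot L (p (0, 1, 0)) (p (swp (1, i, 0))) < rot L (p (0, 1, 0)) (p (swp (1, j, 0))) ↔ _
    rw [e2, e2]
    have h2 := dr_ops_rot L (p (0, 1, 0)) (p (1, i, 0))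
    have h3 := dr_ops_rot L (p (0, 1, 0)) (p (1, j, 0))
    have h4 := hb i hi
    have h5 := hb j hj
    omega

/-- If hub `a` is first and all walls are before hub `b`: reflect (`x ↦ L - x`, `alt_refl`), then
hub `a` is last; rotate it to the first place (`rot (L + 1) (L - p (0,0,0))`). Now hub `b` is before
all walls, and the order of the walls is reversed. -/
theorem dr_op2 {N M Q : ℕ} {i1 i2 q : ℕ → ℕ} {act : ℕ → Bool} {S : Set Cd} {p : Cd → ℕ} {L : ℕ}
    (h : Dr (Gr N M Q i1 i2 q act) S p L) (h0 : ((0, 0, 0) : Cd) ∈ S) (h1 : ((0, 1, 0) : Cd) ∈ S)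
    (hw : ∀ j, j < mw N → ((1, j, 0) : Cd) ∈ S)
    (hf : ∀ x, x ∈ S → p (0, 0, 0) ≤ p x) (hb : ∀ j, j < mw N → p (1, j, 0) < p (0, 1, 0)) :
    ∃ (p' : Cd → ℕ) (L' : ℕ), Dr (Gr N M Q i1 i2 q act) S p' L' ∧
      (∀ x, x ∈ S → p' (0, 0, 0) ≤ p' x) ∧ (∀ j, j < mw N → p' (0, 1, 0) < p' (1, j, 0)) ∧
      ∀ i j, i < mw N → j < mw N → (p' (1, i, 0) < p' (1, j, 0) ↔ p (1, j, 0) < p (1, i, 0)) := by
  have hr : Dr (Gr N M Q i1 i2 q act) S (fun x => L - p x) (L + 1) := by
    refine dr_map h (fun x => L - x) ?_ ?_ ?_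
    · intro x y hx hy hxy
      have hxy' : L - x = L - y := hxy
      omega
    · intro x hx
      show L - x < L + 1
      omega
    · intro a b c d ha hb hc hd habcd
      exact (alt_refl L a b c d ha hb hc hd).1 habcd
  have hd := dr_ops_dr hr (L - p (0, 0, 0))
  have hne : ∀ j, j < mw N → p (0, 0, 0) < p (1, j, 0) := by
    intro j hj
    refine lt_of_le_of_ne (hf _ (hw j hj)) fun he => ?_
    have := h.inj _ h0 _ (hw j hj) he
    simp at this
  have hne1 : p (0, 0, 0) < p (0, 1, 0) := by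
    refine lt_of_le_of_ne (hf _ h1) fun he => ?_
    have := h.inj _ h0 _ h1 he
    exact absurd this (by decide)
  have hL0 := h.lt _ h0
  have hL1 := h.lt _ h1
  refine ⟨fun x => rot (L + 1) (L - p (0, 0, 0)) (L - p x), 2 * (L + 1), hd, ?_, ?_, ?_⟩
  · intro x hx
    show rot (L + 1) (L - p (0, 0, 0)) (L - p (0, 0, 0)) ≤ rot (L + 1) (L - p (0, 0, 0)) (L - p x)
    have h2 := dr_ops_rot (L + 1) (L - p (0, 0, 0)) (L - p (0, 0, 0))
    have h3 := dr_ops_rot (L + 1) (L - p (0, 0, 0)) (L - p x)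
    omega
  · intro j hj
    show rot (L + 1) (L - p (0, 0, 0)) (L - p (0, 1, 0)) <
      rot (L + 1) (L - p (0, 0, 0)) (L - p (1, j, 0))
    have h2 := dr_ops_rot (L + 1) (L - p (0, 0, 0)) (L - p (0, 1, 0))
    have h3 := dr_ops_rot (L + 1) (L - p (0, 0, 0)) (L - p (1, j, 0))
    have h4 := hb j hj
    have h5 := h.lt _ (hw j hj)
    have h6 := hne j hj
    omega
  · intro i j hi hj
    show rot (L + 1) (L - p (0, 0, 0)) (L - p (1, i, 0)) <
      rot (L + 1) (L - p (0, 0, 0)) (L - p (1, j, 0)) ↔ _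
    have h2 := dr_ops_rot (L + 1) (L - p (0, 0, 0)) (L - p (1, i, 0))
    have h3 := dr_ops_rot (L + 1) (L - p (0, 0, 0)) (L - p (1, j, 0))
    have h4 := hne i hi
    have h5 := hne j hj
    have h6 := h.lt _ (hw i hi)
    have h7 := h.lt _ (hw j hj)
    omega
-- END dr_ops

-- BEGIN canon
/-- the frame of a drawing of `Gr` with hub `a` first. Proof: `Ps` is symmetric as `Adj` is; the
chords come from `EP` (rows 1, 2, 3); places are distinct by `h.inj`. -/
theorem dr_fr0 {N M Q : ℕ} {i1 i2 q : ℕ → ℕ} {act : ℕ → Bool} {S : Set Cd} {p : Cd → ℕ} {L : ℕ}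
    (h : Dr (Gr N M Q i1 i2 q act) S p L) (h0 : ((0, 0, 0) : Cd) ∈ S) (h1 : ((0, 1, 0) : Cd) ∈ S)
    (hw : ∀ j, j < mw N → ((1, j, 0) : Cd) ∈ S) (hf : ∀ x, x ∈ S → p (0, 0, 0) ≤ p x) :
    Fr0 (Ps (Gr N M Q i1 i2 q act) p) (mw N) (p (0, 0, 0)) (p (0, 1, 0))
      (fun j => p (1, j, 0)) := by
  have hne : ∀ x y : Cd, x ∈ S → y ∈ S → x ≠ y → p x ≠ p y :=
    fun x y hx hy hxy he => hxy (h.inj x hx y hy he)
  refine ⟨?_, h.nt, ?_, ?_, ?_, ?_, ?_, ?_, ?_, ?_⟩
  · rintro x y ⟨a, b, hab, rfl, rfl⟩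
    exact ⟨b, a, hab.symm, rfl, rfl⟩
  · intro j hj
    refine ⟨(0, 0, 0), (1, j, 0), ?_, rfl, rfl⟩
    left
    unfold EP
    exact Or.inr (Or.inl ⟨rfl, rfl, by decide, rfl, hj, rfl⟩)
  · intro j hj
    refine ⟨(0, 1, 0), (1, j, 0), ?_, rfl, rfl⟩
    left
    unfold EP
    exact Or.inr (Or.inl ⟨rfl, rfl, by decide, rfl, hj, rfl⟩)
  · intro j hj
    refine ⟨(1, j, 0), (1, j + 1, 0), ?_, rfl, rfl⟩
    left
    unfold EP
    exact Or.inr (Or.inr (Or.inl ⟨rfl, rfl, rfl, rfl, hj, Or.inl rfl⟩))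
  · intro j hj
    refine ⟨(1, j, 0), (1, j + 2, 0), ?_, rfl, rfl⟩
    left
    unfold EP
    exact Or.inr (Or.inr (Or.inl ⟨rfl, rfl, rfl, rfl, hj, Or.inr rfl⟩))
  · intro i j hi hj hij
    have h2 := h.inj _ (hw i hi) _ (hw j hj) hij
    have h3 := congrArg (fun x : Cd => x.2.1) h2
    exact h3
  · intro j hj
    refine lt_of_le_of_ne (hf _ (hw j hj)) (hne _ _ h0 (hw j hj) ?_)
    intro he
    have h3 := congrArg (fun x : Cd => x.1) he
    simp at h3
  · refine lt_of_le_of_ne (hf _ h1) (hne _ _ h0 h1 (by decide))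
  · intro j hj
    refine hne _ _ (hw j hj) h1 ?_
    intro he
    have h3 := congrArg (fun x : Cd => x.1) he
    simp at h3

/-- CANONICAL FORM. Proof: `dr_first`; `f0_side` for the frame `dr_fr0`; if the walls are after `b`
use `dr_op1`: so we may assume that all walls are before `b`. `f0_mono`: if the walls are decreasing
use `dr_op2` and then `dr_op1`. So we may assume that they are increasing and before `b`. Then `Fr`:
`first` holds since a chord has both ends in `p '' S`. -/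
theorem canon {N M Q : ℕ} {i1 i2 q : ℕ → ℕ} {act : ℕ → Bool} {S : Set Cd} {p : Cd → ℕ} {L : ℕ}
    (h : Dr (Gr N M Q i1 i2 q act) S p L) (h0 : ((0, 0, 0) : Cd) ∈ S) (h1 : ((0, 1, 0) : Cd) ∈ S)
    (hw : ∀ j, j < mw N → ((1, j, 0) : Cd) ∈ S) :
    ∃ (p' : Cd → ℕ) (L' : ℕ), Dr (Gr N M Q i1 i2 q act) S p' L' ∧
      Fr (Ps (Gr N M Q i1 i2 q act) p') (mw N) (p' (0, 0, 0)) (p' (0, 1, 0))
        (fun j => p' (1, j, 0)) := by
  have hm : 7 ≤ mw N := by unfold mw; omega
  have hfin : ∀ (p' : Cd → ℕ) (L' : ℕ), Dr (Gr N M Q i1 i2 q act) S p' L' →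
      (∀ x, x ∈ S → p' (0, 0, 0) ≤ p' x) → (∀ j, j < mw N → p' (1, j, 0) < p' (0, 1, 0)) →
      (∀ i j, i < j → j < mw N → p' (1, i, 0) < p' (1, j, 0)) →
      Fr (Ps (Gr N M Q i1 i2 q act) p') (mw N) (p' (0, 0, 0)) (p' (0, 1, 0))
        (fun j => p' (1, j, 0)) := by
    intro p' L' hD hf hb hmono
    have F := dr_fr0 hD h0 h1 hw hf
    refine ⟨F.symm, F.nt, ?_, F.aw, F.bw, F.w1, hmono, F.awlt, hb⟩
    rintro x y ⟨a, b, hab, rfl, rfl⟩
    exact hf a (hD.adj a b hab)
  obtain ⟨p1, L1, hD1, hf1⟩ := dr_first h h0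
  obtain ⟨p2, L2, hD2, hf2, hb2⟩ : ∃ (p2 : Cd → ℕ) (L2 : ℕ), Dr (Gr N M Q i1 i2 q act) S p2 L2 ∧
      (∀ x, x ∈ S → p2 (0, 0, 0) ≤ p2 x) ∧
      (∀ j, j < mw N → p2 (1, j, 0) < p2 (0, 1, 0)) := by
    rcases f0_side (dr_fr0 hD1 h0 h1 hw hf1) hm with hl | hr
    · exact ⟨p1, L1, hD1, hf1, hl⟩
    · obtain ⟨p2, L2, hD2, hf2, hb2, -⟩ := dr_op1 hD1 h0 h1 hw hf1 hr
      exact ⟨p2, L2, hD2, hf2, hb2⟩
  rcases f0_mono (dr_fr0 hD2 h0 h1 hw hf2) hm hb2 with hi | hd
  · exact ⟨p2, L2, hD2, hfin p2 L2 hD2 hf2 hb2 hi⟩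
  · obtain ⟨p3, L3, hD3, hf3, hb3, ho3⟩ := dr_op2 hD2 h0 h1 hw hf2 hb2
    obtain ⟨p4, L4, hD4, hf4, hb4, ho4⟩ := dr_op1 hD3 h0 h1 hw hf3 hb3
    refine ⟨p4, L4, hD4, hfin p4 L4 hD4 hf4 hb4 ?_⟩
    intro i j hij hj
    exact (ho4 i j (hij.trans hj) hj).2 ((ho3 i j (hij.trans hj) hj).2 (hd i j hij hj))
-- END canon

end Pool.Agent.Cqp
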