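import Mathlib
import Pool.Agent.Cqp.Defs

set_option autoImplicit false

/-!
# Wires stay in their zones
-/

namespace Pool.Agent.Cqp

-- BEGIN fr_basic
/-- Let `x` have walls on both sides (it may be a wall itself) and let `(x,y)` be a chord, `y` not a
hub. Then `A < y < B` and there are no two walls strictly between `x` and `y`. Proof: `A < W i < x <
W j < B`; `A ≤ y` by `h.first`. If `y > B` the chords `(x,y)`, `(A, W j)`, `(B, W i)` cross
pairwise. So `y < B`. If `W s < W t` (i.e. `s < t`, `h.mono`) are strictly between, the chords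
`(x,y)`, `(A, W t)`, `(B, W s)` cross pairwise (`A < min x y < W s < W t < max x y < B`). -/
theorem Fr.mid {Ed : ℕ → ℕ → Prop} {m A B : ℕ} {W : ℕ → ℕ} (h : Fr Ed m A B W) {x y i j : ℕ}
    (hi : i < m) (hj : j < m) (hx1 : W i < x) (hx2 : x < W j) (he : Ed x y) (hA : y ≠ A)
    (hB : y ≠ B) : A < y ∧ y < B ∧ ∀ s t, s < t → t < m → min x y < W s → W t < max x y →
      False := by
  have a1 := h.first y x (h.symm x y he)
  have a2 := h.awlt i hi
  have a3 := h.wblt j hj
  have a4 : A < y := by omega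
  have a5 : y < B := by
    by_contra hc
    have a6 : B < y := by omega
    refine h.nt x y A (W j) B (W i) he (h.aw j hj) (h.bw i hi) ?_ ?_ ?_ <;> unfold Alt <;> omega
  refine ⟨a4, a5, fun s t hst ht h1 h2 => ?_⟩
  have b1 := h.mono s t hst ht
  have b2 := h.wblt t ht
  have b3 := h.wblt s (by omega)
  refine h.nt x y A (W t) B (W s) he (h.aw t ht) (h.bw s (by omega)) ?_ ?_ ?_ <;> unfold Alt <;> omega

/-- Two chords passing over the same wall `W j` do not cross: both cross the chord `(A, W j)`. -/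
theorem Fr.ovr {Ed : ℕ → ℕ → Prop} {m A B : ℕ} {W : ℕ → ℕ} (h : Fr Ed m A B W)
    {x y x' y' j : ℕ} (hj : j < m) (he : Ed x y) (he' : Ed x' y') (h1 : x < W j) (h2 : W j < y)
    (h3 : x' < W j) (h4 : W j < y') (hA : A < x) (hA' : A < x') : ¬ Alt x y x' y' := by
  intro hc
  refine h.nt x y x' y' A (W j) he he' (h.aw j hj) hc ?_ ?_ <;> unfold Alt <;> omega

/-- Two distinct vertices `p, p'` between the neighbouring walls `W k < W (k+1)` cannot both have a
chord passing over `W k` to the left and a chord passing over `W (k+1)` to the right. Proof: let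
`p < p'`. Then `l' < W k < p < p' < W (k+1) < r` and the chords `(l', p')`, `(p, r)`,
`(W k, W (k+1))` cross pairwise. If `p' < p` exchange the roles. -/
theorem Fr.typeA {Ed : ℕ → ℕ → Prop} {m A B : ℕ} {W : ℕ → ℕ} (h : Fr Ed m A B W)
    {k l p r l' p' r' : ℕ} (hk : k + 1 < m) (hp1 : W k < p) (hp2 : p < W (k + 1))
    (hq1 : W k < p') (hq2 : p' < W (k + 1)) (hne : p ≠ p') (e1 : Ed l p) (g1 : l < W k)
    (e2 : Ed p r) (g2 : W (k + 1) < r) (e3 : Ed l' p') (g3 : l' < W k) (e4 : Ed p' r')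
    (g4 : W (k + 1) < r') : False := by
  rcases Nat.lt_or_gt_of_ne hne with hlt | hlt
  · refine h.nt l' p' p r (W k) (W (k + 1)) e3 e2 (h.ww k hk) ?_ ?_ ?_ <;> unfold Alt <;> omega
  · refine h.nt l p p' r' (W k) (W (k + 1)) e1 e4 (h.ww k hk) ?_ ?_ ?_ <;> unfold Alt <;> omega
-- END fr_basic

open Classical in
/-- the number of walls before `y` -/
noncomputable def zn (m : ℕ) (W : ℕ → ℕ) (y : ℕ) : ℕ :=
  ((Finset.range m).filter fun j => W j < y).card

-- BEGIN zn_basic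
/-- Proof: by `h.mono` the set `{j < m : W j < y}` is an initial segment of `range m`, so it is
`range (zn m W y)`: e.g. if `W j < y` then `range (j+1) ⊆` the filter, so `j + 1 ≤ zn`; if
`¬ W j < y` then the filter is contained in `range j`, so `zn ≤ j`. -/
theorem zn_spec {Ed : ℕ → ℕ → Prop} {m A B : ℕ} {W : ℕ → ℕ} (h : Fr Ed m A B W) (y j : ℕ)
    (hj : j < m) : W j < y ↔ j < zn m W y := by
  have hz : zn m W y = ((Finset.range m).filter fun i => W i < y).card := by
    unfold zn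
    congr
  rw [hz]
  constructor
  · intro hlt
    have hsub : Finset.range (j + 1) ⊆ (Finset.range m).filter fun i => W i < y := by
      intro i hi
      rw [Finset.mem_range] at hi
      rw [Finset.mem_filter, Finset.mem_range]
      refine ⟨by omega, ?_⟩
      rcases Nat.lt_or_ge i j with h1 | h1
      · exact lt_trans (h.mono i j h1 hj) hlt
      · have h2 : i = j := by omega
        rw [h2]
        exact hlt
    have h1 := Finset.card_le_card hsub
    rw [Finset.card_range] at h1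
    omega
  · intro hlt
    by_contra hn
    have hsub : ((Finset.range m).filter fun i => W i < y) ⊆ Finset.range j := by
      intro i hi
      rw [Finset.mem_filter, Finset.mem_range] at hi
      rw [Finset.mem_range]
      by_contra hij
      rcases Nat.lt_or_ge j i with h1 | h1
      · exact hn (lt_trans (h.mono j i h1 hi.1) hi.2)
      · have h2 : i = j := by omega
        rw [h2] at hi
        exact hn hi.2
    have h1 := Finset.card_le_card hsub
    rw [Finset.card_range] at h1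
    omega

theorem zn_le {m : ℕ} {W : ℕ → ℕ} (y : ℕ) : zn m W y ≤ m := by
  unfold zn
  exact (Finset.card_filter_le _ _).trans (Finset.card_range m).le

/-- A chord between two vertices that are neither hubs nor walls changes `zn` by at most `1`. Proof:
`x` has the walls `W 0` and `W (m-1)` on its sides by `hz0`, `hzm`, `zn_spec`. `Fr.mid`: if
`zn y ≥ zn x + 2` the walls `zn x` and `zn x + 1` are strictly between (`x ≠` wall, `zn_spec`); if
`zn x ≥ zn y + 2` the walls `zn y`, `zn y + 1` are. -/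
theorem zn_edge {Ed : ℕ → ℕ → Prop} {m A B : ℕ} {W : ℕ → ℕ} (h : Fr Ed m A B W) {x y : ℕ}
    (he : Ed x y) (hz0 : 0 < zn m W x) (hzm : zn m W x < m) (hxw : ∀ j, j < m → x ≠ W j)
    (hyA : y ≠ A) (hyB : y ≠ B) (hyw : ∀ j, j < m → y ≠ W j) :
    A < y ∧ y < B ∧ zn m W y ≤ zn m W x + 1 ∧ zn m W x ≤ zn m W y + 1 := by
  have hx1 : W 0 < x := (zn_spec h x 0 (by omega)).2 hz0
  have hgt : ∀ (z s : ℕ), s < m → ¬ s < zn m W z → z ≠ W s → z < W s := by
    intro z s hs h1 h2
    have h3 : ¬ W s < z := fun h4 => h1 ((zn_spec h z s hs).1 h4)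
    omega
  have hx2 : x < W (m - 1) := hgt x (m - 1) (by omega) (by omega) (hxw _ (by omega))
  obtain ⟨h1, h2, h3⟩ := h.mid (i := 0) (j := m - 1) (by omega) (by omega) hx1 hx2 he hyA hyB
  have hzy : zn m W y ≤ m := zn_le y
  refine ⟨h1, h2, ?_, ?_⟩
  · by_contra hc
    have ha := hgt x (zn m W x) (by omega) (by omega) (hxw _ (by omega))
    have hb := (zn_spec h y (zn m W x + 1) (by omega)).2 (by omega)
    exact h3 (zn m W x) (zn m W x + 1) (by omega) (by omega) (lt_of_le_of_lt (min_le_left _ _) ha)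
      (lt_of_lt_of_le hb (le_max_right _ _))
  · by_contra hc
    have ha := hgt y (zn m W y) (by omega) (by omega) (hyw _ (by omega))
    have hb := (zn_spec h x (zn m W y + 1) (by omega)).2 (by omega)
    exact h3 (zn m W y) (zn m W y + 1) (by omega) (by omega) (lt_of_le_of_lt (min_le_right _ _) ha)
      (lt_of_lt_of_le hb (le_max_left _ _))

/-- A chord from the wall `W w` to a vertex `y` that is neither a hub nor a wall. Proof: `Fr.mid`
with `x = W w`, `i = w - 1`, `j = w + 1`. If `zn y ≥ w + 3` the walls `w+1`, `w+2` are strictly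
between; if `zn y + 2 ≤ w` the walls `zn y` and `zn y + 1` are (`zn y + 1 < w`). -/
theorem zn_edge_wall {Ed : ℕ → ℕ → Prop} {m A B : ℕ} {W : ℕ → ℕ} (h : Fr Ed m A B W) {w y : ℕ}
    (he : Ed (W w) y) (hw : 1 ≤ w) (hwm : w + 1 < m) (hyA : y ≠ A) (hyB : y ≠ B)
    (hyw : ∀ j, j < m → y ≠ W j) :
    A < y ∧ y < B ∧ zn m W y ≤ w + 2 ∧ w ≤ zn m W y + 1 := by
  obtain ⟨h1, h2, h3⟩ := h.mid (i := w - 1) (j := w + 1) (by omega) hwm
    (h.mono (w - 1) w (by omega) (by omega)) (h.mono w (w + 1) (by omega) hwm) he hyA hyB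
  have hzy : zn m W y ≤ m := zn_le y
  refine ⟨h1, h2, ?_, ?_⟩
  · by_contra hc
    have ha : W w < W (w + 1) := h.mono w (w + 1) (by omega) hwm
    have hb := (zn_spec h y (w + 2) (by omega)).2 (by omega)
    exact h3 (w + 1) (w + 2) (by omega) (by omega) (lt_of_le_of_lt (min_le_left _ _) ha)
      (lt_of_lt_of_le hb (le_max_right _ _))
  · by_contra hc
    have ha : y < W (zn m W y) := by
      have h4 : ¬ W (zn m W y) < y := fun h5 => by
        have h6 := (zn_spec h y (zn m W y) (by omega)).1 h5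
        omega
      have h7 := hyw (zn m W y) (by omega)
      omega
    have hb : W (zn m W y + 1) < W w := h.mono (zn m W y + 1) w (by omega) (by omega)
    exact h3 (zn m W y) (zn m W y + 1) (by omega) (by omega) (lt_of_le_of_lt (min_le_right _ _) ha)
      (lt_of_lt_of_le hb (le_max_left _ _))
-- END zn_basic

-- BEGIN walk_zn
/-- A path that starts at the wall `W w` and runs through non-hub, non-wall vertices `Y 1, ..., Y L`
stays in `(A, B)`, drifts by at most one wall per step. Proof: induction on `j`; `j = 1`: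
`zn_edge_wall`; step: `zn_edge` for `x = Y j`, where `0 < zn` and `zn < m` follow from the
induction hypothesis with `hw`, `hm`. -/
theorem walk_zn {Ed : ℕ → ℕ → Prop} {m A B : ℕ} {W : ℕ → ℕ} (h : Fr Ed m A B W) (L w : ℕ)
    (Y : ℕ → ℕ) (hY : ∀ j, 1 ≤ j → j ≤ L → Y j ≠ A ∧ Y j ≠ B ∧ ∀ i, i < m → Y j ≠ W i)
    (e0 : Ed (W w) (Y 1)) (e : ∀ j, 1 ≤ j → j + 1 ≤ L → Ed (Y j) (Y (j + 1)))
    (hw : L + 1 ≤ w) (hm : w + L + 2 < m) :
    (∀ j, 1 ≤ j → j ≤ L → A < Y j ∧ Y j < B ∧ zn m W (Y j) ≤ w + 1 + j ∧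
      w ≤ zn m W (Y j) + j) ∧
    ∀ j, 1 ≤ j → j + 1 ≤ L → zn m W (Y (j + 1)) ≤ zn m W (Y j) + 1 := by
  have key : ∀ j, 1 ≤ j → j ≤ L → A < Y j ∧ Y j < B ∧ zn m W (Y j) ≤ w + 1 + j ∧
      w ≤ zn m W (Y j) + j := by
    intro j hj
    induction j, hj using Nat.le_induction with
    | base =>
      intro h1
      obtain ⟨a1, a2, a3⟩ := hY 1 le_rfl h1
      obtain ⟨b1, b2, b3, b4⟩ := zn_edge_wall h e0 (by omega) (by omega) a1 a2 a3
      exact ⟨b1, b2, by omega, by omega⟩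
    | succ j hj ih =>
      intro h1
      obtain ⟨c1, c2, c3, c4⟩ := ih (by omega)
      obtain ⟨a1, a2, a3⟩ := hY j hj (by omega)
      obtain ⟨a4, a5, a6⟩ := hY (j + 1) (by omega) h1
      obtain ⟨b1, b2, b3, b4⟩ := zn_edge h (e j hj h1) (by omega) (by omega) a3 a4 a5 a6
      exact ⟨b1, b2, by omega, by omega⟩
  refine ⟨key, fun j hj h1 => ?_⟩
  obtain ⟨c1, c2, c3, c4⟩ := key j hj (by omega)
  obtain ⟨a1, a2, a3⟩ := hY j hj (by omega)
  obtain ⟨a4, a5, a6⟩ := hY (j + 1) (by omega) h1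
  exact (zn_edge h (e j hj h1) (by omega) (by omega) a3 a4 a5 a6).2.2.1
-- END walk_zn

-- BEGIN seq_lem
/-- Pure combinatorics. Upper bounds: `f (2k) ≤ c + k` and `f (2k+1) ≤ c + k + 1` for `k ≤ N`, by
induction on `k`: `f (2k+1) ≤ f (2k) + 1`; and `f (2k+2) ≤ f (2k+1) + 1 ≤ c + k + 2`; if
`f (2k+2) = c + k + 2` (`k + 1 ≤ N`) then `f (2k+1) = c + k + 1` and `f (2k) = c + k`, a forbidden
pattern at `j = 2k+1`. Lower bounds: `f (2k) ≥ c + k` and `f (2k-1) ≥ c + k` for `1 ≤ k ≤ N`, by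
downward induction: given `f (2k+1) ≥ c + k + 1` (for `k = N` this is `hN`), `f (2k) ≥ c + k` by
`hs`, so `f (2k) = c + k`, `f (2k+1) = c + k + 1`; `f (2k-1) ≥ f (2k) - 1`, and if
`f (2k-1) = c + k - 1` then the pattern is forbidden at `j = 2k`. -/
theorem seq_lem (N c : ℕ) (f : ℕ → ℕ) (h0 : f 0 = c) (hN : f (2 * N + 1) = c + N + 1)
    (hs : ∀ j, j ≤ 2 * N → f (j + 1) ≤ f j + 1)
    (hp : ∀ j, j + 1 ≤ 2 * N → c + 1 ≤ f (j + 1) → f (j + 1) ≤ c + N → f j + 1 = f (j + 1) →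
      f (j + 2) = f (j + 1) + 1 → False) :
    ∀ k, k + 1 ≤ N → f (2 * k + 1) = c + k + 1 ∧ f (2 * k + 2) = c + k + 1 := by
  have hU : ∀ k, k ≤ N → f (2 * k) ≤ c + k ∧ f (2 * k + 1) ≤ c + k + 1 := by
    intro k
    induction k with
    | zero =>
      intro _
      have h1 := hs 0 (by omega)
      simp only [Nat.mul_zero, Nat.zero_add] at h1 ⊢
      omega
    | succ k ih =>
      intro hk
      obtain ⟨i1, i2⟩ := ih (by omega)
      have h1 := hs (2 * k) (by omega)
      have h2 := hs (2 * k + 1) (by omega)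
      have h3 := hs (2 * k + 2) (by omega)
      have h4 : f (2 * k + 2) ≤ c + k + 1 := by
        by_contra hcon
        push Not at hcon
        have e2 : f (2 * k + 1 + 1) = f (2 * k + 2) := rfl
        exact hp (2 * k) (by omega) (by omega) (by omega) (by omega) (by omega)
      have e1 : 2 * (k + 1) = 2 * k + 2 := by ring
      have e3 : f (2 * k + 2 + 1) = f (2 * k + 3) := rfl
      rw [e1]
      omega
  have hL : ∀ i, i ≤ N → c + (N - i) + 1 ≤ f (2 * (N - i) + 1) := by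
    intro i
    induction i with
    | zero =>
      intro _
      simp only [Nat.sub_zero]
      omega
    | succ i ih =>
      intro hi
      have i1 := ih (by omega)
      obtain ⟨k, hk⟩ : ∃ k, N - i = k + 1 := ⟨N - i - 1, by omega⟩
      have hk' : N - (i + 1) = k := by omega
      rw [hk] at i1
      rw [hk']
      have e1 : 2 * (k + 1) + 1 = 2 * k + 3 := by ring
      rw [e1] at i1
      obtain ⟨u1, u2⟩ := hU (k + 1) (by omega)
      have e2 : 2 * (k + 1) = 2 * k + 2 := by ring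
      rw [e2] at u1 u2
      have e5 : f (2 * k + 2 + 1) = f (2 * k + 3) := rfl
      have e6 : f (2 * k + 1 + 1) = f (2 * k + 2) := rfl
      have e7 : f (2 * k + 1 + 2) = f (2 * k + 3) := rfl
      have h2 := hs (2 * k + 1) (by omega)
      have h3 := hs (2 * k + 2) (by omega)
      by_contra hcon
      push Not at hcon
      exact hp (2 * k + 1) (by omega) (by omega) (by omega) (by omega) (by omega)
  intro k hk
  obtain ⟨u1, u2⟩ := hU k (by omega)
  obtain ⟨u3, u4⟩ := hU (k + 1) (by omega)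
  have l1 := hL (N - k) (by omega)
  have l2 := hL (N - (k + 1)) (by omega)
  have e1 : N - (N - k) = k := by omega
  have e2 : N - (N - (k + 1)) = k + 1 := by omega
  rw [e1] at l1
  rw [e2] at l2
  have e3 : 2 * (k + 1) = 2 * k + 2 := by ring
  rw [e3] at u3 u4 l2
  have h3 := hs (2 * k + 2) (by omega)
  omega
-- END seq_lem

-- BEGIN loc_D
/-- The special wire has its `k`-th vertex in zone `k`. Proof: `walk_zn` with `L = N`,
`w = d0 N = 2N+2`, `Y = D` gives `zn (D k) ≤ d0 N + 1 + k`. The chord `(D N, W (d0 N + N + 2))` and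
`zn_edge_wall` give `zn (D N) ≥ d0 N + N + 1`, and downwards (`zn (D (k+1)) ≤ zn (D k) + 1`)
`zn (D k) ≥ d0 N + k + 1`. So `zn (D k) = d0 N + k + 1`; conclude with `zn_spec` (and `D k ≠ W _`).
-/
theorem loc_D {Ed : ℕ → ℕ → Prop} {N M A B : ℕ} {W D : ℕ → ℕ} {V U : ℕ → ℕ → ℕ}
    (h : Wr Ed N M A B W D V U) (k : ℕ) (h1 : 1 ≤ k) (h2 : k ≤ N) :
    W (d0 N + k) < D k ∧ D k < W (d0 N + k + 1) := by
  have hN := h.hN
  have hd0 : d0 N = 2 * N + 2 := rfl
  have hmw : mw N = 5 * N + 7 := rfl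
  obtain ⟨hw1, hw2⟩ := walk_zn h.fr N (d0 N) D h.Dne h.d1 h.dd (by omega) (by omega)
  obtain ⟨dA, dB, dW⟩ := h.Dne N hN le_rfl
  obtain ⟨-, -, -, hlast⟩ := zn_edge_wall h.fr (w := d0 N + N + 2) (y := D N)
    (h.fr.symm _ _ h.dN) (by omega) (by omega) dA dB dW
  have hdown : ∀ t, t + 1 ≤ N → d0 N + (N - t) + 1 ≤ zn (mw N) W (D (N - t)) := by
    intro t
    induction t with
    | zero =>
      intro _
      rw [Nat.sub_zero]
      omega
    | succ t ih =>
      intro ht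
      have ih' := ih (by omega)
      have hs := hw2 (N - (t + 1)) (by omega) (by omega)
      have e : N - (t + 1) + 1 = N - t := by omega
      rw [e] at hs
      omega
  have hlow : d0 N + k + 1 ≤ zn (mw N) W (D k) := by
    have h3 := hdown (N - k) (by omega)
    have e : N - (N - k) = k := by omega
    rw [e] at h3
    exact h3
  obtain ⟨-, -, hup, -⟩ := hw1 k h1 h2
  obtain ⟨-, -, kW⟩ := h.Dne k h1 h2
  constructor
  · exact (zn_spec h.fr (D k) (d0 N + k) (by omega)).2 (by omega)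
  · have h4 : ¬ W (d0 N + k + 1) < D k := by
      intro h5
      have h6 := (zn_spec h.fr (D k) (d0 N + k + 1) (by omega)).1 h5
      omega
    have h7 := kW (d0 N + k + 1) (by omega)
    omega
-- END loc_D

-- BEGIN loc_V
private theorem loc_V_zone {Ed : ℕ → ℕ → Prop} {m A B : ℕ} {W : ℕ → ℕ} (h : Fr Ed m A B W)
    {y c : ℕ} (hc : c + 1 < m) (hy : ∀ j, j < m → y ≠ W j) (hz : zn m W y = c + 1) :
    W c < y ∧ y < W (c + 1) := by
  refine ⟨(zn_spec h y c (by omega)).2 (by omega), ?_⟩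
  have h1 : ¬ W (c + 1) < y := fun h2 => by
    have := (zn_spec h y (c + 1) hc).1 h2
    omega
  have h2 := hy (c + 1) hc
  omega

private theorem loc_V_left {Ed : ℕ → ℕ → Prop} {N M A B : ℕ} {W D : ℕ → ℕ} {V U : ℕ → ℕ → ℕ}
    (h : Wr Ed N M A B W D V U) (k : ℕ) (h1 : 1 ≤ k) (h2 : k ≤ N) :
    ∃ l, Ed l (D k) ∧ l < W (d0 N + k) := by
  have hm : mw N = 5 * N + 7 := rfl
  have hd : d0 N = 2 * N + 2 := rfl
  rcases Nat.lt_or_ge 1 k with h3 | h3
  · obtain ⟨t, rfl⟩ : ∃ t, k = t + 1 := ⟨k - 1, by omega⟩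
    refine ⟨D t, h.dd t (by omega) h2, ?_⟩
    have := (loc_D h t (by omega) (by omega)).2
    rwa [show d0 N + (t + 1) = d0 N + t + 1 by omega]
  · have h4 : k = 1 := by omega
    subst h4
    exact ⟨W (d0 N), h.d1, h.fr.mono _ _ (by omega) (by omega)⟩

private theorem loc_V_right {Ed : ℕ → ℕ → Prop} {N M A B : ℕ} {W D : ℕ → ℕ} {V U : ℕ → ℕ → ℕ}
    (h : Wr Ed N M A B W D V U) (k : ℕ) (h1 : 1 ≤ k) (h2 : k ≤ N) :
    ∃ r, Ed (D k) r ∧ W (d0 N + k + 1) < r := by
  have hm : mw N = 5 * N + 7 := rfl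
  have hd : d0 N = 2 * N + 2 := rfl
  rcases Nat.lt_or_ge k N with h3 | h3
  · exact ⟨D (k + 1), h.dd k h1 h3, (loc_D h (k + 1) (by omega) h3).1⟩
  · have h4 : k = N := by omega
    subst h4
    exact ⟨W (d0 k + k + 2), h.dN, h.fr.mono _ _ (by omega) (by omega)⟩

/-- The vertices of a normal wire are in their zones. Proof: let `Y : ℕ → ℕ` be the sequence of the
`2N` vertices of the wire: `Y (2k+1) = V i (k+1)`, `Y (2k+2) = U i (k+1)` for `k < N` (e.g.
`Y j := if j % 2 = 1 then V i ((j+1)/2) else U i (j/2)`), consecutive ones are adjacent (`vu`,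
`uv`). `walk_zn` with `L = 2N`, `w = d0 N` applies (`d0 N = 2N+2`, `mw N = 5N+7`). Let `f 0 = d0 N +
1`, `f j = zn (Y j)` for `1 ≤ j ≤ 2N`, `f (2N+1) = d0 N + N + 2`. Then `f 1 ≤ f 0 + 1`, `f (j+1) ≤
f j + 1` (`walk_zn`), and `f (2N+1) ≤ f (2N) + 1` by `zn_edge_wall` for the chord `(U i N, W (d0 N +
N + 2))`. Pattern: let `f j + 1 = f (j+1)`, `f (j+2) = f (j+1) + 1`, `f (j+1) = d0 N + 1 + k`,
`1 ≤ k ≤ N`, `p' = Y (j+1)`. Then `p'` is in zone `k`, i.e. between `W (d0 N + k)` and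
`W (d0 N + k + 1)` (`zn_spec`). Its left neighbour `l'` (`Y j`, or `W (d0 N)` if `j = 0`, in which
case `k = 1`) is before `W (d0 N + k)`, and its right neighbour `r'` (`Y (j+2)`, or
`W (d0 N + N + 2)` if `j + 1 = 2N`, in which case `k = N`) is after `W (d0 N + k + 1)`. The vertex
`p = D k` of the special wire has the same property by `loc_D` (left neighbour `D (k-1)` or
`W (d0 N)`, right neighbour `D (k+1)` or `W (d0 N + N + 2)`), and `p ≠ p'` (`VD`, `UD`): `Fr.typeA`
with wall index `d0 N + k`. So `seq_lem` with `c = d0 N + 1` gives `zn (V i (k+1)) =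
zn (U i (k+1)) = d0 N + 1 + k + 1`; conclude with `zn_spec`. -/
theorem loc_V {Ed : ℕ → ℕ → Prop} {N M A B : ℕ} {W D : ℕ → ℕ} {V U : ℕ → ℕ → ℕ}
    (h : Wr Ed N M A B W D V U) (i k : ℕ) (hi : i < M) (h1 : 1 ≤ k) (h2 : k ≤ N) :
    (W (d0 N + k) < V i k ∧ V i k < W (d0 N + k + 1)) ∧
      (W (d0 N + k) < U i k ∧ U i k < W (d0 N + k + 1)) := by
  have hN := h.hN
  have hmw : mw N = 5 * N + 7 := rfl
  have hd0 : d0 N = 2 * N + 2 := rfl
  obtain ⟨Y, hYo, hYe⟩ : ∃ Y : ℕ → ℕ, (∀ k, Y (2 * k + 1) = V i (k + 1)) ∧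
      ∀ k, Y (2 * k + 2) = U i (k + 1) := by
    refine ⟨fun j => if j % 2 = 1 then V i ((j + 1) / 2) else U i (j / 2), fun k => ?_,
      fun k => ?_⟩
    · show (if (2 * k + 1) % 2 = 1 then V i ((2 * k + 1 + 1) / 2) else U i ((2 * k + 1) / 2)) = _
      rw [if_pos (by omega), show (2 * k + 1 + 1) / 2 = k + 1 by omega]
    · show (if (2 * k + 2) % 2 = 1 then V i ((2 * k + 2 + 1) / 2) else U i ((2 * k + 2) / 2)) = _
      rw [if_neg (by omega), show (2 * k + 2) / 2 = k + 1 by omega]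
  have hpar : ∀ j, 1 ≤ j → j ≤ 2 * N → ∃ t, t + 1 ≤ N ∧ (j = 2 * t + 1 ∨ j = 2 * t + 2) :=
    fun j _ _ => ⟨(j - 1) / 2, by omega, by omega⟩
  have hY : ∀ j, 1 ≤ j → j ≤ 2 * N → Y j ≠ A ∧ Y j ≠ B ∧ ∀ w, w < mw N → Y j ≠ W w := by
    intro j hj1 hj2
    obtain ⟨t, ht, rfl | rfl⟩ := hpar j hj1 hj2
    · rw [hYo]
      exact h.Vne i (t + 1) hi (by omega) ht
    · rw [hYe]
      exact h.Une i (t + 1) hi (by omega) ht
  have hYD : ∀ j l, 1 ≤ j → j ≤ 2 * N → 1 ≤ l → l ≤ N → D l ≠ Y j := by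
    intro j l hj1 hj2 hl1 hl2
    obtain ⟨t, ht, rfl | rfl⟩ := hpar j hj1 hj2
    · rw [hYo]
      exact (h.VD i (t + 1) l hi (by omega) ht hl1 hl2).symm
    · rw [hYe]
      exact (h.UD i (t + 1) l hi (by omega) ht hl1 hl2).symm
  have e0 : Ed (W (d0 N)) (Y 1) := by
    have h3 := h.v1 i hi
    have h4 := hYo 0
    rw [show 2 * 0 + 1 = 1 by omega] at h4
    rwa [h4]
  have e : ∀ j, 1 ≤ j → j + 1 ≤ 2 * N → Ed (Y j) (Y (j + 1)) := by
    intro j hj1 hj2
    obtain ⟨t, ht, rfl | rfl⟩ := hpar j hj1 (by omega)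
    · rw [hYo, show 2 * t + 1 + 1 = 2 * t + 2 by omega, hYe]
      exact h.vu i (t + 1) hi (by omega) ht
    · rw [hYe, show 2 * t + 2 + 1 = 2 * (t + 1) + 1 by omega, hYo]
      exact h.uv i (t + 1) hi (by omega) (by omega)
  have eN : Ed (Y (2 * N)) (W (d0 N + N + 2)) := by
    have h3 := h.uN i hi
    have h4 := hYe (N - 1)
    rw [show 2 * (N - 1) + 2 = 2 * N by omega, show N - 1 + 1 = N by omega] at h4
    rwa [h4]
  obtain ⟨hw1, hw2⟩ := walk_zn h.fr (2 * N) (d0 N) Y hY e0 e (by omega) (by omega)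
  have hwN := (zn_edge_wall h.fr (h.fr.symm _ _ eN) (by omega) (by omega) (hY (2 * N) (by omega)
    le_rfl).1 (hY (2 * N) (by omega) le_rfl).2.1 (hY (2 * N) (by omega) le_rfl).2.2).2.2.2
  obtain ⟨f, hf0, hf1, hf2⟩ : ∃ f : ℕ → ℕ, f 0 = d0 N + 1 ∧
      (∀ j, 1 ≤ j → j ≤ 2 * N → f j = zn (mw N) W (Y j)) ∧ f (2 * N + 1) = d0 N + N + 2 := by
    refine ⟨fun j => if j = 0 then d0 N + 1 else if j ≤ 2 * N then zn (mw N) W (Y j) else
      d0 N + N + 2, ?_, fun j hj1 hj2 => ?_, ?_⟩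
    · show (if 0 = 0 then d0 N + 1 else _) = _
      rw [if_pos rfl]
    · show (if j = 0 then d0 N + 1 else if j ≤ 2 * N then zn (mw N) W (Y j) else
        d0 N + N + 2) = _
      rw [if_neg (by omega), if_pos hj2]
    · show (if 2 * N + 1 = 0 then d0 N + 1 else if 2 * N + 1 ≤ 2 * N then
        zn (mw N) W (Y (2 * N + 1)) else d0 N + N + 2) = _
      rw [if_neg (by omega), if_neg (by omega)]
  have hs : ∀ j, j ≤ 2 * N → f (j + 1) ≤ f j + 1 := by
    intro j hj
    rcases Nat.eq_zero_or_pos j with rfl | hj0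
    · have h3 := (hw1 1 le_rfl (by omega)).2.2.1
      rw [hf0, hf1 (0 + 1) (by omega) (by omega)]
      rw [show 0 + 1 = 1 by omega]
      omega
    · rcases Nat.lt_or_ge j (2 * N) with h3 | h3
      · rw [hf1 j hj0 hj, hf1 (j + 1) (by omega) (by omega)]
        exact hw2 j hj0 (by omega)
      · have h4 : j = 2 * N := by omega
        rw [h4, hf2, hf1 (2 * N) (by omega) le_rfl]
        omega
  have hp : ∀ j, j + 1 ≤ 2 * N → d0 N + 1 + 1 ≤ f (j + 1) → f (j + 1) ≤ d0 N + 1 + N →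
      f j + 1 = f (j + 1) → f (j + 2) = f (j + 1) + 1 → False := by
    intro j hj ha hb hc hd
    obtain ⟨t, ht⟩ : ∃ t, f (j + 1) = d0 N + t + 1 := ⟨f (j + 1) - d0 N - 1, by omega⟩
    have ht1 : 1 ≤ t := by omega
    have ht2 : t ≤ N := by omega
    have hz := hf1 (j + 1) (by omega) hj
    have hq := loc_V_zone h.fr (y := Y (j + 1)) (c := d0 N + t) (by omega)
      (hY (j + 1) (by omega) hj).2.2 (by omega)
    have hL : ∃ l', Ed l' (Y (j + 1)) ∧ l' < W (d0 N + t) := by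
      rcases Nat.eq_zero_or_pos j with h3 | h3
      · subst h3
        rw [show 0 + 1 = 1 by omega]
        refine ⟨W (d0 N), e0, h.fr.mono _ _ (by omega) (by omega)⟩
      · refine ⟨Y j, e j h3 hj, ?_⟩
        have h4 := hf1 j h3 (by omega)
        have h5 : ¬ W (d0 N + t) < Y j := fun h6 => by
          have := (zn_spec h.fr (Y j) (d0 N + t) (by omega)).1 h6
          omega
        have h6 := (hY j h3 (by omega)).2.2 (d0 N + t) (by omega)
        omega
    have hR : ∃ r', Ed (Y (j + 1)) r' ∧ W (d0 N + t + 1) < r' := by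
      rcases Nat.lt_or_ge (j + 1) (2 * N) with h3 | h3
      · refine ⟨Y (j + 2), e (j + 1) (by omega) (by omega), ?_⟩
        have h4 := hf1 (j + 2) (by omega) (by omega)
        exact (zn_spec h.fr (Y (j + 2)) (d0 N + t + 1) (by omega)).2 (by omega)
      · have h4 : j + 1 = 2 * N := by omega
        have h5 : f (j + 2) = d0 N + N + 2 := by
          rw [show j + 2 = 2 * N + 1 by omega]
          exact hf2
        rw [h4]
        exact ⟨W (d0 N + N + 2), eN, h.fr.mono _ _ (by omega) (by omega)⟩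
    obtain ⟨l', hl1, hl2⟩ := hL
    obtain ⟨r', hr1, hr2⟩ := hR
    obtain ⟨l, hl3, hl4⟩ := loc_V_left h t ht1 ht2
    obtain ⟨r, hr3, hr4⟩ := loc_V_right h t ht1 ht2
    have hD := loc_D h t ht1 ht2
    exact h.fr.typeA (by omega) hD.1 hD.2 hq.1 hq.2 (hYD (j + 1) t (by omega) hj ht1 ht2) hl3 hl4
      hr3 hr4 hl1 hl2 hr1 hr2
  have hmain := seq_lem N (d0 N + 1) f hf0 (by rw [hf2]; omega) hs hp
  obtain ⟨t, rfl⟩ : ∃ t, k = t + 1 := ⟨k - 1, by omega⟩
  obtain ⟨g1, g2⟩ := hmain t h2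
  rw [hf1 (2 * t + 1) (by omega) (by omega), hYo] at g1
  rw [hf1 (2 * t + 2) (by omega) (by omega), hYe] at g2
  exact ⟨loc_V_zone h.fr (by omega) (h.Vne i (t + 1) hi h1 h2).2.2 (by omega),
    loc_V_zone h.fr (by omega) (h.Une i (t + 1) hi h1 h2).2.2 (by omega)⟩
-- END loc_V

end Pool.Agent.Cqp
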