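import Mathlib
import Pool.Agent.Cqp.Loc

set_option autoImplicit false

/-!
# Nesting of the wires and the common order
-/

namespace Pool.Agent.Cqp

/-- All facts about the wires. `T k` is the wall `t_k` (`T k = W (d0 N + k)`), zone `k` is the
interval between `T k` and `T (k+1)`. `X i k` is the left neighbour of `V i k`, `Y i k` the right
neighbour of `U i k`, `E k`, `F k` the left and the right neighbour of `D k`. -/
structure Ct (Ed : ℕ → ℕ → Prop) (N M A B : ℕ) (T D E F : ℕ → ℕ) (V U X Y : ℕ → ℕ → ℕ) :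
    Prop where
  hN : 1 ≤ N
  symm : ∀ x y, Ed x y → Ed y x
  nt : NT Ed
  tmono : ∀ i j, i < j → j ≤ N + 2 → T i < T j
  at0 : ∀ k, k ≤ N + 2 → A < T k
  tb : ∀ k, k ≤ N + 2 → T k < B
  /-- two chords over the same wall do not cross -/
  ovr : ∀ k x y x' y', k ≤ N + 2 → Ed x y → Ed x' y' → x < T k → T k < y → x' < T k →
    T k < y' → A < x → A < x' → ¬ Alt x y x' y'
  /-- a chord from a vertex `x` in `(T 0, T (N+2))` to a non-hub `y` stays in `(A,B)` and does not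
  pass over two walls -/
  mid : ∀ x y, T 0 < x → x < T (N + 2) → Ed x y → y ≠ A → y ≠ B → A < y ∧ y < B ∧
    ∀ s t, s < t → t ≤ N + 2 → min x y < T s → T t < max x y → False
  tt : ∀ k, k ≤ N + 1 → Ed (T k) (T (k + 1))
  Dz : ∀ k, 1 ≤ k → k ≤ N → T k < D k ∧ D k < T (k + 1)
  Vz : ∀ i k, i < M → 1 ≤ k → k ≤ N → T k < V i k ∧ V i k < T (k + 1)
  Uz : ∀ i k, i < M → 1 ≤ k → k ≤ N → T k < U i k ∧ U i k < T (k + 1)
  xv : ∀ i k, i < M → 1 ≤ k → k ≤ N → Ed (X i k) (V i k) ∧ A < X i k ∧ X i k < T k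
  yu : ∀ i k, i < M → 1 ≤ k → k ≤ N → Ed (U i k) (Y i k) ∧ T (k + 1) < Y i k
  ed : ∀ k, 1 ≤ k → k ≤ N → Ed (E k) (D k) ∧ A < E k ∧ E k < T k
  fd : ∀ k, 1 ≤ k → k ≤ N → Ed (D k) (F k) ∧ T (k + 1) < F k
  X1 : ∀ i, i < M → X i 1 = T 0
  Xk : ∀ i k, i < M → 1 ≤ k → k + 1 ≤ N → X i (k + 1) = U i k
  YN : ∀ i, i < M → Y i N = T (N + 2)
  Yk : ∀ i k, i < M → 1 ≤ k → k + 1 ≤ N → Y i k = V i (k + 1)
  E1 : E 1 = T 0
  Ek : ∀ k, 1 ≤ k → k + 1 ≤ N → E (k + 1) = D k
  FN : F N = T (N + 2)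
  Fk : ∀ k, 1 ≤ k → k + 1 ≤ N → F k = D (k + 1)
  vu : ∀ i k, i < M → 1 ≤ k → k ≤ N → Ed (V i k) (U i k)
  vd : ∀ i k, i < M → 1 ≤ k → k ≤ N → V i k < D k ∧ D k < U i k
  vne : ∀ i j k, i < M → j < M → i ≠ j → 1 ≤ k → k ≤ N → V i k ≠ V j k ∧ U i k ≠ U j k
  /-- links of one zone are nested -/
  nest : ∀ i j k, i < M → j < M → 1 ≤ k → k ≤ N → V i k < V j k → U j k < U i k
  /-- the order of the wires is the same in all zones -/
  ord : ∀ i j k, i < M → j < M → 1 ≤ k → k ≤ N → (V i k < V j k ↔ V i 1 < V j 1)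

-- BEGIN wr_side
private theorem wr_side_key {Ed : ℕ → ℕ → Prop} (hn : NT Ed) {x q d v r f : ℕ} (e1 : Ed x v) (e2 : Ed d f)
    (e3 : Ed q r) (h1 : x < q) (h2 : q < d) (h3 : d < v) (h4 : v < r) (h5 : r < f) : False := by
  refine hn x v d f q r e1 e2 e3 ?_ ?_ ?_ <;> unfold Alt <;> omega

/-- `v_i^k < δ^k < u_i^k`. The zones are known (`loc_D`, `loc_V`). Let `x` be the left neighbour of
`V i k` (`W (d0 N)` if `k = 1`, `U i (k-1)` otherwise; it is before `W (d0 N + k)`) and `f` the right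
neighbour of `D k` (`D (k+1)` or `W (d0 N + N + 2)`; it is after `W (d0 N + k + 1)`). If
`D k < V i k`: the chords `(x, V i k)`, `(D k, f)`, `(W (d0 N + k), W (d0 N + k + 1))` cross
pairwise. Let `y` be the right neighbour of `U i k` and `e` the left neighbour of `D k`. If
`U i k < D k`: the chords `(e, D k)`, `(U i k, y)`, `(W (d0 N + k), W (d0 N + k + 1))` cross
pairwise. (`V i k ≠ D k`, `U i k ≠ D k` by `VD`, `UD`.) -/
theorem wr_side {Ed : ℕ → ℕ → Prop} {N M A B : ℕ} {W D : ℕ → ℕ} {V U : ℕ → ℕ → ℕ}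
    (h : Wr Ed N M A B W D V U) (i k : ℕ) (hi : i < M) (h1 : 1 ≤ k) (h2 : k ≤ N) :
    V i k < D k ∧ D k < U i k := by
  have hd : d0 N = 2 * N + 2 := rfl
  have hm : mw N = 5 * N + 7 := rfl
  obtain ⟨⟨a1, a2⟩, a3, a4⟩ := loc_V h i k hi h1 h2
  obtain ⟨b1, b2⟩ := loc_D h k h1 h2
  have hw : Ed (W (d0 N + k)) (W (d0 N + k + 1)) := h.fr.ww _ (by omega)
  have hx : ∃ x, Ed x (V i k) ∧ x < W (d0 N + k) := by
    rcases Nat.lt_or_ge 1 k with hk | hk
    · obtain ⟨l, rfl⟩ : ∃ l, k = l + 1 := ⟨k - 1, by omega⟩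
      exact ⟨_, h.uv i l hi (by omega) h2, (loc_V h i l hi (by omega) (by omega)).2.2⟩
    · obtain rfl : k = 1 := by omega
      exact ⟨_, h.v1 i hi, h.fr.mono _ _ (by omega) (by omega)⟩
  have he : ∃ e, Ed e (D k) ∧ e < W (d0 N + k) := by
    rcases Nat.lt_or_ge 1 k with hk | hk
    · obtain ⟨l, rfl⟩ : ∃ l, k = l + 1 := ⟨k - 1, by omega⟩
      exact ⟨_, h.dd l (by omega) h2, (loc_D h l (by omega) (by omega)).2⟩
    · obtain rfl : k = 1 := by omega
      exact ⟨_, h.d1, h.fr.mono _ _ (by omega) (by omega)⟩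
  have hf : ∃ f, Ed (D k) f ∧ W (d0 N + k + 1) < f := by
    rcases Nat.lt_or_ge k N with hk | hk
    · exact ⟨_, h.dd k h1 hk, (loc_D h (k + 1) (by omega) hk).1⟩
    · obtain rfl : k = N := by omega
      exact ⟨_, h.dN, h.fr.mono _ _ (by omega) (by omega)⟩
  have hy : ∃ y, Ed (U i k) y ∧ W (d0 N + k + 1) < y := by
    rcases Nat.lt_or_ge k N with hk | hk
    · exact ⟨_, h.uv i k hi h1 hk, (loc_V h i (k + 1) hi (by omega) hk).1.1⟩
    · obtain rfl : k = N := by omega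
      exact ⟨_, h.uN i hi, h.fr.mono _ _ (by omega) (by omega)⟩
  obtain ⟨x, x1, x2⟩ := hx
  obtain ⟨e, e1, e2⟩ := he
  obtain ⟨f, f1, f2⟩ := hf
  obtain ⟨y, y1, y2⟩ := hy
  constructor
  · rcases Nat.lt_trichotomy (V i k) (D k) with hc | hc | hc
    · exact hc
    · exact absurd hc (h.VD i k k hi h1 h2 h1 h2)
    · exact (wr_side_key h.fr.nt x1 f1 hw x2 b1 hc a2 f2).elim
  · rcases Nat.lt_trichotomy (U i k) (D k) with hc | hc | hc
    · exact (wr_side_key h.fr.nt e1 y1 hw e2 a3 hc b2 y2).elim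
    · exact absurd hc (h.UD i k k hi h1 h2 h1 h2)
    · exact hc
-- END wr_side

-- BEGIN wr_nest
theorem wr_nest_f {Ed : ℕ → ℕ → Prop} {N M A B : ℕ} {W D : ℕ → ℕ} {V U : ℕ → ℕ → ℕ}
    (h : Wr Ed N M A B W D V U) (k : ℕ) (h1 : 1 ≤ k) (h2 : k ≤ N) :
    ∃ f, Ed (D k) f ∧ W (d0 N + k + 1) < f := by
  rcases Nat.lt_or_ge k N with hk | hk
  · exact ⟨D (k + 1), h.dd k h1 hk, (loc_D h (k + 1) (by omega) hk).1⟩
  · have hkN : k = N := le_antisymm h2 hk
    subst hkN
    exact ⟨W (d0 k + k + 2), h.dN, h.fr.mono _ _ (by omega) (by unfold d0 mw; omega)⟩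

/-- Links of one zone are nested: if `V i k < V j k < D k < U i k < U j k` then the chords
`(V i k, U i k)`, `(V j k, U j k)`, `(D k, f)` cross pairwise, where `f` is the right neighbour of
`D k` (after `W (d0 N + k + 1)`, so after all `U`). Use `wr_side`, `loc_V`; `U i k ≠ U j k` since
`i ≠ j`. -/
theorem wr_nest {Ed : ℕ → ℕ → Prop} {N M A B : ℕ} {W D : ℕ → ℕ} {V U : ℕ → ℕ → ℕ}
    (h : Wr Ed N M A B W D V U) (i j k : ℕ) (hi : i < M) (hj : j < M) (h1 : 1 ≤ k) (h2 : k ≤ N)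
    (hlt : V i k < V j k) : U j k < U i k := by
  by_contra hc
  have hne : U i k ≠ U j k := fun he => by
    have h3 := (h.UU i k j k hi h1 h2 hj h1 h2 he).1
    subst h3
    exact lt_irrefl _ hlt
  obtain ⟨f, hf1, hf2⟩ := wr_nest_f h k h1 h2
  have si := wr_side h i k hi h1 h2
  have sj := wr_side h j k hj h1 h2
  have zi := (loc_V h i k hi h1 h2).2
  have zj := (loc_V h j k hj h1 h2).2
  refine h.fr.nt _ _ _ _ _ _ (h.vu i k hi h1 h2) (h.vu j k hj h1 h2) hf1 ?_ ?_ ?_ <;>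
    · unfold Alt
      omega

/-- The chords `(U i k, V i (k+1))`, `(U j k, V j (k+1))` over the wall `W (d0 N + k + 1)` do not
cross (`Fr.ovr`), so they are nested. -/
theorem wr_over {Ed : ℕ → ℕ → Prop} {N M A B : ℕ} {W D : ℕ → ℕ} {V U : ℕ → ℕ → ℕ}
    (h : Wr Ed N M A B W D V U) (i j k : ℕ) (hi : i < M) (hj : j < M) (h1 : 1 ≤ k)
    (h2 : k + 1 ≤ N) (hlt : U j k < U i k) : V i (k + 1) < V j (k + 1) := by
  by_contra hc
  have hne : V i (k + 1) ≠ V j (k + 1) := fun he => by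
    have h3 := (h.VV i (k + 1) j (k + 1) hi (by omega) h2 hj (by omega) h2 he).1
    subst h3
    exact lt_irrefl _ hlt
  have zi := (loc_V h i k hi h1 (by omega)).2
  have zj := (loc_V h j k hj h1 (by omega)).2
  have yi := (loc_V h i (k + 1) hi (by omega) h2).1
  have yj := (loc_V h j (k + 1) hj (by omega) h2).1
  have e1 : d0 N + (k + 1) = d0 N + k + 1 := by omega
  rw [e1] at yi yj
  have hm : d0 N + k + 1 < mw N := by unfold d0 mw; omega
  have hA : A < W (d0 N + k) := h.fr.awlt _ (by omega)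
  refine h.fr.ovr hm (h.uv i k hi h1 h2) (h.uv j k hj h1 h2) zi.2 yi.1 zj.2 yj.1 (hA.trans zi.1)
    (hA.trans zj.1) ?_
  unfold Alt
  omega

/-- The order of the `V i k` does not depend on `k`: by `wr_nest`, `wr_over` `V i k < V j k` implies
`V i (k+1) < V j (k+1)`, and as exactly one of `V i k < V j k`, `V j k < V i k` holds for `i ≠ j`
(`VV`) these implications are equivalences; induction on `k`. -/
theorem wr_ord {Ed : ℕ → ℕ → Prop} {N M A B : ℕ} {W D : ℕ → ℕ} {V U : ℕ → ℕ → ℕ}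
    (h : Wr Ed N M A B W D V U) (i j k : ℕ) (hi : i < M) (hj : j < M) (h1 : 1 ≤ k) (h2 : k ≤ N) :
    V i k < V j k ↔ V i 1 < V j 1 := by
  induction k, h1 using Nat.le_induction with
  | base => exact Iff.rfl
  | succ k hk ih =>
    have ih' := ih (by omega)
    rw [← ih']
    constructor
    · intro hlt
      by_contra hc
      have hne : V i k ≠ V j k := fun he => by
        have h3 := (h.VV i k j k hi hk (by omega) hj hk (by omega) he).1
        subst h3
        exact lt_irrefl _ hlt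
      have h4 : V j k < V i k := by omega
      have h5 := wr_over h j i k hj hi hk h2 (wr_nest h j i k hj hi hk (by omega) h4)
      omega
    · intro hlt
      exact wr_over h i j k hi hj hk h2 (wr_nest h i j k hi hj hk (by omega) hlt)
-- END wr_nest

-- BEGIN wr_ct
/-- All facts together. `T k = W (d0 N + k)` for `k ≤ N + 2` (`d0 N + N + 2 < mw N`); `ovr` from
`Fr.ovr`; `mid` from `Fr.mid` with `i = d0 N`, `j = d0 N + N + 2`; the neighbours by cases `k = 1`,
`k = N`; zones by `loc_D`, `loc_V`; `vd` = `wr_side`; `nest` = `wr_nest`; `ord` = `wr_ord`. -/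
theorem wr_ct {Ed : ℕ → ℕ → Prop} {N M A B : ℕ} {W D : ℕ → ℕ} {V U : ℕ → ℕ → ℕ}
    (h : Wr Ed N M A B W D V U) :
    Ct Ed N M A B (fun k => W (d0 N + k)) D (fun k => if k = 1 then W (d0 N) else D (k - 1))
      (fun k => if k = N then W (d0 N + N + 2) else D (k + 1)) V U
      (fun i k => if k = 1 then W (d0 N) else U i (k - 1))
      (fun i k => if k = N then W (d0 N + N + 2) else V i (k + 1)) := by
  have hb : ∀ k, k ≤ N + 2 → d0 N + k < mw N := by
    intro k hk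
    unfold d0 mw
    omega
  have hmono : ∀ i j, i < j → j ≤ N + 2 → W (d0 N + i) < W (d0 N + j) := fun i j hij hj =>
    h.fr.mono _ _ (by omega) (hb j hj)
  have hA : ∀ k, k ≤ N + 2 → A < W (d0 N + k) := fun k hk => h.fr.awlt _ (hb k hk)
  have hA0 : A < W (d0 N) := hA 0 (by omega)
  have hm0 : ∀ k, 1 ≤ k → k ≤ N + 2 → W (d0 N) < W (d0 N + k) := fun k h1 hk =>
    hmono 0 k (by omega) hk
  have hmN : ∀ k, k < N + 2 → W (d0 N + k) < W (d0 N + N + 2) := fun k hk =>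
    hmono k (N + 2) hk le_rfl
  refine
    { hN := h.hN
      symm := h.fr.symm
      nt := h.fr.nt
      tmono := hmono
      at0 := hA
      tb := fun k hk => h.fr.wblt _ (hb k hk)
      ovr := fun k x y x' y' hk he he' h1 h2 h3 h4 hx hx' =>
        h.fr.ovr (hb k hk) he he' h1 h2 h3 h4 hx hx'
      mid := ?_
      tt := fun k hk => h.fr.ww (d0 N + k) (by have := hb (k + 1) (by omega); omega)
      Dz := fun k h1 h2 => loc_D h k h1 h2
      Vz := fun i k hi h1 h2 => (loc_V h i k hi h1 h2).1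
      Uz := fun i k hi h1 h2 => (loc_V h i k hi h1 h2).2
      xv := ?_
      yu := ?_
      ed := ?_
      fd := ?_
      X1 := fun i hi => if_pos rfl
      Xk := fun i k hi h1 h2 => if_neg (by omega)
      YN := fun i hi => if_pos rfl
      Yk := fun i k hi h1 h2 => if_neg (by omega)
      E1 := if_pos rfl
      Ek := fun k h1 h2 => if_neg (by omega)
      FN := if_pos rfl
      Fk := fun k h1 h2 => if_neg (by omega)
      vu := h.vu
      vd := fun i k hi h1 h2 => wr_side h i k hi h1 h2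
      vne := ?_
      nest := fun i j k hi hj h1 h2 hlt => wr_nest h i j k hi hj h1 h2 hlt
      ord := fun i j k hi hj h1 h2 => wr_ord h i j k hi hj h1 h2 }
  · intro x y hx1 hx2 he hyA hyB
    obtain ⟨a1, a2, a3⟩ := h.fr.mid (hb 0 (by omega)) (hb (N + 2) le_rfl) hx1 hx2 he hyA hyB
    exact ⟨a1, a2, fun s t hst ht => a3 _ _ (by omega) (hb t ht)⟩
  · intro i k hi h1 h2
    by_cases hk : k = 1
    · subst hk
      rw [if_pos rfl]
      exact ⟨h.v1 i hi, hA0, hm0 1 le_rfl (by omega)⟩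
    · rw [if_neg hk]
      obtain ⟨l, rfl⟩ : ∃ l, k = l + 1 := ⟨k - 1, by omega⟩
      rw [Nat.add_sub_cancel]
      have h3 := (loc_V h i l hi (by omega) (by omega)).2
      exact ⟨h.uv i l hi (by omega) h2, (hA l (by omega)).trans h3.1, h3.2⟩
  · intro i k hi h1 h2
    by_cases hk : k = N
    · subst hk
      rw [if_pos rfl]
      exact ⟨h.uN i hi, hmN (k + 1) (by omega)⟩
    · rw [if_neg hk]
      exact ⟨h.uv i k hi h1 (by omega), (loc_V h i (k + 1) hi (by omega) (by omega)).1.1⟩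
  · intro k h1 h2
    by_cases hk : k = 1
    · subst hk
      rw [if_pos rfl]
      exact ⟨h.d1, hA0, hm0 1 le_rfl (by omega)⟩
    · rw [if_neg hk]
      obtain ⟨l, rfl⟩ : ∃ l, k = l + 1 := ⟨k - 1, by omega⟩
      rw [Nat.add_sub_cancel]
      have h3 := loc_D h l (by omega) (by omega)
      exact ⟨h.dd l (by omega) h2, (hA l (by omega)).trans h3.1, h3.2⟩
  · intro k h1 h2
    by_cases hk : k = N
    · subst hk
      rw [if_pos rfl]
      exact ⟨h.dN, hmN (k + 1) (by omega)⟩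
    · rw [if_neg hk]
      exact ⟨h.dd k h1 (by omega), (loc_D h (k + 1) (by omega) (by omega)).1⟩
  · intro i j k hi hj hij h1 h2
    exact ⟨fun e => hij (h.VV i k j k hi h1 h2 hj h1 h2 e).1,
      fun e => hij (h.UU i k j k hi h1 h2 hj h1 h2 e).1⟩
-- END wr_ct

end Pool.Agent.Cqp
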