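import Mathlib
import Pool.Agent.Cqp.Ord
import Pool.Agent.Cqp.Norm

set_option autoImplicit false

/-!
# The potential: number of wires around a vertex
-/

namespace Pool.Agent.Cqp

/-- `y` is not the place of a hub, a wall `t_k` or a wire vertex -/
def Fre (N M A B : ℕ) (T D : ℕ → ℕ) (V U : ℕ → ℕ → ℕ) (y : ℕ) : Prop :=
  y ≠ A ∧ y ≠ B ∧ (∀ k, k ≤ N + 2 → y ≠ T k) ∧ (∀ k, 1 ≤ k → k ≤ N → y ≠ D k) ∧
    ∀ i k, i < M → 1 ≤ k → k ≤ N → y ≠ V i k ∧ y ≠ U i k

-- BEGIN ls_zone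
/-- In zone `k` only the links of zone `k` can span `y`: `Ls` is a filter over `range M` with the
condition `∃ k', V l k' < y ∧ y < U l k'`; by `Vz`, `Uz` then `T k' < y < T (k'+1)`, and by `tmono`
`k' = k`. -/
theorem ls_zone {Ed : ℕ → ℕ → Prop} {N M A B : ℕ} {T D E F : ℕ → ℕ} {V U X Y : ℕ → ℕ → ℕ}
    (h : Ct Ed N M A B T D E F V U X Y) {y k : ℕ} (h1 : 1 ≤ k) (h2 : k ≤ N) (a : T k < y)
    (b : y < T (k + 1)) (l : ℕ) : l ∈ Ls N M V U y ↔ l < M ∧ V l k < y ∧ y < U l k := by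
  classical
  simp only [Ls, Finset.mem_filter, Finset.mem_range]
  constructor
  · rintro ⟨hl, k', h1', h2', hv, hu⟩
    have hV := h.Vz l k' hl h1' h2'
    have hU := h.Uz l k' hl h1' h2'
    have hkk : k' = k := by
      rcases Nat.lt_trichotomy k' k with hlt | heq | hgt
      · exfalso
        have hle : T (k' + 1) ≤ T k := by
          rcases Nat.lt_or_ge (k' + 1) k with h3 | h3
          · exact (h.tmono (k' + 1) k h3 (by omega)).le
          · have : k' + 1 = k := by omega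
            rw [this]
        omega
      · exact heq
      · exfalso
        have hle : T (k + 1) ≤ T k' := by
          rcases Nat.lt_or_ge (k + 1) k' with h3 | h3
          · exact (h.tmono (k + 1) k' h3 (by omega)).le
          · have : k + 1 = k' := by omega
            rw [this]
        omega
    subst hkk
    exact ⟨hl, hv, hu⟩
  · rintro ⟨hl, hv, hu⟩
    exact ⟨hl, k, h1, h2, hv, hu⟩

theorem ls_mem {N M : ℕ} {V U : ℕ → ℕ → ℕ} {y l : ℕ} :
    l ∈ Ls N M V U y ↔ l < M ∧ ∃ k, 1 ≤ k ∧ k ≤ N ∧ V l k < y ∧ y < U l k := by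
  classical
  simp only [Ls, Finset.mem_filter, Finset.mem_range]

/-- the numbers `rk` are distinct and `< M` (rank in a finite linear order; `V i 1 ≠ V j 1`) -/
theorem rk_lt {M : ℕ} {V : ℕ → ℕ → ℕ} {i : ℕ} (hi : i < M) : rk M V i < M := by
  classical
  unfold rk
  have hss : ((Finset.range M).filter fun l => V l 1 < V i 1) ⊂ Finset.range M := by
    rw [Finset.ssubset_iff_of_subset (Finset.filter_subset _ _)]
    refine ⟨i, Finset.mem_range.mpr hi, ?_⟩
    intro hmem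
    rw [Finset.mem_filter] at hmem
    exact lt_irrefl _ hmem.2
  calc _ < (Finset.range M).card := Finset.card_lt_card hss
    _ = M := Finset.card_range M

private theorem ls_zone_mono {M : ℕ} {V : ℕ → ℕ → ℕ} {i j : ℕ} (hi : i < M)
    (h : V i 1 < V j 1) : rk M V i < rk M V j := by
  classical
  unfold rk
  apply Finset.card_lt_card
  rw [Finset.ssubset_iff_of_subset]
  · refine ⟨i, Finset.mem_filter.mpr ⟨Finset.mem_range.mpr hi, h⟩, ?_⟩
    intro hmem
    rw [Finset.mem_filter] at hmem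
    exact lt_irrefl _ hmem.2
  · intro l hl
    rw [Finset.mem_filter] at hl ⊢
    exact ⟨hl.1, hl.2.trans h⟩

theorem rk_inj {M : ℕ} {V : ℕ → ℕ → ℕ} (hV : ∀ i j, i < M → j < M → V i 1 = V j 1 → i = j)
    {i j : ℕ} (hi : i < M) (hj : j < M) (h : rk M V i = rk M V j) : i = j := by
  rcases Nat.lt_trichotomy (V i 1) (V j 1) with h3 | h3 | h3
  · exact absurd h (ls_zone_mono hi h3).ne
  · exact hV i j hi hj h3
  · exact absurd h (ls_zone_mono hj h3).ne'
-- END ls_zone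

-- BEGIN er_left
/-- `y'` is spanned by the links of the wires `i, j` in zone `k`, `v_i < v_j`; `y` is adjacent to
`y'`, before `v_i`, and not spanned by links of `i, j`. Impossible. Proof. All in zone `k`:
`V i k < V j k < y' < U j k < U i k` (`nest`). By `h.mid y' y` (`T 0 < y' < T (N+2)`): `A < y`, no
two walls `T s, T t` strictly between `y` and `y'`.
(1) If `X j k < y`: the chords `(y,y')`, `(V i k, U i k)`, `(X j k, V j k)` cross pairwise
(`y < V i < y' < U i`; `X j < y < V j < y'`; `X j < V i < V j < U i`). As `y ≠ X j k` (`X j k` is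
`T 0` or a `U`), `y < X j k`.
(2) If `k = 1`: `X j 1 = T 0`, so `y < T 0 < T 1 < y'`: two walls. So `k ≥ 2`, `X j k = U j (k-1)`,
and `T (k-1) < y` (else the walls `T (k-1), T k` are between), so `y` is in zone `k - 1`.
(3) `j ∉ Ls y`, `y < U j (k-1)`: so `y < V j (k-1)`; `V i (k-1) < V j (k-1)` by `ord`, so
`U j (k-1) < U i (k-1)`, and `i ∉ Ls y` gives `y < V i (k-1) < D (k-1)`.
(4) If `y' < D k`: the chords `(y,y')` and `(D (k-1), D k)` (`= (E k, D k)`) pass over `T k` and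
cross (`y < D (k-1) < y' < D k`), contradiction to `ovr`. If `y' > D k`: the chords `(y,y')`,
`(V i k, U i k)`, `(D k, F k)` cross pairwise (`y < D k < y' < F k`, `V i < D k < U i < F k`). -/
theorem er_left {Ed : ℕ → ℕ → Prop} {N M A B : ℕ} {T D E F : ℕ → ℕ} {V U X Y : ℕ → ℕ → ℕ}
    (h : Ct Ed N M A B T D E F V U X Y) {y y' i j k : ℕ} (hy : Fre N M A B T D V U y)
    (hy' : Fre N M A B T D V U y') (he : Ed y y') (hi : i < M) (hj : j < M) (h1 : 1 ≤ k)
    (h2 : k ≤ N) (hij : V i k < V j k) (a1 : V j k < y') (a2 : y' < U j k) (hn : i ∉ Ls N M V U y)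
    (hn' : j ∉ Ls N M V U y) (b : y < V i k) : False := by
  obtain ⟨yA, yB, yT, yD, yW⟩ := hy
  obtain ⟨zA, zB, zT, zD, zW⟩ := hy'
  have hnest := h.nest i j k hi hj h1 h2 hij
  have hVi := h.Vz i k hi h1 h2
  have hVj := h.Vz j k hj h1 h2
  have hUi := h.Uz i k hi h1 h2
  have hUj := h.Uz j k hj h1 h2
  have t0 := h.tmono 0 k (by omega) (by omega)
  have t1 := h.tmono (k + 1) (N + 2) (by omega) le_rfl
  obtain ⟨m1, m2, m3⟩ := h.mid y' y (by omega) (by omega) (h.symm _ _ he) yA yB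
  obtain ⟨x1, x2, x3⟩ := h.xv j k hj h1 h2
  have hvu := h.vu i k hi h1 h2
  have c1 : Alt y y' (V i k) (U i k) := by unfold Alt; omega
  -- step 1
  have s1 : ¬ X j k < y := by
    intro hx
    refine h.nt _ _ _ _ _ _ he hvu x1 c1 ?_ ?_
    · unfold Alt; omega
    · unfold Alt; omega
  rcases Nat.lt_or_ge 1 k with hk | hk
  · -- step 3
    obtain ⟨l, rfl⟩ : ∃ l, k = l + 1 := ⟨k - 1, by omega⟩
    have hl1 : 1 ≤ l := by omega
    have hlN : l ≤ N := by omega
    have hX := h.Xk j l hj hl1 h2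
    have n1 := (yW j l hj hl1 hlN).2
    have n2 := (yW j l hj hl1 hlN).1
    have n3 := (yW i l hi hl1 hlN).1
    have nT := yT l (by omega)
    have s2 : y < U j l := by omega
    have s3 : T l < y := by
      by_contra hc
      exact m3 l (l + 1) (by omega) (by omega) (by omega) (by omega)
    have s4 : y < V j l := by
      by_contra hc
      exact hn' (ls_mem.2 ⟨hj, l, hl1, hlN, by omega, s2⟩)
    have o1 : V i l < V j l :=
      (h.ord i j l hi hj hl1 hlN).2 ((h.ord i j (l + 1) hi hj h1 h2).1 hij)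
    have o2 := h.nest i j l hi hj hl1 hlN o1
    have s5 : y < V i l := by
      by_contra hc
      exact hn (ls_mem.2 ⟨hi, l, hl1, hlN, by omega, by omega⟩)
    have o3 := (h.vd i l hi hl1 hlN).1
    have hEk := h.Ek l hl1 h2
    obtain ⟨e1, e2, e3⟩ := h.ed (l + 1) h1 h2
    have hDz := h.Dz (l + 1) h1 h2
    have nD := zD (l + 1) h1 h2
    rcases Nat.lt_or_ge y' (D (l + 1)) with hD | hD
    · rw [hEk] at e1 e2 e3
      refine h.ovr (l + 1) y y' (D l) (D (l + 1)) (by omega) he e1 (by omega) (by omega) e3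
        (by omega) m1 e2 ?_
      unfold Alt
      omega
    · obtain ⟨f1, f2⟩ := h.fd (l + 1) h1 h2
      have hvd := h.vd i (l + 1) hi h1 h2
      refine h.nt _ _ _ _ _ _ he hvu f1 c1 ?_ ?_
      · unfold Alt; omega
      · unfold Alt; omega
  · -- step 2
    obtain rfl : k = 1 := by omega
    have hX := h.X1 j hj
    have nT := yT 0 (by omega)
    exact m3 0 1 (by omega) (by omega) (by omega) (by omega)
-- END er_left

-- BEGIN er_right
/-- Mirror image of `er_left`: `y` is after `U i k`. Proof. `V i k < V j k < y' < U j k < U i k < y`,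
`h.mid y' y`.
(1) If `y < Y j k`: the chords `(y',y)`, `(V i k, U i k)`, `(U j k, Y j k)` cross pairwise
(`V i < y' < U i < y`; `y' < U j < y < Y j`; `V i < U j < U i < Y j`). As `y ≠ Y j k`, `Y j k < y`.
(2) If `k = N`: `Y j N = T (N+2)`, so `T (N+1), T (N+2)` are strictly between `y'` and `y`, which is
impossible. So `k + 1 ≤ N`, `Y j k = V j (k+1)`, and `y < T (k+2)`: `y` is in zone `k + 1`.
(3) `j ∉ Ls y`, `V j (k+1) < y`: `U j (k+1) < y`; `V i (k+1) < V j (k+1) < y` and `i ∉ Ls y` give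
`U i (k+1) < y`, so `D (k+1) < y`.
(4) If `D k < y'`: the chords `(y',y)`, `(D k, D (k+1))` (`= (D k, F k)`) pass over `T (k+1)` and
cross (`D k < y' < D (k+1) < y`), contradiction to `ovr`. If `y' < D k`: the chords `(y',y)`,
`(V i k, U i k)`, `(E k, D k)` cross pairwise (`E k < y' < D k < y`, `E k < V i < D k < U i`). -/
theorem er_right {Ed : ℕ → ℕ → Prop} {N M A B : ℕ} {T D E F : ℕ → ℕ} {V U X Y : ℕ → ℕ → ℕ}
    (h : Ct Ed N M A B T D E F V U X Y) {y y' i j k : ℕ} (hy : Fre N M A B T D V U y)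
    (hy' : Fre N M A B T D V U y') (he : Ed y y') (hi : i < M) (hj : j < M) (h1 : 1 ≤ k)
    (h2 : k ≤ N) (hij : V i k < V j k) (a1 : V j k < y') (a2 : y' < U j k) (hn : i ∉ Ls N M V U y)
    (hn' : j ∉ Ls N M V U y) (b : U i k < y) : False := by
  have vi := h.Vz i k hi h1 h2
  have ui := h.Uz i k hi h1 h2
  have vj := h.Vz j k hj h1 h2
  have uj := h.Uz j k hj h1 h2
  have ns := h.nest i j k hi hj h1 h2 hij
  have di := h.vd i k hi h1 h2
  have dj := h.vd j k hj h1 h2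
  have he' : Ed y' y := h.symm _ _ he
  have t0 := h.tmono 0 k (by omega) (by omega)
  have tN := h.tmono (k + 1) (N + 2) (by omega) le_rfl
  have aT := h.at0 k (by omega)
  obtain ⟨hAy, hyB, hmid⟩ := h.mid y' y (by omega) (by omega) he' hy.1 hy.2.1
  have yj := h.yu j k hj h1 h2
  have hge : ¬ y < Y j k := fun hlt => h.nt y' y (V i k) (U i k) (U j k) (Y j k) he'
    (h.vu i k hi h1 h2) yj.1 (by unfold Alt; omega) (by unfold Alt; omega) (by unfold Alt; omega)
  rcases Nat.lt_or_ge k N with hk | hk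
  · have e1 := h.Yk j k hj h1 hk
    have n1 := hy.2.2.2.2 j (k + 1) hj (by omega) hk
    have z1 := h.Vz j (k + 1) hj (by omega) hk
    have t2 := h.tmono (k + 1) (k + 2) (by omega) (by omega)
    have hy2 : y < T (k + 2) := by
      by_contra hc
      have n2 := hy.2.2.1 (k + 2) (by omega)
      exact hmid (k + 1) (k + 2) (by omega) (by omega) (by omega) (by omega)
    have hy1 : T (k + 1) < y := by omega
    have l1 := ls_zone h (by omega : 1 ≤ k + 1) hk hy1 hy2
    have p1 : ¬ (V j (k + 1) < y ∧ y < U j (k + 1)) := fun hc => hn' ((l1 j).2 ⟨hj, hc⟩)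
    have o1 : V i (k + 1) < V j (k + 1) :=
      (h.ord i j (k + 1) hi hj (by omega) hk).2 ((h.ord i j k hi hj h1 h2).1 hij)
    have p2 : ¬ (V i (k + 1) < y ∧ y < U i (k + 1)) := fun hc => hn ((l1 i).2 ⟨hi, hc⟩)
    have d1 := h.vd i (k + 1) hi (by omega) hk
    have hD : D (k + 1) < y := by omega
    have n3 := hy'.2.2.2.1 k h1 h2
    have dk := h.Dz k h1 h2
    rcases Nat.lt_or_ge (D k) y' with hd | hd
    · have f1 := h.fd k h1 h2
      have f2 := h.Fk k h1 hk
      refine h.ovr (k + 1) (D k) (F k) y' y (by omega) f1.1 he' (by omega) (by omega) (by omega)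
        (by omega) (by omega) (by omega) ?_
      unfold Alt
      omega
    · have f1 := h.ed k h1 h2
      exact h.nt y' y (V i k) (U i k) (E k) (D k) he' (h.vu i k hi h1 h2) f1.1
        (by unfold Alt; omega) (by unfold Alt; omega) (by unfold Alt; omega)
  · have hkN : k = N := by omega
    subst hkN
    have e1 := h.YN j hj
    have n1 := hy.2.2.1 (k + 2) le_rfl
    exact hmid (k + 1) (k + 2) (by omega) le_rfl (by omega) (by omega)
-- END er_right

-- BEGIN er
/-- EDGE RULE. Proof: if `(Ls y').card ≥ (Ls y).card + 2` then `Ls y' \ Ls y` has two distinct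
elements `i, j` (`Finset.one_lt_card`, `Finset.le_card_sdiff`). By `ls_mem` for `i` there is a zone
`k` with `V i k < y' < U i k`, so `y'` is in zone `k` and by `ls_zone` `V j k < y' < U j k`. W.l.o.g.
`V i k < V j k` (`vne`). As `i ∉ Ls y`: `y < V i k` or `U i k < y` (`ls_mem`; `y ≠ V i k, U i k`).
Use `er_left`, `er_right`. -/
theorem er {Ed : ℕ → ℕ → Prop} {N M A B : ℕ} {T D E F : ℕ → ℕ} {V U X Y : ℕ → ℕ → ℕ}
    (h : Ct Ed N M A B T D E F V U X Y) {y y' : ℕ} (hy : Fre N M A B T D V U y)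
    (hy' : Fre N M A B T D V U y') (he : Ed y y') :
    (Ls N M V U y').card ≤ (Ls N M V U y).card + 1 := by
  by_contra hcon
  have h2 : 1 < (Ls N M V U y' \ Ls N M V U y).card := by
    have := Finset.le_card_sdiff (Ls N M V U y) (Ls N M V U y')
    omega
  have key : ∀ i j k, i < M → j < M → 1 ≤ k → k ≤ N → V i k < V j k → V j k < y' → y' < U j k →
      i ∉ Ls N M V U y → j ∉ Ls N M V U y → False := by
    intro i j k hi hj h1 h2 hij a1 a2 hn hn'
    have hi' := hy.2.2.2.2 i k hi h1 h2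
    rcases lt_or_gt_of_ne hi'.1 with h3 | h3
    · exact er_left h hy hy' he hi hj h1 h2 hij a1 a2 hn hn' h3
    · rcases lt_or_gt_of_ne hi'.2 with h4 | h4
      · exact hn (ls_mem.2 ⟨hi, k, h1, h2, h3, h4⟩)
      · exact er_right h hy hy' he hi hj h1 h2 hij a1 a2 hn hn' h4
  obtain ⟨i, hi, j, hj, hij⟩ := Finset.one_lt_card.1 h2
  rw [Finset.mem_sdiff] at hi hj
  obtain ⟨hiM, k, h1, h2, a, b⟩ := ls_mem.1 hi.1
  have hz := h.Vz i k hiM h1 h2
  have hz' := h.Uz i k hiM h1 h2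
  obtain ⟨hjM, c, d⟩ := (ls_zone h h1 h2 (y := y') (by omega) (by omega) j).1 hj.1
  rcases lt_or_gt_of_ne (h.vne i j k hiM hjM hij h1 h2).1 with h3 | h3
  · exact key i j k hiM hjM h1 h2 h3 c d hi.2 hj.2
  · exact key j i k hjM hiM h1 h2 h3 a b hj.2 hi.2
-- END er

-- BEGIN er_up_core
/-- `g` is adjacent to `v_i^k`; two wires `j1, j2` with `v_i < v_j1 < v_j2` have links spanning `g`:
impossible. Proof. By `ls_mem`, `ls_zone`: there is `l` (`1 ≤ l ≤ N`) with `T l < g < T (l+1)`,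
`V j1 l < V j2 l < g < U j2 l < U j1 l`. `h.mid (V i k) g`: `A < g < B`, not two walls between, so
`l ∈ {k-1, k, k+1}`.
Case `l = k`: the chords `(V i k, g)`, `(V j1 k, U j1 k)`, `(X j2 k, V j2 k)` cross pairwise
(`V i < V j1 < g < U j1`; `X j2 < V i < V j2 < g`; `X j2 < V j1 < V j2 < U j1`).
Case `l = k + 1`: `(V i k, g)` and `(D k, F k)`, `F k = D (k+1)`, pass over `T (k+1)`, so they do not
cross (`ovr`); as `V i k < D k`, `g < D (k+1)` is impossible; so `D (k+1) < g`; the chords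
`(V i k, g)`, `(V j1 l, U j1 l)`, `(D l, F l)` cross pairwise.
Case `l = k - 1` (`k ≥ 2`): `(g, V i k)` and `(X j1 k, V j1 k)`, `X j1 k = U j1 (k-1)`, pass over
`T k`, do not cross, `V i k < V j1 k`; so `g < U j1 (k-1)` is impossible: contradiction. -/
theorem er_up_core {Ed : ℕ → ℕ → Prop} {N M A B : ℕ} {T D E F : ℕ → ℕ} {V U X Y : ℕ → ℕ → ℕ}
    (h : Ct Ed N M A B T D E F V U X Y) {g i k j1 j2 : ℕ} (hg : Fre N M A B T D V U g)
    (hi : i < M) (h1 : 1 ≤ k) (h2 : k ≤ N) (he : Ed (V i k) g) (hj1 : j1 ∈ Ls N M V U g)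
    (hj2 : j2 ∈ Ls N M V U g) (a1 : V i 1 < V j1 1) (a2 : V j1 1 < V j2 1) : False := by
  obtain ⟨hm1, l, hl1, hl2, b1, b2⟩ := ls_mem.1 hj1
  have vz := h.Vz j1 l hm1 hl1 hl2
  have uz := h.Uz j1 l hm1 hl1 hl2
  obtain ⟨hm2, b3, b4⟩ := (ls_zone h hl1 hl2 (by omega) (by omega) j2).1 hj2
  have vi := h.Vz i k hi h1 h2
  have t0 := h.tmono 0 k (by omega) (by omega)
  have tN := h.tmono (k + 1) (N + 2) (by omega) le_rfl
  obtain ⟨hA, hB, hmid⟩ := h.mid (V i k) g (by omega) (by omega) he hg.1 hg.2.1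
  have o1 : V i k < V j1 k := (h.ord i j1 k hi hm1 h1 h2).2 a1
  have o2 : V j1 k < V j2 k := (h.ord j1 j2 k hm1 hm2 h1 h2).2 a2
  have c1 : ¬ k + 2 ≤ l := by
    intro hc
    have t1 := h.tmono (k + 1) (k + 2) (by omega) (by omega)
    have t2 : T (k + 2) ≤ T l := by
      rcases Nat.lt_or_ge (k + 2) l with h3 | h3
      · exact (h.tmono (k + 2) l h3 (by omega)).le
      · rw [show k + 2 = l by omega]
    exact hmid (k + 1) (k + 2) (by omega) (by omega) (by omega) (by omega)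
  have c2 : ¬ l + 2 ≤ k := by
    intro hc
    have t1 := h.tmono (l + 1) (l + 2) (by omega) (by omega)
    have t2 : T (l + 2) ≤ T k := by
      rcases Nat.lt_or_ge (l + 2) k with h3 | h3
      · exact (h.tmono (l + 2) k h3 (by omega)).le
      · rw [show l + 2 = k by omega]
    exact hmid (l + 1) (l + 2) (by omega) (by omega) (by omega) (by omega)
  rcases (show l = k ∨ l = k + 1 ∨ k = l + 1 by omega) with hlk | hlk | hlk
  · subst hlk
    have x2 := h.xv j2 l hm2 h1 h2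
    exact h.nt (V i l) g (V j1 l) (U j1 l) (X j2 l) (V j2 l) he (h.vu j1 l hm1 h1 h2) x2.1
      (by unfold Alt; omega) (by unfold Alt; omega) (by unfold Alt; omega)
  · subst hlk
    have f1 := h.fd k h1 h2
    have f2 := h.Fk k h1 hl2
    have f3 := h.fd (k + 1) hl1 hl2
    have dk := h.Dz k h1 h2
    have dl := h.Dz (k + 1) hl1 hl2
    have di := h.vd i k hi h1 h2
    have d1 := h.vd j1 (k + 1) hm1 hl1 hl2
    have aT := h.at0 k (by omega)
    have n1 := hg.2.2.2.1 (k + 1) hl1 hl2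
    have q1 := h.ovr (k + 1) (V i k) g (D k) (F k) (by omega) he f1.1 (by omega) (by omega)
      (by omega) (by omega) (by omega) (by omega)
    have q2 : D (k + 1) < g := by
      by_contra hc
      apply q1
      unfold Alt
      omega
    exact h.nt (V i k) g (V j1 (k + 1)) (U j1 (k + 1)) (D (k + 1)) (F (k + 1)) he
      (h.vu j1 (k + 1) hm1 hl1 hl2) f3.1 (by unfold Alt; omega) (by unfold Alt; omega)
      (by unfold Alt; omega)
  · subst hlk
    have x1 := h.xv j1 (l + 1) hm1 h1 h2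
    have x2 := h.Xk j1 l hm1 hl1 h2
    have vj := h.Vz j1 (l + 1) hm1 h1 h2
    refine h.ovr (l + 1) g (V i (l + 1)) (X j1 (l + 1)) (V j1 (l + 1)) (by omega)
      (h.symm _ _ he) x1.1 (by omega) (by omega) (by omega) (by omega) (by omega) (by omega) ?_
    unfold Alt
    omega
-- END er_up_core

-- BEGIN er_down_core
/-- `g` is adjacent to `v_i^k`; two wires `l, l'` with `v_l < v_l' < v_i` have no links spanning
`g`: impossible. Proof. `h.mid (V i k) g`: `A < g < B`, not two walls between. `V l k < V l' k <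
V i k` by `ord`. `U i < U l' < U l` by `nest`.
Case `T (k+1) < g`: the chords `(V i k, g)`, `(V l k, U l k)`, `(E k, D k)` cross pairwise
(`V l < V i < U l < g`; `E k < V i < D k < g`; `E k < V l < D k < U l`).
Case `T k < g < T (k+1)`: `l ∉ Ls g`, so `g < V l k` or `U l k < g`. If `g < V l k`: the chords
`(g, V i k)`, `(V l k, U l k)`, `(X l' k, V l' k)` cross pairwise (`g < V l < V i < U l`;
`X l' < g < V l' < V i`; `X l' < V l < V l' < U l`). If `U l k < g`: the chords `(V i k, g)`,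
`(V l k, U l k)`, `(U l' k, Y l' k)` cross pairwise (`V l < V i < U l < g`; `V i < U l' < g < Y l'`;
`V l < U l' < U l < Y l'`).
Case `g < T k`: `(g, V i k)` and `(X l k, V l k)` pass over `T k`, so they do not cross, so not
`X l k < g` (then `X l < g < V l < V i`); `g ≠ X l k`; so `g < X l k`. If `k = 1` then `g < T 0`, two
walls `T 0, T 1` between. So `k ≥ 2`, `g < U l (k-1)`. Also `(E k, D k)`, `E k = D (k-1)`, passes
over `T k`: it does not cross `(g, V i k)`, so not `g < D (k-1)`; `g > D (k-1) > V l (k-1)`. So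
`l ∈ Ls g`, contradiction. -/
theorem er_down_core {Ed : ℕ → ℕ → Prop} {N M A B : ℕ} {T D E F : ℕ → ℕ} {V U X Y : ℕ → ℕ → ℕ}
    (h : Ct Ed N M A B T D E F V U X Y) {g i k l l' : ℕ} (hg : Fre N M A B T D V U g)
    (hi : i < M) (h1 : 1 ≤ k) (h2 : k ≤ N) (he : Ed (V i k) g) (hl : l < M) (hl' : l' < M)
    (hn : l ∉ Ls N M V U g) (hn' : l' ∉ Ls N M V U g) (a1 : V l 1 < V l' 1)
    (a2 : V l' 1 < V i 1) : False := by
  obtain ⟨hgA, hgB, hgT, hgD, hgVU⟩ := hg
  have b1 : V l k < V l' k := (h.ord l l' k hl hl' h1 h2).2 a1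
  have b2 : V l' k < V i k := (h.ord l' i k hl' hi h1 h2).2 a2
  have c1 : U l' k < U l k := h.nest l l' k hl hl' h1 h2 b1
  have c2 : U i k < U l' k := h.nest l' i k hl' hi h1 h2 b2
  obtain ⟨vl1, vl2⟩ := h.Vz l k hl h1 h2
  obtain ⟨vi1, vi2⟩ := h.Vz i k hi h1 h2
  obtain ⟨ul1, ul2⟩ := h.Uz l k hl h1 h2
  obtain ⟨dz1, dz2⟩ := h.Dz k h1 h2
  obtain ⟨dl1, dl2⟩ := h.vd l k hl h1 h2
  obtain ⟨di1, di2⟩ := h.vd i k hi h1 h2
  obtain ⟨xl1, xl2, xl3⟩ := h.xv l k hl h1 h2
  obtain ⟨xl'1, xl'2, xl'3⟩ := h.xv l' k hl' h1 h2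
  obtain ⟨yl'1, yl'2⟩ := h.yu l' k hl' h1 h2
  obtain ⟨ed1, ed2, ed3⟩ := h.ed k h1 h2
  have t0 : T 0 < T k := h.tmono 0 k (by omega) (by omega)
  have t2 : T (k + 1) < T (N + 2) := h.tmono (k + 1) (N + 2) (by omega) (by omega)
  obtain ⟨m1, m2, m3⟩ := h.mid (V i k) g (by omega) (by omega) he hgA hgB
  have gk := hgT k (by omega)
  have gk1 := hgT (k + 1) (by omega)
  have gvl := hgVU l k hl h1 h2
  have hvl := h.vu l k hl h1 h2
  rcases lt_or_gt_of_ne gk1 with g1 | g1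
  · rcases lt_or_gt_of_ne gk with g2 | g2
    · -- `g < T k`
      have hov := h.ovr k g (V i k) (X l k) (V l k) (by omega) (h.symm _ _ he) xl1 g2 vi1 xl3 vl1 m1 xl2
      have hxg : ¬ X l k < g := fun hc => hov (by unfold Alt; omega)
      obtain ⟨m, rfl⟩ : ∃ m, k = m + 1 := ⟨k - 1, by omega⟩
      rcases Nat.eq_zero_or_pos m with hm | hm
      · subst hm
        have hX := h.X1 l hl
        have hg0 := hgT 0 (by omega)
        rw [hX] at hxg
        exact m3 0 1 (by omega) (by omega) (by omega) (lt_max_of_lt_left vi1)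
      · have hX := h.Xk l m hl hm (by omega)
        have hE := h.Ek m hm (by omega)
        rw [hX] at hxg
        have gvlm := hgVU l m hl hm (by omega)
        have gD := hgD m hm (by omega)
        obtain ⟨dm1, dm2⟩ := h.vd l m hl hm (by omega)
        have hov2 := h.ovr (m + 1) g (V i (m + 1)) (E (m + 1)) (D (m + 1)) (by omega) (h.symm _ _ he)
          ed1 g2 vi1 ed3 dz1 m1 ed2
        rw [hE] at hov2
        have hgd : ¬ g < D m := fun hc => hov2 (by unfold Alt; omega)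
        exact hn (ls_mem.2 ⟨hl, m, hm, by omega, by omega, by omega⟩)
    · -- the same zone
      have hls : ¬ (V l k < g ∧ g < U l k) := fun hc =>
        hn ((ls_zone h h1 h2 g2 g1 l).2 ⟨hl, hc.1, hc.2⟩)
      rcases lt_or_gt_of_ne gvl.1 with g3 | g3
      · exact h.nt g (V i k) (V l k) (U l k) (X l' k) (V l' k) (h.symm _ _ he) hvl xl'1
          (by unfold Alt; omega) (by unfold Alt; omega) (by unfold Alt; omega)
      · have g4 : U l k < g := by
          have := gvl.2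
          omega
        exact h.nt (V i k) g (V l k) (U l k) (U l' k) (Y l' k) he hvl yl'1
          (by unfold Alt; omega) (by unfold Alt; omega) (by unfold Alt; omega)
  · exact h.nt (V i k) g (V l k) (U l k) (E k) (D k) he hvl ed1
      (by unfold Alt; omega) (by unfold Alt; omega) (by unfold Alt; omega)
-- END er_down_core

-- BEGIN er_v
/-- Proof: if `(Ls g).card ≥ rk M V i + 3` then `Ls g` minus the filter set of `rk` (the `l < M` with
`V l 1 < V i 1`) has three distinct elements; sort them by `V · 1` (distinct values by `vne`):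
`V l1 1 < V l2 1 < V l3 1`, and `V i 1 ≤ V l1 1`; apply `er_up_core` with `j1 = l2`, `j2 = l3`. -/
theorem er_up {Ed : ℕ → ℕ → Prop} {N M A B : ℕ} {T D E F : ℕ → ℕ} {V U X Y : ℕ → ℕ → ℕ}
    (h : Ct Ed N M A B T D E F V U X Y) {g i k : ℕ} (hg : Fre N M A B T D V U g)
    (hi : i < M) (h1 : 1 ≤ k) (h2 : k ≤ N) (he : Ed (V i k) g) :
    (Ls N M V U g).card ≤ rk M V i + 2 := by
  classical
  by_contra hc
  set Fs : Finset ℕ := (Finset.range M).filter fun l => V l 1 < V i 1 with hFs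
  have hrk : rk M V i = Fs.card := by
    rw [hFs]
    unfold rk
    congr
  have hN := h.hN
  have hcard : 3 ≤ (Ls N M V U g \ Fs).card := by
    have := Finset.le_card_sdiff Fs (Ls N M V U g)
    omega
  have hinj : ∀ a ∈ Ls N M V U g \ Fs, ∀ b ∈ Ls N M V U g \ Fs, a ≠ b → V a 1 ≠ V b 1 := by
    intro a ha b hb hab
    rw [Finset.mem_sdiff] at ha hb
    exact (h.vne a b 1 (ls_mem.1 ha.1).1 (ls_mem.1 hb.1).1 hab le_rfl hN).1
  have hne1 : (Ls N M V U g \ Fs).Nonempty := Finset.card_pos.1 (by omega)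
  obtain ⟨l1, hl1, hm1⟩ := Finset.exists_min_image _ (fun l => V l 1) hne1
  have hc2 : 2 ≤ ((Ls N M V U g \ Fs).erase l1).card := by
    rw [Finset.card_erase_of_mem hl1]
    omega
  have hne2 : ((Ls N M V U g \ Fs).erase l1).Nonempty := Finset.card_pos.1 (by omega)
  obtain ⟨l2, hl2, hm2⟩ := Finset.exists_min_image _ (fun l => V l 1) hne2
  have hc3 : 1 ≤ (((Ls N M V U g \ Fs).erase l1).erase l2).card := by
    rw [Finset.card_erase_of_mem hl2]
    omega
  obtain ⟨l3, hl3⟩ := Finset.card_pos.1 hc3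
  have hl2' := Finset.mem_erase.1 hl2
  have hl3' := Finset.mem_erase.1 hl3
  have hl3'' := Finset.mem_erase.1 hl3'.2
  have h12 : V l1 1 < V l2 1 :=
    lt_of_le_of_ne (hm1 l2 hl2'.2) (hinj l1 hl1 l2 hl2'.2 (Ne.symm hl2'.1))
  have h23 : V l2 1 < V l3 1 :=
    lt_of_le_of_ne (hm2 l3 hl3'.2) (hinj l2 hl2'.2 l3 hl3''.2 (Ne.symm hl3'.1))
  have hl1' := Finset.mem_sdiff.1 hl1
  have hi1 : V i 1 ≤ V l1 1 := by
    by_contra hlt
    exact hl1'.2 (Finset.mem_filter.2 ⟨Finset.mem_range.2 (ls_mem.1 hl1'.1).1, by omega⟩)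
  exact er_up_core h hg hi h1 h2 he (Finset.mem_sdiff.1 hl2'.2).1 (Finset.mem_sdiff.1 hl3''.2).1
    (by omega) h23

/-- Proof: if `rk M V i ≥ (Ls g).card + 2` then the filter set of `rk M V i` minus `Ls g` has two
distinct elements `l, l'`, w.l.o.g. `V l 1 < V l' 1`; apply `er_down_core`. -/
theorem er_down {Ed : ℕ → ℕ → Prop} {N M A B : ℕ} {T D E F : ℕ → ℕ} {V U X Y : ℕ → ℕ → ℕ}
    (h : Ct Ed N M A B T D E F V U X Y) {g i k : ℕ} (hg : Fre N M A B T D V U g)
    (hi : i < M) (h1 : 1 ≤ k) (h2 : k ≤ N) (he : Ed (V i k) g) :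
    rk M V i ≤ (Ls N M V U g).card + 1 := by
  classical
  by_contra hc
  set Fs : Finset ℕ := (Finset.range M).filter fun l => V l 1 < V i 1 with hFs
  have hrk : rk M V i = Fs.card := by
    rw [hFs]
    unfold rk
    congr
  have hN := h.hN
  have hcard : 1 < (Fs \ Ls N M V U g).card := by
    have := Finset.le_card_sdiff (Ls N M V U g) Fs
    omega
  obtain ⟨a, ha, b, hb, hab⟩ := Finset.one_lt_card.1 hcard
  obtain ⟨ha1, ha2⟩ := Finset.mem_sdiff.1 ha
  obtain ⟨hb1, hb2⟩ := Finset.mem_sdiff.1 hb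
  obtain ⟨ha3, ha4⟩ := Finset.mem_filter.1 ha1
  obtain ⟨hb3, hb4⟩ := Finset.mem_filter.1 hb1
  have ha5 := Finset.mem_range.1 ha3
  have hb5 := Finset.mem_range.1 hb3
  have hne := (h.vne a b 1 ha5 hb5 hab le_rfl hN).1
  rcases lt_or_gt_of_ne hne with hlt | hlt
  · exact er_down_core h hg hi h1 h2 he ha5 hb5 ha2 hb2 hlt hb4
  · exact er_down_core h hg hi h1 h2 he hb5 ha5 hb2 ha2 hlt ha4
-- END er_v

-- BEGIN path_bound
/-- A path with `q ≥ 1` free inner vertices between `v_i^k` and `v_j^k`. Proof: `er_up` at the first,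
`er_down` at the last inner vertex, `er` along the path in both directions (`q - 1` edges;
induction). -/
theorem path_bound {Ed : ℕ → ℕ → Prop} {N M A B : ℕ} {T D E F : ℕ → ℕ} {V U X Y : ℕ → ℕ → ℕ}
    (h : Ct Ed N M A B T D E F V U X Y) {i j k q : ℕ} (gs : ℕ → ℕ) (hi : i < M) (hj : j < M)
    (h1 : 1 ≤ k) (h2 : k ≤ N) (hq : 1 ≤ q) (hg : ∀ s, 1 ≤ s → s ≤ q → Fre N M A B T D V U (gs s))
    (e1 : Ed (V i k) (gs 1)) (es : ∀ s, 1 ≤ s → s + 1 ≤ q → Ed (gs s) (gs (s + 1)))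
    (e2 : Ed (gs q) (V j k)) :
    rk M V i ≤ rk M V j + q + 2 ∧ rk M V j ≤ rk M V i + q + 2 := by
  have key : ∀ s, s + 1 ≤ q → (Ls N M V U (gs (s + 1))).card ≤ (Ls N M V U (gs 1)).card + s ∧
      (Ls N M V U (gs 1)).card ≤ (Ls N M V U (gs (s + 1))).card + s := by
    intro s
    induction s with
    | zero => intro _; exact ⟨le_rfl, le_rfl⟩
    | succ s ih =>
      intro hs
      obtain ⟨h3, h4⟩ := ih (by omega)
      have he := es (s + 1) (by omega) hs
      have f1 := hg (s + 1) (by omega) (by omega)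
      have f2 := hg (s + 1 + 1) (by omega) hs
      have h5 := er h f1 f2 he
      have h6 := er h f2 f1 (h.symm _ _ he)
      omega
  obtain ⟨h3, h4⟩ := key (q - 1) (by omega)
  have hq1 : q - 1 + 1 = q := by omega
  rw [hq1] at h3 h4
  have fr1 := hg 1 le_rfl hq
  have frq := hg q hq le_rfl
  have h5 := er_up h fr1 hi h1 h2 e1
  have h6 := er_down h fr1 hi h1 h2 e1
  have h7 := er_up h frq hj h1 h2 (h.symm _ _ e2)
  have h8 := er_down h frq hj h1 h2 (h.symm _ _ e2)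
  omega
-- END path_bound

-- BEGIN gr_wr
private theorem gr_wr_ps {N M Q : ℕ} {i1 i2 q : ℕ → ℕ} {act : ℕ → Bool} {p : Cd → ℕ} (x y : Cd)
    (h : EP N M Q i1 i2 q act x y) : Ps (Gr N M Q i1 i2 q act) p (p x) (p y) :=
  ⟨x, y, Or.inl h, rfl, rfl⟩

private theorem gr_wr_m1 {N M Q : ℕ} {i1 i2 q : ℕ → ℕ} {act : ℕ → Bool} {S : Set Cd} {p : Cd → ℕ}
    {L : ℕ} (hd : Dr (Gr N M Q i1 i2 q act) S p L) (x y : Cd)
    (h : EP N M Q i1 i2 q act x y) : x ∈ S ∧ y ∈ S :=
  ⟨hd.adj x y (Or.inl h), hd.adj y x (Or.inr h)⟩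

private theorem gr_wr_mem {N M Q : ℕ} {i1 i2 q : ℕ → ℕ} {act : ℕ → Bool} {S : Set Cd} {p : Cd → ℕ}
    {L : ℕ} (hd : Dr (Gr N M Q i1 i2 q act) S p L) :
    ((0, 0, 0) : Cd) ∈ S ∧ ((0, 1, 0) : Cd) ∈ S ∧ (∀ j, j < mw N → ((1, j, 0) : Cd) ∈ S) ∧
      (∀ k, 1 ≤ k → k ≤ N → ((2, k, 0) : Cd) ∈ S) ∧
      ∀ i k, i < M → 1 ≤ k → k ≤ N → ((3, i, k) : Cd) ∈ S ∧ ((4, i, k) : Cd) ∈ S := by
  have e1 : EP N M Q i1 i2 q act (0, 0, 0) (0, 1, 0) := by
    unfold EP; simp
  refine ⟨(gr_wr_m1 hd _ _ e1).1, (gr_wr_m1 hd _ _ e1).2, ?_, ?_, ?_⟩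
  · intro j hj
    have e : EP N M Q i1 i2 q act (0, 0, 0) (1, j, 0) := by
      unfold EP; simp [hj]
    exact (gr_wr_m1 hd _ _ e).2
  · intro k h1 h2
    by_cases hk : k = 1
    · subst hk
      have e : EP N M Q i1 i2 q act (1, d0 N, 0) (2, 1, 0) := by
        unfold EP; simp
      exact (gr_wr_m1 hd _ _ e).2
    · have e : EP N M Q i1 i2 q act (2, k - 1, 0) (2, k, 0) := by
        unfold EP
        refine Or.inr (Or.inr (Or.inr (Or.inr (Or.inl ?_))))
        refine ⟨rfl, rfl, rfl, rfl, ?_, ?_, h2⟩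
        · show 1 ≤ k - 1
          omega
        · show k = k - 1 + 1
          omega
      exact (gr_wr_m1 hd _ _ e).2
  · intro i k hi h1 h2
    have e : EP N M Q i1 i2 q act (3, i, k) (4, i, k) := by
      unfold EP; simp [hi, h1, h2]
    exact gr_wr_m1 hd _ _ e

/-- The places of the walls and wires of a canonical drawing of `Gr` satisfy `Wr`. All chords come
from `EP` (rows in the order of the definition: hub-hub, hub-wall, wall-wall, wall-special,
special-special, wall-`v^1`, `v-u`, `u-v`, `u^N`-wall); a chord of `Ps` is obtained from an edge as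
`⟨_, _, edge, rfl, rfl⟩`. Distinctness from `hd.inj`: all these codes are non-isolated, so they are
in `S` by `hd.adj` (and symmetry). -/
theorem gr_wr {N M Q : ℕ} {i1 i2 q : ℕ → ℕ} {act : ℕ → Bool} {S : Set Cd} {p : Cd → ℕ} {L : ℕ}
    (hN : 1 ≤ N) (hd : Dr (Gr N M Q i1 i2 q act) S p L)
    (hf : Fr (Ps (Gr N M Q i1 i2 q act) p) (mw N) (p (0, 0, 0)) (p (0, 1, 0))
        (fun j => p (1, j, 0))) :
    Wr (Ps (Gr N M Q i1 i2 q act) p) N M (p (0, 0, 0)) (p (0, 1, 0)) (fun j => p (1, j, 0))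
      (fun k => p (2, k, 0)) (fun i k => p (3, i, k)) (fun i k => p (4, i, k)) := by
  obtain ⟨m0, m1, mw', m2, m34⟩ := gr_wr_mem hd
  refine
    { hN := hN
      fr := hf
      d1 := ?_
      dd := ?_
      dN := ?_
      v1 := ?_
      vu := ?_
      uv := ?_
      uN := ?_
      Dne := ?_
      Vne := ?_
      Une := ?_
      VD := ?_
      UD := ?_
      VU := ?_
      VV := ?_
      UU := ?_ }
  · exact gr_wr_ps _ _ (by unfold EP; simp)
  · intro k h1 h2
    refine gr_wr_ps _ _ ?_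
    unfold EP
    refine Or.inr (Or.inr (Or.inr (Or.inr (Or.inl ?_))))
    exact ⟨rfl, rfl, rfl, rfl, h1, rfl, h2⟩
  · refine hf.symm _ _ ?_
    refine gr_wr_ps _ _ ?_
    unfold EP
    refine Or.inr (Or.inr (Or.inr (Or.inl ?_)))
    exact ⟨rfl, rfl, rfl, rfl, Or.inr ⟨rfl, rfl⟩⟩
  · intro i hi
    refine gr_wr_ps _ _ ?_
    unfold EP
    refine Or.inr (Or.inr (Or.inr (Or.inr (Or.inr (Or.inl ?_)))))
    exact ⟨rfl, rfl, rfl, rfl, hi, rfl⟩
  · intro i k hi h1 h2
    refine gr_wr_ps _ _ ?_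
    unfold EP
    simp [hi, h1, h2]
  · intro i k hi h1 h2
    refine gr_wr_ps _ _ ?_
    unfold EP
    refine Or.inr (Or.inr (Or.inr (Or.inr (Or.inr (Or.inr (Or.inr (Or.inl ?_)))))))
    exact ⟨rfl, rfl, rfl, hi, h1, rfl, h2⟩
  · intro i hi
    refine hf.symm _ _ ?_
    refine gr_wr_ps _ _ ?_
    unfold EP
    refine Or.inr (Or.inr (Or.inr (Or.inr (Or.inr (Or.inr (Or.inr (Or.inr (Or.inl ?_))))))))
    exact ⟨rfl, rfl, rfl, rfl, hi, rfl⟩
  · intro k h1 h2
    refine ⟨fun e => ?_, fun e => ?_, fun j hj e => ?_⟩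
    · have := hd.inj _ (m2 k h1 h2) _ m0 e
      simp at this
    · have := hd.inj _ (m2 k h1 h2) _ m1 e
      simp at this
    · have := hd.inj _ (m2 k h1 h2) _ (mw' j hj) e
      simp at this
  · intro i k hi h1 h2
    refine ⟨fun e => ?_, fun e => ?_, fun j hj e => ?_⟩
    · have := hd.inj _ (m34 i k hi h1 h2).1 _ m0 e
      simp at this
    · have := hd.inj _ (m34 i k hi h1 h2).1 _ m1 e
      simp at this
    · have := hd.inj _ (m34 i k hi h1 h2).1 _ (mw' j hj) e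
      simp at this
  · intro i k hi h1 h2
    refine ⟨fun e => ?_, fun e => ?_, fun j hj e => ?_⟩
    · have := hd.inj _ (m34 i k hi h1 h2).2 _ m0 e
      simp at this
    · have := hd.inj _ (m34 i k hi h1 h2).2 _ m1 e
      simp at this
    · have := hd.inj _ (m34 i k hi h1 h2).2 _ (mw' j hj) e
      simp at this
  · intro i k l hi h1 h2 h3 h4 e
    have := hd.inj _ (m34 i k hi h1 h2).1 _ (m2 l h3 h4) e
    simp at this
  · intro i k l hi h1 h2 h3 h4 e
    have := hd.inj _ (m34 i k hi h1 h2).2 _ (m2 l h3 h4) e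
    simp at this
  · intro i k j l hi h1 h2 hj h3 h4 e
    have := hd.inj _ (m34 i k hi h1 h2).1 _ (m34 j l hj h3 h4).2 e
    simp at this
  · intro i k j l hi h1 h2 hj h3 h4 e
    have := hd.inj _ (m34 i k hi h1 h2).1 _ (m34 j l hj h3 h4).1 e
    simpa using this
  · intro i k j l hi h1 h2 hj h3 h4 e
    have := hd.inj _ (m34 i k hi h1 h2).2 _ (m34 j l hj h3 h4).2 e
    simpa using this
-- END gr_wr

-- BEGIN sound
private theorem sound_ne {S : Set Cd} {p : Cd → ℕ} {G : SimpleGraph Cd} {L : ℕ}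
    (hd : Dr G S p L) {x y : Cd} (hx : x ∈ S) (hy : y ∈ S) (hxy : x ≠ y) : p x ≠ p y :=
  fun h => hxy (hd.inj x hx y hy h)

private theorem sound_mem {N M Q : ℕ} {i1 i2 q : ℕ → ℕ} {act : ℕ → Bool} {S : Set Cd}
    {p : Cd → ℕ} {L : ℕ} (hd : Dr (Gr N M Q i1 i2 q act) S p L) {x y : Cd}
    (h : EP N M Q i1 i2 q act x y) : x ∈ S ∧ y ∈ S :=
  ⟨hd.adj x y (Or.inl h), hd.adj y x (Or.inr h)⟩

/-- SOUNDNESS. Proof: `canon` gives a canonical drawing `p'`; `gr_wr`, `wr_ct` give `Ct`; let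
`π i := rk M V i` with `V i k = p' (3, i, k)`: `rk_lt`, `rk_inj` (`V i 1 = V j 1 → i = j` by
`inj`). For an active zone `k` (`i1 k, i2 k < M`, `1 ≤ q k ≤ Q`) the vertices `(5,k,s)`,
`1 ≤ s ≤ q k`, form a path between `(3, i1 k, k)` and `(3, i2 k, k)` (rows 10, 11, 12 of `EP`), their
places are free (`Fre`, by `inj`); `path_bound`. -/
theorem sound {N M Q : ℕ} {i1 i2 q : ℕ → ℕ} {act : ℕ → Bool} {S : Set Cd} {p : Cd → ℕ} {L : ℕ}
    (hN : 1 ≤ N) (hd : Dr (Gr N M Q i1 i2 q act) S p L)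
    (hact : ∀ k, 1 ≤ k → k ≤ N → act k = true → i1 k < M ∧ i2 k < M ∧ 1 ≤ q k ∧ q k ≤ Q) :
    DB N M i1 i2 q act := by
  have r1 : EP N M Q i1 i2 q act (0, 0, 0) (0, 1, 0) := by unfold EP; simp
  have r2 : ∀ j, j < mw N → EP N M Q i1 i2 q act (0, 0, 0) (1, j, 0) := by
    intro j hj; unfold EP; simp [hj]
  have r4 : EP N M Q i1 i2 q act (1, d0 N, 0) (2, 1, 0) := by unfold EP; simp
  have r5 : ∀ k, 1 ≤ k → k + 1 ≤ N → EP N M Q i1 i2 q act (2, k, 0) (2, k + 1, 0) := by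
    intro k h1 h2; unfold EP; simp; omega
  have r7 : ∀ i k, i < M → 1 ≤ k → k ≤ N → EP N M Q i1 i2 q act (3, i, k) (4, i, k) := by
    intro i k hi h1 h2; unfold EP; simp; omega
  have r10 : ∀ k, 1 ≤ k → k ≤ N → i1 k < M → 1 ≤ Q →
      EP N M Q i1 i2 q act (3, i1 k, k) (5, k, 1) := by
    intro k h1 h2 hi hQ; unfold EP; simp; omega
  have r11 : ∀ k s, 1 ≤ k → k ≤ N → 1 ≤ s → s + 1 ≤ Q →
      EP N M Q i1 i2 q act (5, k, s) (5, k, s + 1) := by
    intro k s h1 h2 hi hQ; unfold EP; simp; omega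
  have r12 : ∀ k, 1 ≤ k → k ≤ N → i2 k < M → 1 ≤ q k → q k ≤ Q → act k = true →
      EP N M Q i1 i2 q act (5, k, q k) (3, i2 k, k) := by
    intro k h1 h2 hi hq hQ ha; unfold EP; simp [ha]; omega
  obtain ⟨m0, m1⟩ := sound_mem hd r1
  obtain ⟨p', L', hd', hf⟩ := canon hd m0 m1 fun j hj => (sound_mem hd (r2 j hj)).2
  have hw := gr_wr hN hd' hf
  have hc := wr_ct hw
  have w0 : ((0, 0, 0) : Cd) ∈ S := m0
  have w1 : ∀ j, j < mw N → ((1, j, 0) : Cd) ∈ S := fun j hj => (sound_mem hd (r2 j hj)).2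
  have w2 : ∀ k, 1 ≤ k → k ≤ N → ((2, k, 0) : Cd) ∈ S := by
    intro k h1 h2
    rcases Nat.lt_or_ge 1 k with h | h
    · obtain ⟨k', rfl⟩ : ∃ k', k = k' + 1 := ⟨k - 1, by omega⟩
      exact (sound_mem hd (r5 k' (by omega) h2)).2
    · have : k = 1 := by omega
      subst this
      exact (sound_mem hd r4).2
  have w3 : ∀ i k, i < M → 1 ≤ k → k ≤ N → ((3, i, k) : Cd) ∈ S := fun i k hi h1 h2 =>
    (sound_mem hd (r7 i k hi h1 h2)).1
  have w4 : ∀ i k, i < M → 1 ≤ k → k ≤ N → ((4, i, k) : Cd) ∈ S := fun i k hi h1 h2 =>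
    (sound_mem hd (r7 i k hi h1 h2)).2
  refine ⟨fun i => rk M (fun i k => p' (3, i, k)) i, ?_, fun i hi => rk_lt hi, ?_⟩
  · intro i j hi hj hij
    refine rk_inj (V := fun i k => p' (3, i, k)) ?_ hi hj hij
    intro i j hi hj h
    have h1 := hd'.inj _ (w3 i 1 hi le_rfl hN) _ (w3 j 1 hj le_rfl hN) h
    exact (Prod.mk.inj (Prod.mk.inj h1).2).1
  · intro k h1 h2 ha
    obtain ⟨hi, hj, hq, hQ⟩ := hact k h1 h2 ha
    have w5 : ∀ s, 1 ≤ s → s ≤ q k → ((5, k, s) : Cd) ∈ S := by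
      intro s hs1 hs2
      rcases Nat.lt_or_ge 1 s with h | h
      · obtain ⟨s', rfl⟩ : ∃ s', s = s' + 1 := ⟨s - 1, by omega⟩
        exact (sound_mem hd (r11 k s' h1 h2 (by omega) (by omega))).2
      · have : s = 1 := by omega
        subst this
        exact (sound_mem hd (r10 k h1 h2 hi (by omega))).2
    refine path_bound hc (i := i1 k) (j := i2 k) (k := k) (q := q k) (fun s => p' (5, k, s)) hi hj
      h1 h2 hq ?_ ?_ ?_ ?_
    · intro s hs1 hs2
      refine ⟨sound_ne hd' (w5 s hs1 hs2) m0 (by simp), sound_ne hd' (w5 s hs1 hs2) m1 (by simp),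
        ?_, ?_, ?_⟩
      · intro j hj
        exact sound_ne hd' (w5 s hs1 hs2) (w1 _ (by unfold mw d0; omega)) (by simp)
      · intro l hl1 hl2
        exact sound_ne hd' (w5 s hs1 hs2) (w2 l hl1 hl2) (by simp)
      · intro i l hi hl1 hl2
        exact ⟨sound_ne hd' (w5 s hs1 hs2) (w3 i l hi hl1 hl2) (by simp),
          sound_ne hd' (w5 s hs1 hs2) (w4 i l hi hl1 hl2) (by simp)⟩
    · exact ⟨_, _, Or.inl (r10 k h1 h2 hi (by omega)), rfl, rfl⟩
    · intro s hs1 hs2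
      exact ⟨_, _, Or.inl (r11 k s h1 h2 hs1 (by omega)), rfl, rfl⟩
    · exact ⟨_, _, Or.inl (r12 k h1 h2 hj hq hQ ha), rfl, rfl⟩
-- END sound

end Pool.Agent.Cqp
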