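import Mathlib
import Pool.Agent.Cqp.Defs
import Pool.Agent.MP_709f11_lc.Verify

set_option autoImplicit false

/-!
# The problem is in NP
-/

namespace Pool.Agent.Cqp

open Pool.NPC Pool.Agent.MP_709f11_lc

/-- CONVEX `k`-QUASI-PLANARITY as a set of bit strings (adjacency matrices, see `encodeGraph`) -/
def convexProblem (k : ℕ) : Set (List Bool) :=
  {s | ∃ (n : ℕ) (G : SimpleGraph (Fin n)), s = encodeGraph G ∧ ConvexQuasi k G}

/-- `Alt` as a Boolean -/
def altB (a b c d : ℕ) : Bool :=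
  (decide (Min.min a b < Min.min c d) && decide (Min.min c d < Max.max a b) &&
    decide (Max.max a b < Max.max c d)) ||
  (decide (Min.min c d < Min.min a b) && decide (Min.min a b < Max.max c d) &&
    decide (Max.max c d < Max.max a b))

/-- place of a vertex given by a certificate -/
def posS (w : List Bool) (n i : ℕ) : ℕ :=
  (List.range n).countP fun c => w.getD (i * n + c) false

/-- the verifier for a given number of vertices -/
def checkQ (x w : List Bool) (n : ℕ) : Bool :=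
  (x.length == n + 1 + n * n) && (List.range n).all (fun i => x.getD i false) &&
  !(x.getD n false) &&
  (List.range n).all (fun u => (List.range n).all fun v => adjS x n u v == adjS x n v u) &&
  (List.range n).all (fun u => !(adjS x n u u)) &&
  (List.range n).all (fun u => (List.range n).all fun v =>
    (u == v) || !(posS w n u == posS w n v)) &&
  (List.range n).all (fun a => (List.range n).all fun b => (List.range n).all fun c =>
    (List.range n).all fun d => (List.range n).all fun e => (List.range n).all fun f =>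
      !(adjS x n a b && adjS x n c d && adjS x n e f &&
        altB (posS w n a) (posS w n b) (posS w n c) (posS w n d) &&
        altB (posS w n a) (posS w n b) (posS w n e) (posS w n f) &&
        altB (posS w n c) (posS w n d) (posS w n e) (posS w n f)))

/-- the verifier -/
def verQ (y : List Bool × List Bool) : Bool :=
  (List.range (y.1.length + 1)).any fun n => checkQ y.1 y.2 n

-- BEGIN altB_iff
theorem altB_iff (a b c d : ℕ) : altB a b c d = true ↔ Alt a b c d := by
  unfold altB Alt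
  simp only [Bool.or_eq_true, Bool.and_eq_true, decide_eq_true_eq, and_assoc]

theorem alt_comm (a b c d : ℕ) : Alt a b c d ↔ Alt c d a b := by
  unfold Alt
  omega

/-- unfolding of `ConvexQuasi 3`: the family of three edges as six vertices (`![(a,b),(c,d),(e,f)]`,
`Fin.forall_fin_succ`, symmetric by `alt_comm`) -/
theorem convexQuasi_three {V : Type} (G : SimpleGraph V) :
    ConvexQuasi 3 G ↔ ∃ p : V → ℕ, Function.Injective p ∧ ∀ a b c d e f, G.Adj a b → G.Adj c d →
      G.Adj e f → Alt (p a) (p b) (p c) (p d) → Alt (p a) (p b) (p e) (p f) →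
      Alt (p c) (p d) (p e) (p f) → False := by
  constructor
  · rintro ⟨p, hp, hno⟩
    refine ⟨p, hp, ?_⟩
    intro a b c d e f h1 h2 h3 h4 h5 h6
    apply hno
    refine ⟨![(a, b), (c, d), (e, f)], ?_, ?_⟩
    · intro i
      fin_cases i
      · exact h1
      · exact h2
      · exact h3
    · intro i j hij
      fin_cases i <;> fin_cases j
      · exact absurd rfl hij
      · exact h4
      · exact h5
      · exact (alt_comm _ _ _ _).1 h4
      · exact absurd rfl hij
      · exact h6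
      · exact (alt_comm _ _ _ _).1 h5
      · exact (alt_comm _ _ _ _).1 h6
      · exact absurd rfl hij
  · rintro ⟨p, hp, hno⟩
    refine ⟨p, hp, ?_⟩
    rintro ⟨e, he, ha⟩
    exact hno (e 0).1 (e 0).2 (e 1).1 (e 1).2 (e 2).1 (e 2).2 (he 0) (he 1) (he 2)
      (ha 0 1 (by decide)) (ha 0 2 (by decide)) (ha 1 2 (by decide))

/-- places can be chosen `< n`: replace `p v` by its rank, the number of `u` with `p u < p v`
(order preserving, so `Alt` is preserved: `Alt` only depends on the order of the four numbers; for a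
strictly monotone comparison `p' u < p' v ↔ p u < p v` rewrite `min`, `max` by cases) -/
theorem convexQuasi_rank {n : ℕ} (G : SimpleGraph (Fin n)) (h : ConvexQuasi 3 G) :
    ∃ p : Fin n → ℕ, (∀ v, p v < n) ∧ Function.Injective p ∧ ∀ a b c d e f, G.Adj a b →
      G.Adj c d → G.Adj e f → Alt (p a) (p b) (p c) (p d) → Alt (p a) (p b) (p e) (p f) →
      Alt (p c) (p d) (p e) (p f) → False := by
  classical
  obtain ⟨p, hp, hno⟩ := (convexQuasi_three G).1 h
  have hlt : ∀ v, (Finset.univ.filter fun u => p u < p v).card < n := by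
    intro v
    have h1 : (Finset.univ.filter fun u => p u < p v) ⊂ (Finset.univ : Finset (Fin n)) := by
      rw [Finset.ssubset_univ_iff]
      intro he
      have h2 : v ∈ (Finset.univ.filter fun u => p u < p v) := by
        rw [he]
        exact Finset.mem_univ v
      exact lt_irrefl _ (Finset.mem_filter.1 h2).2
    have h3 := Finset.card_lt_card h1
    rwa [Finset.card_univ, Fintype.card_fin] at h3
  have hle : ∀ u v, p u ≤ p v → (Finset.univ.filter fun w => p w < p u).card ≤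
      (Finset.univ.filter fun w => p w < p v).card := by
    intro u v huv
    apply Finset.card_le_card
    intro w hw
    exact Finset.mem_filter.2 ⟨Finset.mem_univ w, lt_of_lt_of_le (Finset.mem_filter.1 hw).2 huv⟩
  have hsl : ∀ u v, p u < p v → (Finset.univ.filter fun w => p w < p u).card <
      (Finset.univ.filter fun w => p w < p v).card := by
    intro u v huv
    apply Finset.card_lt_card
    rw [Finset.ssubset_iff_of_subset]
    · exact ⟨u, Finset.mem_filter.2 ⟨Finset.mem_univ u, huv⟩,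
        fun hu => lt_irrefl _ (Finset.mem_filter.1 hu).2⟩
    · intro w hw
      exact Finset.mem_filter.2 ⟨Finset.mem_univ w, lt_trans (Finset.mem_filter.1 hw).2 huv⟩
  have hiff : ∀ u v, (Finset.univ.filter fun w => p w < p u).card <
      (Finset.univ.filter fun w => p w < p v).card ↔ p u < p v := by
    intro u v
    constructor
    · intro h1
      by_contra h2
      have := hle v u (by omega)
      omega
    · exact hsl u v
  refine ⟨fun v => (Finset.univ.filter fun u => p u < p v).card, hlt, ?_, ?_⟩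
  · intro u v huv
    apply hp
    have h1 := hiff u v
    have h2 := hiff v u
    simp only at huv
    omega
  · intro a b c d e f h1 h2 h3 h4 h5 h6
    have hA : ∀ x y z w, Alt ((Finset.univ.filter fun u => p u < p x).card)
        ((Finset.univ.filter fun u => p u < p y).card)
        ((Finset.univ.filter fun u => p u < p z).card)
        ((Finset.univ.filter fun u => p u < p w).card) → Alt (p x) (p y) (p z) (p w) := by
      intro x y z w hxy
      have i1 := hiff x z
      have i2 := hiff z x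
      have i3 := hiff x w
      have i4 := hiff w x
      have i5 := hiff y z
      have i6 := hiff z y
      have i7 := hiff y w
      have i8 := hiff w y
      have i9 := hiff x y
      have i10 := hiff y x
      have i11 := hiff z w
      have i12 := hiff w z
      generalize (Finset.univ.filter fun u => p u < p x).card = X at *
      generalize (Finset.univ.filter fun u => p u < p y).card = Y at *
      generalize (Finset.univ.filter fun u => p u < p z).card = Z at *
      generalize (Finset.univ.filter fun u => p u < p w).card = T at *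
      unfold Alt at hxy ⊢
      omega
    exact hno a b c d e f h1 h2 h3 (hA _ _ _ _ h4) (hA _ _ _ _ h5) (hA _ _ _ _ h6)
-- END altB_iff

-- BEGIN cert_pos
/-- certificate of places `f i ≤ n`: bit `i * n + c` is `c < f i`. Model: `certS`, `colS_certS` in
`Pool/Agent/MP_709f11_lc/Verify.lean` (with `p + 1` replaced by `n`; `countP_range_lt`). -/
theorem cert_pos (n : ℕ) (f : ℕ → ℕ) (hf : ∀ i, i < n → f i ≤ n) :
    ∃ w : List Bool, w.length = n * n ∧ ∀ i, i < n → posS w n i = f i := by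
  refine ⟨List.ofFn fun k : Fin (n * n) => decide (k.val % n < f (k.val / n)), by simp, ?_⟩
  intro i hi
  unfold posS
  rw [← countP_range_lt n (f i) (hf i hi)]
  apply List.countP_congr
  intro c hc
  simp only [List.mem_range] at hc
  have hlt : i * n + c < n * n := by
    calc i * n + c < i * n + n := by omega
      _ = (i + 1) * n := by ring
      _ ≤ n * n := Nat.mul_le_mul_right _ hi
  rw [List.getD_eq_getElem?_getD, List.getElem?_ofFn]
  simp only [hlt, dif_pos, Option.getD_some]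
  have e1 : (i * n + c) % n = c := by
    rw [Nat.mul_comm, Nat.mul_add_mod, Nat.mod_eq_of_lt hc]
  have e2 : (i * n + c) / n = i := by
    rw [Nat.mul_comm, Nat.mul_add_div (by omega), Nat.div_eq_of_lt hc, Nat.add_zero]
  rw [e1, e2]
-- END cert_pos

-- BEGIN checkQ_iff
/-- Model: `checkS_iff` in `Pool/Agent/MP_709f11_lc/Verify.lean` (the graph is
`SimpleGraph.mk (fun u v => adjS x n u v = true)`, `eq_encode_iff`). -/
theorem checkQ_iff (x w : List Bool) (n : ℕ) :
    checkQ x w n = true ↔ ∃ G : SimpleGraph (Fin n), x = encodeGraph G ∧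
      (∀ u v : Fin n, posS w n u = posS w n v → u = v) ∧
      ∀ a b c d e f : Fin n, G.Adj a b → G.Adj c d → G.Adj e f →
        Alt (posS w n a) (posS w n b) (posS w n c) (posS w n d) →
        Alt (posS w n a) (posS w n b) (posS w n e) (posS w n f) →
        Alt (posS w n c) (posS w n d) (posS w n e) (posS w n f) → False := by
  unfold checkQ
  simp only [Bool.and_eq_true, Bool.or_eq_true, beq_iff_eq, List.all_eq_true, List.mem_range,
    Bool.not_eq_true', Bool.and_eq_false_iff, beq_eq_false_iff_ne]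
  constructor
  · rintro ⟨⟨⟨⟨⟨⟨h1, h2⟩, h3⟩, h4⟩, h5⟩, h6⟩, h7⟩
    let G : SimpleGraph (Fin n) :=
      { Adj := fun u v => adjS x n u v = true
        symm := ⟨fun u v h => by rw [h4 v v.isLt u u.isLt]; exact h⟩
        loopless := ⟨fun u h => by rw [h5 u u.isLt] at h; simp at h⟩ }
    have hG : ∀ u v : Fin n, G.Adj u v ↔ adjS x n u v = true := fun u v => Iff.rfl
    refine ⟨G, (eq_encode_iff G x).2 ⟨h1, h2, h3, fun u v => ?_⟩, ?_, ?_⟩
    · by_cases h : G.Adj u v
      · simp [h, (hG u v).1 h]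
      · have : adjS x n u v = false := by
          rw [← Bool.not_eq_true]; exact h
        simp [h, this]
    · intro u v huv
      rcases h6 u u.isLt v v.isLt with h | h
      · exact Fin.ext h
      · exact absurd huv h
    · intro a b c d e f hab hcd hef k1 k2 k3
      have := h7 a a.isLt b b.isLt c c.isLt d d.isLt e e.isLt f f.isLt
      rw [← altB_iff] at k1 k2 k3
      rw [(hG a b).1 hab, (hG c d).1 hcd, (hG e f).1 hef, k1, k2, k3] at this
      simp at this
  · rintro ⟨G, hx, hp, h4⟩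
    obtain ⟨h1, h2, h3, h5⟩ := (eq_encode_iff G x).1 hx
    have hG : ∀ u v : Fin n, adjS x n u v = true ↔ G.Adj u v := fun u v => by
      rw [h5]; simp
    refine ⟨⟨⟨⟨⟨⟨h1, h2⟩, h3⟩, ?_⟩, ?_⟩, ?_⟩, ?_⟩
    · intro u hu v hv
      have a1 := h5 ⟨u, hu⟩ ⟨v, hv⟩
      have a2 := h5 ⟨v, hv⟩ ⟨u, hu⟩
      simp only at a1 a2
      rw [a1, a2]
      simp [G.adj_comm]
    · intro u hu
      have a1 := h5 ⟨u, hu⟩ ⟨u, hu⟩
      simp only at a1
      rw [a1]
      simp
    · intro u hu v hv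
      by_cases huv : u = v
      · exact Or.inl huv
      · exact Or.inr fun hh => huv (congrArg Fin.val (hp ⟨u, hu⟩ ⟨v, hv⟩ hh))
    · intro a ha b hb c hc' d hd e he f hf
      by_contra hcon
      simp only [not_or, Bool.not_eq_false] at hcon
      obtain ⟨⟨⟨⟨⟨c1, c2⟩, c3⟩, c4⟩, c5⟩, c6⟩ := hcon
      rw [altB_iff] at c4 c5 c6
      exact h4 ⟨a, ha⟩ ⟨b, hb⟩ ⟨c, hc'⟩ ⟨d, hd⟩ ⟨e, he⟩ ⟨f, hf⟩ ((hG _ _).1 c1) ((hG _ _).1 c2)
        ((hG _ _).1 c3) c4 c5 c6
-- END checkQ_iff

-- BEGIN PT_checkQ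
theorem PT.altB {α : Type} [Enc α] {a b c d : α → ℕ} (ha : PT a) (hb : PT b) (hc : PT c)
    (hd : PT d) : PT (fun s => altB (a s) (b s) (c s) (d s)) := by
  unfold Pool.Agent.Cqp.altB
  have m1 := PT.min ha hb
  have m2 := PT.min hc hd
  have m3 := PT.max ha hb
  have m4 := PT.max hc hd
  exact PT.or (PT.and (PT.and (PT.lt m1 m2) (PT.lt m2 m3)) (PT.lt m3 m4))
    (PT.and (PT.and (PT.lt m2 m1) (PT.lt m1 m4)) (PT.lt m4 m3))

private theorem PT_checkQ_pos {α : Type} [Enc α] {w : α → List Bool} {n i : α → ℕ} (hw : PT w)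
    (hn : PT n) (hi : PT i) : PT (fun s => posS (w s) (n s) (i s)) :=
  PT.countR hn (PT.getD (PT.wk hw) (PT.add (PT.mul (PT.wk hi) (PT.wk hn)) PT.snd))

/-- Model: `PT.checkS` in `Pool/Agent/MP_709f11_lc/Verify.lean` (`PT.allR`, `PT.countR`, `PT.adjS`,
`PT.wk`, contexts with up to six numbers). -/
theorem PT.checkQ {α : Type} [Enc α] {x w : α → List Bool} {n : α → ℕ} (hx : PT x) (hw : PT w)
    (hn : PT n) : PT (fun s => checkQ (x s) (w s) (n s)) := by
  unfold Pool.Agent.Cqp.checkQ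
  have x1 : PT (fun s : α × ℕ => x s.1) := PT.wk hx
  have x2 : PT (fun s : (α × ℕ) × ℕ => x s.1.1) := PT.wk x1
  have x3 : PT (fun s : ((α × ℕ) × ℕ) × ℕ => x s.1.1.1) := PT.wk x2
  have x4 : PT (fun s : (((α × ℕ) × ℕ) × ℕ) × ℕ => x s.1.1.1.1) := PT.wk x3
  have x5 : PT (fun s : ((((α × ℕ) × ℕ) × ℕ) × ℕ) × ℕ => x s.1.1.1.1.1) := PT.wk x4
  have x6 : PT (fun s : (((((α × ℕ) × ℕ) × ℕ) × ℕ) × ℕ) × ℕ => x s.1.1.1.1.1.1) := PT.wk x5
  have w1 : PT (fun s : α × ℕ => w s.1) := PT.wk hw
  have w2 : PT (fun s : (α × ℕ) × ℕ => w s.1.1) := PT.wk w1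
  have w3 : PT (fun s : ((α × ℕ) × ℕ) × ℕ => w s.1.1.1) := PT.wk w2
  have w4 : PT (fun s : (((α × ℕ) × ℕ) × ℕ) × ℕ => w s.1.1.1.1) := PT.wk w3
  have w5 : PT (fun s : ((((α × ℕ) × ℕ) × ℕ) × ℕ) × ℕ => w s.1.1.1.1.1) := PT.wk w4
  have w6 : PT (fun s : (((((α × ℕ) × ℕ) × ℕ) × ℕ) × ℕ) × ℕ => w s.1.1.1.1.1.1) := PT.wk w5
  have n1 : PT (fun s : α × ℕ => n s.1) := PT.wk hn
  have n2 : PT (fun s : (α × ℕ) × ℕ => n s.1.1) := PT.wk n1
  have n3 : PT (fun s : ((α × ℕ) × ℕ) × ℕ => n s.1.1.1) := PT.wk n2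
  have n4 : PT (fun s : (((α × ℕ) × ℕ) × ℕ) × ℕ => n s.1.1.1.1) := PT.wk n3
  have n5 : PT (fun s : ((((α × ℕ) × ℕ) × ℕ) × ℕ) × ℕ => n s.1.1.1.1.1) := PT.wk n4
  have n6 : PT (fun s : (((((α × ℕ) × ℕ) × ℕ) × ℕ) × ℕ) × ℕ => n s.1.1.1.1.1.1) := PT.wk n5
  have i1 : PT (fun s : α × ℕ => s.2) := PT.snd
  have i2 : PT (fun s : (α × ℕ) × ℕ => s.1.2) := PT.wk i1
  have i3 : PT (fun s : ((α × ℕ) × ℕ) × ℕ => s.1.1.2) := PT.wk i2
  have i4 : PT (fun s : (((α × ℕ) × ℕ) × ℕ) × ℕ => s.1.1.1.2) := PT.wk i3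
  have i5 : PT (fun s : ((((α × ℕ) × ℕ) × ℕ) × ℕ) × ℕ => s.1.1.1.1.2) := PT.wk i4
  have i6 : PT (fun s : (((((α × ℕ) × ℕ) × ℕ) × ℕ) × ℕ) × ℕ => s.1.1.1.1.1.2) := PT.wk i5
  have j2 : PT (fun s : (α × ℕ) × ℕ => s.2) := PT.snd
  have j3 : PT (fun s : ((α × ℕ) × ℕ) × ℕ => s.1.2) := PT.wk j2
  have j4 : PT (fun s : (((α × ℕ) × ℕ) × ℕ) × ℕ => s.1.1.2) := PT.wk j3
  have j5 : PT (fun s : ((((α × ℕ) × ℕ) × ℕ) × ℕ) × ℕ => s.1.1.1.2) := PT.wk j4
  have j6 : PT (fun s : (((((α × ℕ) × ℕ) × ℕ) × ℕ) × ℕ) × ℕ => s.1.1.1.1.2) := PT.wk j5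
  have k3 : PT (fun s : ((α × ℕ) × ℕ) × ℕ => s.2) := PT.snd
  have k4 : PT (fun s : (((α × ℕ) × ℕ) × ℕ) × ℕ => s.1.2) := PT.wk k3
  have k5 : PT (fun s : ((((α × ℕ) × ℕ) × ℕ) × ℕ) × ℕ => s.1.1.2) := PT.wk k4
  have k6 : PT (fun s : (((((α × ℕ) × ℕ) × ℕ) × ℕ) × ℕ) × ℕ => s.1.1.1.2) := PT.wk k5
  have l4 : PT (fun s : (((α × ℕ) × ℕ) × ℕ) × ℕ => s.2) := PT.snd
  have l5 : PT (fun s : ((((α × ℕ) × ℕ) × ℕ) × ℕ) × ℕ => s.1.2) := PT.wk l4
  have l6 : PT (fun s : (((((α × ℕ) × ℕ) × ℕ) × ℕ) × ℕ) × ℕ => s.1.1.2) := PT.wk l5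
  have e5 : PT (fun s : ((((α × ℕ) × ℕ) × ℕ) × ℕ) × ℕ => s.2) := PT.snd
  have e6 : PT (fun s : (((((α × ℕ) × ℕ) × ℕ) × ℕ) × ℕ) × ℕ => s.1.2) := PT.wk e5
  have f6 : PT (fun s : (((((α × ℕ) × ℕ) × ℕ) × ℕ) × ℕ) × ℕ => s.2) := PT.snd
  refine PT.and (PT.and (PT.and (PT.and (PT.and (PT.and ?_ ?_) ?_) ?_) ?_) ?_) ?_
  · exact PT.beq (PT.length hx) (PT.add (PT.succ hn) (PT.mul hn hn))
  · exact PT.allR hn (PT.getD x1 i1)
  · exact PT.not (PT.getD hx hn)
  · exact PT.allR hn (PT.allR n1 (PT.beqBool (PT.adjS x2 n2 i2 j2) (PT.adjS x2 n2 j2 i2)))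
  · exact PT.allR hn (PT.not (PT.adjS x1 n1 i1 i1))
  · exact PT.allR hn (PT.allR n1 (PT.or (PT.beq i2 j2)
      (PT.not (PT.beq (PT_checkQ_pos w2 n2 i2) (PT_checkQ_pos w2 n2 j2)))))
  · refine PT.allR hn (PT.allR n1 (PT.allR n2 (PT.allR n3 (PT.allR n4 (PT.allR n5 (PT.not ?_))))))
    have pa := PT_checkQ_pos w6 n6 i6
    have pb := PT_checkQ_pos w6 n6 j6
    have pc := PT_checkQ_pos w6 n6 k6
    have pd := PT_checkQ_pos w6 n6 l6
    have pe := PT_checkQ_pos w6 n6 e6
    have pf := PT_checkQ_pos w6 n6 f6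
    exact PT.and (PT.and (PT.and (PT.and (PT.and (PT.adjS x6 n6 i6 j6) (PT.adjS x6 n6 k6 l6))
      (PT.adjS x6 n6 e6 f6)) (PT.altB pa pb pc pd)) (PT.altB pa pb pe pf)) (PT.altB pc pd pe pf)
-- END PT_checkQ

-- BEGIN inNP
/-- Model: `inNP_starProblem` in `Pool/Agent/MP_709f11_lc/Verify.lean`; polynomial `X * X` for the
length of the certificate (`n * n ≤ x.length * x.length`). Use `convexQuasi_rank`,
`convexQuasi_three`, `cert_pos`, `checkQ_iff`. -/
theorem inNP_convex : InNP (convexProblem 3) := by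
  have hV : PT verQ := PT.anyR (PT.succ (PT.length PT.fst))
    (PT.checkQ (PT.fst' PT.fst) (PT.snd' PT.fst) PT.snd)
  refine ⟨verQ, Polynomial.X * Polynomial.X, PT.verifier hV, fun x => ?_⟩
  constructor
  · rintro ⟨n, G, hx, hq⟩
    have hlen := ((eq_encode_iff G x).1 hx).1
    obtain ⟨p, hp, hinj, hcr⟩ := convexQuasi_rank G hq
    obtain ⟨w, hwl, hw⟩ := cert_pos n (fun i => if h : i < n then p ⟨i, h⟩ else 0) (by
      intro i hi
      simp only [hi, dif_pos]
      exact (hp ⟨i, hi⟩).le)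
    have hpos : ∀ i : Fin n, posS w n i = p i := by
      intro i
      rw [hw i i.isLt]
      simp
    refine ⟨w, ?_, ?_⟩
    · rw [hwl, Polynomial.eval_mul, Polynomial.eval_X]
      exact Nat.mul_le_mul (by omega) (by omega)
    · unfold verQ
      rw [List.any_eq_true]
      refine ⟨n, ?_, ?_⟩
      · rw [List.mem_range]
        simp only
        omega
      · rw [checkQ_iff]
        refine ⟨G, hx, ?_, ?_⟩
        · intro u v huv
          rw [hpos, hpos] at huv
          exact hinj huv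
        · intro a b c d e f
          rw [hpos, hpos, hpos, hpos, hpos, hpos]
          exact hcr a b c d e f
  · rintro ⟨w, -, hw⟩
    unfold verQ at hw
    rw [List.any_eq_true] at hw
    obtain ⟨n, -, hn⟩ := hw
    rw [checkQ_iff] at hn
    obtain ⟨G, h1, h2, h3⟩ := hn
    refine ⟨n, G, h1, ?_⟩
    rw [convexQuasi_three]
    exact ⟨fun v => posS w n v, fun u v huv => h2 u v huv, h3⟩
-- END inNP

end Pool.Agent.Cqp
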