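import Mathlib
import Pool.Agent.Cqp.Pot
import Pool.Agent.Cqp.Comp
import Pool.Agent.Cqp.ColDB
import Pool.Agent.Cqp.Poly
import Pool.Agent.Cqp.Ver

set_option autoImplicit false

/-!
# NP-hardness: assembly
-/

namespace Pool.Agent.Cqp

open Pool.NPC Pool.Agent.MP_709f11_lc

/-- the code of the vertex with number `u` -/
def cdN (P u : ℕ) : Cd := (u % 6, u / 6 % P, u / 6 / P)

theorem cdN_inj (P : ℕ) : Function.Injective (cdN P) := by
  intro u v h
  simp only [cdN, Prod.mk.injEq] at h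
  obtain ⟨h1, h2, h3⟩ := h
  have e : u / 6 = v / 6 := by
    rw [← Nat.div_add_mod (u / 6) P, ← Nat.div_add_mod (v / 6) P, h2, h3]
  omega

theorem cdN_surj (P : ℕ) (x : Cd) (h1 : x.1 < 6) (h2 : x.2.1 < P) (h3 : x.2.2 < P) :
    ∃ u, u < 6 * (P * P) ∧ cdN P u = x := by
  obtain ⟨a, b, c⟩ := x
  simp only at h1 h2 h3
  refine ⟨6 * (P * c + b) + a, ?_, ?_⟩
  · have : P * c + b < P * P := by
      calc P * c + b < P * c + P := by omega
        _ = P * (c + 1) := by ring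
        _ ≤ P * P := Nat.mul_le_mul_left _ h3
    omega
  · have e1 : (6 * (P * c + b) + a) / 6 = P * c + b := by omega
    have e2 : (6 * (P * c + b) + a) % 6 = a := by omega
    simp only [cdN, e1, e2]
    rw [Nat.mul_add_mod, Nat.mod_eq_of_lt h2, Nat.mul_add_div (by omega), Nat.div_eq_of_lt h2]
    rfl

/-- a convex drawing of the finite graph gives a drawing of the graph on codes -/
theorem dr_of_convex {G : SimpleGraph Cd} {n : ℕ} (cd : Fin n → Cd)
    (hcd : Function.Injective cd) (hr : ∀ x y, G.Adj x y → x ∈ Set.range cd)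
    (h : ConvexQuasi 3 (G.comap cd)) : ∃ p L, Dr G (Set.range cd) p L := by
  classical
  obtain ⟨p, hp, hn⟩ := (convexQuasi_three _).1 h
  let g : Cd → ℕ := fun x => if hx : ∃ u, cd u = x then p hx.choose else 0
  have hg : ∀ u, g (cd u) = p u := by
    intro u
    have hx : ∃ v, cd v = cd u := ⟨u, rfl⟩
    show (if hx : ∃ v, cd v = cd u then p hx.choose else 0) = p u
    rw [dif_pos hx, hcd hx.choose_spec]
  refine ⟨g, (Finset.univ.sup p) + 1, hr, ?_, ?_, ?_⟩
  · rintro _ ⟨u, rfl⟩ _ ⟨v, rfl⟩ huv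
    rw [hg, hg] at huv
    rw [hp huv]
  · rintro _ ⟨u, rfl⟩
    rw [hg]
    exact Nat.lt_succ_of_le (Finset.le_sup (f := p) (Finset.mem_univ u))
  · rintro x y x' y' x'' y'' ⟨a, b, hab, rfl, rfl⟩ ⟨c, d, hcd', rfl, rfl⟩ ⟨e, f, hef, rfl, rfl⟩ k1 k2 k3
    obtain ⟨a, rfl⟩ := hr _ _ hab
    obtain ⟨b, rfl⟩ := hr _ _ hab.symm
    obtain ⟨c, rfl⟩ := hr _ _ hcd'
    obtain ⟨d, rfl⟩ := hr _ _ hcd'.symm
    obtain ⟨e, rfl⟩ := hr _ _ hef
    obtain ⟨f, rfl⟩ := hr _ _ hef.symm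
    simp only [hg] at k1 k2 k3
    exact hn a b c d e f hab hcd' hef k1 k2 k3

/-- number of the zones -/
def nZ (n : ℕ) : ℕ := Mn n * Mn n

/-- number of codes in the second and third component -/
def nP (n : ℕ) : ℕ := mw (nZ n) + Mn n + (8 * n + 1) + 1

/-- the graph of the reduction for the graph `adj` on `0, ..., n - 1` -/
def GI (n : ℕ) (adj : ℕ → ℕ → Bool) : SimpleGraph Cd :=
  Gr (nZ n) (Mn n) (8 * n + 1) (j1 n) (j2 n) (fun k => cq (j1 n k) (j2 n k))
    (fun k => ca n adj (j1 n k) (j2 n k))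

theorem ep_range {N M Q : ℕ} {i1 i2 q : ℕ → ℕ} {act : ℕ → Bool} {x y : Cd}
    (h : EP N M Q i1 i2 q act x y) :
    (x.1 < 6 ∧ x.2.1 < mw N + M + Q + 1 ∧ x.2.2 < mw N + M + Q + 1) ∧
      (y.1 < 6 ∧ y.2.1 < mw N + M + Q + 1 ∧ y.2.2 < mw N + M + Q + 1) := by
  unfold EP at h
  unfold mw d0 at *
  omega

theorem gi_range (n : ℕ) (adj : ℕ → ℕ → Bool) (x y : Cd) (h : (GI n adj).Adj x y) :
    x ∈ Set.range (fun u : Fin (6 * (nP n * nP n)) => cdN (nP n) u) := by
  have h' : x.1 < 6 ∧ x.2.1 < nP n ∧ x.2.2 < nP n := by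
    rcases h with h | h
    · exact (ep_range h).1
    · exact (ep_range h).2
  obtain ⟨u, hu, e⟩ := cdN_surj (nP n) x h'.1 h'.2.1 h'.2.2
  exact ⟨⟨u, hu⟩, e⟩

theorem cdFin_inj (n : ℕ) :
    Function.Injective (fun u : Fin (6 * (nP n * nP n)) => cdN (nP n) u) := by
  intro u v h
  exact Fin.ext (cdN_inj _ h)

theorem nZ_pos (n : ℕ) : 1 ≤ nZ n := by
  unfold nZ Mn
  exact Nat.mul_pos (by omega) (by omega)

/-- the reduction is correct -/
theorem red_iff (n : ℕ) (adj : ℕ → ℕ → Bool) :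
    ConvexQuasi 3 ((GI n adj).comap (fun u : Fin (6 * (nP n * nP n)) => cdN (nP n) u)) ↔
      ∃ col : ℕ → ℕ, (∀ u, col u < 3) ∧
        ∀ u v, u < n → v < n → adj u v = true → col u ≠ col v := by
  constructor
  · intro h
    obtain ⟨p, L, hd⟩ := dr_of_convex _ (cdFin_inj n) (gi_range n adj) h
    have hdb := sound (nZ_pos n) hd (fun k _ _ hact => by
      obtain ⟨h1, h2, h3, h4, h5⟩ := ca_range n adj _ _ hact
      exact ⟨h1, h2, h4, by omega⟩)
    obtain ⟨π, hπ⟩ := (bd_iff n adj).1 hdb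
    exact col_of_bd hπ
  · rintro ⟨col, hc, h⟩
    obtain ⟨π, k1, k2, k3⟩ := (bd_iff n adj).2 (bd_of_col n adj col hc h)
    refine complete (π := π) ⟨by omega, k1, k2, ?_, ?_⟩ (nZ_pos n) _ (cdFin_inj n)
    · intro k h1 h2
      unfold j1
      refine Nat.div_lt_of_lt_mul ?_
      unfold nZ at h2
      omega
    · intro k h1 h2 hact
      obtain ⟨a1, a2, a3, a4, a5⟩ := ca_range n adj _ _ hact
      obtain ⟨b1, b2⟩ := k3 k h1 h2 hact
      exact ⟨a2, a3, a4, by omega, b1, b2⟩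

section

variable {α : Type} [Enc α]

/-- adjacency matrix strings of polynomial time families are polynomial time -/
theorem PT.encodeMat {n : α → ℕ} {A : α × (ℕ × ℕ) → Bool} (hn : PT n) (hA : PT A) :
    PT (fun a => List.replicate (n a) true ++ false :: List.ofFn fun i : Fin (n a * n a) =>
      A (a, ((i.divNat : ℕ), (i.modNat : ℕ)))) := by
  have h1 : PT (fun a => List.replicate (n a) true ++ (false ::
      (List.range (n a * n a)).flatMap fun i => [A (a, (i / n a, i % n a))])) := by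
    refine PT.append (PT.replicate hn) (PT.cons (PT.const false)
      (PT.flatMap (g := fun x => [A (x.1, (x.2 / n x.1, x.2 % n x.1))]) (PT.mul hn hn) ?_))
    have ha : PT (fun x : α × ℕ => x.1) := PT.fst
    have hi : PT (fun x : α × ℕ => x.2) := PT.snd
    have hna := PT.comp hn ha
    exact PT.cons (PT.comp hA (PT.pair ha (PT.pair (PT.div hi hna) (PT.mod hi hna))))
      (PT.const [])
  refine h1.congr fun a => ?_
  congr 2
  rw [← List.map_eq_flatMap]
  apply List.ext_getElem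
  · simp
  · intro i h1 h2
    simp [Fin.divNat, Fin.modNat]

end

/-- the encoding determines the graph -/
theorem encodeGraph_inj {n n' : ℕ} {G : SimpleGraph (Fin n)} {G' : SimpleGraph (Fin n')}
    (h : encodeGraph G = encodeGraph G') : ∃ e : n = n', e ▸ G = G' := by
  classical
  obtain ⟨h1, -, -, h4⟩ := (eq_encode_iff G _).1 rfl
  obtain ⟨k1, -, -, k4⟩ := (eq_encode_iff G' _).1 rfl
  have hn : n = n' := by
    rw [h, k1] at h1
    rcases lt_trichotomy n n' with hlt | heq | hgt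
    · have := Nat.mul_self_lt_mul_self hlt
      omega
    · exact heq
    · have := Nat.mul_self_lt_mul_self hgt
      omega
  subst hn
  refine ⟨rfl, ?_⟩
  show G = G'
  ext u v
  have := h4 u v
  rw [h, k4] at this
  simpa using this.symm

theorem encodeGraph_mem_iff (k : ℕ) {n : ℕ} (G : SimpleGraph (Fin n)) :
    encodeGraph G ∈ convexProblem k ↔ ConvexQuasi k G := by
  constructor
  · rintro ⟨n', G', h1, h2⟩
    obtain ⟨e, he⟩ := encodeGraph_inj h1
    subst e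
    have he' : G = G' := he
    rw [he']
    exact h2
  · intro h
    exact ⟨n, G, rfl, h⟩

/-- the adjacency of the reduction graph as a Boolean function of numbers -/
def gB (n : ℕ) (adj : ℕ → ℕ → Bool) (u v : ℕ) : Bool :=
  epB (nZ n) (Mn n) (8 * n + 1) (j1 n) (j2 n) (fun k => cq (j1 n k) (j2 n k))
    (fun k => ca n adj (j1 n k) (j2 n k)) (u % 6) (u / 6 % nP n) (u / 6 / nP n) (v % 6)
    (v / 6 % nP n) (v / 6 / nP n) ||
  epB (nZ n) (Mn n) (8 * n + 1) (j1 n) (j2 n) (fun k => cq (j1 n k) (j2 n k))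
    (fun k => ca n adj (j1 n k) (j2 n k)) (v % 6) (v / 6 % nP n) (v / 6 / nP n) (u % 6)
    (u / 6 % nP n) (u / 6 / nP n)

theorem gB_iff (n : ℕ) (adj : ℕ → ℕ → Bool) (u v : ℕ) :
    gB n adj u v = true ↔ (GI n adj).Adj (cdN (nP n) u) (cdN (nP n) v) := by
  unfold gB
  rw [Bool.or_eq_true]
  exact or_congr
    (epB_iff (nZ n) (Mn n) (8 * n + 1) (j1 n) (j2 n) (fun k => cq (j1 n k) (j2 n k))
      (fun k => ca n adj (j1 n k) (j2 n k)) (cdN (nP n) u) (cdN (nP n) v))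
    (epB_iff (nZ n) (Mn n) (8 * n + 1) (j1 n) (j2 n) (fun k => cq (j1 n k) (j2 n k))
      (fun k => ca n adj (j1 n k) (j2 n k)) (cdN (nP n) v) (cdN (nP n) u))

theorem PT.Mn {α : Type} [Enc α] {n : α → ℕ} (hn : PT n) : PT (fun s => Mn (n s)) :=
  PT.succ (PT.mul (PT.const 8) hn)

theorem PT.nZ {α : Type} [Enc α] {n : α → ℕ} (hn : PT n) : PT (fun s => nZ (n s)) :=
  PT.mul (PT.Mn hn) (PT.Mn hn)

theorem PT.nP {α : Type} [Enc α] {n : α → ℕ} (hn : PT n) : PT (fun s => nP (n s)) :=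
  PT.succ (PT.add (PT.add (PT.add (PT.mul (PT.const 5) (PT.nZ hn)) (PT.const 7)) (PT.Mn hn))
    (PT.succ (PT.mul (PT.const 8) hn)))

theorem PT.gB {α : Type} [Enc α] {n u v : α → ℕ} {adj : α → ℕ → ℕ → Bool} (hn : PT n)
    (hu : PT u) (hv : PT v)
    (hadj : ∀ {f g : α → ℕ}, PT f → PT g → PT (fun s => adj s (f s) (g s))) :
    PT (fun s => gB (n s) (adj s) (u s) (v s)) := by
  have c6 : ∀ {f : α → ℕ}, PT f → PT (fun s => f s % 6) := fun hf => PT.mod hf (PT.const 6)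
  have d6 : ∀ {f : α → ℕ}, PT f → PT (fun s => f s / 6) := fun hf => PT.div hf (PT.const 6)
  have dm : ∀ {f : α → ℕ}, PT f → PT (fun s => f s / 6 % Cqp.nP (n s)) := fun hf =>
    PT.mod (d6 hf) (PT.nP hn)
  have dd : ∀ {f : α → ℕ}, PT f → PT (fun s => f s / 6 / Cqp.nP (n s)) := fun hf =>
    PT.div (d6 hf) (PT.nP hn)
  have hj1 : ∀ {f : α → ℕ}, PT f → PT (fun s => Cqp.j1 (n s) (f s)) := fun hf => PT.j1 hn hf
  have hj2 : ∀ {f : α → ℕ}, PT f → PT (fun s => Cqp.j2 (n s) (f s)) := fun hf => PT.j2 hn hf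
  have hq : ∀ {f : α → ℕ}, PT f →
      PT (fun s => Cqp.cq (Cqp.j1 (n s) (f s)) (Cqp.j2 (n s) (f s))) := fun hf =>
    PT.cq (hj1 hf) (hj2 hf)
  have hact : ∀ {f : α → ℕ}, PT f →
      PT (fun s => Cqp.ca (n s) (adj s) (Cqp.j1 (n s) (f s)) (Cqp.j2 (n s) (f s))) := fun hf =>
    PT.ca hn (hj1 hf) (hj2 hf) hadj
  have h8 : PT (fun s => 8 * n s + 1) := PT.succ (PT.mul (PT.const 8) hn)
  exact PT.or
    (PT.epB (i1 := fun s => Cqp.j1 (n s)) (i2 := fun s => Cqp.j2 (n s))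
      (q := fun s k => Cqp.cq (Cqp.j1 (n s) k) (Cqp.j2 (n s) k))
      (act := fun s k => Cqp.ca (n s) (adj s) (Cqp.j1 (n s) k) (Cqp.j2 (n s) k))
      (PT.nZ hn) (PT.Mn hn) h8 (c6 hu) (dm hu) (dd hu) (c6 hv) (dm hv) (dd hv) hj1 hj2 hq hact)
    (PT.epB (i1 := fun s => Cqp.j1 (n s)) (i2 := fun s => Cqp.j2 (n s))
      (q := fun s k => Cqp.cq (Cqp.j1 (n s) k) (Cqp.j2 (n s) k))
      (act := fun s k => Cqp.ca (n s) (adj s) (Cqp.j1 (n s) k) (Cqp.j2 (n s) k))
      (PT.nZ hn) (PT.Mn hn) h8 (c6 hv) (dm hv) (dd hv) (c6 hu) (dm hu) (dd hu) hj1 hj2 hq hact)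

/-- convex 3-quasi-planarity is NP-hard -/
theorem npHard_convex : NPHard (convexProblem 3) := by
  classical
  intro L hL
  obtain ⟨n, adj, hn, hadj, hsymm, hirr, hlt, hcorr⟩ := colFamily 3 (le_refl 3) L hL
  let N : List Bool → ℕ := fun s => 6 * (nP (n s) * nP (n s))
  have hN : PT N := PT.mul (PT.const 6) (PT.mul (PT.nP hn) (PT.nP hn))
  let a : List Bool × (ℕ × ℕ) → Bool := fun y =>
    gB (n y.1) (fun u v => adj (y.1, (u, v))) y.2.1 y.2.2
  have ha : PT a := by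
    have hs : PT (fun y : List Bool × (ℕ × ℕ) => y.1) := PT.fst
    exact PT.gB (n := fun y : List Bool × (ℕ × ℕ) => n y.1)
      (u := fun y : List Bool × (ℕ × ℕ) => y.2.1) (v := fun y : List Bool × (ℕ × ℕ) => y.2.2)
      (adj := fun (y : List Bool × (ℕ × ℕ)) u v => adj (y.1, (u, v))) (PT.comp hn hs)
      (PT.fst' PT.snd) (PT.snd' PT.snd)
      (fun hf hg => PT.comp hadj (PT.pair hs (PT.pair hf hg)))
  refine ⟨_, (PT.encodeMat hN ha).polyTime, fun s => ?_⟩
  let G : SimpleGraph (Fin (N s)) :=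
    (GI (n s) (fun u v => adj (s, (u, v)))).comap (fun u : Fin (N s) => cdN (nP (n s)) u)
  have hG : ∀ (u v : Fin (N s)) [Decidable (G.Adj u v)],
      decide (G.Adj u v) = a (s, ((u : ℕ), (v : ℕ))) := by
    intro u v _
    have h2 : G.Adj u v ↔ a (s, ((u : ℕ), (v : ℕ))) = true :=
      (gB_iff (n s) (fun u v => adj (s, (u, v))) u v).symm
    by_cases h : G.Adj u v
    · simp [h, h2.1 h]
    · have h3 : a (s, ((u : ℕ), (v : ℕ))) = false := by
        rw [← Bool.not_eq_true]; exact fun h' => h (h2.2 h')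
      simp [h, h3]
  have e : (List.replicate (N s) true ++ false :: List.ofFn fun i : Fin (N s * N s) =>
      a (s, ((i.divNat : ℕ), (i.modNat : ℕ)))) = encodeGraph G := by
    unfold encodeGraph
    simp only [hG]
  rw [e, encodeGraph_mem_iff, hcorr s]
  rw [show ConvexQuasi 3 G ↔ _ from red_iff (n s) (fun u v => adj (s, (u, v)))]
  constructor
  · rintro ⟨col, hcol⟩
    refine ⟨fun u => (col u).val, fun u => (col u).isLt, fun u v _ _ h h' => ?_⟩
    exact hcol u v h (Fin.ext h')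
  · rintro ⟨col, hc, h⟩
    refine ⟨fun u => ⟨col u, hc u⟩, fun u v huv h' => ?_⟩
    have h1 := hlt s u v huv
    have h2 : v < n s := by rw [hsymm] at huv; exact hlt s v u huv
    exact h u v h1 h2 huv (by simpa using h')

end Pool.Agent.Cqp
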