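import Mathlib

set_option autoImplicit false

/-!
# Outer `k`-quasi-plane drawings: all vertices on a line, edges are Jordan arcs on one side of it
-/

namespace Pool.Agent.Cqp

open Set

/-- A drawing of `G` in the closed upper half-plane with all vertices on the boundary line: the
vertex `v` is the point `(p v, 0)`, the edge `e` is the arc `c e` (parametrised by `[0, 1]`), a
Jordan arc between its two ends whose inner points are above the line (so it passes through no other
vertex), and any two arcs meet in finitely many points. -/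
structure HalfPlaneDrawing {V : Type*} (G : SimpleGraph V) (p : V → ℝ)
    (c : Sym2 V → ℝ → ℝ × ℝ) : Prop where
  inj : Function.Injective p
  cont : ∀ e ∈ G.edgeSet, ContinuousOn (c e) (Icc 0 1)
  arc : ∀ e ∈ G.edgeSet, InjOn (c e) (Icc 0 1)
  ends : ∀ a b, G.Adj a b → (c s(a, b) 0 = (p a, 0) ∧ c s(a, b) 1 = (p b, 0)) ∨
    (c s(a, b) 0 = (p b, 0) ∧ c s(a, b) 1 = (p a, 0))
  above : ∀ e ∈ G.edgeSet, ∀ t ∈ Ioo (0 : ℝ) 1, 0 < (c e t).2
  fin : ∀ e ∈ G.edgeSet, ∀ f ∈ G.edgeSet, e ≠ f → (c e '' Icc 0 1 ∩ c f '' Icc 0 1).Finite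

/-- two arcs cross: they have a common inner point -/
def Meet (γ δ : ℝ → ℝ × ℝ) : Prop := ∃ s ∈ Ioo (0 : ℝ) 1, ∃ t ∈ Ioo (0 : ℝ) 1, γ s = δ t

/-- `G` has a `k`-quasi-plane drawing in a half-plane with all vertices on the boundary line: no
`k` distinct edges cross pairwise -/
def HalfPlaneQuasi {V : Type*} (k : ℕ) (G : SimpleGraph V) : Prop :=
  ∃ (p : V → ℝ) (c : Sym2 V → ℝ → ℝ × ℝ), HalfPlaneDrawing G p c ∧
    ¬ ∃ e : Fin k → Sym2 V, Function.Injective e ∧ (∀ i, e i ∈ G.edgeSet) ∧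
      ∀ i j, i ≠ j → Meet (c (e i)) (c (e j))

end Pool.Agent.Cqp
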