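import Mathlib
import Pool.Agent.Cqp.Defs
import Pool.Agent.Cqp.Outer
import Pool.Agent.Gap.Cube

set_option autoImplicit false

/-!
# Drawings in a half-plane with all vertices on its boundary line

Edges are arbitrary Jordan arcs. It is shown that such drawings without `k` pairwise crossing edges
exist exactly for the graphs with a convex drawing without `k` pairwise crossing edges.
-/

namespace Pool.Agent.Cqp

open Set

-- BEGIN pm2
private theorem pm2_eps (f g : ℝ → ℝ → ℝ) (hf : Continuous fun z : ℝ × ℝ => f z.1 z.2)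
    (hg : Continuous fun z : ℝ × ℝ => g z.1 z.2)
    (f0 : ∀ y ∈ Icc (0 : ℝ) 1, f 0 y ≤ 0) (f1 : ∀ y ∈ Icc (0 : ℝ) 1, 0 ≤ f 1 y)
    (g0 : ∀ x ∈ Icc (0 : ℝ) 1, g x 0 ≤ 0) (g1 : ∀ x ∈ Icc (0 : ℝ) 1, 0 ≤ g x 1)
    (ε : ℝ) (hε : 0 < ε) :
    ∃ z : Fin 2 → unitInterval, |f (z 0) (z 1)| ≤ ε ∧ |g (z 0) (z 1)| ≤ ε := by
  let F : Fin 2 → (Fin 2 → unitInterval) → ℝ := fun i z =>
    (if i = 0 then f (z 0) (z 1) else g (z 0) (z 1)) + ε * (2 * (z i : ℝ) - 1)
  have hz : Continuous fun z : Fin 2 → unitInterval => (((z 0 : unitInterval) : ℝ),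
      ((z 1 : unitInterval) : ℝ)) := by fun_prop
  have hF : ∀ i, Continuous (F i) := by
    intro i
    have h2 : Continuous fun z : Fin 2 → unitInterval => ε * (2 * (z i : ℝ) - 1) := by fun_prop
    by_cases h : i = 0
    · have h3 : F i = fun z => f (z 0) (z 1) + ε * (2 * (z i : ℝ) - 1) := by
        funext z
        simp only [F, if_pos h]
      rw [h3]
      exact (hf.comp hz).add h2
    · have h3 : F i = fun z => g (z 0) (z 1) + ε * (2 * (z i : ℝ) - 1) := by
        funext z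
        simp only [F, if_neg h]
      rw [h3]
      exact (hg.comp hz).add h2
  have hlow : ∀ i z, z i = 0 → F i z < 0 := by
    intro i z h
    have h1 : (z i : ℝ) = 0 := by rw [h]; rfl
    fin_cases i
    · have h2 := f0 (z 1) (z 1).2
      have h3 : F 0 z = f (z 0) (z 1) + ε * (2 * (z 0 : ℝ) - 1) := rfl
      change F 0 z < 0
      have h4 : (z 0 : ℝ) = 0 := h1
      rw [h3, h4]
      linarith
    · have h2 := g0 (z 0) (z 0).2
      have h3 : F 1 z = g (z 0) (z 1) + ε * (2 * (z 1 : ℝ) - 1) := rfl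
      change F 1 z < 0
      have h4 : (z 1 : ℝ) = 0 := h1
      rw [h3, h4]
      linarith
  have hhigh : ∀ i z, z i = 1 → 0 < F i z := by
    intro i z h
    have h1 : (z i : ℝ) = 1 := by rw [h]; rfl
    fin_cases i
    · have h2 := f1 (z 1) (z 1).2
      have h3 : F 0 z = f (z 0) (z 1) + ε * (2 * (z 0 : ℝ) - 1) := rfl
      change 0 < F 0 z
      have h4 : (z 0 : ℝ) = 1 := h1
      rw [h3, h4]
      linarith
    · have h2 := g1 (z 0) (z 0).2
      have h3 : F 1 z = g (z 0) (z 1) + ε * (2 * (z 1 : ℝ) - 1) := rfl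
      change 0 < F 1 z
      have h4 : (z 1 : ℝ) = 1 := h1
      rw [h3, h4]
      linarith
  obtain ⟨z, hz0⟩ := Pool.Agent.Gap.cube (Fin 2) (fun i => {z | F i z < 0})
    (fun i => {z | 0 < F i z}) (fun i => isOpen_lt (hF i) continuous_const)
    (fun i => isOpen_lt continuous_const (hF i))
    (fun i => Set.disjoint_left.2 fun z (h1 : F i z < 0) (h2 : 0 < F i z) => lt_asymm h1 h2)
    hlow hhigh
  have hzero : ∀ i, F i z = 0 := fun i =>
    le_antisymm (not_lt.1 (hz0 i).2) (not_lt.1 (hz0 i).1)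
  have h0 : f (z 0) (z 1) + ε * (2 * (z 0 : ℝ) - 1) = 0 := hzero 0
  have h1 : g (z 0) (z 1) + ε * (2 * (z 1 : ℝ) - 1) = 0 := hzero 1
  have a0 := (z 0).2.1
  have a1 := (z 0).2.2
  have b0 := (z 1).2.1
  have b1 := (z 1).2.2
  refine ⟨z, ?_, ?_⟩
  · rw [abs_le]
    constructor <;> nlinarith
  · rw [abs_le]
    constructor <;> nlinarith

/-- Poincare-Miranda in the unit square. Proof: `Pool.Agent.Gap.cube (Fin 2)` with
`U 0 = {z | f z < 0}`, `V 0 = {z | 0 < f z}` etc. if the boundary inequalities are strict; in general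
apply this to `f n z = f z + (2 * z 0 - 1) / (n + 1)`, `g n` similarly (with the sign making the
boundary inequalities strict) and use compactness of the square for a limit of the zeros (a
convergent subsequence, `isCompact_univ.tendsto_subseq`; or: the continuous function `|f| + |g|` has a
minimum, which is `0` as it is `≤ 2/(n+1)` at the zero of `(f n, g n)`). Coordinates: points of
`Fin 2 → unitInterval`; translate to `ℝ × ℝ` by `z ↦ ((z 0 : ℝ), (z 1 : ℝ))`. -/
theorem pm2 (f g : ℝ → ℝ → ℝ) (hf : Continuous fun z : ℝ × ℝ => f z.1 z.2)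
    (hg : Continuous fun z : ℝ × ℝ => g z.1 z.2)
    (f0 : ∀ y ∈ Icc (0 : ℝ) 1, f 0 y ≤ 0) (f1 : ∀ y ∈ Icc (0 : ℝ) 1, 0 ≤ f 1 y)
    (g0 : ∀ x ∈ Icc (0 : ℝ) 1, g x 0 ≤ 0) (g1 : ∀ x ∈ Icc (0 : ℝ) 1, 0 ≤ g x 1) :
    ∃ x ∈ Icc (0 : ℝ) 1, ∃ y ∈ Icc (0 : ℝ) 1, f x y = 0 ∧ g x y = 0 := by
  have hz : Continuous fun z : Fin 2 → unitInterval => (((z 0 : unitInterval) : ℝ),
      ((z 1 : unitInterval) : ℝ)) := by fun_prop
  have hφ : Continuous fun z : Fin 2 → unitInterval => |f (z 0) (z 1)| + |g (z 0) (z 1)| :=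
    ((hf.comp hz).abs).add ((hg.comp hz).abs)
  obtain ⟨w, -, hw⟩ := isCompact_univ.exists_isMinOn
    (⟨fun _ => 0, mem_univ _⟩ : (univ : Set (Fin 2 → unitInterval)).Nonempty) hφ.continuousOn
  have hle : |f (w 0) (w 1)| + |g (w 0) (w 1)| ≤ 0 := by
    refine le_of_forall_pos_le_add fun ε hε => ?_
    obtain ⟨z, h1, h2⟩ := pm2_eps f g hf hg f0 f1 g0 g1 (ε / 2) (half_pos hε)
    have h3 : |f (w 0) (w 1)| + |g (w 0) (w 1)| ≤ |f (z 0) (z 1)| + |g (z 0) (z 1)| :=
      hw (mem_univ z)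
    linarith
  have h1 := abs_nonneg (f (w 0) (w 1))
  have h2 := abs_nonneg (g (w 0) (w 1))
  refine ⟨w 0, (w 0).2, w 1, (w 1).2, abs_eq_zero.1 ?_, abs_eq_zero.1 ?_⟩ <;> linarith

/-- The same on a rectangle: substitute `x = a + (b - a) x'`, `y = c + (d - c) y'`. -/
theorem pmr (a b c d : ℝ) (hab : a < b) (hcd : c < d) (f g : ℝ → ℝ → ℝ)
    (hf : Continuous fun z : ℝ × ℝ => f z.1 z.2) (hg : Continuous fun z : ℝ × ℝ => g z.1 z.2)
    (f0 : ∀ y ∈ Icc c d, f a y ≤ 0) (f1 : ∀ y ∈ Icc c d, 0 ≤ f b y)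
    (g0 : ∀ x ∈ Icc a b, g x c ≤ 0) (g1 : ∀ x ∈ Icc a b, 0 ≤ g x d) :
    ∃ x ∈ Icc a b, ∃ y ∈ Icc c d, f x y = 0 ∧ g x y = 0 := by
  have hsub : Continuous fun z : ℝ × ℝ => (a + (b - a) * z.1, c + (d - c) * z.2) := by fun_prop
  have hX : ∀ x ∈ Icc (0 : ℝ) 1, a + (b - a) * x ∈ Icc a b := by
    intro x hx
    constructor
    · nlinarith [hx.1]
    · nlinarith [hx.2]
  have hY : ∀ y ∈ Icc (0 : ℝ) 1, c + (d - c) * y ∈ Icc c d := by
    intro y hy
    constructor
    · nlinarith [hy.1]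
    · nlinarith [hy.2]
  obtain ⟨x, hx, y, hy, h1, h2⟩ := pm2 (fun x y => f (a + (b - a) * x) (c + (d - c) * y))
    (fun x y => g (a + (b - a) * x) (c + (d - c) * y)) (hf.comp hsub) (hg.comp hsub)
    (fun y hy => by
      have h := f0 _ (hY y hy)
      change f (a + (b - a) * 0) (c + (d - c) * y) ≤ 0
      rw [mul_zero, add_zero]
      exact h)
    (fun y hy => by
      have h := f1 _ (hY y hy)
      change 0 ≤ f (a + (b - a) * 1) (c + (d - c) * y)
      rw [mul_one, add_sub_cancel]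
      exact h)
    (fun x hx => by
      have h := g0 _ (hX x hx)
      change g (a + (b - a) * x) (c + (d - c) * 0) ≤ 0
      rw [mul_zero, add_zero]
      exact h)
    (fun x hx => by
      have h := g1 _ (hX x hx)
      change 0 ≤ g (a + (b - a) * x) (c + (d - c) * 1)
      rw [mul_one, add_sub_cancel]
      exact h)
  exact ⟨_, hX x hx, _, hY y hy, h1, h2⟩
-- END pm2

-- BEGIN meet_arcs
private theorem meet_arcs_ext (γ : ℝ → ℝ × ℝ) (hγ : ContinuousOn γ (Icc 0 1)) (a b : ℝ)
    (γ0 : γ 0 = (a, 0)) (γ1 : γ 1 = (b, 0)) (γp : ∀ t ∈ Ioo (0 : ℝ) 1, 0 < (γ t).2) :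
    ∃ (P Q : ℝ → ℝ) (K : ℝ), Continuous P ∧ Continuous Q ∧ (∀ s, |P s| ≤ K) ∧
      (∀ s, 0 ≤ Q s ∧ Q s ≤ K) ∧ (∀ s, s ≤ 0 → P s = a ∧ Q s = 0) ∧
      (∀ s, 1 ≤ s → P s = b ∧ Q s = 0) ∧ (∀ s, 0 < s → s < 1 → 0 < Q s) ∧
      ∀ s, 0 ≤ s → s ≤ 1 → γ s = (P s, Q s) := by
  have hσ : Continuous (fun s : ℝ => max 0 (min s 1)) :=
    continuous_const.max (continuous_id.min continuous_const)
  have hm : ∀ s : ℝ, max 0 (min s 1) ∈ Icc (0 : ℝ) 1 :=
    fun s => ⟨le_max_left _ _, max_le zero_le_one (min_le_right _ _)⟩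
  have hc := hγ.comp_continuous hσ hm
  obtain ⟨K, hK⟩ := isCompact_Icc.exists_bound_of_continuousOn hγ
  have hQ0 : ∀ u ∈ Icc (0 : ℝ) 1, 0 ≤ (γ u).2 := by
    intro u hu
    rcases eq_or_lt_of_le hu.1 with e | e
    · rw [← e, γ0]
    · rcases eq_or_lt_of_le hu.2 with e' | e'
      · rw [e', γ1]
      · exact (γp u ⟨e, e'⟩).le
  have hmid : ∀ s : ℝ, 0 ≤ s → s ≤ 1 → max 0 (min s 1) = s := fun s h0 h1 => by
    rw [min_eq_left h1, max_eq_right h0]
  refine ⟨fun s => (γ (max 0 (min s 1))).1, fun s => (γ (max 0 (min s 1))).2, K,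
    continuous_fst.comp hc, continuous_snd.comp hc, ?_, ?_, ?_, ?_, ?_, ?_⟩
  · intro s
    exact (norm_fst_le (γ (max 0 (min s 1)))).trans (hK _ (hm s))
  · intro s
    refine ⟨hQ0 _ (hm s), ?_⟩
    exact (le_abs_self _).trans ((norm_snd_le (γ (max 0 (min s 1)))).trans (hK _ (hm s)))
  · intro s hs
    have e : max 0 (min s 1) = 0 := max_eq_left ((min_le_left _ _).trans hs)
    show (γ (max 0 (min s 1))).1 = a ∧ (γ (max 0 (min s 1))).2 = 0
    rw [e, γ0]
    exact ⟨rfl, rfl⟩
  · intro s hs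
    have e : max 0 (min s 1) = 1 := by rw [min_eq_right hs, max_eq_right zero_le_one]
    show (γ (max 0 (min s 1))).1 = b ∧ (γ (max 0 (min s 1))).2 = 0
    rw [e, γ1]
    exact ⟨rfl, rfl⟩
  · intro s h0 h1
    show 0 < (γ (max 0 (min s 1))).2
    rw [hmid s h0.le h1.le]
    exact γp s ⟨h0, h1⟩
  · intro s h0 h1
    show γ s = ((γ (max 0 (min s 1))).1, (γ (max 0 (min s 1))).2)
    rw [hmid s h0 h1]

/-- CROSSING LEMMA: two arcs above a line whose ends alternate have a common inner point. Proof.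
Extend both arcs continuously to `ℝ` by clamping: `σ s = max 0 (min s 1)`, `γ (σ s)`, `δ (σ t)`
(`ContinuousOn` on `Icc 0 1` composed with the clamp is continuous; or `Set.IccExtend`). Let `K` be a
bound of `|(γ s).1|, |(γ s).2|, |(δ t).1|, |(δ t).2|` and of `|x1|, .., |x4|` on `[0,1]` (compactness),
`A' = 2 * K + 1`, `A = 6 * K + 3`, and define the extended paths
`h s = ((γ (σ s)).1 + A * min 0 (s + 1) + A * max 0 (s - 2),
        (γ (σ s)).2 + (1/2) * max (-1) (min 0 s) - (1/2) * min 1 (max 0 (s - 1)))`, `s ∈ [-2, 3]`, and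
`v t = ((δ (σ t)).1 + A' * max 0 (min 1 (t - 1)), (δ (σ t)).2 + min 0 t + (K + 1) * max 0 (t - 2))`,
`t ∈ [-1, 3]`. `h` goes from the left side `x = x1 - A` (at height `-1/2`) over `(x1, -1/2)`, `(x1, 0)`,
along `γ` to `(x3, 0)`, down to `(x3, -1/2)` and right to `x = x3 + A`; `v` goes from `(x2, -1)` up to
`(x2, 0)`, along `δ` to `(x4, 0)`, right to `(x4 + A', 0)` and up. `pmr` on `[-2,3] × [-1,3]` for
`f s t = (h s).1 - (v t).1` and `g s t = (v t).2 - (h s).2` gives `h s = v t`. Signs: `(h (-2)).1 = x1 -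
A ≤ (v t).1`, `(h 3).1 = x3 + A ≥ (v t).1`; `(v (-1)).2 = -1 ≤ (h s).2`, `(v 3).2 ≥ K + 1 ≥ (h s).2`.
Cases: `t < 0`: `v t = (x2, t)` below the line, so `s < 0` or `s > 1`, and then `(h s).1 ≤ x1` or
`≥ x3`: contradiction. `0 ≤ t ≤ 1`: `(v t).2 ≥ 0`, so `0 ≤ s ≤ 1` (else `(h s).2 < 0`) and
`γ s = δ t`; if `s` or `t` is `0` or `1` the height is `0`, so both are, and `x1, x3 ≠ x2, x4`:
contradiction; so `s, t ∈ Ioo 0 1`. `1 < t ≤ 2`: `v t = (x4 + A' (t-1), 0)`, so `(h s).2 = 0`,
`s ∈ {0, 1}` and `x1` or `x3` `= x4 + ..`: contradiction. `2 < t`: `v t = (x4 + A', > 0)`, so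
`s ∈ (0,1)`, `(γ s).1 = x4 + A' > K`: contradiction. -/
theorem meet_arcs (x1 x2 x3 x4 : ℝ) (h12 : x1 < x2) (h23 : x2 < x3) (h34 : x3 < x4)
    (γ δ : ℝ → ℝ × ℝ) (hγ : ContinuousOn γ (Icc 0 1)) (hδ : ContinuousOn δ (Icc 0 1))
    (γ0 : γ 0 = (x1, 0)) (γ1 : γ 1 = (x3, 0)) (δ0 : δ 0 = (x2, 0)) (δ1 : δ 1 = (x4, 0))
    (γp : ∀ t ∈ Ioo (0 : ℝ) 1, 0 < (γ t).2) (δp : ∀ t ∈ Ioo (0 : ℝ) 1, 0 < (δ t).2) :
    Meet γ δ := by
  obtain ⟨P, Q, K1, hPc, hQc, hPb, hQb, hP0, hP1, hQp, hγe⟩ := meet_arcs_ext γ hγ x1 x3 γ0 γ1 γp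
  obtain ⟨R, T, K2, hRc, hTc, hRb, hTb, hR0, hR1, hTp, hδe⟩ := meet_arcs_ext δ hδ x2 x4 δ0 δ1 δp
  obtain ⟨K, hK1, hK2⟩ : ∃ K : ℝ, K1 ≤ K ∧ K2 ≤ K := ⟨max K1 K2, le_max_left _ _, le_max_right _ _⟩
  have bP : ∀ s, -K ≤ P s ∧ P s ≤ K := fun s => abs_le.1 ((hPb s).trans hK1)
  have bQ : ∀ s, 0 ≤ Q s ∧ Q s ≤ K := fun s => ⟨(hQb s).1, (hQb s).2.trans hK1⟩
  have bR : ∀ s, -K ≤ R s ∧ R s ≤ K := fun s => abs_le.1 ((hRb s).trans hK2)
  have bT : ∀ s, 0 ≤ T s ∧ T s ≤ K := fun s => ⟨(hTb s).1, (hTb s).2.trans hK2⟩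
  have hx1 := bP 0
  rw [(hP0 0 le_rfl).1] at hx1
  have hx3 := bP 1
  rw [(hP1 1 le_rfl).1] at hx3
  have hx4 := bR 1
  rw [(hR1 1 le_rfl).1] at hx4
  have hK0 : 0 ≤ K := (bQ 0).1.trans (bQ 0).2
  obtain ⟨h1, eh1⟩ : ∃ h1 : ℝ → ℝ, ∀ s, h1 s =
    P s + (6 * K + 3) * min 0 (s + 1) + (6 * K + 3) * max 0 (s - 2) := ⟨_, fun s => rfl⟩
  obtain ⟨h2, eh2⟩ : ∃ h2 : ℝ → ℝ, ∀ s, h2 s =
    Q s + (1 / 2) * max (-1) (min 0 s) - (1 / 2) * min 1 (max 0 (s - 1)) := ⟨_, fun s => rfl⟩
  obtain ⟨v1, ev1⟩ : ∃ v1 : ℝ → ℝ, ∀ t, v1 t =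
    R t + (2 * K + 1) * max 0 (min 1 (t - 1)) := ⟨_, fun s => rfl⟩
  obtain ⟨v2, ev2⟩ : ∃ v2 : ℝ → ℝ, ∀ t, v2 t =
    T t + min 0 t + (K + 1) * max 0 (t - 2) := ⟨_, fun s => rfl⟩
  have ch1 : Continuous h1 := by
    have e : h1 = fun s => P s + (6 * K + 3) * min 0 (s + 1) + (6 * K + 3) * max 0 (s - 2) :=
      funext eh1
    rw [e]
    exact (hPc.add (continuous_const.mul (continuous_const.min
      (continuous_id.add continuous_const)))).add
      (continuous_const.mul (continuous_const.max (continuous_id.sub continuous_const)))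
  have ch2 : Continuous h2 := by
    have e : h2 = fun s => Q s + (1 / 2) * max (-1) (min 0 s) - (1 / 2) * min 1 (max 0 (s - 1)) :=
      funext eh2
    rw [e]
    exact (hQc.add (continuous_const.mul (continuous_const.max
      (continuous_const.min continuous_id)))).sub
      (continuous_const.mul (continuous_const.min (continuous_const.max
        (continuous_id.sub continuous_const))))
  have cv1 : Continuous v1 := by
    have e : v1 = fun t => R t + (2 * K + 1) * max 0 (min 1 (t - 1)) := funext ev1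
    rw [e]
    exact hRc.add (continuous_const.mul (continuous_const.max (continuous_const.min
      (continuous_id.sub continuous_const))))
  have cv2 : Continuous v2 := by
    have e : v2 = fun t => T t + min 0 t + (K + 1) * max 0 (t - 2) := funext ev2
    rw [e]
    exact (hTc.add (continuous_const.min continuous_id)).add
      (continuous_const.mul (continuous_const.max (continuous_id.sub continuous_const)))
  have m10 : min (1 : ℝ) 0 = 0 := min_eq_right zero_le_one
  have hneg : ∀ s, s < 0 → h1 s ≤ x1 ∧ h2 s < 0 := by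
    intro s hs
    have e1 := hP0 s hs.le
    have e2 : max 0 (s - 2) = 0 := max_eq_left (by linarith)
    have e3 : min 0 (s + 1) ≤ 0 := min_le_left _ _
    have e4 : min 0 s = s := min_eq_right hs.le
    have e5 : max (-1) s < 0 := max_lt (by norm_num) hs
    have e6 : max 0 (s - 1) = 0 := max_eq_left (by linarith)
    constructor
    · rw [eh1, e1.1, e2]
      have e8 := mul_nonneg (show 0 ≤ 6 * K + 3 by linarith) (neg_nonneg.2 e3)
      linarith
    · rw [eh2, e1.2, e4, e6, m10]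
      linarith
  have hmid : ∀ s, 0 ≤ s → s ≤ 1 → h1 s = P s ∧ h2 s = Q s := by
    intro s hs0 hs1
    have e2 : max 0 (s - 2) = 0 := max_eq_left (by linarith)
    have e3 : min 0 (s + 1) = 0 := min_eq_left (by linarith)
    have e4 : min 0 s = 0 := min_eq_left hs0
    have e5 : max (-1 : ℝ) 0 = 0 := max_eq_right (by norm_num)
    have e6 : max 0 (s - 1) = 0 := max_eq_left (by linarith)
    constructor
    · rw [eh1, e2, e3]
      ring
    · rw [eh2, e4, e5, e6, m10]
      ring
  have hpos : ∀ s, 1 < s → x3 ≤ h1 s ∧ h2 s < 0 := by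
    intro s hs
    have e1 := hP1 s hs.le
    have e2 : 0 ≤ max 0 (s - 2) := le_max_left _ _
    have e3 : min 0 (s + 1) = 0 := min_eq_left (by linarith)
    have e4 : min 0 s = 0 := min_eq_left (by linarith)
    have e5 : max (-1 : ℝ) 0 = 0 := max_eq_right (by norm_num)
    have e6 : max 0 (s - 1) = s - 1 := max_eq_right (by linarith)
    have e7 : 0 < min 1 (s - 1) := lt_min one_pos (by linarith)
    constructor
    · rw [eh1, e1.1, e3]
      have e8 := mul_nonneg (show 0 ≤ 6 * K + 3 by linarith) e2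
      linarith
    · rw [eh2, e1.2, e4, e5, e6]
      linarith
  have vneg : ∀ t, t < 0 → v1 t = x2 ∧ v2 t = t := by
    intro t ht
    have e1 := hR0 t ht.le
    have e2 : max 0 (min 1 (t - 1)) = 0 := max_eq_left ((min_le_right _ _).trans (by linarith))
    have e3 : min 0 t = t := min_eq_right ht.le
    have e4 : max 0 (t - 2) = 0 := max_eq_left (by linarith)
    constructor
    · rw [ev1, e1.1, e2]
      ring
    · rw [ev2, e1.2, e3, e4]
      ring
  have vmid : ∀ t, 0 ≤ t → t ≤ 1 → v1 t = R t ∧ v2 t = T t := by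
    intro t ht0 ht1
    have e2 : max 0 (min 1 (t - 1)) = 0 := max_eq_left ((min_le_right _ _).trans (by linarith))
    have e3 : min 0 t = 0 := min_eq_left ht0
    have e4 : max 0 (t - 2) = 0 := max_eq_left (by linarith)
    constructor
    · rw [ev1, e2]
      ring
    · rw [ev2, e3, e4]
      ring
  have v12 : ∀ t, 1 < t → t ≤ 2 → v1 t = x4 + (2 * K + 1) * (t - 1) ∧ v2 t = 0 := by
    intro t ht1 ht2
    have e1 := hR1 t ht1.le
    have e2 : min 1 (t - 1) = t - 1 := min_eq_right (by linarith)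
    have e5 : max 0 (t - 1) = t - 1 := max_eq_right (by linarith)
    have e3 : min 0 t = 0 := min_eq_left (by linarith)
    have e4 : max 0 (t - 2) = 0 := max_eq_left (by linarith)
    constructor
    · rw [ev1, e1.1, e2, e5]
    · rw [ev2, e1.2, e3, e4]
      ring
  have v23 : ∀ t, 2 < t → v1 t = x4 + (2 * K + 1) ∧ v2 t = (K + 1) * (t - 2) := by
    intro t ht
    have e1 := hR1 t (by linarith)
    have e2 : min 1 (t - 1) = 1 := min_eq_left (by linarith)
    have e5 : max (0 : ℝ) 1 = 1 := max_eq_right zero_le_one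
    have e3 : min 0 t = 0 := min_eq_left (by linarith)
    have e4 : max 0 (t - 2) = t - 2 := max_eq_right (by linarith)
    constructor
    · rw [ev1, e1.1, e2, e5]
      ring
    · rw [ev2, e1.2, e3, e4]
      ring
  obtain ⟨s, _, t, _, hf, hg⟩ := pmr (-2) 3 (-1) 3 (by norm_num) (by norm_num)
    (fun s t => h1 s - v1 t) (fun s t => v2 t - h2 s)
    ((ch1.comp continuous_fst).sub (cv1.comp continuous_snd))
    ((cv2.comp continuous_snd).sub (ch2.comp continuous_fst))
    (by
      intro y _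
      show h1 (-2) - v1 y ≤ 0
      have e1 := (hP0 (-2) (by norm_num)).1
      have e2 : min 0 ((-2 : ℝ) + 1) = -1 := by
        rw [min_eq_right (by norm_num)]
        norm_num
      have e3 : max 0 ((-2 : ℝ) - 2) = 0 := max_eq_left (by norm_num)
      rw [eh1, ev1, e1, e2, e3]
      have e4 := mul_nonneg (show 0 ≤ 2 * K + 1 by linarith)
        (le_max_left (0 : ℝ) (min 1 (y - 1)))
      linarith [(bR y).1])
    (by
      intro y _
      show 0 ≤ h1 3 - v1 y
      have e1 := (hP1 3 (by norm_num)).1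
      have e2 : min 0 ((3 : ℝ) + 1) = 0 := min_eq_left (by norm_num)
      have e3 : max 0 ((3 : ℝ) - 2) = 1 := by
        rw [max_eq_right (by norm_num)]
        norm_num
      rw [eh1, ev1, e1, e2, e3]
      have e5 : max 0 (min 1 (y - 1)) ≤ 1 := max_le zero_le_one (min_le_left _ _)
      have e4 := mul_le_mul_of_nonneg_left e5 (show 0 ≤ 2 * K + 1 by linarith)
      linarith [(bR y).2])
    (by
      intro x _
      show v2 (-1) - h2 x ≤ 0
      rw [(vneg (-1) (by norm_num)).2, eh2]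
      have e1 : -1 ≤ max (-1) (min 0 x) := le_max_left _ _
      have e2 : min 1 (max 0 (x - 1)) ≤ 1 := min_le_left _ _
      linarith [(bQ x).1])
    (by
      intro x _
      show 0 ≤ v2 3 - h2 x
      rw [(v23 3 (by norm_num)).2, eh2]
      have e1 : max (-1) (min 0 x) ≤ 0 := max_le (by norm_num) (min_le_left _ _)
      have e2 : 0 ≤ min 1 (max 0 (x - 1)) := le_min zero_le_one (le_max_left _ _)
      linarith [(bQ x).2])
  have hf' : h1 s = v1 t := sub_eq_zero.1 hf
  have hg' : v2 t = h2 s := sub_eq_zero.1 hg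
  have hend : 0 ≤ s → s ≤ 1 → Q s = 0 → s = 0 ∨ s = 1 := by
    intro a b c
    by_contra hc
    rw [not_or] at hc
    have := hQp s (lt_of_le_of_ne a (Ne.symm hc.1)) (lt_of_le_of_ne b hc.2)
    linarith
  rcases lt_or_ge t 0 with h | h
  · obtain ⟨a1, a2⟩ := vneg t h
    rcases lt_or_ge s 0 with k | k
    · have := hneg s k
      linarith
    · rcases le_or_gt s 1 with k' | k'
      · have := hmid s k k'
        have := (bQ s).1
        linarith
      · have := hpos s k'
        linarith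
  · rcases le_or_gt t 1 with h' | h'
    · obtain ⟨a1, a2⟩ := vmid t h h'
      have hT := (bT t).1
      have hs0 : 0 ≤ s := by
        by_contra hc
        have := hneg s (not_le.1 hc)
        linarith
      have hs1 : s ≤ 1 := by
        by_contra hc
        have := hpos s (not_le.1 hc)
        linarith
      obtain ⟨b1, b2⟩ := hmid s hs0 hs1
      have hPR : P s = R t := by linarith
      have hQT : Q s = T t := by linarith
      have htend : T t = 0 → t = 0 ∨ t = 1 := by
        intro c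
        by_contra hc
        rw [not_or] at hc
        have := hTp t (lt_of_le_of_ne h (Ne.symm hc.1)) (lt_of_le_of_ne h' hc.2)
        linarith
      have hzero : ¬ (Q s = 0) := by
        intro hQ
        have hs' := hend hs0 hs1 hQ
        have ht' := htend (by linarith)
        have q1 := (hP0 0 le_rfl).1
        have q2 := (hP1 1 le_rfl).1
        have q3 := (hR0 0 le_rfl).1
        have q4 := (hR1 1 le_rfl).1
        rcases hs' with e | e <;> rcases ht' with e' | e' <;> rw [e, e'] at hPR <;> linarith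
      have hsI : s ∈ Ioo (0 : ℝ) 1 := by
        refine ⟨lt_of_le_of_ne hs0 fun e => hzero ?_, lt_of_le_of_ne hs1 fun e => hzero ?_⟩
        · rw [← e]
          exact (hP0 0 le_rfl).2
        · rw [e]
          exact (hP1 1 le_rfl).2
      have htI : t ∈ Ioo (0 : ℝ) 1 := by
        refine ⟨lt_of_le_of_ne h fun e => hzero ?_, lt_of_le_of_ne h' fun e => hzero ?_⟩
        · rw [hQT, ← e]
          exact (hR0 0 le_rfl).2
        · rw [hQT, e]
          exact (hR1 1 le_rfl).2
      exact ⟨s, hsI, t, htI, by rw [hγe s hs0 hs1, hδe t h h', hPR, hQT]⟩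
    · rcases le_or_gt t 2 with h3 | h3
      · obtain ⟨a1, a2⟩ := v12 t h' h3
        have hp : 0 < (2 * K + 1) * (t - 1) := mul_pos (by linarith) (by linarith)
        rcases lt_or_ge s 0 with k | k
        · have := hneg s k
          linarith
        · rcases le_or_gt s 1 with k' | k'
          · obtain ⟨b1, b2⟩ := hmid s k k'
            rcases hend k k' (by linarith) with e | e
            · rw [e] at b1 hf'
              linarith [(hP0 0 le_rfl).1]
            · rw [e] at b1 hf'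
              linarith [(hP1 1 le_rfl).1]
          · have := hpos s k'
            linarith
      · obtain ⟨a1, a2⟩ := v23 t h3
        have hp : 0 < (K + 1) * (t - 2) := mul_pos (by linarith) (by linarith)
        rcases lt_or_ge s 0 with k | k
        · have := hneg s k
          linarith
        · rcases le_or_gt s 1 with k' | k'
          · obtain ⟨b1, b2⟩ := hmid s k k'
            linarith [(bP s).2, hx4.1]
          · have := hpos s k'
            linarith
-- END meet_arcs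

-- BEGIN meet_alt
private theorem meet_alt_norm (a b : ℝ) (γ : ℝ → ℝ × ℝ) (hγ : ContinuousOn γ (Icc 0 1))
    (γe : (γ 0 = (a, 0) ∧ γ 1 = (b, 0)) ∨ (γ 0 = (b, 0) ∧ γ 1 = (a, 0)))
    (γp : ∀ t ∈ Ioo (0 : ℝ) 1, 0 < (γ t).2) :
    ∃ η : ℝ → ℝ × ℝ, ContinuousOn η (Icc 0 1) ∧ η 0 = (min a b, 0) ∧ η 1 = (max a b, 0) ∧
      (∀ t ∈ Ioo (0 : ℝ) 1, 0 < (η t).2) ∧ ∀ s ∈ Ioo (0 : ℝ) 1, ∃ u ∈ Ioo (0 : ℝ) 1, η s = γ u := by
  have key : ∀ x y : ℝ, (γ 0 = (x, 0) ∧ γ 1 = (y, 0)) ∨ (γ 0 = (y, 0) ∧ γ 1 = (x, 0)) →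
      ∃ η : ℝ → ℝ × ℝ, ContinuousOn η (Icc 0 1) ∧ η 0 = (x, 0) ∧ η 1 = (y, 0) ∧
      (∀ t ∈ Ioo (0 : ℝ) 1, 0 < (η t).2) ∧ ∀ s ∈ Ioo (0 : ℝ) 1, ∃ u ∈ Ioo (0 : ℝ) 1, η s = γ u := by
    intro x y h
    rcases h with ⟨h0, h1⟩ | ⟨h0, h1⟩
    · exact ⟨γ, hγ, h0, h1, γp, fun s hs => ⟨s, hs, rfl⟩⟩
    · have hr : ∀ s ∈ Ioo (0 : ℝ) 1, 1 - s ∈ Ioo (0 : ℝ) 1 := by
        intro s hs
        constructor <;> linarith [hs.1, hs.2]
      refine ⟨fun t => γ (1 - t), ?_, ?_, ?_, fun t ht => γp _ (hr t ht),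
        fun s hs => ⟨1 - s, hr s hs, rfl⟩⟩
      · refine hγ.comp (continuous_const.sub continuous_id).continuousOn ?_
        intro t ht
        show 1 - t ∈ Icc (0 : ℝ) 1
        constructor <;> linarith [ht.1, ht.2]
      · show γ (1 - 0) = (x, 0)
        rw [sub_zero, h1]
      · show γ (1 - 1) = (y, 0)
        rw [sub_self, h0]
  apply key
  rcases le_total a b with h | h
  · rw [min_eq_left h, max_eq_right h]
    exact γe
  · rw [min_eq_right h, max_eq_left h]
    exact γe.symm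

/-- Both orientations and both nestings: if the ends `a, b` of `γ` and `c, d` of `δ` (in any order)
alternate then the arcs meet. Proof: reverse `γ` and/or `δ` (`fun t => γ (1 - t)`) such that they go
from left to right; if `min a b < min c d` use `meet_arcs γ δ`, otherwise `meet_arcs δ γ`
(`Meet` is symmetric). -/
theorem meet_alt (a b c d : ℝ)
    (h : (min a b < min c d ∧ min c d < max a b ∧ max a b < max c d) ∨
      (min c d < min a b ∧ min a b < max c d ∧ max c d < max a b))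
    (γ δ : ℝ → ℝ × ℝ) (hγ : ContinuousOn γ (Icc 0 1)) (hδ : ContinuousOn δ (Icc 0 1))
    (γe : (γ 0 = (a, 0) ∧ γ 1 = (b, 0)) ∨ (γ 0 = (b, 0) ∧ γ 1 = (a, 0)))
    (δe : (δ 0 = (c, 0) ∧ δ 1 = (d, 0)) ∨ (δ 0 = (d, 0) ∧ δ 1 = (c, 0)))
    (γp : ∀ t ∈ Ioo (0 : ℝ) 1, 0 < (γ t).2) (δp : ∀ t ∈ Ioo (0 : ℝ) 1, 0 < (δ t).2) :
    Meet γ δ := by
  obtain ⟨η, hη, η0, η1, ηp, ηm⟩ := meet_alt_norm a b γ hγ γe γp
  obtain ⟨θ, hθ, θ0, θ1, θp, θm⟩ := meet_alt_norm c d δ hδ δe δp
  rcases h with ⟨h1, h2, h3⟩ | ⟨h1, h2, h3⟩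
  · obtain ⟨s, hs, t, ht, e⟩ := meet_arcs _ _ _ _ h1 h2 h3 η θ hη hθ η0 η1 θ0 θ1 ηp θp
    obtain ⟨u, hu, eu⟩ := ηm s hs
    obtain ⟨w, hw, ew⟩ := θm t ht
    exact ⟨u, hu, w, hw, by rw [← eu, ← ew, e]⟩
  · obtain ⟨s, hs, t, ht, e⟩ := meet_arcs _ _ _ _ h1 h2 h3 θ η hθ hη θ0 θ1 η0 η1 θp ηp
    obtain ⟨u, hu, eu⟩ := ηm t ht
    obtain ⟨w, hw, ew⟩ := θm s hs
    exact ⟨u, hu, w, hw, by rw [← eu, ← ew, e]⟩
-- END meet_alt

/-- the parabola arc between `(a, 0)` and `(b, 0)`: the graph of `(x - a) (b - x)` -/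
noncomputable def par (a b t : ℝ) : ℝ × ℝ := (a + t * (b - a), t * (1 - t) * (b - a) ^ 2)

-- BEGIN par_basic
/-- `par` is continuous, injective on `[0,1]`, above the line inside (`a ≠ b`) -/
theorem par_cont (a b : ℝ) : Continuous (par a b) := by
  unfold par
  fun_prop

theorem par_inj (a b : ℝ) (h : a ≠ b) : InjOn (par a b) (Icc 0 1) := by
  intro s _ t _ hst
  have h1 : a + s * (b - a) = a + t * (b - a) := congrArg Prod.fst hst
  have h2 : (s - t) * (b - a) = 0 := by linarith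
  rcases mul_eq_zero.1 h2 with h3 | h3
  · linarith
  · exact absurd (by linarith) h

theorem par_above (a b t : ℝ) (h : a ≠ b) (ht : t ∈ Ioo (0 : ℝ) 1) : 0 < (par a b t).2 := by
  have h1 : 0 < t := ht.1
  have h2 : 0 < 1 - t := sub_pos.2 ht.2
  have h3 : 0 < (b - a) ^ 2 := by
    have : b - a ≠ 0 := sub_ne_zero.2 (Ne.symm h)
    positivity
  exact mul_pos (mul_pos h1 h2) h3

/-- the point `(x, y)` with `x = a + t (b - a)` of the arc satisfies `y = (x - a) * (b - x)` -/
theorem par_eq (a b t : ℝ) : (par a b t).2 = ((par a b t).1 - a) * (b - (par a b t).1) := by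
  simp only [par]
  ring

/-- Two different arcs meet in at most one point. Proof: by `par_eq` a common point `(x, y)`
satisfies `(x - a)(b - x) = (x - c)(d - x)`, i.e. `(a + b - c - d) x = a b - c d`; if `a + b = c + d`
then `a b = c d`, so `{a, b} = {c, d}`, excluded; so `x` is determined, and `y` by `par_eq`. -/
theorem par_fin (a b c d : ℝ) (h : ¬ ((a = c ∧ b = d) ∨ (a = d ∧ b = c))) :
    (par a b '' Icc 0 1 ∩ par c d '' Icc 0 1).Finite := by
  apply Set.Subsingleton.finite
  have key : ∀ z : ℝ × ℝ, z ∈ par a b '' Icc 0 1 ∩ par c d '' Icc 0 1 →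
      z.2 = (z.1 - a) * (b - z.1) ∧ (a + b - c - d) * z.1 = a * b - c * d := by
    rintro z ⟨⟨s, _, hs⟩, ⟨t, _, ht⟩⟩
    have h1 : z.2 = (z.1 - a) * (b - z.1) := by rw [← hs]; exact par_eq a b s
    have h2 : z.2 = (z.1 - c) * (d - z.1) := by rw [← ht]; exact par_eq c d t
    refine ⟨h1, ?_⟩
    nlinarith [h1, h2]
  intro z hz w hw
  obtain ⟨z1, z2⟩ := key z hz
  obtain ⟨w1, w2⟩ := key w hw
  have hx : z.1 = w.1 := by
    by_cases h0 : a + b - c - d = 0
    · exfalso
      rw [h0, zero_mul] at z2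
      have hd : d = a + b - c := by linarith
      subst hd
      have h3 : (a - c) * (b - c) = 0 := by nlinarith [z2]
      rcases mul_eq_zero.1 h3 with h4 | h4
      · exact h (Or.inl ⟨by linarith, by linarith⟩)
      · exact h (Or.inr ⟨by linarith, by linarith⟩)
    · exact mul_left_cancel₀ h0 (z2.trans w2.symm)
  exact Prod.ext hx (by rw [z1, w1, hx])

private theorem par_basic_core (m M m' M' x : ℝ) (h1 : m < x) (h2 : x < M) (h3 : m' < x)
    (h4 : x < M') (h : (x - m) * (M - x) = (x - m') * (M' - x)) :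
    (m = m' ∧ M = M') ∨ (m < m' ∧ m' < M ∧ M < M') ∨ (m' < m ∧ m < M' ∧ M' < M) := by
  rcases lt_trichotomy m m' with h5 | h5 | h5
  · refine Or.inr (Or.inl ⟨h5, h3.trans h2, ?_⟩)
    by_contra h6
    have h7 : M' ≤ M := not_lt.1 h6
    nlinarith [mul_lt_mul_of_pos_right (show x - m' < x - m by linarith) (sub_pos.2 h4),
      mul_le_mul_of_nonneg_left (show M' - x ≤ M - x by linarith) (sub_pos.2 h1).le]
  · subst h5
    refine Or.inl ⟨rfl, ?_⟩
    have := mul_left_cancel₀ (sub_pos.2 h1).ne' h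
    linarith
  · refine Or.inr (Or.inr ⟨h5, h1.trans h4, ?_⟩)
    by_contra h6
    have h7 : M ≤ M' := not_lt.1 h6
    nlinarith [mul_lt_mul_of_pos_right (show x - m < x - m' by linarith) (sub_pos.2 h2),
      mul_le_mul_of_nonneg_left (show M - x ≤ M' - x by linarith) (sub_pos.2 h3).le]

private theorem par_basic_pos (a b t x : ℝ) (hab : a ≠ b) (ht : t ∈ Ioo (0 : ℝ) 1)
    (hx : x = a + t * (b - a)) : min a b < x ∧ x < max a b := by
  obtain ⟨h0, h1⟩ := ht
  rcases lt_or_gt_of_ne hab with h | h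
  · rw [min_eq_left h.le, max_eq_right h.le]
    constructor
    · nlinarith
    · nlinarith
  · rw [min_eq_right h.le, max_eq_left h.le]
    constructor
    · nlinarith
    · nlinarith

private theorem par_basic_mm (a b x : ℝ) :
    (x - min a b) * (max a b - x) = (x - a) * (b - x) := by
  rcases le_total a b with h | h
  · rw [min_eq_left h, max_eq_right h]
  · rw [min_eq_right h, max_eq_left h]
    ring

/-- Two arcs with a common inner point have alternating ends (or the same ends). Proof: let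
`(x, y)` be the common point, `min a b < x < max a b`, `min c d < x < max c d`,
`(x - a)(b - x) = (x - c)(d - x)`. In terms of `m = min`, `M = max`: `(x - m)(M - x) =
(x - m')(M' - x)` with positive factors. If `m = m'` then `M = M'`; similarly if `M = M'`. If `m < m'`
then `x - m > x - m'`, so `M - x < M' - x`: `M < M'`, and `m' < x < M`: alternating. If `m' < m`:
symmetric. -/
theorem par_meet (a b c d : ℝ) (hab : a ≠ b) (hcd : c ≠ d) (h : Meet (par a b) (par c d)) :
    (min a b = min c d ∧ max a b = max c d) ∨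
    (min a b < min c d ∧ min c d < max a b ∧ max a b < max c d) ∨
      (min c d < min a b ∧ min a b < max c d ∧ max c d < max a b) := by
  obtain ⟨s, hs, t, ht, hst⟩ := h
  have hx : (par a b s).1 = (par c d t).1 := congrArg Prod.fst hst
  have hy : (par a b s).2 = (par c d t).2 := congrArg Prod.snd hst
  rw [par_eq, par_eq, ← hx] at hy
  obtain ⟨p1, p2⟩ := par_basic_pos a b s _ hab hs rfl
  obtain ⟨q1, q2⟩ := par_basic_pos c d t _ hcd ht rfl
  have hx' : c + t * (d - c) = (par a b s).1 := hx.symm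
  rw [hx'] at q1 q2
  refine par_basic_core _ _ _ _ (par a b s).1 p1 p2 q1 q2 ?_
  rw [par_basic_mm, par_basic_mm]
  exact hy
-- END par_basic

-- BEGIN half_of_convex
theorem half_of_convex_out {V : Type*} (e : Sym2 V) : s((Quot.out e).1, (Quot.out e).2) = e :=
  Quot.out_eq e

theorem half_of_convex_adj {V : Type*} {G : SimpleGraph V} {e : Sym2 V} (he : e ∈ G.edgeSet) :
    G.Adj (Quot.out e).1 (Quot.out e).2 := by
  rw [← SimpleGraph.mem_edgeSet, half_of_convex_out]
  exact he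

theorem half_of_convex_eq {V : Type*} {p : V → ℕ} (hp : Function.Injective p) {e f : Sym2 V}
    (h : ((p (Quot.out e).1 : ℝ) = p (Quot.out f).1 ∧ (p (Quot.out e).2 : ℝ) = p (Quot.out f).2) ∨
      ((p (Quot.out e).1 : ℝ) = p (Quot.out f).2 ∧ (p (Quot.out e).2 : ℝ) = p (Quot.out f).1)) :
    e = f := by
  rw [← half_of_convex_out e, ← half_of_convex_out f, Sym2.eq_iff]
  rcases h with ⟨h1, h2⟩ | ⟨h1, h2⟩
  · exact Or.inl ⟨hp (Nat.cast_injective h1), hp (Nat.cast_injective h2)⟩
  · exact Or.inr ⟨hp (Nat.cast_injective h1), hp (Nat.cast_injective h2)⟩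

/-- Proof: `q v := (p v : ℝ)`, `c e := par (q (Quot.out e).1) (q (Quot.out e).2)` (for
`e = s(a, b)`, `Quot.out e` is `(a, b)` or `(b, a)`: `Sym2.eq_iff` and `Quot.out_eq`). `par_cont`,
`par_inj`, `par_above`, `par_fin` give `HalfPlaneDrawing`. If `e : Fin k → Sym2 V` is injective with
pairwise meeting arcs, the family `fun i => Quot.out (e i)` contradicts the choice of `p`: by
`par_meet` the ends alternate (`min, max` equal would give `e i = e j` by injectivity of `p`), and
`Alt` for natural numbers is the same condition for their casts (`Nat.cast_min`, `Nat.cast_lt`). -/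
theorem half_of_convex {V : Type*} (k : ℕ) (G : SimpleGraph V) (h : ConvexQuasi k G) :
    HalfPlaneQuasi k G := by
  obtain ⟨p, hp, hk⟩ := h
  have hne : ∀ e ∈ G.edgeSet, (p (Quot.out e).1 : ℝ) ≠ p (Quot.out e).2 := fun e he hc =>
    (half_of_convex_adj he).ne (hp (Nat.cast_injective hc))
  have h0 : ∀ a b : ℝ, par a b 0 = (a, 0) := fun a b => by simp [par]
  have h1 : ∀ a b : ℝ, par a b 1 = (b, 0) := fun a b => by simp [par]
  refine ⟨fun v => (p v : ℝ), fun e => par (p (Quot.out e).1) (p (Quot.out e).2),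
    ⟨fun a b hab => hp (Nat.cast_injective hab), fun e _ => (par_cont _ _).continuousOn,
      fun e he => par_inj _ _ (hne e he), ?_, fun e he t ht => par_above _ _ t (hne e he) ht,
      ?_⟩, ?_⟩
  · intro a b _
    have h2 := half_of_convex_out s(a, b)
    rw [Sym2.eq_iff] at h2
    simp only [h0, h1]
    rcases h2 with ⟨h2, h3⟩ | ⟨h2, h3⟩
    · left
      rw [h2, h3]
      exact ⟨rfl, rfl⟩
    · right
      rw [h2, h3]
      exact ⟨rfl, rfl⟩
  · intro e _ f _ hef
    exact par_fin _ _ _ _ fun hc => hef (half_of_convex_eq hp hc)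
  · rintro ⟨e, he, heG, hm⟩
    refine hk ⟨fun i => Quot.out (e i), fun i => half_of_convex_adj (heG i), fun i j hij => ?_⟩
    rcases par_meet _ _ _ _ (hne _ (heG i)) (hne _ (heG j)) (hm i j hij) with h2 | h2
    · exfalso
      refine hij (he (half_of_convex_eq hp ?_))
      obtain ⟨h3, h4⟩ := h2
      rcases le_total (p (Quot.out (e i)).1 : ℝ) (p (Quot.out (e i)).2) with h5 | h5 <;>
        rcases le_total (p (Quot.out (e j)).1 : ℝ) (p (Quot.out (e j)).2) with h6 | h6
      · rw [min_eq_left h5, min_eq_left h6] at h3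
        rw [max_eq_right h5, max_eq_right h6] at h4
        exact Or.inl ⟨h3, h4⟩
      · rw [min_eq_left h5, min_eq_right h6] at h3
        rw [max_eq_right h5, max_eq_left h6] at h4
        exact Or.inr ⟨h3, h4⟩
      · rw [min_eq_right h5, min_eq_left h6] at h3
        rw [max_eq_left h5, max_eq_right h6] at h4
        exact Or.inr ⟨h4, h3⟩
      · rw [min_eq_right h5, min_eq_right h6] at h3
        rw [max_eq_left h5, max_eq_left h6] at h4
        exact Or.inl ⟨h4, h3⟩
    · unfold Alt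
      exact_mod_cast h2
-- END half_of_convex

-- BEGIN convex_of_half
open Classical in
/-- the number of vertices to the left of `v` -/
private noncomputable def convex_of_half_rank {V : Type*} [Fintype V] (p : V → ℝ) (v : V) : ℕ :=
  (Finset.univ.filter fun u => p u < p v).card

open Classical in
private theorem convex_of_half_lt {V : Type*} [Fintype V] (p : V → ℝ) (u v : V) :
    convex_of_half_rank p u < convex_of_half_rank p v ↔ p u < p v := by
  constructor
  · intro h
    by_contra hn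
    refine absurd h (not_lt.2 (Finset.card_le_card fun w hw => ?_))
    rw [Finset.mem_filter] at hw ⊢
    exact ⟨hw.1, hw.2.trans_le (not_lt.1 hn)⟩
  · intro h
    refine Finset.card_lt_card (Finset.ssubset_iff_of_subset (fun w hw => ?_) |>.2 ⟨u, ?_, ?_⟩)
    · rw [Finset.mem_filter] at hw ⊢
      exact ⟨hw.1, hw.2.trans h⟩
    · exact Finset.mem_filter.2 ⟨Finset.mem_univ _, h⟩
    · intro hu
      exact lt_irrefl _ (Finset.mem_filter.1 hu).2

private theorem convex_of_half_alt {V : Type*} (p : V → ℝ) (q : V → ℕ)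
    (hlt : ∀ u v, q u < q v ↔ p u < p v) (a b c d : V) (h : Alt (q a) (q b) (q c) (q d)) :
    (min (p a) (p b) < min (p c) (p d) ∧ min (p c) (p d) < max (p a) (p b) ∧
        max (p a) (p b) < max (p c) (p d)) ∨
      (min (p c) (p d) < min (p a) (p b) ∧ min (p a) (p b) < max (p c) (p d) ∧
        max (p c) (p d) < max (p a) (p b)) := by
  have hle : ∀ u v, p u ≤ p v → q u ≤ q v := fun u v huv =>
    not_lt.1 fun h' => absurd ((hlt v u).1 h') (not_lt.2 huv)
  unfold Alt at h
  rcases le_total (p a) (p b) with h1 | h1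
  · have h1' := hle _ _ h1
    rcases le_total (p c) (p d) with h2 | h2
    · have h2' := hle _ _ h2
      simp only [min_eq_left h1', max_eq_right h1', min_eq_left h2', max_eq_right h2', hlt] at h
      simp only [min_eq_left h1, max_eq_right h1, min_eq_left h2, max_eq_right h2]
      exact h
    · have h2' := hle _ _ h2
      simp only [min_eq_left h1', max_eq_right h1', min_eq_right h2', max_eq_left h2', hlt] at h
      simp only [min_eq_left h1, max_eq_right h1, min_eq_right h2, max_eq_left h2]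
      exact h
  · have h1' := hle _ _ h1
    rcases le_total (p c) (p d) with h2 | h2
    · have h2' := hle _ _ h2
      simp only [min_eq_right h1', max_eq_left h1', min_eq_left h2', max_eq_right h2', hlt] at h
      simp only [min_eq_right h1, max_eq_left h1, min_eq_left h2, max_eq_right h2]
      exact h
    · have h2' := hle _ _ h2
      simp only [min_eq_right h1', max_eq_left h1', min_eq_right h2', max_eq_left h2', hlt] at h
      simp only [min_eq_right h1, max_eq_left h1, min_eq_right h2, max_eq_left h2]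
      exact h

/-- Proof: `p' v := (Finset.univ.filter fun u => p u < p v).card` (classical) is a place function in
the order of `p`: `p' u < p' v ↔ p u < p v`, injective. If `e : Fin k → V × V` were pairwise `Alt`
for `p'`, then `fun i => s((e i).1, (e i).2)` is injective (`Alt` needs four distinct ends), and the
arcs of two of them meet by `meet_alt` (translate `min`, `max` of `p'` to `p` by cases), which
contradicts the drawing. -/
theorem convex_of_half {V : Type*} [Fintype V] (k : ℕ) (G : SimpleGraph V)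
    (h : HalfPlaneQuasi k G) : ConvexQuasi k G := by
  obtain ⟨p, c, D, hno⟩ := h
  have hlt := convex_of_half_lt p
  refine ⟨convex_of_half_rank p, ?_, ?_⟩
  · intro u v huv
    refine D.inj (le_antisymm ?_ ?_)
    · refine not_lt.1 fun h' => ?_
      have h2 := (hlt v u).2 h'
      omega
    · refine not_lt.1 fun h' => ?_
      have h2 := (hlt u v).2 h'
      omega
  · rintro ⟨e, hadj, halt⟩
    refine hno ⟨fun i => s((e i).1, (e i).2), ?_, fun i => hadj i, ?_⟩
    · intro i j hij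
      by_contra hne
      have h1 := halt i j hne
      unfold Alt at h1
      have h2 : s((e i).1, (e i).2) = s((e j).1, (e j).2) := hij
      rw [Sym2.eq_iff] at h2
      rcases h2 with ⟨h3, h4⟩ | ⟨h3, h4⟩
      · rw [h3, h4] at h1
        omega
      · rw [h3, h4] at h1
        omega
    · intro i j hij
      exact meet_alt _ _ _ _ (convex_of_half_alt p _ hlt _ _ _ _ (halt i j hij)) _ _
        (D.cont _ (hadj i)) (D.cont _ (hadj j)) (D.ends _ _ (hadj i)) (D.ends _ _ (hadj j))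
        (D.above _ (hadj i)) (D.above _ (hadj j))
-- END convex_of_half

theorem half_iff_convex {V : Type*} [Fintype V] (k : ℕ) (G : SimpleGraph V) :
    HalfPlaneQuasi k G ↔ ConvexQuasi k G :=
  ⟨convex_of_half k G, half_of_convex k G⟩

end Pool.Agent.Cqp
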