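import Mathlib
import Pool.Agent.Cqp.Main
import Pool.Agent.Cqp.Topo

set_option autoImplicit false

/-!
# NP-completeness for drawings in a half-plane with Jordan arcs
-/

namespace Pool.Agent.Cqp

open Pool.NPC Pool.Agent.MP_709f11_lc

/-- HALF-PLANE `k`-QUASI-PLANARITY as a set of bit strings (adjacency matrices) -/
def halfPlaneProblem (k : ℕ) : Set (List Bool) :=
  {s | ∃ (n : ℕ) (G : SimpleGraph (Fin n)), s = encodeGraph G ∧ HalfPlaneQuasi k G}

theorem halfPlaneProblem_eq (k : ℕ) : halfPlaneProblem k = convexProblem k := by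
  ext s
  constructor
  · rintro ⟨n, G, h1, h2⟩
    exact ⟨n, G, h1, (half_iff_convex k G).1 h2⟩
  · rintro ⟨n, G, h1, h2⟩
    exact ⟨n, G, h1, (half_iff_convex k G).2 h2⟩

theorem inNP_half : InNP (halfPlaneProblem 3) := by
  rw [halfPlaneProblem_eq]
  exact inNP_convex

theorem npHard_half : NPHard (halfPlaneProblem 3) := by
  rw [halfPlaneProblem_eq]
  exact npHard_convex

end Pool.Agent.Cqp
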